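import Pool.Agent.Lib.H9P.V0
import Pool.Agent.Lib.HUP.R12

/-!
# ASYP, chunk E1 (M): the exceptional character does not matter for most parameters
-/

open Finset Polynomial

namespace Pool.Agent.H9P

open Pool.Agent.Lib.H68T Pool.Agent.Lib.H18Q Pool.Agent.Lib.H59P Pool.Agent.Lib.H24P
open Pool.Agent.HUP

theorem e1_split {k : ℕ} (φ : Fin k → ℤ → ℤ) (Q : ℕ) (px : Ch) :
    SSf (pr Q) φ = SSf ((pr Q).filter (fun l => l ∣ px.1)) φ * SSf ((pr Q).filter (fun l => ¬ l ∣ px.1)) φ := by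
  unfold SSf
  exact (Finset.prod_filter_mul_prod_filter_not (pr Q) (fun l => l ∣ px.1)
      (fun l => 1 + tpf l φ)).symm

theorem e1_filter (Q : ℕ) (px : Ch) (hpx : px ∈ PC Q) : (pr Q).filter (fun l => l ∣ px.1) = px.1.primeFactors := by
  have hpc := mem_PC.mp hpx
  have hr : 0 < px.1 := hpc.1
  ext l
  rw [Finset.mem_filter, p5_mem_pr, Nat.mem_primeFactors]
  constructor
  · rintro ⟨⟨h1, _⟩, h3⟩
    exact ⟨h1, h3, hr.ne'⟩
  · rintro ⟨h1, h3, _⟩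
    exact ⟨⟨h1, (Nat.le_of_dvd hr h3).trans hpc.2.1⟩, h3⟩

/-- One system. Proof. `p5_X2a` (`H24P/P5.lean`): `PMf = ∑_{Bs} ∏_{Bs} (-th) MRf(pB px Bs) SSf(l ∤ r)`; the term `Bs = ∅` is `MQf Q (p0, …)`, i.e. `SSf (pr Q) φ` (`P3_SS`; in the proof of `p5_X2a`:
`MRf (pB px B) px.1 φ * SSf … = MQf Q (pB px B) φ`, `P3_M5`). `SSf (pr Q) = SSf (pr Q, l ∣ r) SSf (pr Q, l ∤ r)`. -/
theorem E1_one {k : ℕ} (φ : Fin k → ℤ → ℤ) (hφ : Cp φ) (Q : ℕ) (px : Ch) (hpx : px ∈ PC Q) (hreal : px.2 ^ 2 = 1)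
    (th : Fin k → ℝ) (th0 : ℝ) (h0 : ∀ i, 0 ≤ th i) (h1 : ∀ i, th i ≤ th0) (ht : th0 ≤ 1) (s : ℝ) (hs : 0 < s)
    (hs1 : s ≤ SSf ((pr Q).filter (fun l => l ∣ px.1)) φ) :
    |PMf Q px th φ - SSf (pr Q) φ| ≤ th0 / s * SSf (pr Q) φ *
      ∑ Bs ∈ (univ : Finset (Fin k)).powerset.filter (fun Bs => Bs.Nonempty), ‖MRf (pB px Bs) px.1 φ‖ := by
  classical
  have hpc := mem_PC.mp hpx
  have hr : 0 < px.1 := hpc.1
  rw [e1_split φ Q px]
  rw [e1_filter Q px hpx] at hs1 ⊢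
  set S : ℝ := SSf px.1.primeFactors φ with hS
  set S' : ℝ := SSf ((pr Q).filter (fun l => ¬ l ∣ px.1)) φ with hS'
  have hS'0 : 0 ≤ S' := p5_SS_nonneg _ (fun l hl => (p5_mem_pr.mp (Finset.mem_filter.mp hl).1).1) φ
  have hempty : MRf (pB px (∅ : Finset (Fin k))) px.1 φ = ((S : ℝ) : ℂ) := by
    have h1 : (pB px (∅ : Finset (Fin k))) = fun _ => p0 := by
      funext i
      simp [pB]
    rw [h1]
    exact P3_loc φ hφ px.1 hr
  have hX := p5_X2a φ hφ Q px hpx hreal th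
  set E : Finset (Fin k) → ℂ := fun B => ((∏ i ∈ B, -(th i) : ℝ) : ℂ) * MRf (pB px B) px.1 φ with hE
  have hX' : ((PMf Q px th φ : ℝ) : ℂ) = (∑ B ∈ (univ : Finset (Fin k)).powerset, E B) * (S' : ℂ) := by
    rw [hX, Finset.sum_mul]
    refine Finset.sum_congr rfl fun B _ => ?_
    simp only [hE]
    ring
  have hne : (∅ : Finset (Fin k)) ∈ (univ : Finset (Fin k)).powerset := by simp
  rw [← Finset.add_sum_erase _ E hne] at hX'
  have hE0 : E ∅ = ((S : ℝ) : ℂ) := by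
    simp only [hE, Finset.prod_empty, hempty]
    simp
  rw [hE0] at hX'
  have hfil : (univ : Finset (Fin k)).powerset.erase ∅ =
      (univ : Finset (Fin k)).powerset.filter (fun Bs => Bs.Nonempty) := by
    ext B
    rw [Finset.mem_erase, Finset.mem_filter, Finset.nonempty_iff_ne_empty]
    exact and_comm
  rw [hfil] at hX'
  have hre : PMf Q px th φ - S * S' = (∑ B ∈ (univ : Finset (Fin k)).powerset.filter (fun Bs => Bs.Nonempty), E B).re * S' := by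
    have h1 := congrArg Complex.re hX'
    rw [Complex.ofReal_re, Complex.re_mul_ofReal, Complex.add_re, Complex.ofReal_re] at h1
    rw [h1]
    ring
  have hth0 : ∀ B ∈ (univ : Finset (Fin k)).powerset.filter (fun Bs => Bs.Nonempty), 0 ≤ th0 := by
    intro B hB
    obtain ⟨i, -⟩ := (Finset.mem_filter.mp hB).2
    exact (h0 i).trans (h1 i)
  have hbound : ‖∑ B ∈ (univ : Finset (Fin k)).powerset.filter (fun Bs => Bs.Nonempty), E B‖ ≤
      th0 * ∑ Bs ∈ (univ : Finset (Fin k)).powerset.filter (fun Bs => Bs.Nonempty), ‖MRf (pB px Bs) px.1 φ‖ := by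
    refine (norm_sum_le _ _).trans ?_
    rw [Finset.mul_sum]
    refine Finset.sum_le_sum fun B hB => ?_
    have hB0 := hth0 B hB
    obtain ⟨i, hi⟩ := (Finset.mem_filter.mp hB).2
    simp only [hE]
    rw [norm_mul, Complex.norm_real]
    refine mul_le_mul_of_nonneg_right ?_ (norm_nonneg _)
    rw [norm_prod, ← Finset.mul_prod_erase B _ hi]
    have h2 : ∏ j ∈ B.erase i, ‖(-(th j) : ℝ)‖ ≤ 1 := by
      refine Finset.prod_le_one (fun i _ => norm_nonneg _) fun j _ => ?_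
      rw [norm_neg, Real.norm_eq_abs, abs_of_nonneg (h0 j)]
      exact (h1 j).trans ht
    have h3 : ‖(-(th i) : ℝ)‖ ≤ th0 := by
      rw [norm_neg, Real.norm_eq_abs, abs_of_nonneg (h0 i)]
      exact h1 i
    calc ‖(-(th i) : ℝ)‖ * ∏ j ∈ B.erase i, ‖(-(th j) : ℝ)‖ ≤ th0 * 1 :=
          mul_le_mul h3 h2 (Finset.prod_nonneg fun j _ => norm_nonneg _) hB0
      _ = th0 := mul_one _
  rw [hre, abs_mul, abs_of_nonneg hS'0]
  have h5 := (Complex.abs_re_le_norm (∑ B ∈ (univ : Finset (Fin k)).powerset.filter (fun Bs => Bs.Nonempty), E B)).trans hbound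
  refine (mul_le_mul_of_nonneg_right h5 hS'0).trans ?_
  set M : ℝ := ∑ Bs ∈ (univ : Finset (Fin k)).powerset.filter (fun Bs => Bs.Nonempty), ‖MRf (pB px Bs) px.1 φ‖ with hM
  have hthM : 0 ≤ th0 * M := (norm_nonneg _).trans hbound
  have h6 : 1 ≤ S / s := (one_le_div hs).2 hs1
  calc th0 * M * S' ≤ th0 * M * S' * (S / s) := le_mul_of_one_le_right (mul_nonneg hthM hS'0) h6
    _ = th0 / s * (S * S') * M := by ring

theorem e1_log (x : ℝ) : ∃ Q0 : ℕ, 1 ≤ Q0 ∧ ∀ Q : ℕ, Q0 ≤ Q → x ≤ Real.log Q := by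
  have h := (Real.tendsto_log_atTop.comp tendsto_natCast_atTop_atTop).eventually_ge_atTop x
  obtain ⟨N, hN⟩ := Filter.eventually_atTop.1 h
  exact ⟨N + 1, by omega, fun Q hQ => hN Q (by omega)⟩

theorem e1_exp (W a c3 ε : ℝ) (hc3 : 0 < c3) (hε : 0 < ε) : ∃ Q0 : ℕ, 1 ≤ Q0 ∧ ∀ Q : ℕ, Q0 ≤ Q →
    W * (Real.log Q) ^ a * Real.exp (-(c3 * (Real.log Q) ^ (2 / 5 : ℝ))) ≤ ε := by
  have h1 : Filter.Tendsto (fun x : ℝ => x ^ (5 / 2 * a) * Real.exp (-c3 * x)) Filter.atTop (nhds 0) :=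
    tendsto_rpow_mul_exp_neg_mul_atTop_nhds_zero (5 / 2 * a) c3 hc3
  have h2 : Filter.Tendsto (fun Q : ℕ => (Real.log Q) ^ (2 / 5 : ℝ)) Filter.atTop Filter.atTop :=
    (tendsto_rpow_atTop (by norm_num : (0 : ℝ) < 2 / 5)).comp (Real.tendsto_log_atTop.comp tendsto_natCast_atTop_atTop)
  have h3 := (h1.comp h2).const_mul W
  rw [mul_zero] at h3
  have h4 := h3.eventually (Iio_mem_nhds hε)
  obtain ⟨N, hN⟩ := Filter.eventually_atTop.1 h4
  refine ⟨N + 1, by omega, fun Q hQ => ?_⟩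
  have h5 : W * (((Real.log Q) ^ (2 / 5 : ℝ)) ^ (5 / 2 * a) * Real.exp (-c3 * (Real.log Q) ^ (2 / 5 : ℝ))) < ε := hN Q (by omega)
  have hL : 0 ≤ Real.log Q := Real.log_natCast_nonneg Q
  have h6 : ((Real.log Q) ^ (2 / 5 : ℝ)) ^ (5 / 2 * a) = (Real.log Q) ^ a := by
    rw [← Real.rpow_mul hL]
    congr 1
    ring
  rw [h6, neg_mul, ← mul_assoc] at h5
  exact h5.le

theorem e1_gen {k : ℕ} (φ : Fin (k + 1) → ℤ → ℤ) (hφ : Cp φ) (Q : ℕ) (px : Ch) (hpx : px ∈ PC Q) (hreal : px.2 ^ 2 = 1)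
    (th : Fin (k + 1) → ℝ) (th0 : ℝ) (h0 : ∀ i, 0 ≤ th i) (h1 : ∀ i, th i ≤ th0) (ht : th0 ≤ 1) (s m ε : ℝ) (hs : 0 < s)
    (hs1 : s ≤ SSf px.1.primeFactors φ) (hm0 : 0 ≤ m)
    (hm : ∀ Bs : Finset (Fin (k + 1)), Bs.Nonempty → ‖MRf (pB px Bs) px.1 φ‖ ≤ m)
    (hε : th0 / s * (2 ^ (k + 1) * m) ≤ ε) :
    |PMf Q px th φ - SSf (pr Q) φ| ≤ ε * SSf (pr Q) φ := by
  have hth0 : 0 ≤ th0 := (h0 0).trans (h1 0)
  have hSS : 0 ≤ SSf (pr Q) φ := p5_SS_nonneg _ (fun l hl => (p5_mem_pr.mp hl).1) φ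
  have e1 := E1_one φ hφ Q px hpx hreal th th0 h0 h1 ht s hs (by rw [e1_filter Q px hpx]; exact hs1)
  refine e1.trans ?_
  have e2 : ∑ Bs ∈ (univ : Finset (Fin (k + 1))).powerset.filter (fun Bs => Bs.Nonempty), ‖MRf (pB px Bs) px.1 φ‖ ≤
      2 ^ (k + 1) * m := by
    refine (Finset.sum_le_sum fun Bs hBs => hm Bs (Finset.mem_filter.mp hBs).2).trans ?_
    rw [Finset.sum_const, nsmul_eq_mul]
    refine mul_le_mul_of_nonneg_right ?_ hm0
    have h3 : ((univ : Finset (Fin (k + 1))).powerset.filter (fun Bs => Bs.Nonempty)).card ≤ 2 ^ (k + 1) := by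
      refine (Finset.card_filter_le _ _).trans ?_
      rw [Finset.card_powerset, Finset.card_univ, Fintype.card_fin]
    exact_mod_cast h3
  have h4 : 0 ≤ th0 / s := div_nonneg hth0 hs.le
  calc th0 / s * SSf (pr Q) φ * ∑ Bs ∈ (univ : Finset (Fin (k + 1))).powerset.filter (fun Bs => Bs.Nonempty), ‖MRf (pB px Bs) px.1 φ‖
      ≤ th0 / s * SSf (pr Q) φ * (2 ^ (k + 1) * m) := mul_le_mul_of_nonneg_left e2 (mul_nonneg h4 hSS)
    _ = th0 / s * (2 ^ (k + 1) * m) * SSf (pr Q) φ := by ring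
    _ ≤ ε * SSf (pr Q) φ := mul_le_mul_of_nonneg_right hε hSS

theorem e1_crude {k : ℕ} (p : Fin (k + 1) → Ch) (R : ℕ) (hR : 0 < R) (φ : Fin (k + 1) → ℤ → ℤ) :
    ‖MRf p R φ‖ ≤ (R : ℝ) ^ (k + 1) := by
  refine (P0_MR p R hR φ).trans ?_
  have h1 : (1 : ℝ) ≤ (Nat.totient R : ℝ) := by exact_mod_cast Nat.totient_pos.2 hR
  refine pow_le_pow_left₀ (by positivity) ?_ _
  exact div_le_self (Nat.cast_nonneg _) h1

/-- **E1** (compare `R12_exc`, `HUP/R12.lean`). Proof. `E1_one` with `th0 = Q^(β-1)`, `s = c (1 + log r)^(-C)` (`X2_low` with `Q := r`: the primes dividing `r` are in `pr r`). Case `r ≤ (log Q)^(1/5)`: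
`‖MRf‖ ≤ r^(k+1)` (it is a mean of products of `uu r.primeFactors ≤ ∏_{l ∣ r} l/(l-1) ≤ r` and characters), `(1 - β) log Q ≥ c3 (log Q)/(r (1 + log r)^2) ≥ (log Q)^(1/2)` (`zero_lower`), so
`Q^(β-1) ≤ exp(-(log Q)^(1/2))` and everything is at most `ε SSf` for `Q` large: `Bad = ∅`. Case `r > (log Q)^(1/5)`: `Bad` = the `x ∈ S` with `‖MRf (pB px Bs) r (sys …)‖ > r^(-c/4)` for some nonempty `Bs`;
by `r12_ms` (and Chebyshev, `k1_cheb`) at most `2^(k+1) C (1 + log r)^C r^(-c/2) S.card ≤ S.card r^(-c/4) ≤ S.card (log Q)^(-c/20)`; outside `Bad` the error is at most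
`(1/c) (1 + log r)^C 2^(k+1) r^(-c/4) SSf ≤ ε SSf`. (`FGood` at `Q` is a hypothesis.) -/
theorem E1_main (k A E : ℕ) (hA : 1 ≤ A) (Cc cc : ℝ) (hC : FPar Cc cc) : ∃ c2 : ℝ, 0 < c2 ∧ ∀ ε : ℝ, 0 < ε →
    ∃ Q0 : ℕ, ∀ Q : ℕ, Q0 ≤ Q → ∀ B : ℤ[X], Lin A B → ∀ P : Fin k → ℤ[X], Pol A P →
    ∀ (r : ℕ) [NeZero r] (ψ : DirichletCharacter ℂ r) (β : ℝ), r ^ 100 ≤ Q → ψ.IsPrimitive →
    ψ ≠ 1 → ψ ^ 2 = 1 → β < 1 → ψ.LFunction (β : ℂ) = 0 →
    ∀ (ι : Type) (S : Finset ι) (g : ι → Fin k → ℕ), FGood E Cc cc Q P S g →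
    ∃ Bad : Finset ι, Bad ⊆ S ∧ (Bad.card : ℝ) ≤ S.card * (Real.log Q) ^ (-c2) ∧
      ∀ x ∈ S, x ∉ Bad → NoFix (sys B P (g x)) → ∀ th' : Fin (k + 1) → ℝ, (∀ i, 0 ≤ th' i) →
        (∀ i, th' i ≤ (Q : ℝ) ^ (β - 1)) →
        |PMf Q ⟨r, ψ⟩ th' (sys B P (g x)) - SSf (pr Q) (sys B P (g x))| ≤ ε * SSf (pr Q) (sys B P (g x)) := by
  classical
  obtain ⟨C, c, hC1, hc, hlow⟩ := X2_low k A hA
  obtain ⟨CC, cc', hCC, hcc, HH⟩ := r12_ms k A E hA Cc cc hC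
  obtain ⟨c3, hc3, hz⟩ := zero_lower
  refine ⟨cc' / 20, by positivity, fun ε hε => ?_⟩
  obtain ⟨R1, hR11, hR1⟩ := G1_rlog (2 ^ (k + 1) / (c * ε)) C (cc' / 4) (by positivity)
  obtain ⟨R2, hR21, hR2⟩ := G1_rlog (2 ^ (k + 1) * CC) CC (cc' / 4) (by positivity)
  obtain ⟨Q1, hQ11, hQ1⟩ := e1_exp (2 ^ (k + 1) / c) (C + (k + 1)) c3 ε hc3 hε
  obtain ⟨Q2, hQ21, hQ2⟩ := e1_log (((R1 : ℝ) + R2 + 2) ^ 5)
  refine ⟨Q1 + Q2 + 2, ?_⟩
  intro Q hQ B hB P hP r _ ψ β hrQ hprim hψ1 hψ2 hβ hL ι S g hG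
  have e1 := hQ1 Q (by omega)
  have e2 := hQ2 Q (by omega)
  have hr0 : r ≠ 0 := NeZero.ne r
  have hr2 : 2 ≤ r := by
    by_contra hcon
    have h1 : r = 1 := by
      have := Nat.pos_of_ne_zero hr0
      omega
    subst h1
    exact hψ1 (DirichletCharacter.level_one ψ)
  have hrQ' : r ≤ Q := (Nat.le_self_pow (by norm_num) r).trans hrQ
  have hpx : (⟨r, ψ⟩ : Ch) ∈ PC Q := mem_PC.mpr ⟨(by omega : 1 ≤ r), hrQ', hprim⟩
  have hq1 : (1 : ℝ) ≤ Q := by exact_mod_cast (by omega : 1 ≤ Q)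
  have hq0 : (0 : ℝ) < Q := by linarith
  have hr1 : (1 : ℝ) ≤ r := by exact_mod_cast (by omega : 1 ≤ r)
  have hr0' : (0 : ℝ) < r := by linarith
  have hlr0 : 0 ≤ Real.log r := Real.log_nonneg hr1
  have hL1 : 1 ≤ Real.log Q := by
    refine le_trans ?_ e2
    refine one_le_pow₀ ?_
    have h1 : (0 : ℝ) ≤ R1 := Nat.cast_nonneg _
    have h2 : (0 : ℝ) ≤ R2 := Nat.cast_nonneg _
    linarith
  have hL0 : 0 ≤ Real.log Q := by linarith
  have hth1 : (Q : ℝ) ^ (β - 1) ≤ 1 := Real.rpow_le_one_of_one_le_of_nonpos hq1 (by linarith)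
  have hth0 : 0 ≤ (Q : ℝ) ^ (β - 1) := Real.rpow_nonneg hq0.le _
  have hlp : 0 < (1 + Real.log r) ^ C := Real.rpow_pos_of_pos (by linarith) _
  have hs : 0 < c * (1 + Real.log r) ^ (-C) := mul_pos hc (Real.rpow_pos_of_pos (by linarith) _)
  have hsub : r.primeFactors ⊆ pr r := by
    intro l hl
    refine p5_mem_pr.mpr ⟨Nat.prime_of_mem_primeFactors hl, ?_⟩
    exact Nat.le_of_dvd (by omega) (Nat.dvd_of_mem_primeFactors hl)
  by_cases hcase : (r : ℝ) ≤ (Real.log Q) ^ (1 / 5 : ℝ)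
  · refine ⟨∅, Finset.empty_subset _, ?_, ?_⟩
    · rw [Finset.card_empty, Nat.cast_zero]
      exact mul_nonneg (Nat.cast_nonneg _) (Real.rpow_nonneg hL0 _)
    intro x hh _ hN th' h0 h1'
    have f1 := hlow B hB P hP (g x) hN r hr2 r.primeFactors hsub
    refine e1_gen (sys B P (g x)) (P2_sys B P (g x)) Q ⟨r, ψ⟩ hpx hψ2 th' ((Q : ℝ) ^ (β - 1)) h0 h1' hth1
      (c * (1 + Real.log r) ^ (-C)) ((r : ℝ) ^ (k + 1)) ε hs f1 (by positivity)
      (fun Bs _ => e1_crude _ r (by omega) _) ?_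
    have hLr : (r : ℝ) ≤ Real.log Q := by
      refine hcase.trans ?_
      calc (Real.log Q) ^ (1 / 5 : ℝ) ≤ (Real.log Q) ^ (1 : ℝ) :=
            Real.rpow_le_rpow_of_exponent_le hL1 (by norm_num)
        _ = Real.log Q := Real.rpow_one _
    have g0 : 1 + Real.log r ≤ r := by
      have := Real.log_le_sub_one_of_pos hr0'
      linarith
    have g1 : (r : ℝ) * (1 + Real.log r) ^ 2 ≤ (Real.log Q) ^ (3 / 5 : ℝ) := by
      calc (r : ℝ) * (1 + Real.log r) ^ 2 ≤ (r : ℝ) * (r : ℝ) ^ 2 := by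
            refine mul_le_mul_of_nonneg_left ?_ hr0'.le
            exact pow_le_pow_left₀ (by linarith) g0 2
        _ = (r : ℝ) ^ 3 := by ring
        _ ≤ ((Real.log Q) ^ (1 / 5 : ℝ)) ^ 3 := pow_le_pow_left₀ hr0'.le hcase 3
        _ = (Real.log Q) ^ (3 / 5 : ℝ) := by
            rw [← Real.rpow_natCast, ← Real.rpow_mul hL0]
            norm_num
    have hL35 : 0 < (Real.log Q) ^ (3 / 5 : ℝ) := Real.rpow_pos_of_pos (by linarith) _
    have g2 : c3 * (Real.log Q) ^ (2 / 5 : ℝ) ≤ (1 - β) * Real.log Q := by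
      have h1 : c3 / (Real.log Q) ^ (3 / 5 : ℝ) ≤ 1 - β := by
        refine le_trans ?_ (hz r ψ hψ1 hψ2 β hβ hL)
        exact div_le_div_of_nonneg_left hc3.le (by positivity) g1
      have h2 : Real.log Q = (Real.log Q) ^ (3 / 5 : ℝ) * (Real.log Q) ^ (2 / 5 : ℝ) := by
        rw [← Real.rpow_add (by linarith)]
        norm_num
      have h3 := mul_le_mul_of_nonneg_right h1 hL0
      refine le_trans (le_of_eq ?_) h3
      calc c3 * (Real.log Q) ^ (2 / 5 : ℝ) = c3 / (Real.log Q) ^ (3 / 5 : ℝ) * ((Real.log Q) ^ (3 / 5 : ℝ) * (Real.log Q) ^ (2 / 5 : ℝ)) := by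
            field_simp
        _ = c3 / (Real.log Q) ^ (3 / 5 : ℝ) * Real.log Q := by rw [← h2]
    have g3 : (Q : ℝ) ^ (β - 1) ≤ Real.exp (-(c3 * (Real.log Q) ^ (2 / 5 : ℝ))) := by
      rw [Real.rpow_def_of_pos hq0]
      refine Real.exp_le_exp.2 ?_
      linarith
    have g4 : (1 + Real.log r) ^ C ≤ (Real.log Q) ^ C :=
      Real.rpow_le_rpow (by linarith) (g0.trans hLr) (by linarith)
    have g5 : (r : ℝ) ^ (k + 1) ≤ (Real.log Q) ^ (k + 1) := pow_le_pow_left₀ hr0'.le hLr _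
    have hLC : 0 ≤ (Real.log Q) ^ C := Real.rpow_nonneg hL0 _
    calc (Q : ℝ) ^ (β - 1) / (c * (1 + Real.log r) ^ (-C)) * (2 ^ (k + 1) * (r : ℝ) ^ (k + 1))
        = (Q : ℝ) ^ (β - 1) * (1 + Real.log r) ^ C * (2 ^ (k + 1) / c) * (r : ℝ) ^ (k + 1) := by
          rw [Real.rpow_neg (by linarith)]
          field_simp
      _ ≤ Real.exp (-(c3 * (Real.log Q) ^ (2 / 5 : ℝ))) * (Real.log Q) ^ C * (2 ^ (k + 1) / c) * (Real.log Q) ^ (k + 1) := by
          gcongr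
      _ = 2 ^ (k + 1) / c * ((Real.log Q) ^ C * (Real.log Q) ^ (k + 1)) * Real.exp (-(c3 * (Real.log Q) ^ (2 / 5 : ℝ))) := by
          ring
      _ = 2 ^ (k + 1) / c * (Real.log Q) ^ (C + ((k : ℝ) + 1)) * Real.exp (-(c3 * (Real.log Q) ^ (2 / 5 : ℝ))) := by
          rw [Real.rpow_add (by linarith)]
          congr 3
          rw [← Real.rpow_natCast]
          push_cast
          rfl
      _ ≤ ε := e1
  · have hcase' : (Real.log Q) ^ (1 / 5 : ℝ) < r := not_le.mp hcase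
    have hbig : (R1 : ℝ) + R2 + 2 < r := by
      refine lt_of_le_of_lt ?_ hcase'
      have h1 : (0 : ℝ) ≤ (R1 : ℝ) + R2 + 2 := by positivity
      calc (R1 : ℝ) + R2 + 2 = (((R1 : ℝ) + R2 + 2) ^ 5) ^ (1 / 5 : ℝ) := by
            rw [← Real.rpow_natCast, ← Real.rpow_mul h1]
            norm_num
        _ ≤ (Real.log Q) ^ (1 / 5 : ℝ) := Real.rpow_le_rpow (by positivity) e2 (by norm_num)
    have hbigN : R1 + R2 + 2 < r := by exact_mod_cast hbig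
    have k1 := hR1 r (by omega)
    have k2 := hR2 r (by omega)
    set T : ℝ := (r : ℝ) ^ (-(cc' / 4)) with hT
    have hT0 : 0 < T := Real.rpow_pos_of_pos hr0' _
    set V : ℝ := CC * (1 + Real.log r) ^ CC * S.card * (r : ℝ) ^ (-cc') with hV
    set F : Finset (Fin (k + 1)) → ι → ℝ := fun Bs x =>
      ‖MRf (pB (⟨r, ψ⟩ : Ch) Bs) r (sys B P (g x))‖ with hF
    have hsum : ∀ Bs : Finset (Fin (k + 1)), Bs.Nonempty → ∑ x ∈ S, F Bs x ^ 2 ≤ V :=
      fun Bs hBs => HH B hB P hP Q ⟨r, ψ⟩ hpx hr2 Bs hBs ι S g hG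
    set NE : Finset (Finset (Fin (k + 1))) := (univ : Finset (Finset (Fin (k + 1)))).filter
      (fun Bs => Bs.Nonempty) with hNE
    refine ⟨NE.biUnion fun Bs => S.filter fun h => T < F Bs h, ?_, ?_, ?_⟩
    · exact Finset.biUnion_subset.mpr fun Bs _ => Finset.filter_subset _ _
    · have g1 : (((NE.biUnion fun Bs => S.filter fun h => T < F Bs h).card : ℕ) : ℝ) ≤
          2 ^ (k + 1) * (V / T ^ 2) := by
        have g2 : (((NE.biUnion fun Bs => S.filter fun h => T < F Bs h).card : ℕ) : ℝ) ≤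
            ∑ Bs ∈ NE, (((S.filter fun h => T < F Bs h).card : ℕ) : ℝ) := by
          exact_mod_cast Finset.card_biUnion_le
        have g3 : ∑ Bs ∈ NE, (((S.filter fun h => T < F Bs h).card : ℕ) : ℝ) ≤
            ∑ _Bs ∈ NE, V / T ^ 2 := by
          refine Finset.sum_le_sum fun Bs hBs => ?_
          have hne : Bs.Nonempty := (Finset.mem_filter.mp hBs).2
          exact k1_cheb S (F Bs) T V hT0 (hsum Bs hne) (fun h => norm_nonneg _)
        have hV0 : 0 ≤ V / T ^ 2 := by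
          have : 0 ≤ V := by
            have h1 : 0 ≤ (1 + Real.log r) ^ CC := Real.rpow_nonneg (by linarith) _
            have h2 : 0 ≤ (r : ℝ) ^ (-cc') := Real.rpow_nonneg (by linarith) _
            rw [hV]
            positivity
          positivity
        have g4 : ∑ _Bs ∈ NE, V / T ^ 2 ≤ 2 ^ (k + 1) * (V / T ^ 2) := by
          rw [Finset.sum_const, nsmul_eq_mul]
          refine mul_le_mul_of_nonneg_right ?_ hV0
          have h1 : NE.card ≤ 2 ^ (k + 1) := by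
            refine (Finset.card_le_univ _).trans ?_
            rw [Fintype.card_finset, Fintype.card_fin]
          exact_mod_cast h1
        exact (g2.trans g3).trans g4
      refine g1.trans ?_
      have hT2 : (T ^ 2)⁻¹ = (r : ℝ) ^ (cc' / 2) := by
        rw [hT, ← Real.rpow_natCast, ← Real.rpow_mul hr0'.le, ← Real.rpow_neg hr0'.le]
        congr 1
        push_cast
        ring
      have hT3 : (r : ℝ) ^ (cc' / 4) * ((r : ℝ) ^ (-cc') * (r : ℝ) ^ (cc' / 2)) = (r : ℝ) ^ (-(cc' / 4)) := by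
        rw [← Real.rpow_add hr0', ← Real.rpow_add hr0']
        congr 1
        ring
      have hT4 : (r : ℝ) ^ (-(cc' / 4)) ≤ (Real.log Q) ^ (-(cc' / 20)) := by
        calc (r : ℝ) ^ (-(cc' / 4)) ≤ ((Real.log Q) ^ (1 / 5 : ℝ)) ^ (-(cc' / 4)) :=
              Real.rpow_le_rpow_of_nonpos (Real.rpow_pos_of_pos (by linarith) _) hcase'.le (by linarith)
          _ = (Real.log Q) ^ (-(cc' / 20)) := by
              rw [← Real.rpow_mul hL0]
              congr 1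
              ring
      have hpos : 0 ≤ (r : ℝ) ^ (-cc') * (r : ℝ) ^ (cc' / 2) :=
        mul_nonneg (Real.rpow_nonneg hr0'.le _) (Real.rpow_nonneg hr0'.le _)
      calc 2 ^ (k + 1) * (V / T ^ 2) = S.card * ((2 ^ (k + 1) * CC * (1 + Real.log r) ^ CC) *
            ((r : ℝ) ^ (-cc') * (r : ℝ) ^ (cc' / 2))) := by
            rw [div_eq_mul_inv, hT2, hV]
            ring
        _ ≤ S.card * ((r : ℝ) ^ (cc' / 4) * ((r : ℝ) ^ (-cc') * (r : ℝ) ^ (cc' / 2))) :=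
            mul_le_mul_of_nonneg_left (mul_le_mul_of_nonneg_right k2 hpos) (Nat.cast_nonneg _)
        _ = S.card * (r : ℝ) ^ (-(cc' / 4)) := by rw [hT3]
        _ ≤ S.card * (Real.log Q) ^ (-(cc' / 20)) := mul_le_mul_of_nonneg_left hT4 (Nat.cast_nonneg _)
    · intro x hh hbad hN th' h0 h1'
      have g1 : ∀ Bs : Finset (Fin (k + 1)), Bs.Nonempty → F Bs x ≤ T := by
        intro Bs hBs
        by_contra hcon
        refine hbad (Finset.mem_biUnion.mpr ⟨Bs, ?_, ?_⟩)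
        · exact Finset.mem_filter.mpr ⟨Finset.mem_univ _, hBs⟩
        · exact Finset.mem_filter.mpr ⟨hh, not_le.mp hcon⟩
      have f1 := hlow B hB P hP (g x) hN r hr2 r.primeFactors hsub
      refine e1_gen (sys B P (g x)) (P2_sys B P (g x)) Q ⟨r, ψ⟩ hpx hψ2 th' ((Q : ℝ) ^ (β - 1)) h0 h1' hth1
        (c * (1 + Real.log r) ^ (-C)) T ε hs f1 hT0.le g1 ?_
      have hTi : T * (r : ℝ) ^ (cc' / 4) = 1 := by
        rw [hT, ← Real.rpow_add hr0']
        norm_num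
      have k3 : 2 ^ (k + 1) / (c * ε) * (1 + Real.log r) ^ C * T ≤ 1 := by
        calc 2 ^ (k + 1) / (c * ε) * (1 + Real.log r) ^ C * T ≤ (r : ℝ) ^ (cc' / 4) * T :=
              mul_le_mul_of_nonneg_right k1 hT0.le
          _ = 1 := by rw [mul_comm, hTi]
      calc (Q : ℝ) ^ (β - 1) / (c * (1 + Real.log r) ^ (-C)) * (2 ^ (k + 1) * T)
          ≤ 1 / (c * (1 + Real.log r) ^ (-C)) * (2 ^ (k + 1) * T) := by
            gcongr
        _ = ε * (2 ^ (k + 1) / (c * ε) * (1 + Real.log r) ^ C * T) := by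
            rw [Real.rpow_neg (by linarith)]
            field_simp
        _ ≤ ε * 1 := mul_le_mul_of_nonneg_left k3 hε.le
        _ = ε := mul_one _

end Pool.Agent.H9P
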