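import Pool.Agent.Lib.H9P.V0
import Pool.Agent.Lib.H24P.Z3
import Pool.Agent.Lib.H24P.P2

/-!
# ASYP, chunk E2 (M): the main term of a cell with an exceptional character
-/

open Finset Polynomial

namespace Pool.Agent.H9P

open Pool.Agent.Lib.H68T Pool.Agent.Lib.H18Q Pool.Agent.Lib.H59P Pool.Agent.Lib.H24P
open Pool.Agent.HUP

theorem e2_C2 {k : ℕ} (a b : Fin k → ℝ) (η E0 : ℝ) (hη : 0 < η) (hE0 : 0 ≤ E0)
    (ha : ∀ i, η ≤ a i) (hb0 : ∀ i, 0 ≤ b i) (hb : ∀ i, b i ≤ η * E0) :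
    ∏ i, (a i + b i) - ∏ i, a i ≤ ((1 + E0) ^ k - 1) * ∏ i, a i := by
  have ha0 : ∀ i, 0 ≤ a i := fun i => hη.le.trans (ha i)
  have h1 : ∏ i, (a i + b i) ≤ ∏ i, (a i * (1 + E0)) := by
    refine Finset.prod_le_prod (fun i _ => add_nonneg (ha0 i) (hb0 i)) fun i _ => ?_
    have h1 := mul_le_mul_of_nonneg_right (ha i) hE0
    have h2 := hb i
    linarith
  have h2 : ∏ i : Fin k, (a i * (1 + E0)) = (∏ i, a i) * (1 + E0) ^ k := by
    rw [Finset.prod_mul_distrib, Finset.prod_const, Finset.card_univ, Fintype.card_fin]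
  rw [h2] at h1
  linarith

/-- the pointwise bound -/
theorem e2_pt {k : ℕ} (Q D1 m0 : ℕ) (hQ : 1 ≤ Q) (η E0 : ℝ) (px : Ch) (hpx : px ∈ PC Q)
    (hreal : px.2 ^ 2 = 1) (hm0 : px.1 ∣ m0) (hmpos : 0 < m0)
    (hcond : m0 ≤ D1) (hη : 0 < η) (hE0 : 0 ≤ E0) (th : Fin k → ℝ)
    (hth0 : ∀ i, 0 ≤ th i) (hth : ∀ i, th i ≤ 1 - η) (htriv : px = p0 → ∀ i, th i = 0)
    (e : Fin k → Ch → ℂ) (he : ∀ i, ∑ p ∈ PC Q, ‖e i p‖ ≤ η * E0) (m : Fin k → ℤ) :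
    ‖∑ p ∈ TSf k Q D1 m0, ∏ i, ((MX px (fun _ => th i) 0 (p i) + e i (p i)) * cj (p i) (m i)) -
      ((∏ i, (1 - th i * (cj px (m i)).re) : ℝ) : ℂ)‖ ≤ ((1 + E0) ^ k - 1) * ∏ i, (1 - th i * (cj px (m i)).re) := by
  classical
  have ha : ∀ i, η ≤ 1 - th i * (cj px (m i)).re := by
    intro i
    have h1 := (abs_le.mp (C3a px hreal (m i)).2).2
    have h2 := mul_le_mul_of_nonneg_left h1 (hth0 i)
    have h3 := hth i
    linarith
  have ha0 : ∀ i, 0 ≤ 1 - th i * (cj px (m i)).re := fun i => hη.le.trans (ha i)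
  have hsum : ∀ i, ∑ p ∈ PC Q, MX px (fun _ => th i) 0 p * cj p (m i) =
      ((1 - th i * (cj px (m i)).re : ℝ) : ℂ) := fun i =>
    c3_sumA Q hQ px hpx (th i) (fun h => htriv h i) hreal (m i)
  have hC1 := C1 (PC Q) ({p0, px} : Finset Ch) (fun p : Fin k → Ch => m0.lcm (univ.lcm fun i => (p i).1) ≤ D1)
    (fun i p => MX px (fun _ => th i) 0 p * cj p (m i)) (fun i p => e i p * cj p (m i)) ?_ ?_ ?_
  rotate_left
  · intro i p _ hne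
    rw [Finset.mem_insert, Finset.mem_singleton, not_or] at hne
    have h0 : MX px (fun _ => th i) 0 p = 0 := by
      simp only [MX]
      rw [if_neg hne.1, if_neg hne.2]
    show MX px (fun _ => th i) 0 p * cj p (m i) = 0
    rw [h0, zero_mul]
  · intro J p p' h1 h2 h3
    have k1 := p4_lcm px m0 hm0 J p p' h1 (fun i hi => by simpa using h2 i hi)
    have k2 := p4_lcm px m0 hm0 J p' p (fun i hi => (h1 i hi).symm) (fun i hi => by simpa using h3 i hi)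
    show m0.lcm (univ.lcm fun i => (p i).1) ≤ D1 ↔ m0.lcm (univ.lcm fun i => (p' i).1) ≤ D1
    rw [Nat.dvd_antisymm k1 k2]
  · intro p hp
    have k1 := p4_lcm px m0 hm0 ∅ p (fun _ => p0) (fun i hi => by simp at hi) (fun i _ => by simpa using hp i)
    have k2 : m0.lcm (univ.lcm fun i : Fin k => ((fun _ => p0 : Fin k → Ch) i).1) ∣ m0 := by
      refine Nat.lcm_dvd dvd_rfl (Finset.lcm_dvd fun i _ => ?_)
      exact one_dvd _
    exact (Nat.le_of_dvd hmpos (k1.trans k2)).trans hcond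
  have e1 : ∀ p : Fin k → Ch, ∏ i, ((MX px (fun _ => th i) 0 (p i) + e i (p i)) * cj (p i) (m i)) =
      ∏ i, (MX px (fun _ => th i) 0 (p i) * cj (p i) (m i) + e i (p i) * cj (p i) (m i)) := fun p =>
    Finset.prod_congr rfl fun i _ => by ring
  have e2 : ∏ i, ∑ p ∈ PC Q, MX px (fun _ => th i) 0 p * cj p (m i) =
      ((∏ i, (1 - th i * (cj px (m i)).re) : ℝ) : ℂ) := by
    rw [Complex.ofReal_prod]
    exact Finset.prod_congr rfl fun i _ => hsum i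
  have e3 : ∀ i, ‖∑ p ∈ PC Q, MX px (fun _ => th i) 0 p * cj p (m i)‖ = 1 - th i * (cj px (m i)).re := by
    intro i
    rw [hsum i, Complex.norm_real, Real.norm_eq_abs, abs_of_nonneg (ha0 i)]
  have hC2 := e2_C2 (fun i => 1 - th i * (cj px (m i)).re) (fun i => ∑ p ∈ PC Q, ‖e i p * cj p (m i)‖) η E0 hη hE0 ha
    (fun i => Finset.sum_nonneg fun _ _ => norm_nonneg _) (fun i => ?_)
  swap
  · refine (Finset.sum_le_sum fun p _ => ?_).trans (he i)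
    rw [norm_mul]
    exact mul_le_of_le_one_right (norm_nonneg _) (c3_cj_norm p (m i))
  simp only [e3] at hC1
  rw [e2] at hC1
  unfold TSf
  simp only [e1]
  exact hC1.trans hC2

/-- Copy of `P4_C3` (`H24P/P4.lean`; its pointwise part is a copy of `c3_pt`, `H59P/C3.lean`) without the hypothesis `4 k E0 ≤ 1`: instead of `C2` use
`∏ (x_i + y_i) - ∏ x_i ≤ ((1 + E0)^k - 1) ∏ x_i` for `0 ≤ y_i ≤ η E0 ≤ E0 x_i`. -/
theorem E2_C3 {k : ℕ} (φ : Fin k → ℤ → ℤ) (Q D1 m0 : ℕ) (hQ : 1 ≤ Q) (η E0 : ℝ) (px : Ch)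
    (hpx : px ∈ PC Q) (hreal : px.2 ^ 2 = 1) (hm0 : px.1 ∣ m0) (hm : 0 < m0) (hcond : m0 ≤ D1)
    (hη : 0 < η) (hE0 : 0 ≤ E0) (th : Fin k → ℝ)
    (hth0 : ∀ i, 0 ≤ th i) (hth : ∀ i, th i ≤ 1 - η) (htriv : px = p0 → ∀ i, th i = 0)
    (e : Fin k → Ch → ℂ) (he : ∀ i, ∑ p ∈ PC Q, ‖e i p‖ ≤ η * E0) :
    ‖∑ p ∈ TSf k Q D1 m0, (∏ i, (MX px (fun _ => th i) 0 (p i) + e i (p i))) * MQf Q p φ -
      ((PMf Q px th φ : ℝ) : ℂ)‖ ≤ ((1 + E0) ^ k - 1) * PMf Q px th φ := by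
  have hQ0 : (0 : ℝ) < (Q.factorial : ℝ) := by exact_mod_cast Nat.factorial_pos Q
  have hU : ∀ n : ℤ, 0 ≤ ∏ i : Fin k, uu (pr Q) (φ i n) := fun n =>
    Finset.prod_nonneg fun i _ => M3a_uu_nonneg _ (c3_pr Q) _
  have h1 : ∑ p ∈ TSf k Q D1 m0, (∏ i, (MX px (fun _ => th i) 0 (p i) + e i (p i))) * MQf Q p φ =
      (∑ n ∈ range Q.factorial, ((∏ i : Fin k, uu (pr Q) (φ i (n : ℤ)) : ℝ) : ℂ) *
        ∑ p ∈ TSf k Q D1 m0, ∏ i, ((MX px (fun _ => th i) 0 (p i) + e i (p i)) *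
          cj (p i) (φ i (n : ℤ)))) /
        ((Q.factorial : ℝ) : ℂ) := by
    unfold MQf
    rw [Finset.sum_div]
    simp only [Finset.mul_sum, Finset.sum_div, mul_div_assoc']
    rw [Finset.sum_comm]
    refine Finset.sum_congr rfl fun n _ => ?_
    refine Finset.sum_congr rfl fun p _ => ?_
    unfold Phf at'
    rw [Finset.prod_mul_distrib, Finset.prod_mul_distrib, Complex.ofReal_prod]
    push_cast
    ring
  have h2 : PMf Q px th φ = (∑ n ∈ range Q.factorial, (∏ i : Fin k, uu (pr Q) (φ i (n : ℤ))) *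
        ∏ i, (1 - th i * (cj px (φ i (n : ℤ))).re)) / (Q.factorial : ℝ) := by
    unfold PMf fPf at'
    congr 1
    refine Finset.sum_congr rfl fun n _ => ?_
    rw [Finset.prod_mul_distrib]
  rw [h1, h2]
  rw [Complex.ofReal_div, ← sub_div, norm_div, Complex.norm_real, Real.norm_eq_abs, abs_of_pos hQ0, mul_div_assoc']
  refine div_le_div_of_nonneg_right ?_ hQ0.le
  rw [Complex.ofReal_sum, ← Finset.sum_sub_distrib, Finset.mul_sum]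
  refine (norm_sum_le _ _).trans (Finset.sum_le_sum fun n _ => ?_)
  rw [Complex.ofReal_mul, ← mul_sub, norm_mul, Complex.norm_real, Real.norm_eq_abs, abs_of_nonneg (hU n)]
  have hpt := e2_pt Q D1 m0 hQ η E0 px hpx hreal hm0 hm hcond hη hE0 th hth0 hth htriv e he
    (fun i => φ i (n : ℤ))
  have := mul_le_mul_of_nonneg_left hpt (hU n)
  refine this.trans (le_of_eq ?_)
  ring

theorem e2_cell {k : ℕ} (Q m0 : ℕ) (hQ : 1 ≤ Q) (η E0 : ℝ) (px : Ch) (hpx : px ∈ PC Q)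
    (hreal : px.2 ^ 2 = 1) (hm0 : px.1 ∣ m0) (hm : 0 < m0) (hcond : m0 ≤ fl Q (1 / 16)) (hη : 0 < η)
    (hE0 : 0 ≤ E0) (φ : Fin k → ℤ → ℤ) (th : Fin k → ℝ) (hth0 : ∀ i, 0 ≤ th i)
    (hth : ∀ i, th i ≤ 1 - η) (htriv : px = p0 → ∀ i, th i = 0) (e c : Fin k → Ch → ℂ)
    (he : ∀ i, ∑ p ∈ PC Q, ‖e i p‖ ≤ η * E0)
    (hc : ∀ i p, c i p = MX px (fun _ => th i) 0 p + e i p) (ε : ℝ)
    (hP : |PMf Q px th φ - SSf (pr Q) φ| ≤ ε * SSf (pr Q) φ) :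
    ‖MDf Q m0 c φ - ((SSf (pr Q) φ : ℝ) : ℂ)‖ ≤ (((1 + E0) ^ k - 1) * (1 + ε) + ε) * SSf (pr Q) φ := by
  have z := E2_C3 φ Q (fl Q (1 / 16)) m0 hQ η E0 px hpx hreal hm0 hm hcond hη hE0 th hth0 hth htriv e he
  have hS : MDf Q m0 c φ = ∑ p ∈ TSf k Q (fl Q (1 / 16)) m0,
      (∏ i, (MX px (fun _ => th i) 0 (p i) + e i (p i))) * MQf Q p φ := by
    unfold MDf
    refine Finset.sum_congr rfl fun p _ => ?_
    congr 1
    exact Finset.prod_congr rfl fun i _ => hc i (p i)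
  rw [← hS] at z
  have h1 : ‖((PMf Q px th φ : ℝ) : ℂ) - ((SSf (pr Q) φ : ℝ) : ℂ)‖ ≤ ε * SSf (pr Q) φ := by
    rw [← Complex.ofReal_sub, Complex.norm_real, Real.norm_eq_abs]
    exact hP
  have h2 := norm_add_le (MDf Q m0 c φ - ((PMf Q px th φ : ℝ) : ℂ)) (((PMf Q px th φ : ℝ) : ℂ) - ((SSf (pr Q) φ : ℝ) : ℂ))
  have h3 : MDf Q m0 c φ - ((PMf Q px th φ : ℝ) : ℂ) + (((PMf Q px th φ : ℝ) : ℂ) - ((SSf (pr Q) φ : ℝ) : ℂ)) =
      MDf Q m0 c φ - ((SSf (pr Q) φ : ℝ) : ℂ) := by ring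
  rw [h3] at h2
  have h4 : PMf Q px th φ ≤ (1 + ε) * SSf (pr Q) φ := by
    have h5 := (abs_le.1 hP).2
    linarith
  have h5 : (0 : ℝ) ≤ (1 + E0) ^ k - 1 := by
    have h6 : (1 : ℝ) ≤ (1 + E0) ^ k := one_le_pow₀ (by linarith)
    linarith
  have h6 := mul_le_mul_of_nonneg_left h4 h5
  have h7 : (((1 + E0) ^ k - 1) * (1 + ε) + ε) * SSf (pr Q) φ =
      ((1 + E0) ^ k - 1) * ((1 + ε) * SSf (pr Q) φ) + ε * SSf (pr Q) φ := by ring
  rw [h7]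
  linarith

/-- **E2.** Proof. As `R15_main` (`HUP/R15.lean`, port of `Z3_main`, `Z3_cell`; `GeoV` instead of `Geo`) with `E2_C3` for every `n`: `MDf` is `PMf Q px (th at the base points) φ` up to `((1+E0)^(k+1) - 1) PMf`, and
by hypothesis `|PMf - SSf| ≤ ε SSf`. So the error for each `n` is at most `((1+E0)^(k+1) - 1)(1 + ε) SSf + ε SSf`. -/
theorem E2_main {k : ℕ} (P : Fin k → ℤ[X]) (A Q X X1 Y : ℕ) (hQ : 1 ≤ Q) (M : Fin k → ℕ) (B : ℤ[X])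
    (hG : GeoV Q X X1 P M) (hGB : GeoB A X X1 Y B) (η E0 : ℝ) (px : Ch)
    (th : ℤ → ℝ) (hpx : px ∈ PC Q) (hcond : B.leadingCoeff.natAbs * px.1 ≤ fl Q (1 / 16))
    (hMB : Mdl (Q ^ 100) Y η E0 px th) (hM : ∀ i, Mdl Q (Ysc (M i)) η E0 px th) (hE0 : 0 ≤ E0)
    (e0 : ℤ → Ch → ℂ) (eb0 : Ch → ℝ) (heb0 : ∀ p ∈ PC (Q ^ 100), 0 ≤ eb0 p)
    (hs0 : ∑ p ∈ PC (Q ^ 100), eb0 p ≤ η * E0)
    (he0 : ∀ m : ℤ, (Y : ℤ) ≤ m → m ≤ 4 * Y → ∀ p ∈ PC (Q ^ 100), ‖e0 m p‖ ≤ eb0 p)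
    (e : Fin k → ℤ → Ch → ℂ) (eb : Fin k → Ch → ℝ) (hs : ∀ i, ∑ p ∈ PC Q, eb i p ≤ η * E0)
    (he : ∀ i, ∀ m : ℤ, (Ysc (M i) : ℤ) ≤ m → m ≤ 4 * Ysc (M i) → ∀ p ∈ PC Q, ‖e i m p‖ ≤ eb i p)
    (h0 : Fin k → ℕ) (hh0 : h0 ∈ cub M M) (h : Fin k → ℕ) (ε th0 : ℝ) (hε : 0 ≤ ε)
    (hth1 : ∀ m : ℤ, (Y : ℤ) ≤ m → m ≤ 4 * Y → th m ≤ th0)
    (hth2 : ∀ i, ∀ m : ℤ, (Ysc (M i) : ℤ) ≤ m → m ≤ 4 * Ysc (M i) → th m ≤ th0)
    (hP : ∀ th' : Fin (k + 1) → ℝ, (∀ i, 0 ≤ th' i) → (∀ i, th' i ≤ th0) →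
      |PMf Q px th' (sys B P h) - SSf (pr Q) (sys B P h)| ≤ ε * SSf (pr Q) (sys B P h)) :
    ‖MZb Q X1 (B.leadingCoeff.natAbs * px.1) P B (fun m p => MX px th m p + e0 m p)
      (fun i m p => MX px th m p + e i m p) h0 h - ((X1 * SSf (pr Q) (sys B P h) : ℝ) : ℂ)‖ ≤
      X1 * ((((1 + E0) ^ (k + 1) - 1) * (1 + ε) + ε) * SSf (pr Q) (sys B P h)) := by
  have hX1 : 0 < X1 := hG.pos
  have hm0 : 0 < B.leadingCoeff.natAbs * px.1 := by
    refine Nat.mul_pos ?_ (mem_PC.1 hpx).1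
    rw [Int.natAbs_pos, leadingCoeff_ne_zero]
    intro h0
    have h1 := hGB.lin.deg
    rw [h0, natDegree_zero] at h1
    exact absurd h1 (by norm_num)
  have hQ8 : Q ^ 8 ∣ X1 := (pow_dvd_pow Q (by norm_num)).trans hG.dvd
  have hbs : ∀ (D N n : ℕ), D ∣ N → 0 < N → n ∈ Ico N (2 * N) → bs (N / D) n ∈ Ico N (2 * N) := by
    intro D N n hD hN hn
    rw [mem_Ico] at hn ⊢
    obtain ⟨q, rfl⟩ := hD
    have hD0 : 0 < D := Nat.pos_of_ne_zero (by rintro rfl; simp at hN)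
    have hq0 : 0 < q := Nat.pos_of_ne_zero (by rintro rfl; simp at hN)
    rw [Nat.mul_div_cancel_left q hD0]
    unfold bs
    constructor
    · have h1 : D ≤ n / q := by
        rw [Nat.le_div_iff_mul_le hq0]
        exact hn.1
      exact Nat.mul_le_mul_right q h1
    · exact lt_of_le_of_lt (Nat.div_mul_le_self n q) hn.2
  have hh' : ∀ i, h0 i ∈ Ico (M i) (2 * M i) := by
    intro i
    have h1 := Fintype.mem_piFinset.1 hh0 i
    rw [mem_Ico] at h1 ⊢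
    omega
  have hY : ∀ n ∈ Ico X1 (2 * X1), (Y : ℤ) ≤ B.eval ((bs (X1 / Q ^ 800) n : ℕ) : ℤ) ∧
      B.eval ((bs (X1 / Q ^ 800) n : ℕ) : ℤ) ≤ 4 * Y := by
    intro n hn
    have h1 := hbs _ X1 n hG.dvd hX1 hn
    have h2 := hGB.lo _ h1
    have h3 := hGB.hi _ h1
    exact ⟨h2, by linarith⟩
  have hYi : ∀ n ∈ Ico X1 (2 * X1), ∀ i, (Ysc (M i) : ℤ) ≤ (P i).eval ((bs (X1 / Q ^ 8) n : ℕ) : ℤ) + (h0 i : ℤ) ∧
      (P i).eval ((bs (X1 / Q ^ 8) n : ℕ) : ℤ) + (h0 i : ℤ) ≤ 4 * Ysc (M i) := by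
    intro n hn i
    have h1 := hbs _ X1 n hQ8 hX1 hn
    obtain ⟨h3, h4, -⟩ := G2_val (M i) _ _ ((Dvd.intro _ rfl : 8 ∣ 8 * Q ^ 8).trans (hG.dvdM i))
      (hG.small i _ h1) (hh' i)
    constructor
    · exact h3
    · have h5 : (0 : ℤ) ≤ Ysc (M i) := by positivity
      linarith
  have hsub : PC Q ⊆ PC (Q ^ 100) := by
    intro p hp
    rw [mem_PC] at hp ⊢
    exact ⟨hp.1, hp.2.1.trans (Nat.le_self_pow (by norm_num) Q), hp.2.2⟩
  have hcell : ∀ n ∈ Ico X1 (2 * X1), ‖MDf Q (B.leadingCoeff.natAbs * px.1)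
      (cfb Q X1 P B (fun m p => MX px th m p + e0 m p) (fun i m p => MX px th m p + e i m p) h0 n)
      (sys B P h) - ((SSf (pr Q) (sys B P h) : ℝ) : ℂ)‖ ≤ (((1 + E0) ^ (k + 1) - 1) * (1 + ε) + ε) * SSf (pr Q) (sys B P h) := by
    intro n hn
    obtain ⟨tv, htv⟩ : ∃ tv : Fin (k + 1) → ℝ, tv = Fin.cons (th (B.eval ((bs (X1 / Q ^ 800) n : ℕ) : ℤ)))
        (fun i => th ((P i).eval ((bs (X1 / Q ^ 8) n : ℕ) : ℤ) + (h0 i : ℤ))) := ⟨_, rfl⟩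
    have hv0 : ∀ i, 0 ≤ tv i := by
      intro i
      rw [htv]
      refine Fin.cases ?_ (fun i => ?_) i
      · rw [Fin.cons_zero]
        exact hMB.nonneg _ (hY n hn).1 (hY n hn).2
      · rw [Fin.cons_succ]
        exact (hM i).nonneg _ (hYi n hn i).1 (hYi n hn i).2
    have hv1 : ∀ i, tv i ≤ 1 - η := by
      intro i
      rw [htv]
      refine Fin.cases ?_ (fun i => ?_) i
      · rw [Fin.cons_zero]
        exact hMB.le _ (hY n hn).1 (hY n hn).2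
      · rw [Fin.cons_succ]
        exact (hM i).le _ (hYi n hn i).1 (hYi n hn i).2
    have hv2 : ∀ i, tv i ≤ th0 := by
      intro i
      rw [htv]
      refine Fin.cases ?_ (fun i => ?_) i
      · rw [Fin.cons_zero]
        exact hth1 _ (hY n hn).1 (hY n hn).2
      · rw [Fin.cons_succ]
        exact hth2 i _ (hYi n hn i).1 (hYi n hn i).2
    have hv3 : px = p0 → ∀ i, tv i = 0 := by
      intro hp0 i
      rw [htv]
      refine Fin.cases ?_ (fun i => ?_) i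
      · rw [Fin.cons_zero]
        exact hMB.triv hp0 _
      · rw [Fin.cons_succ]
        exact (hM i).triv hp0 _
    refine e2_cell (k := k + 1) Q (B.leadingCoeff.natAbs * px.1) hQ η E0 px hpx hMB.real
      (Dvd.intro_left _ rfl) hm0 hcond hMB.eta_pos hE0 (sys B P h) tv hv0 hv1 hv3
      (Fin.cons (e0 (B.eval ((bs (X1 / Q ^ 800) n : ℕ) : ℤ)))
        (fun i => e i ((P i).eval ((bs (X1 / Q ^ 8) n : ℕ) : ℤ) + (h0 i : ℤ)))) _ ?_ ?_ ε (hP tv hv0 hv2)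
    · intro i
      refine Fin.cases ?_ (fun i => ?_) i
      · simp only [Fin.cons_zero]
        refine (Finset.sum_le_sum fun p hp => he0 _ (hY n hn).1 (hY n hn).2 p (hsub hp)).trans ?_
        exact (Finset.sum_le_sum_of_subset_of_nonneg hsub fun p hp _ => heb0 p hp).trans hs0
      · simp only [Fin.cons_succ]
        exact (Finset.sum_le_sum fun p hp => he i _ (hYi n hn i).1 (hYi n hn i).2 p hp).trans (hs i)
    · intro i
      rw [htv]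
      refine Fin.cases ?_ (fun i => ?_) i
      · intro p
        rfl
      · intro p
        rfl
  unfold MZb
  have h1 := Finset.sum_le_sum hcell
  rw [Finset.sum_const, Nat.card_Ico, nsmul_eq_mul] at h1
  have h2 : 2 * X1 - X1 = X1 := by omega
  rw [h2] at h1
  have h3 : ((X1 * SSf (pr Q) (sys B P h) : ℝ) : ℂ) = ∑ n ∈ Ico X1 (2 * X1), ((SSf (pr Q) (sys B P h) : ℝ) : ℂ) := by
    rw [Finset.sum_const, Nat.card_Ico, h2, nsmul_eq_mul]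
    push_cast
    rfl
  rw [h3, ← Finset.sum_sub_distrib]
  exact (norm_sum_le _ _).trans h1

end Pool.Agent.H9P
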