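import Pool.Agent.Lib.H9P.U0
import Pool.Agent.Lib.HUP.R9

/-!
# ASYP, chunk U3 (M): `R9_main` with the geometry `GeoV`, uniformly in the polynomials
-/

open Finset Polynomial

namespace Pool.Agent.H9P

open Pool.Agent.Lib.H68T Pool.Agent.Lib.H18Q Pool.Agent.Lib.H59P Pool.Agent.Lib.H24P
open Pool.Agent.HUP

/-- **U3.** Copy of the proof of `R9_main` (`HUP/R9.lean`): `R7_cell`, `R8_main`, `r9_X`, `r9_cells` (unchanged) are uniform in `P`; `G2_P` and `Geo` are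
replaced by the fields of `GeoV` (`small`). -/
theorem U3_main (k A E : ℕ) (hA : 1 ≤ A) (Cc cc : ℝ) (hC : FPar Cc cc)
    (hT : TMb k A E Cc cc) : ∃ c K : ℝ, 0 < c ∧ 1 ≤ K ∧ ∀ C : ℝ, ∃ Q0 : ℕ, ∀ P : Fin k → ℤ[X], Pol A P →
    ∀ (Q X X1 Y : ℕ) (M : Fin k → ℕ) (B : ℤ[X]) (C0 : ℤ → Ch → ℂ) (mb : Ch → ℝ), Q0 ≤ Q →
    Rg K C Q X → GeoV Q X X1 P M → GeoB A X X1 Y B → Cf (Q ^ 100) Y C0 mb →
    ∀ (C' : Fin k → ℤ → Ch → ℂ) (mc : Fin k → Ch → ℝ), (∀ i, Cf Q (Ysc (M i)) (C' i) (mc i)) →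
    ∀ r : ℕ, 1 ≤ r → r ^ 100 ≤ Q →
    ∀ (ι : Type) (S : Finset ι) (g : ι → Fin k → ℕ) (h0 : Fin k → ℕ), Cl E Cc cc Q P M S g h0 →
    ∑ x ∈ S, ‖Rzb Q X1 P C' (gB Q X1 B C0) h0 (g x) -
      MZb Q X1 (B.leadingCoeff.natAbs * r) P B C0 C' h0 (g x)‖ ^ 2 ≤
      (X1 : ℝ) ^ 2 * S.card * (Q : ℝ) ^ (-c) := by
  classical
  obtain ⟨c1, hc1, Q1, hZA⟩ := R7_cell k A E hA Cc cc hC
  obtain ⟨c2, hc2, Q2, hZB⟩ := R8_main k A E Cc cc hT
  have hcm : 0 < min c1 c2 := lt_min hc1 hc2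
  obtain ⟨Q3, hQ3, hlog⟩ := G1_rlog 4 0 (min c1 c2 / 2) (by positivity)
  have hE0 : (0 : ℝ) ≤ E := Nat.cast_nonneg _
  refine ⟨min c1 c2 / 2, 1500 + (E : ℝ), by positivity, by linarith, fun C => ⟨max (max Q1 Q2) (max Q3 1), ?_⟩⟩
  intro P hP Q X X1 Y M B C0 mb hQ hRg hG hB hCf C' mc hCc r hr hr100 ι S g h0 hCl
  have hQ1' : Q1 ≤ Q := (le_max_left _ _).trans ((le_max_left _ _).trans hQ)
  have hQ2' : Q2 ≤ Q := (le_max_right _ _).trans ((le_max_left _ _).trans hQ)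
  have hQ3' : Q3 ≤ Q := (le_max_left _ _).trans ((le_max_right _ _).trans hQ)
  have hQ1 : 1 ≤ Q := (le_max_right _ _).trans ((le_max_right _ _).trans hQ)
  have hQr : (1 : ℝ) ≤ Q := by exact_mod_cast hQ1
  have hQr0 : (0 : ℝ) < Q := by linarith
  have hQ8 : 0 < Q ^ 8 := Nat.pow_pos hQ1
  have hQ800 : 0 < Q ^ 800 := Nat.pow_pos hQ1
  have hXpos : 0 < X := hG.pos.trans_le hG.le
  set H : ℕ := X1 / Q ^ 800 with hH
  have hXH : X1 = H * Q ^ 800 := (Nat.div_mul_cancel hG.dvd).symm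
  obtain ⟨hH600, hHE⟩ := r9_X (E := E) le_rfl hQ1 hRg hXpos hG.ge
  have hHpos : 0 < H := (Nat.pow_pos hQ1).trans_le hH600
  -- the difference
  set m0 : ℕ := B.leadingCoeff.natAbs * r with hm0
  set F : ι → ℕ → ℂ := fun x n => gB Q X1 B C0 n *
    ∏ i, SG Q (C' i ((P i).eval ((bs (X1 / Q ^ 8) n : ℕ) : ℤ) + (h0 i : ℤ))) ((P i).eval (n : ℤ) + g x i) -
    MDf Q m0 (cfb Q X1 P B C0 C' h0 n) (sys B P (g x)) with hF
  have hdiff : ∀ x : ι, Rzb Q X1 P C' (gB Q X1 B C0) h0 (g x) - MZb Q X1 m0 P B C0 C' h0 (g x) =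
      ∑ n ∈ Ico X1 (2 * X1), F x n := by
    intro x
    unfold Rzb MZb
    rw [← Finset.sum_sub_distrib]
  rw [Finset.sum_congr rfl fun x _ => by rw [hdiff x]]
  have hE := r9_cells S X1 H (Q ^ 800) hXH ((Q : ℝ) ^ (-(min c1 c2 / 2))) F ?_
  · refine hE.trans (le_of_eq ?_)
    ring
  intro j hj
  have hjH' : j * H + H ≤ X1 := by
    have h1 : (j + 1) * H ≤ Q ^ 800 * H := Nat.mul_le_mul_right H hj
    have h2 : (j + 1) * H = j * H + H := by ring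
    have h3 : Q ^ 800 * H = X1 := by rw [mul_comm]; exact hXH.symm
    omega
  have haI : X1 + j * H ∈ Ico X1 (2 * X1) := by
    rw [mem_Ico]
    omega
  -- the base points
  have hbsn : ∀ n ∈ Ico (X1 + j * H) (X1 + j * H + H), bs (X1 / Q ^ 800) n = X1 + j * H := by
    intro n hn
    have h1 := mem_Ico.1 hn
    have h2 : X1 + j * H = (Q ^ 800 + j) * H := by
      conv_lhs => rw [hXH]
      ring
    rw [h2] at h1 ⊢
    exact z2_bs hHpos _ _ h1.1 h1.2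
  have hdX8 : Q ^ 8 ∣ X1 := (pow_dvd_pow Q (by norm_num)).trans hG.dvd
  have hHc : X1 / Q ^ 8 = H * Q ^ 792 := by
    refine Nat.div_eq_of_eq_mul_left hQ8 ?_
    rw [mul_assoc, ← pow_add]
    exact hXH
  have hHcX : X1 / Q ^ 8 ∣ X1 := Nat.div_dvd_of_dvd hdX8
  have hHcpos : 0 < X1 / Q ^ 8 := by
    rw [hHc]
    exact Nat.mul_pos hHpos (Nat.pow_pos hQ1)
  have hbsc : ∀ n ∈ Ico (X1 + j * H) (X1 + j * H + H),
      bs (X1 / Q ^ 8) n = bs (X1 / Q ^ 8) (X1 + j * H) := fun n hn =>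
    E1_fine hHpos (Nat.pow_pos hQ1) hHc hHcX hn
  -- the base point of the long cell is in the range
  have hbI : bs (X1 / Q ^ 8) (X1 + j * H) ∈ Ico X1 (2 * X1) := by
    have h1 : bs (X1 / Q ^ 8) (X1 + j * H) ≤ X1 + j * H := by
      unfold bs
      exact Nat.div_mul_le_self _ _
    have h2 : X1 ≤ bs (X1 / Q ^ 8) (X1 + j * H) := by
      unfold bs
      calc X1 = X1 / (X1 / Q ^ 8) * (X1 / Q ^ 8) := (Nat.div_mul_cancel hHcX).symm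
        _ ≤ _ := Nat.mul_le_mul_right _ (Nat.div_le_div_right (by omega))
    have h3 := (mem_Ico.1 haI).2
    rw [mem_Ico]
    omega
  set c0 : Ch → ℂ := C0 (B.eval ((X1 + j * H : ℕ) : ℤ)) with hc0
  set c' : Fin k → Ch → ℂ := fun i =>
    C' i ((P i).eval ((bs (X1 / Q ^ 8) (X1 + j * H) : ℕ) : ℤ) + (h0 i : ℤ)) with hc'
  have hcfz : ∀ n ∈ Ico (X1 + j * H) (X1 + j * H + H),
      cfb Q X1 P B C0 C' h0 n = (Fin.cons c0 c' : Fin (k + 1) → Ch → ℂ) := by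
    intro n hn
    unfold cfb
    rw [hbsn n hn, hbsc n hn]
  -- sizes
  have hsz0 : ∑ p ∈ PC (Q ^ 100), ‖c0 p‖ ≤ 3 := by
    refine (Finset.sum_le_sum fun p hp => ?_).trans hCf.sum
    have h1 := hB.lo _ haI
    have h2 := hB.hi _ haI
    exact hCf.le _ h1 (by linarith) p hp
  have hsz : ∀ i, ∑ p ∈ PC Q, ‖c' i p‖ ≤ 3 := by
    intro i
    have hx : h0 i ∈ Ico (M i) (2 * M i) := by
      have h1 := hCl.memb
      unfold cub at h1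
      have h2 := mem_Ico.1 (Fintype.mem_piFinset.1 h1 i)
      rw [mem_Ico]
      omega
    have hv := hG.small i _ hbI
    have hd8 : 8 ∣ M i := (Dvd.intro _ rfl).trans (hG.dvdM i)
    have h5 := G2_val (M i) (h0 i) _ hd8 hv hx
    refine (Finset.sum_le_sum fun p hp => ?_).trans (hCc i).sum
    refine (hCc i).le _ h5.1 ?_ p hp
    have h6 : (0 : ℤ) ≤ Ysc (M i) := Nat.cast_nonneg _
    linarith [h5.2.1]
  have hsz' : ∀ i : Fin (k + 1), ∑ p ∈ PC Q, ‖(Fin.cons c0 c' : Fin (k + 1) → Ch → ℂ) i p‖ ≤ 3 := by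
    intro i
    refine Fin.cases ?_ (fun i => ?_) i
    · rw [Fin.cons_zero]
      exact (Finset.sum_le_sum_of_subset_of_nonneg (z2f_PC hQ1) fun _ _ _ => norm_nonneg _).trans hsz0
    · rw [Fin.cons_succ]
      exact hsz i
  have hA1 := hZA Q hQ1' B hB.lin P hP r hr hr100 c0 hsz0 c' hsz ι S g hCl.good
    (X1 + j * H) H hH600 hHE
  have hB1 := hZB Q hQ2' B hB.lin P hP r hr hr100 (Fin.cons c0 c') hsz' ι S g hCl.good
  rw [← hm0] at hA1 hB1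
  have hv0 : (0 : ℝ) ≤ S.card := Nat.cast_nonneg _
  have hsplit : ∀ x ∈ S,
      ‖∑ n ∈ Ico (X1 + j * H) (X1 + j * H + H), F x n‖ ^ 2 ≤
      2 * ‖∑ n ∈ Ico (X1 + j * H) (X1 + j * H + H), SG (Q ^ 100) c0 (B.eval (n : ℤ)) *
        ∏ i, SG Q (c' i) ((P i).eval (n : ℤ) + g x i) -
        H * MCf Q m0 (Fin.cons c0 c' : Fin (k + 1) → Ch → ℂ) (sys B P (g x))‖ ^ 2 +
      2 * ((H : ℝ) ^ 2 * ‖MCf Q m0 (Fin.cons c0 c' : Fin (k + 1) → Ch → ℂ) (sys B P (g x)) -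
        MDf Q m0 (Fin.cons c0 c' : Fin (k + 1) → Ch → ℂ) (sys B P (g x))‖ ^ 2) := by
    intro x hx
    have h1 : ∑ n ∈ Ico (X1 + j * H) (X1 + j * H + H), F x n =
        (∑ n ∈ Ico (X1 + j * H) (X1 + j * H + H), SG (Q ^ 100) c0 (B.eval (n : ℤ)) *
        ∏ i, SG Q (c' i) ((P i).eval (n : ℤ) + g x i) -
        H * MCf Q m0 (Fin.cons c0 c' : Fin (k + 1) → Ch → ℂ) (sys B P (g x))) +
        H * (MCf Q m0 (Fin.cons c0 c' : Fin (k + 1) → Ch → ℂ) (sys B P (g x)) -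
        MDf Q m0 (Fin.cons c0 c' : Fin (k + 1) → Ch → ℂ) (sys B P (g x))) := by
      have h2 : ∑ n ∈ Ico (X1 + j * H) (X1 + j * H + H), F x n =
          ∑ n ∈ Ico (X1 + j * H) (X1 + j * H + H), (SG (Q ^ 100) c0 (B.eval (n : ℤ)) *
          ∏ i, SG Q (c' i) ((P i).eval (n : ℤ) + g x i) -
          MDf Q m0 (Fin.cons c0 c' : Fin (k + 1) → Ch → ℂ) (sys B P (g x))) := by
        refine Finset.sum_congr rfl fun n hn => ?_
        rw [hF]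
        simp only
        rw [hcfz n hn]
        unfold gB
        rw [hbsn n hn, hbsc n hn]
      rw [h2, Finset.sum_sub_distrib, Finset.sum_const, Nat.card_Ico, nsmul_eq_mul]
      have h3 : X1 + j * H + H - (X1 + j * H) = H := by omega
      rw [h3]
      ring
    rw [h1]
    generalize (∑ n ∈ Ico (X1 + j * H) (X1 + j * H + H), SG (Q ^ 100) c0 (B.eval (n : ℤ)) *
        ∏ i, SG Q (c' i) ((P i).eval (n : ℤ) + g x i) -
        H * MCf Q m0 (Fin.cons c0 c' : Fin (k + 1) → Ch → ℂ) (sys B P (g x))) = x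
    generalize (MCf Q m0 (Fin.cons c0 c' : Fin (k + 1) → Ch → ℂ) (sys B P (g _)) -
        MDf Q m0 (Fin.cons c0 c' : Fin (k + 1) → Ch → ℂ) (sys B P (g _))) = y
    have h4 : ‖x + H * y‖ ≤ ‖x‖ + H * ‖y‖ := by
      refine (norm_add_le _ _).trans (le_of_eq ?_)
      rw [norm_mul, Complex.norm_natCast]
    have h5 : ‖x + H * y‖ ^ 2 ≤ (‖x‖ + H * ‖y‖) ^ 2 := pow_le_pow_left₀ (norm_nonneg _) h4 2
    nlinarith [sq_nonneg (‖x‖ - H * ‖y‖)]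
  have hpow : 2 * (Q : ℝ) ^ (-c1) + 2 * (Q : ℝ) ^ (-c2) ≤ (Q : ℝ) ^ (-(min c1 c2 / 2)) := by
    have h1 : (Q : ℝ) ^ (-c1) ≤ (Q : ℝ) ^ (-(min c1 c2)) :=
      Real.rpow_le_rpow_of_exponent_le hQr (by linarith [min_le_left c1 c2])
    have h2 : (Q : ℝ) ^ (-c2) ≤ (Q : ℝ) ^ (-(min c1 c2)) :=
      Real.rpow_le_rpow_of_exponent_le hQr (by linarith [min_le_right c1 c2])
    have h3 : (Q : ℝ) ^ (-(min c1 c2 / 2)) = (Q : ℝ) ^ (min c1 c2 / 2) * (Q : ℝ) ^ (-(min c1 c2)) := by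
      rw [← Real.rpow_add hQr0]
      congr 1
      ring
    have h4 := hlog Q hQ3'
    rw [Real.rpow_zero, mul_one] at h4
    have h5 : 0 ≤ (Q : ℝ) ^ (-(min c1 c2)) := Real.rpow_nonneg hQr0.le _
    rw [h3]
    nlinarith [mul_le_mul_of_nonneg_right h4 h5]
  calc ∑ x ∈ S,
        ‖∑ n ∈ Ico (X1 + j * H) (X1 + j * H + H), F x n‖ ^ 2
      ≤ ∑ x ∈ S,
      (2 * ‖∑ n ∈ Ico (X1 + j * H) (X1 + j * H + H), SG (Q ^ 100) c0 (B.eval (n : ℤ)) *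
        ∏ i, SG Q (c' i) ((P i).eval (n : ℤ) + g x i) -
        H * MCf Q m0 (Fin.cons c0 c' : Fin (k + 1) → Ch → ℂ) (sys B P (g x))‖ ^ 2 +
      2 * ((H : ℝ) ^ 2 * ‖MCf Q m0 (Fin.cons c0 c' : Fin (k + 1) → Ch → ℂ) (sys B P (g x)) -
        MDf Q m0 (Fin.cons c0 c' : Fin (k + 1) → Ch → ℂ) (sys B P (g x))‖ ^ 2)) :=
        Finset.sum_le_sum hsplit
    _ ≤ 2 * (S.card * H ^ 2 * (Q : ℝ) ^ (-c1)) + 2 * ((H : ℝ) ^ 2 * (S.card * (Q : ℝ) ^ (-c2))) := by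
        rw [Finset.sum_add_distrib, ← Finset.mul_sum, ← Finset.mul_sum, ← Finset.mul_sum]
        gcongr
    _ = S.card * H ^ 2 * (2 * (Q : ℝ) ^ (-c1) + 2 * (Q : ℝ) ^ (-c2)) := by ring
    _ ≤ S.card * H ^ 2 * (Q : ℝ) ^ (-(min c1 c2 / 2)) :=
        mul_le_mul_of_nonneg_left hpow (mul_nonneg hv0 (sq_nonneg _))

end Pool.Agent.H9P
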