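import Pool.Agent.Lib.H9P.U2
import Pool.Agent.Lib.H9P.U3
import Pool.Agent.Lib.H9P.U5
import Pool.Agent.Lib.HUP.R16

/-!
# ASYP, chunk U6 (M): the mean square of the difference between the model and the main term of a cell
-/

open Finset Polynomial

namespace Pool.Agent.H9P

open Pool.Agent.Lib.H68T Pool.Agent.Lib.H18Q Pool.Agent.Lib.H59P Pool.Agent.Lib.H24P
open Pool.Agent.HUP

/-- **U6.** Copy of `R16_ms` (`HUP/R16.lean`) with `U4_main`, `U2_main`, `U5_main`, `U3_main` instead of `R13_main`, `R2_main`, `R14_main`, `R9_main`. -/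
theorem U6_ms (k A E : ℕ) (hA : 1 ≤ A) (Cc cc : ℝ) (hC : FPar Cc cc) :
    ∃ c K : ℝ, 0 < c ∧ 1 ≤ K ∧ ∀ C : ℝ, ∃ Q0 : ℕ, ∀ P : Fin k → ℤ[X], Pol A P →
    ∀ (Q X X1 Y : ℕ) (M : Fin k → ℕ) (B : ℤ[X]) (C0 : ℤ → Ch → ℂ) (mb : Ch → ℝ), Q0 ≤ Q →
    Rg K C Q X → GeoV Q X X1 P M → GeoB A X X1 Y B → Cf (Q ^ 100) Y C0 mb →
    ∀ (C' : Fin k → ℤ → Ch → ℂ) (mc : Fin k → Ch → ℝ), (∀ i, Cf Q (Ysc (M i)) (C' i) (mc i)) →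
    ∀ r : ℕ, 1 ≤ r → r ^ 100 ≤ Q →
    ∀ (ι : Type) (S : Finset ι) (g : ι → Fin k → ℕ) (h0 : Fin k → ℕ), Cl E Cc cc Q P M S g h0 →
    ∑ x ∈ S, ‖((Rw Q X1 P M (fun n => lp (B.eval (n : ℤ))) (g x) : ℝ) : ℂ) -
      MZb Q X1 (B.leadingCoeff.natAbs * r) P B C0 C' h0 (g x)‖ ^ 2 ≤
      (X1 : ℝ) ^ 2 * S.card * (Q : ℝ) ^ (-c) := by
  have hT : TMb k A E Cc cc := R6_main k A E hA Cc cc hC
  obtain ⟨K2, hK2, hW2⟩ := W2_ms A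
  obtain ⟨c4, K4, hc4, hK4, hW3⟩ := U2_main k A E hA Cc cc hC
  obtain ⟨c6, K6, hc6, hK6, hZ2⟩ := U3_main k A E hA Cc cc hC hT
  set cm : ℝ := min 1 (min c4 c6) with hcm
  have hcm0 : 0 < cm := lt_min one_pos (lt_min hc4 hc6)
  have hcm2 : cm ≤ 1 := min_le_left _ _
  have hcm4 : cm ≤ c4 := (min_le_right _ _).trans (min_le_left _ _)
  have hcm6 : cm ≤ c6 := (min_le_right _ _).trans (min_le_right _ _)
  obtain ⟨Q7, hQ7, hlog⟩ := G1_rlog 20 0 (cm / 2) (by positivity)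
  refine ⟨cm / 2, max (max 2 K2) (max K4 K6), by positivity,
    le_max_of_le_left (le_max_of_le_left (by norm_num)), fun C => ?_⟩
  obtain ⟨Q2, hW2⟩ := hW2 C
  obtain ⟨Q3, hV1⟩ := U4_main k A C
  obtain ⟨Q4, hW3⟩ := hW3 C
  obtain ⟨Q5, hV2⟩ := U5_main k A C
  obtain ⟨Q6, hZ2⟩ := hZ2 C
  refine ⟨max (max (max Q2 Q3) (max Q4 Q5)) (max Q6 (max Q7 1)), ?_⟩
  intro P hP Q X X1 Y M B C0 mb hQ hRg hG hB hCf C' mc hCc r hr hr100 ι S g h0 hCl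
  have hQ' := max_le_iff.1 hQ
  have hQa := max_le_iff.1 hQ'.1
  have hQb := max_le_iff.1 hQ'.2
  have q2 : Q2 ≤ Q := (max_le_iff.1 hQa.1).1
  have q3 : Q3 ≤ Q := (max_le_iff.1 hQa.1).2
  have q4 : Q4 ≤ Q := (max_le_iff.1 hQa.2).1
  have q5 : Q5 ≤ Q := (max_le_iff.1 hQa.2).2
  have q6 : Q6 ≤ Q := hQb.1
  have q7 : Q7 ≤ Q := (max_le_iff.1 hQb.2).1
  have q8 : 1 ≤ Q := (max_le_iff.1 hQb.2).2
  have hQr : (1 : ℝ) ≤ Q := by exact_mod_cast q8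
  have hQr0 : (0 : ℝ) < Q := by linarith
  have rtwo : Rg 2 C Q X := z4_rg (le_max_of_le_left (le_max_left _ _)) hRg
  have r2 : Rg K2 C Q X := z4_rg (le_max_of_le_left (le_max_right _ _)) hRg
  have r4 : Rg K4 C Q X := z4_rg (le_max_of_le_right (le_max_left _ _)) hRg
  have r6 : Rg K6 C Q X := z4_rg (le_max_of_le_right (le_max_right _ _)) hRg
  have hw : ∀ n ∈ Ico X1 (2 * X1), |lp (B.eval (n : ℤ))| ≤ (Real.log X) ^ 2 :=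
    (hW2 Q X X1 Y B C0 mb q2 r2 hG.pos hG.le hG.ge hB hCf X1 X1 le_rfl (by omega)
      (Nat.le_mul_of_pos_right _ (Nat.pow_pos q8))).2
  have e2 := hV1 P hP Q X X1 M q3 rtwo hG C' mc hCc (fun n => lp (B.eval (n : ℤ))) hw h0 hCl.memb
  have e3 := hW3 P hP Q X X1 Y M B C0 mb q4 r4 hG hB hCf C' mc hCc ι S g h0 hCl
  have e4 := hV2 P hP Q X X1 Y M B C0 mb q5 rtwo hG hB hCf C' mc hCc h0 hCl.memb
  have e5 := hZ2 P hP Q X X1 Y M B C0 mb q6 r6 hG hB hCf C' mc hCc r hr hr100 ι S g h0 hCl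
  set m0 : ℕ := B.leadingCoeff.natAbs * r with hm0
  set V : ℝ := (X1 : ℝ) ^ 2 * S.card with hV
  have hV0 : 0 ≤ V := by positivity
  set D : ℝ := ((X1 : ℝ) * (Q : ℝ) ^ (-(1) : ℝ)) ^ 2 with hD
  have hpt : ∀ x ∈ S, ‖((Rw Q X1 P M (fun n => lp (B.eval (n : ℤ))) (g x) : ℝ) : ℂ) -
      MZb Q X1 m0 P B C0 C' h0 (g x)‖ ^ 2 ≤
      5 * (2 * D +
      ‖Rzb Q X1 P C' (fun n => ((lp (B.eval (n : ℤ)) : ℝ) : ℂ)) h0 (g x) -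
        Rzb Q X1 P C' (fun n => ((Lk (Q ^ 100) (Y / (Q ^ 100) ^ 2) (B.eval (n : ℤ)) : ℝ) : ℂ)) h0 (g x)‖ ^ 2 +
      ‖Rzb Q X1 P C' (gB Q X1 B C0) h0 (g x) - MZb Q X1 m0 P B C0 C' h0 (g x)‖ ^ 2) := by
    intro x hx
    have a1 := e2 (g x) (hCl.mem x hx) (hCl.close x hx)
    have a2 := e4 (g x) (hCl.mem x hx)
    have b1 : ‖((Rw Q X1 P M (fun n => lp (B.eval (n : ℤ))) (g x) : ℝ) : ℂ) -
        Rzb Q X1 P C' (fun n => ((lp (B.eval (n : ℤ)) : ℝ) : ℂ)) h0 (g x)‖ ^ 2 ≤ D :=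
      pow_le_pow_left₀ (norm_nonneg _) a1 2
    have b2 : ‖Rzb Q X1 P C' (fun n => ((Lk (Q ^ 100) (Y / (Q ^ 100) ^ 2) (B.eval (n : ℤ)) : ℝ) : ℂ)) h0 (g x) -
        Rzb Q X1 P C' (gB Q X1 B C0) h0 (g x)‖ ^ 2 ≤ D :=
      pow_le_pow_left₀ (norm_nonneg _) a2 2
    have h5 := z4_five (((Rw Q X1 P M (fun n => lp (B.eval (n : ℤ))) (g x) : ℝ) : ℂ) -
        Rzb Q X1 P C' (fun n => ((lp (B.eval (n : ℤ)) : ℝ) : ℂ)) h0 (g x))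
      (Rzb Q X1 P C' (fun n => ((lp (B.eval (n : ℤ)) : ℝ) : ℂ)) h0 (g x) -
        Rzb Q X1 P C' (fun n => ((Lk (Q ^ 100) (Y / (Q ^ 100) ^ 2) (B.eval (n : ℤ)) : ℝ) : ℂ)) h0 (g x))
      (Rzb Q X1 P C' (fun n => ((Lk (Q ^ 100) (Y / (Q ^ 100) ^ 2) (B.eval (n : ℤ)) : ℝ) : ℂ)) h0 (g x) -
        Rzb Q X1 P C' (gB Q X1 B C0) h0 (g x))
      (Rzb Q X1 P C' (gB Q X1 B C0) h0 (g x) - MZb Q X1 m0 P B C0 C' h0 (g x)) 0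
    have h6 : ((Rw Q X1 P M (fun n => lp (B.eval (n : ℤ))) (g x) : ℝ) : ℂ) -
        MZb Q X1 m0 P B C0 C' h0 (g x) = (((Rw Q X1 P M (fun n => lp (B.eval (n : ℤ))) (g x) : ℝ) : ℂ) -
        Rzb Q X1 P C' (fun n => ((lp (B.eval (n : ℤ)) : ℝ) : ℂ)) h0 (g x)) +
      (Rzb Q X1 P C' (fun n => ((lp (B.eval (n : ℤ)) : ℝ) : ℂ)) h0 (g x) -
        Rzb Q X1 P C' (fun n => ((Lk (Q ^ 100) (Y / (Q ^ 100) ^ 2) (B.eval (n : ℤ)) : ℝ) : ℂ)) h0 (g x)) +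
      (Rzb Q X1 P C' (fun n => ((Lk (Q ^ 100) (Y / (Q ^ 100) ^ 2) (B.eval (n : ℤ)) : ℝ) : ℂ)) h0 (g x) -
        Rzb Q X1 P C' (gB Q X1 B C0) h0 (g x)) +
      (Rzb Q X1 P C' (gB Q X1 B C0) h0 (g x) - MZb Q X1 m0 P B C0 C' h0 (g x)) + 0 := by ring
    rw [h6]
    refine h5.trans ?_
    rw [norm_zero]
    linarith
  refine (Finset.sum_le_sum hpt).trans ?_
  rw [← Finset.mul_sum, Finset.sum_add_distrib, Finset.sum_add_distrib, Finset.sum_const, nsmul_eq_mul]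
  have hle : ∀ c' : ℝ, cm ≤ c' → V * (Q : ℝ) ^ (-c') ≤ V * (Q : ℝ) ^ (-cm) := by
    intro c' hc'
    exact mul_le_mul_of_nonneg_left (Real.rpow_le_rpow_of_exponent_le hQr (by linarith)) hV0
  have f3 := e3.trans (hle _ hcm4)
  have f5 := e5.trans (hle _ hcm6)
  have hDV : (S.card : ℝ) * (2 * D) = 2 * (V * (Q : ℝ) ^ (-(2 : ℝ))) := by
    have h3 : (Q : ℝ) ^ (-(2 : ℝ)) = ((Q : ℝ) ^ (-(1) : ℝ)) ^ 2 := by
      rw [← Real.rpow_natCast ((Q : ℝ) ^ (-(1) : ℝ)), ← Real.rpow_mul hQr0.le]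
      norm_num
    rw [hD, hV, h3]
    ring
  have f2 : (S.card : ℝ) * (2 * D) ≤ 2 * (V * (Q : ℝ) ^ (-cm)) := by
    rw [hDV]
    exact mul_le_mul_of_nonneg_left (hle 2 (by linarith)) (by norm_num)
  have hfin : 20 * (V * (Q : ℝ) ^ (-cm)) ≤ V * (Q : ℝ) ^ (-(cm / 2)) := by
    have h3 : (Q : ℝ) ^ (-(cm / 2)) = (Q : ℝ) ^ (cm / 2) * (Q : ℝ) ^ (-cm) := by
      rw [← Real.rpow_add hQr0]
      congr 1
      ring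
    have h4 := hlog Q q7
    rw [Real.rpow_zero, mul_one] at h4
    have h5 : 0 ≤ V * (Q : ℝ) ^ (-cm) := mul_nonneg hV0 (Real.rpow_nonneg hQr0.le _)
    rw [h3]
    nlinarith [mul_le_mul_of_nonneg_right h4 h5]
  linarith

end Pool.Agent.H9P
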