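import Pool.Agent.Lib.H9P.U0
import Pool.Agent.Lib.H9A.N2
import Pool.Agent.Lib.H24P.Z3
import Pool.Agent.Lib.H24P.P2
import Pool.Agent.Lib.H24P.P3

/-!
# ASYP, chunk U7 (M): the main term of a cell without exceptional character
-/

open Finset Polynomial

namespace Pool.Agent.H9P

open Pool.Agent.Lib.H68T Pool.Agent.Lib.H18Q Pool.Agent.Lib.H59P Pool.Agent.Lib.H24P
open Pool.Agent.HUP

/-- Copy of `N2_pt` (`H9A/N2.lean`) for the set `TSf k Q D1 m0` (the tuple `(p0, …, p0)` has the modulus `m0 ≤ D1`). -/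
theorem U7_pt {k : ℕ} (Q D1 m0 : ℕ) (hQ : 1 ≤ Q) (hm : m0 ≤ D1) (E0 : ℝ)
    (e : Fin k → Ch → ℂ) (he : ∀ i, ∑ p ∈ PC Q, ‖e i p‖ ≤ E0) (m : Fin k → ℤ) :
    ‖∑ p ∈ TSf k Q D1 m0, ∏ i, ((MX p0 (fun _ => 0) 0 (p i) + e i (p i)) * cj (p i) (m i)) - 1‖ ≤ (1 + E0) ^ k - 1 := by
  classical
  have hp0 : p0 ∈ PC Q := Pool.Agent.Lib.H68T.p0_mem hQ
  obtain ⟨a, ha⟩ : ∃ a : Ch → ℂ, a = fun p => if p = p0 then 1 else 0 := ⟨_, rfl⟩
  obtain ⟨b, hb⟩ : ∃ b : Fin k → Ch → ℂ, b = fun i p => e i p * cj p (m i) := ⟨_, rfl⟩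
  have ha1 : a p0 = 1 := by rw [ha]; exact if_pos rfl
  have ha0 : ∀ p, p ≠ p0 → a p = 0 := fun p hp => by rw [ha]; exact if_neg hp
  have e1 : ∀ p : Fin k → Ch, ∏ i, ((MX p0 (fun _ => 0) 0 (p i) + e i (p i)) * cj (p i) (m i)) = ∏ i, (a (p i) + b i (p i)) := by
    intro p
    refine Finset.prod_congr rfl fun i _ => ?_
    rw [Pool.Agent.H9A.n2_MX, add_mul, hb]
    by_cases h : p i = p0
    · rw [if_pos h, h, ha1, one_mul]
      change cj p0 (m i) + e i p0 * cj p0 (m i) = 1 + e i p0 * cj p0 (m i)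
      rw [Pool.Agent.Lib.H59P.c3_cj_p0]
    · rw [if_neg h, zero_mul, ha0 _ h]
  have hc : (fun _ => p0 : Fin k → Ch) ∈ TSf k Q D1 m0 := by
    unfold TSf
    rw [Finset.mem_filter]
    refine ⟨Fintype.mem_piFinset.2 fun _ => hp0, ?_⟩
    have h1 : (univ.lcm fun _ : Fin k => p0.1) = 1 :=
      Nat.dvd_one.1 (Finset.lcm_dvd fun i _ => one_dvd _)
    show m0.lcm (univ.lcm fun _ : Fin k => p0.1) ≤ D1
    rw [h1, Nat.lcm_one_right]
    exact hm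
  have hne : ∀ p : Fin k → Ch, p ≠ (fun _ => p0) → ∏ i, a (p i) = 0 := by
    intro p hp
    have h1 : ∃ i, p i ≠ p0 := by
      by_contra hcon
      push Not at hcon
      exact hp (funext hcon)
    obtain ⟨i, hi⟩ := h1
    exact Finset.prod_eq_zero (Finset.mem_univ i) (ha0 _ hi)
  have hsum : ∑ p ∈ TSf k Q D1 m0, ∏ i, a (p i) = 1 := by
    rw [Finset.sum_eq_single (fun _ => p0 : Fin k → Ch) (fun p _ hp => hne p hp) (fun h => absurd hc h)]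
    simp only [ha1, Finset.prod_const_one]
  have hdiff : ∑ p ∈ TSf k Q D1 m0, ∏ i, ((MX p0 (fun _ => 0) 0 (p i) + e i (p i)) * cj (p i) (m i)) - 1 =
      ∑ p ∈ TSf k Q D1 m0, (∏ i, (a (p i) + b i (p i)) - ∏ i, a (p i)) := by
    rw [Finset.sum_sub_distrib, hsum]
    simp only [e1]
  have hnn : ∀ p : Fin k → Ch, 0 ≤ ∏ i, (‖a (p i)‖ + ‖b i (p i)‖) - ∏ i, ‖a (p i)‖ := fun p =>
    (norm_nonneg _).trans (Pool.Agent.H9A.n2_prod Finset.univ (fun i => a (p i)) (fun i => b i (p i)))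
  have hall : ∑ p ∈ Fintype.piFinset (fun _ : Fin k => PC Q), (∏ i, (‖a (p i)‖ + ‖b i (p i)‖) - ∏ i, ‖a (p i)‖) =
      ∏ i : Fin k, ∑ q ∈ PC Q, (‖a q‖ + ‖b i q‖) - ∏ _i : Fin k, ∑ q ∈ PC Q, ‖a q‖ := by
    rw [Finset.sum_sub_distrib, Finset.prod_univ_sum, Finset.prod_univ_sum]
  have hsa : ∑ q ∈ PC Q, ‖a q‖ = 1 := by
    rw [Finset.sum_eq_single p0 (fun q _ hq => by rw [ha0 q hq, norm_zero]) (fun h => absurd hp0 h), ha1, norm_one]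
  have hsb : ∀ i, ∑ q ∈ PC Q, ‖b i q‖ ≤ E0 := by
    intro i
    refine (Finset.sum_le_sum fun q _ => ?_).trans (he i)
    rw [hb, norm_mul]
    exact mul_le_of_le_one_right (norm_nonneg _) (Pool.Agent.Lib.H59P.c3_cj_norm q (m i))
  rw [hdiff]
  refine (norm_sum_le _ _).trans ?_
  refine (Finset.sum_le_sum fun p _ => Pool.Agent.H9A.n2_prod Finset.univ (fun i => a (p i)) (fun i => b i (p i))).trans ?_
  have hsub : TSf k Q D1 m0 ⊆ Fintype.piFinset (fun _ : Fin k => PC Q) := by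
    intro p hp
    unfold TSf at hp
    exact (Finset.mem_filter.mp hp).1
  refine (Finset.sum_le_sum_of_subset_of_nonneg hsub fun p _ _ => hnn p).trans ?_
  rw [hall, hsa, Finset.prod_const_one]
  refine sub_le_sub_right ?_ 1
  have h3 : ∏ i : Fin k, ∑ q ∈ PC Q, (‖a q‖ + ‖b i q‖) ≤ ∏ _i : Fin k, (1 + E0) := by
    refine Finset.prod_le_prod (fun i _ => Finset.sum_nonneg fun q _ => add_nonneg (norm_nonneg _) (norm_nonneg _)) fun i _ => ?_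
    rw [Finset.sum_add_distrib, hsa]
    exact add_le_add le_rfl (hsb i)
  refine h3.trans (le_of_eq ?_)
  rw [Finset.prod_const, Finset.card_univ, Fintype.card_fin]

/-- Proof. `MDf = ∑_p (∏ c_i(p_i)) MQf Q p φ`, `MQf` is the mean over `n < Q!` of `Phf p (pr Q) (at' φ n) = ∏_i (cj (p_i) (φ_i n) uu (pr Q) (φ_i n))`; so `MDf` is the mean of
`∏_i uu (pr Q) (φ_i n) ≥ 0` times the sum in `U7_pt`, and `SSf (pr Q) φ` is the mean of `∏_i uu (pr Q) (φ_i n)` (`P3_SS`). Compare `N2_cell` (second half). -/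
theorem U7_cell {k : ℕ} (Q m0 : ℕ) (hQ : 1 ≤ Q) (hcond : m0 ≤ fl Q (1 / 16)) (φ : Fin k → ℤ → ℤ) (hφ : Cp φ)
    (E0 : ℝ) (e c : Fin k → Ch → ℂ) (he : ∀ i, ∑ p ∈ PC Q, ‖e i p‖ ≤ E0)
    (hc : ∀ i p, c i p = MX p0 (fun _ => 0) 0 p + e i p) :
    ‖MDf Q m0 c φ - ((SSf (pr Q) φ : ℝ) : ℂ)‖ ≤ ((1 + E0) ^ k - 1) * SSf (pr Q) φ := by
  classical
  have hQ0 : (0 : ℝ) < (Q.factorial : ℝ) := by exact_mod_cast Nat.factorial_pos Q
  have hU : ∀ n : ℤ, 0 ≤ ∏ i : Fin k, uu (pr Q) (φ i n) := fun n =>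
    Finset.prod_nonneg fun i _ => Pool.Agent.Lib.H59P.M3a_uu_nonneg _ (Pool.Agent.Lib.H59P.c3_pr Q) _
  have h1 : MDf Q m0 c φ =
      (∑ n ∈ range Q.factorial, ((∏ i : Fin k, uu (pr Q) (φ i (n : ℤ)) : ℝ) : ℂ) *
        ∑ p ∈ TSf k Q (fl Q (1 / 16)) m0, ∏ i, ((MX p0 (fun _ => 0) 0 (p i) + e i (p i)) * cj (p i) (φ i (n : ℤ)))) /
        ((Q.factorial : ℝ) : ℂ) := by
    unfold MDf MQf
    rw [Finset.sum_div]
    simp only [Finset.mul_sum, Finset.sum_div, mul_div_assoc']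
    rw [Finset.sum_comm]
    refine Finset.sum_congr rfl fun n _ => ?_
    refine Finset.sum_congr rfl fun p _ => ?_
    unfold Phf at'
    simp only [hc]
    rw [Finset.prod_mul_distrib, Finset.prod_mul_distrib, Complex.ofReal_prod]
    push_cast
    ring
  rw [h1, ← P3_SS φ hφ Q]
  rw [Complex.ofReal_div, ← sub_div, norm_div, Complex.norm_real, Real.norm_eq_abs, abs_of_pos hQ0, mul_div_assoc']
  refine div_le_div_of_nonneg_right ?_ hQ0.le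
  rw [Complex.ofReal_sum, ← Finset.sum_sub_distrib, Finset.mul_sum]
  refine (norm_sum_le _ _).trans (Finset.sum_le_sum fun n _ => ?_)
  have e2 : ∀ U V : ℂ, U * V - U = U * (V - 1) := fun U V => by ring
  rw [e2, norm_mul, Complex.norm_real, Real.norm_eq_abs, abs_of_nonneg (hU n)]
  have hpt := U7_pt Q (fl Q (1 / 16)) m0 hQ hcond E0 e he (fun i => φ i (n : ℤ))
  refine (mul_le_mul_of_nonneg_left hpt (hU n)).trans (le_of_eq ?_)
  ring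

/-- **U7.** Proof. As `R15_main` (`HUP/R15.lean`, port of `Z3_main`) with `U7_cell` (`k + 1` coordinates, `φ = sys B P h`, `Cp` by `P2_sys`) for every `n ∈ [X1, 2 X1)`
and the triangle inequality; `MX p0 (fun _ => 0) m p = MX p0 (fun _ => 0) 0 p`; `GeoV.small` instead of `hP8`. -/
theorem U7_main {k : ℕ} (P : Fin k → ℤ[X]) (A Q X X1 Y : ℕ) (hQ : 1 ≤ Q) (M : Fin k → ℕ) (B : ℤ[X])
    (hG : GeoV Q X X1 P M) (hGB : GeoB A X X1 Y B) (hcond : B.leadingCoeff.natAbs ≤ fl Q (1 / 16)) (E0 : ℝ)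
    (e0 : ℤ → Ch → ℂ) (eb0 : Ch → ℝ) (heb0 : ∀ p ∈ PC (Q ^ 100), 0 ≤ eb0 p)
    (hs0 : ∑ p ∈ PC (Q ^ 100), eb0 p ≤ E0)
    (he0 : ∀ m : ℤ, (Y : ℤ) ≤ m → m ≤ 4 * Y → ∀ p ∈ PC (Q ^ 100), ‖e0 m p‖ ≤ eb0 p)
    (e : Fin k → ℤ → Ch → ℂ) (eb : Fin k → Ch → ℝ) (hs : ∀ i, ∑ p ∈ PC Q, eb i p ≤ E0)
    (he : ∀ i, ∀ m : ℤ, (Ysc (M i) : ℤ) ≤ m → m ≤ 4 * Ysc (M i) → ∀ p ∈ PC Q, ‖e i m p‖ ≤ eb i p)
    (h0 : Fin k → ℕ) (hh0 : h0 ∈ cub M M) (h : Fin k → ℕ) :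
    ‖MZb Q X1 (B.leadingCoeff.natAbs * 1) P B (fun m p => MX p0 (fun _ => 0) m p + e0 m p)
      (fun i m p => MX p0 (fun _ => 0) m p + e i m p) h0 h - ((X1 * SSf (pr Q) (sys B P h) : ℝ) : ℂ)‖ ≤
      X1 * (((1 + E0) ^ (k + 1) - 1) * SSf (pr Q) (sys B P h)) := by
  have hX1 : 0 < X1 := hG.pos
  have hQ8 : Q ^ 8 ∣ X1 := (pow_dvd_pow Q (by norm_num)).trans hG.dvd
  have hbs : ∀ (D N n : ℕ), D ∣ N → 0 < N → n ∈ Ico N (2 * N) → bs (N / D) n ∈ Ico N (2 * N) := by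
    intro D N n hD hN hn
    rw [mem_Ico] at hn ⊢
    obtain ⟨q, rfl⟩ := hD
    have hD0 : 0 < D := Nat.pos_of_ne_zero (by rintro rfl; simp at hN)
    have hq0 : 0 < q := Nat.pos_of_ne_zero (by rintro rfl; simp at hN)
    rw [Nat.mul_div_cancel_left q hD0]
    unfold bs
    constructor
    · have h1 : D ≤ n / q := by
        rw [Nat.le_div_iff_mul_le hq0]
        exact hn.1
      exact Nat.mul_le_mul_right q h1
    · exact lt_of_le_of_lt (Nat.div_mul_le_self n q) hn.2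
  have hh' : ∀ i, h0 i ∈ Ico (M i) (2 * M i) := by
    intro i
    have h1 := Fintype.mem_piFinset.1 hh0 i
    rw [mem_Ico] at h1 ⊢
    omega
  have hY : ∀ n ∈ Ico X1 (2 * X1), (Y : ℤ) ≤ B.eval ((bs (X1 / Q ^ 800) n : ℕ) : ℤ) ∧
      B.eval ((bs (X1 / Q ^ 800) n : ℕ) : ℤ) ≤ 4 * Y := by
    intro n hn
    have h1 := hbs _ X1 n hG.dvd hX1 hn
    have h2 := hGB.lo _ h1
    have h3 := hGB.hi _ h1
    exact ⟨h2, by linarith⟩
  have hYi : ∀ n ∈ Ico X1 (2 * X1), ∀ i, (Ysc (M i) : ℤ) ≤ (P i).eval ((bs (X1 / Q ^ 8) n : ℕ) : ℤ) + (h0 i : ℤ) ∧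
      (P i).eval ((bs (X1 / Q ^ 8) n : ℕ) : ℤ) + (h0 i : ℤ) ≤ 4 * Ysc (M i) := by
    intro n hn i
    have h1 := hbs _ X1 n hQ8 hX1 hn
    obtain ⟨h3, h4, -⟩ := G2_val (M i) _ _ ((Dvd.intro _ rfl : 8 ∣ 8 * Q ^ 8).trans (hG.dvdM i))
      (hG.small i _ h1) (hh' i)
    constructor
    · exact h3
    · have h5 : (0 : ℤ) ≤ Ysc (M i) := by positivity
      linarith
  have hsub : PC Q ⊆ PC (Q ^ 100) := by
    intro p hp
    rw [mem_PC] at hp ⊢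
    exact ⟨hp.1, hp.2.1.trans (Nat.le_self_pow (by norm_num) Q), hp.2.2⟩
  have hcell : ∀ n ∈ Ico X1 (2 * X1), ‖MDf Q (B.leadingCoeff.natAbs * 1)
      (cfb Q X1 P B (fun m p => MX p0 (fun _ => 0) m p + e0 m p) (fun i m p => MX p0 (fun _ => 0) m p + e i m p) h0 n)
      (sys B P h) - ((SSf (pr Q) (sys B P h) : ℝ) : ℂ)‖ ≤ ((1 + E0) ^ (k + 1) - 1) * SSf (pr Q) (sys B P h) := by
    intro n hn
    refine U7_cell (k := k + 1) Q (B.leadingCoeff.natAbs * 1) hQ (by rw [mul_one]; exact hcond) (sys B P h)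
      (P2_sys B P h) E0
      (Fin.cons (e0 (B.eval ((bs (X1 / Q ^ 800) n : ℕ) : ℤ)))
        (fun i => e i ((P i).eval ((bs (X1 / Q ^ 8) n : ℕ) : ℤ) + (h0 i : ℤ)))) _ ?_ ?_
    · intro i
      refine Fin.cases ?_ (fun i => ?_) i
      · simp only [Fin.cons_zero]
        refine (Finset.sum_le_sum fun p hp => he0 _ (hY n hn).1 (hY n hn).2 p (hsub hp)).trans ?_
        exact (Finset.sum_le_sum_of_subset_of_nonneg hsub fun p hp _ => heb0 p hp).trans hs0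
      · simp only [Fin.cons_succ]
        exact (Finset.sum_le_sum fun p hp => he i _ (hYi n hn i).1 (hYi n hn i).2 p hp).trans (hs i)
    · intro i
      refine Fin.cases ?_ (fun i => ?_) i
      · intro p
        rfl
      · intro p
        rfl
  unfold MZb
  have h1 := Finset.sum_le_sum hcell
  rw [Finset.sum_const, Nat.card_Ico, nsmul_eq_mul] at h1
  have h2 : 2 * X1 - X1 = X1 := by omega
  rw [h2] at h1
  have h3 : ((X1 * SSf (pr Q) (sys B P h) : ℝ) : ℂ) = ∑ n ∈ Ico X1 (2 * X1), ((SSf (pr Q) (sys B P h) : ℝ) : ℂ) := by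
    rw [Finset.sum_const, Nat.card_Ico, h2, nsmul_eq_mul]
    push_cast
    rfl
  rw [h3, ← Finset.sum_sub_distrib]
  exact (norm_sum_le _ _).trans h1

end Pool.Agent.H9P
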