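import Pool.Agent.Lib.H9P.U1
import Pool.Agent.Lib.H9P.U6
import Pool.Agent.Lib.H9P.U7
import Pool.Agent.Lib.HUP.R18
import Pool.Agent.Lib.H24P.K1
import Pool.Agent.Lib.H24P.W2
import Pool.Agent.Lib.H59P.CF0

/-!
# ASYP, chunk U9 (M/L): one box of parameters, one cell of `n`
-/

open Finset Polynomial

namespace Pool.Agent.H9P

open Pool.Agent.Lib.H68T Pool.Agent.Lib.H18Q Pool.Agent.Lib.H59P Pool.Agent.Lib.H24P
open Pool.Agent.HUP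

theorem u9_mem {k d : ℕ} (c : Fin k → Fin d → ℤ) (β : Fin k → ℤ) (M : Fin k → ℕ) (t : Fin d → ℤ)
    (h : ∀ i, 151 * (M i : ℤ) ≤ 100 * (β i + lf c t i) ∧ 100 * (β i + lf c t i) < 168 * (M i : ℤ)) :
    hh c β t ∈ cub M M ∧ (∀ i, 0 ≤ β i + lf c t i) ∧ ∀ i, ((hh c β t i : ℕ) : ℤ) = β i + lf c t i := by
  have h0 : ∀ i, 0 ≤ β i + lf c t i := fun i => by
    have h1 := h i
    have h2 : (0 : ℤ) ≤ M i := Nat.cast_nonneg _
    omega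
  have h1 : ∀ i, ((hh c β t i : ℕ) : ℤ) = β i + lf c t i := fun i => by
    unfold hh
    exact Int.toNat_of_nonneg (h0 i)
  refine ⟨?_, h0, h1⟩
  unfold cub
  rw [Fintype.mem_piFinset]
  intro i
  rw [mem_Ico]
  have h2 := h i
  have h3 := h1 i
  omega

theorem u9_three {Q : ℕ} (hQ : 1 ≤ Q) (a1 a2 a3 cf : ℝ) (h1 : 2 * cf ≤ a1) (h2 : 2 * cf ≤ a2) (h3 : 2 * cf ≤ a3)
    (h : (3 : ℝ) ≤ (Q : ℝ) ^ cf) : (Q : ℝ) ^ (-a1) + (Q : ℝ) ^ (-a2) + (Q : ℝ) ^ (-a3) ≤ (Q : ℝ) ^ (-cf) := by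
  have hQ1 : (1 : ℝ) ≤ Q := by exact_mod_cast hQ
  have hQ0 : (0 : ℝ) < Q := by linarith
  have hx : ∀ x : ℝ, 2 * cf ≤ x → (Q : ℝ) ^ (-x) ≤ (Q : ℝ) ^ (-cf) / 3 := by
    intro x hx
    have g1 : (Q : ℝ) ^ (-x) ≤ (Q : ℝ) ^ (-cf + -cf) :=
      Real.rpow_le_rpow_of_exponent_le hQ1 (by linarith)
    have g2 : (Q : ℝ) ^ (-cf + -cf) = (Q : ℝ) ^ (-cf) * (Q : ℝ) ^ (-cf) := Real.rpow_add hQ0 _ _
    have g3 : (Q : ℝ) ^ (-cf) ≤ 1 / 3 := by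
      rw [Real.rpow_neg hQ0.le, ← one_div]
      exact one_div_le_one_div_of_le (by norm_num) h
    have g4 : 0 < (Q : ℝ) ^ (-cf) := Real.rpow_pos_of_pos hQ0 _
    nlinarith
  have e1 := hx a1 h1
  have e2 := hx a2 h2
  have e3 := hx a3 h3
  linarith

/-- Chebyshev's inequality with powers of `Q`. -/
theorem u9_cheb {ι : Type*} (S : Finset ι) (f : ι → ℝ) (X1 Q : ℕ) (hX : 0 < X1) (hQ : 0 < Q) (c : ℝ)
    (hf : ∀ x, 0 ≤ f x) (h : ∑ x ∈ S, f x ^ 2 ≤ (X1 : ℝ) ^ 2 * S.card * (Q : ℝ) ^ (-c)) :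
    (((S.filter fun x => (X1 : ℝ) * (Q : ℝ) ^ (-(c / 4)) < f x).card : ℕ) : ℝ) ≤ S.card * (Q : ℝ) ^ (-(c / 2)) := by
  have hX1r : (0 : ℝ) < X1 := by exact_mod_cast hX
  have hQr : (0 : ℝ) < Q := by exact_mod_cast hQ
  have hTpos : 0 < (X1 : ℝ) * (Q : ℝ) ^ (-(c / 4)) := mul_pos hX1r (Real.rpow_pos_of_pos hQr _)
  refine (k1_cheb S f _ _ hTpos h hf).trans (le_of_eq ?_)
  have h1 : ((X1 : ℝ) * (Q : ℝ) ^ (-(c / 4))) ^ 2 = (X1 : ℝ) ^ 2 * (Q : ℝ) ^ (-(c / 2)) := by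
    rw [mul_pow, ← Real.rpow_natCast ((Q : ℝ) ^ (-(c / 4))), ← Real.rpow_mul hQr.le]
    congr 2
    push_cast
    ring
  have h2 : (Q : ℝ) ^ (-c) = (Q : ℝ) ^ (-(c / 2)) * (Q : ℝ) ^ (-(c / 2)) := by
    rw [← Real.rpow_add hQr]
    congr 1
    ring
  have h3 : (0 : ℝ) < (Q : ℝ) ^ (-(c / 2)) := Real.rpow_pos_of_pos hQr _
  rw [h1, h2]
  field_simp

/-- **U9a.** A cell `S' = tb b' s'` (small box). Proof. `CF0` (`H59P/CF0.lean`) for the models `Mdl (Q^100) Y 1 E0 p0 0` and `Mdl Q (Ysc (M i)) 1 E0 p0 0` gives `e0, eb0, mb` and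
`e i, eb i, mb i`; `U6_ms` with `r = 1`; `U7_main` pointwise (`B.leadingCoeff.natAbs ≤ A ≤ fl Q (1/16)`, `G1_size` in `H24P/G1.lean` with `r = 1`); `k1_cheb` (`H24P/K1.lean`) with
`T = X1 Q^(-c1)`, `c1 = c/4`. -/
theorem U9_cell (k A E : ℕ) (hA : 1 ≤ A) (Cc cc : ℝ) (hC : FPar Cc cc) :
    ∃ c1 K : ℝ, 0 < c1 ∧ 1 ≤ K ∧ ∀ C E0 : ℝ, 0 ≤ E0 → E0 ≤ 1 → ∃ Q0 : ℕ, ∀ P : Fin k → ℤ[X], Pol A P →
    ∀ (Q X X1 Y : ℕ) (M : Fin k → ℕ) (B : ℤ[X]), Q0 ≤ Q →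
    Rg K C Q X → GeoV Q X X1 P M → GeoB A X X1 Y B → Mdl (Q ^ 100) Y 1 E0 p0 (fun _ => 0) →
    (∀ i, Mdl Q (Ysc (M i)) 1 E0 p0 (fun _ => 0)) →
    ∀ (ι : Type) (S : Finset ι) (g : ι → Fin k → ℕ) (h0 : Fin k → ℕ), Cl E Cc cc Q P M S g h0 →
    ((S.filter (fun x => X1 * (((1 + E0) ^ (k + 1) - 1) * SSf (pr Q) (sys B P (g x)) + (Q : ℝ) ^ (-c1)) <
      |Rw Q X1 P M (fun n => lp (B.eval (n : ℤ))) (g x) - X1 * SSf (pr Q) (sys B P (g x))|)).card : ℝ) ≤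
      S.card * (Q : ℝ) ^ (-c1) := by
  obtain ⟨c, K, hc, hK, hms⟩ := U6_ms k A E hA Cc cc hC
  obtain ⟨Q1, hQ1, hsize⟩ := G1_size A
  refine ⟨c / 4, K, by positivity, hK, fun C E0 hE0 hE1 => ?_⟩
  obtain ⟨Q0, hms⟩ := hms C
  refine ⟨max Q0 Q1, ?_⟩
  intro P hP Q X X1 Y M B hQ hRg hG hB hMB hM ι S g h0 hCl
  have q0 : Q0 ≤ Q := (le_max_left _ _).trans hQ
  have q1 : Q1 ≤ Q := (le_max_right _ _).trans hQ
  have q2 : 1 ≤ Q := hQ1.trans q1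
  have hQr : (1 : ℝ) ≤ Q := by exact_mod_cast q2
  have hQr0 : (0 : ℝ) < Q := by linarith
  have hQ100 : 1 ≤ Q ^ 100 := Nat.one_le_pow _ _ q2
  obtain ⟨e0, eb0, mb0, a1, a2, a3, a4⟩ := CF0 (Q ^ 100) Y 1 E0 p0 (fun _ => 0) hQ100 hMB hE1
  choose e eb mb b1 b2 b3 b4 using fun i => CF0 Q (Ysc (M i)) 1 E0 p0 (fun _ => 0) q2 (hM i) hE1
  have hms' := hms P hP Q X X1 Y M B (fun m p => MX p0 (fun _ => 0) m p + e0 m p) mb0 q0 hRg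
    hG hB a4 (fun i m p => MX p0 (fun _ => 0) m p + e i m p) mb b4 1 le_rfl
    (by rw [one_pow]; exact q2) ι S g h0 hCl
  have hX1r : (0 : ℝ) < X1 := by exact_mod_cast hG.pos
  have hch := u9_cheb S (fun x => ‖((Rw Q X1 P M (fun n => lp (B.eval (n : ℤ))) (g x) : ℝ) : ℂ) -
    MZb Q X1 (B.leadingCoeff.natAbs * 1) P B (fun m p => MX p0 (fun _ => 0) m p + e0 m p)
      (fun i m p => MX p0 (fun _ => 0) m p + e i m p) h0 (g x)‖) X1 Q hG.pos q2 c (fun _ => norm_nonneg _) hms'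
  have hlc0 : 1 ≤ B.leadingCoeff.natAbs := by
    have h2 : B.leadingCoeff ≠ 0 := by
      rw [Ne, leadingCoeff_eq_zero]
      intro h3
      have h4 := hB.lin.deg
      rw [h3, natDegree_zero] at h4
      omega
    exact Int.natAbs_pos.2 h2
  have hcond := (hsize Q q1 1 B.leadingCoeff.natAbs hlc0 hB.lin.lc (by rw [one_pow]; exact q2)).1
  rw [mul_one] at hcond
  have hsub : (S.filter (fun x => X1 * (((1 + E0) ^ (k + 1) - 1) * SSf (pr Q) (sys B P (g x)) + (Q : ℝ) ^ (-(c / 4))) <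
      |Rw Q X1 P M (fun n => lp (B.eval (n : ℤ))) (g x) - X1 * SSf (pr Q) (sys B P (g x))|)) ⊆
      S.filter (fun x => (X1 : ℝ) * (Q : ℝ) ^ (-(c / 4)) < ‖((Rw Q X1 P M (fun n => lp (B.eval (n : ℤ))) (g x) : ℝ) : ℂ) -
        MZb Q X1 (B.leadingCoeff.natAbs * 1) P B (fun m p => MX p0 (fun _ => 0) m p + e0 m p)
          (fun i m p => MX p0 (fun _ => 0) m p + e i m p) h0 (g x)‖) := by
    intro x hx
    rw [mem_filter] at hx ⊢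
    refine ⟨hx.1, ?_⟩
    have h7 := U7_main P A Q X X1 Y q2 M B hG hB hcond E0 e0 eb0 a1 (by rw [one_mul] at a2; exact a2) a3 e eb
      (fun i => by have := b2 i; rw [one_mul] at this; exact this) b3 h0 hCl.memb (g x)
    have h8 : |Rw Q X1 P M (fun n => lp (B.eval (n : ℤ))) (g x) - X1 * SSf (pr Q) (sys B P (g x))| =
        ‖((Rw Q X1 P M (fun n => lp (B.eval (n : ℤ))) (g x) : ℝ) : ℂ) -
          ((X1 * SSf (pr Q) (sys B P (g x)) : ℝ) : ℂ)‖ := by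
      rw [← Complex.ofReal_sub, Complex.norm_real, Real.norm_eq_abs]
    have h9 := norm_sub_le_norm_sub_add_norm_sub ((Rw Q X1 P M (fun n => lp (B.eval (n : ℤ))) (g x) : ℝ) : ℂ)
      (MZb Q X1 (B.leadingCoeff.natAbs * 1) P B (fun m p => MX p0 (fun _ => 0) m p + e0 m p)
          (fun i m p => MX p0 (fun _ => 0) m p + e i m p) h0 (g x)) ((X1 * SSf (pr Q) (sys B P (g x)) : ℝ) : ℂ)
    have h10 := hx.2
    rw [h8] at h10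
    have h11 : (X1 : ℝ) * (((1 + E0) ^ (k + 1) - 1) * SSf (pr Q) (sys B P (g x)) + (Q : ℝ) ^ (-(c / 4))) =
      X1 * (((1 + E0) ^ (k + 1) - 1) * SSf (pr Q) (sys B P (g x))) + X1 * (Q : ℝ) ^ (-(c / 4)) := by ring
    rw [h11] at h10
    linarith
  have hcard : (((S.filter (fun x => X1 * (((1 + E0) ^ (k + 1) - 1) * SSf (pr Q) (sys B P (g x)) + (Q : ℝ) ^ (-(c / 4))) <
      |Rw Q X1 P M (fun n => lp (B.eval (n : ℤ))) (g x) - X1 * SSf (pr Q) (sys B P (g x))|)).card : ℕ) : ℝ) ≤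
      _ := Nat.cast_le.2 (card_le_card hsub)
  refine hcard.trans (hch.trans ?_)
  exact mul_le_mul_of_nonneg_left (Real.rpow_le_rpow_of_exponent_le hQr (by linarith)) (Nat.cast_nonneg _)

/-- **U9** (compare `R19_box`, `HUP/R19.lean`). Proof. `FGTU` gives `E, Cc, cc`; `U9_cell` gives `c2, K1`; `S4TU` for `A` gives `K2`; `K = K1 + K2 + 2E + 20`. For `C`: `S4TU` gives `τ, c0`
(replace `τ` by `min τ (1/10)`). `Pol A P` from `HasD` and `hDA`. (i) `S4TU` with `w n = lp (B n)` (`0 ≤ lp (B n) ≤ log(3 A X) ≤ (log X)^2`; its hypothesis on `Cf` from `CF0`), and Chebyshev (`k1_cheb`):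
at most `card Q^(-c0/2)` of the `t` have `|RPh - Rw| > X1 Q^(-c0/4)` (`RPh X1 B P h = ∑ lp(B n) ∏ lp(P_i n + h_i)` by definition). (ii) `s_j = Q^10 s'_j`; `R18_split` into the boxes `S' = tb b' s'`;
on `S'` (if not empty) `Cl E Cc cc Q P M S' (hh c β) (hh c β b')`: `good` by `FGTU` with `Qm = Q^2` (`s'_j ≥ Q^(2E)` from `X^(e_j) ≤ Q^τ s_j`, `e_j ≥ 1`, `X ≥ Q^K`), `mem`, `memb` from
`151 M ≤ 100 h < 168 M`, `close` from `R18_var` and `∑_j |c_ij| s_j ≤ Q M_i`. `U9_cell` on `S'` (`GeoV` by `U1_geo`). Choose `c1 < min(c2, c0/4)` with `X1 Q^(-c2) + X1 Q^(-c0/4) ≤ X1 Q^(-c1)` and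
`Q^(-c2) + Q^(-c0/2) ≤ Q^(-c1)`. -/
theorem U9_box {k d : ℕ} (c : Fin k → Fin d → ℤ) (e : Fin d → ℕ) (D : Fin k → ℕ) (a : Fin k → ℤ)
    (hF : FGTU c D a) (hS : S4TU c e D a) (he : ∀ j, 1 ≤ e j) (hD : ∀ i, 1 ≤ D i) (A : ℕ) (hA : 1 ≤ A)
    (hDA : ∀ i, D i ≤ A ∧ (a i).natAbs ≤ A) : ∃ K : ℝ, 1 ≤ K ∧ ∀ C E0 : ℝ, 0 ≤ E0 → E0 ≤ 1 →
    ∃ τ c1 : ℝ, 0 < τ ∧ τ ≤ 1 / 10 ∧ 0 < c1 ∧ ∃ Q0 : ℕ, ∀ P : Fin k → ℤ[X], HasD D a P →
    ∀ (Q X X1 Y : ℕ) (M : Fin k → ℕ) (B : ℤ[X]) (b : Fin d → ℤ) (s : Fin d → ℕ) (β : Fin k → ℤ), Q0 ≤ Q →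
    Rg K C Q X → GeoU A Q X X1 P M → GeoB A X X1 Y B → (X : ℝ) ≤ X1 * (Q : ℝ) ^ τ →
    (∀ i, (M i : ℝ) ≤ (X1 : ℝ) ^ (P i).natDegree * (Q : ℝ) ^ τ) →
    (∀ j, (X : ℝ) ^ e j ≤ (Q : ℝ) ^ τ * s j) → (∀ j, (s j : ℝ) ≤ (Q : ℝ) ^ τ * (X : ℝ) ^ e j) →
    (∀ j, Q ^ 10 ∣ s j) → (∀ i, ∑ j, |c i j| * (s j : ℤ) ≤ Q * (M i : ℤ)) →
    Mdl (Q ^ 100) Y 1 E0 p0 (fun _ => 0) → (∀ i, Mdl Q (Ysc (M i)) 1 E0 p0 (fun _ => 0)) →
    (∀ t ∈ tb b s, ∀ i, 151 * (M i : ℤ) ≤ 100 * (β i + lf c t i) ∧ 100 * (β i + lf c t i) < 168 * (M i : ℤ)) →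
    (((tb b s).filter (fun t => X1 * (((1 + E0) ^ (k + 1) - 1) * SSf (pr Q) (sys B P (hh c β t)) + (Q : ℝ) ^ (-c1)) <
      |RPh X1 B P (hh c β t) - X1 * SSf (pr Q) (sys B P (hh c β t))|)).card : ℝ) ≤
      (tb b s).card * (Q : ℝ) ^ (-c1) := by
  classical
  obtain ⟨E, Cc, cc, hFP, hFG⟩ := hF
  obtain ⟨c2, K1, hc2, hK1, hcell⟩ := U9_cell k A E hA Cc cc hFP
  obtain ⟨K2, hK2, hS4⟩ := hS A (fun i => (hDA i).1)
  obtain ⟨K4, hK4, hW2⟩ := W2_ms A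
  obtain ⟨K0, hK0⟩ : ∃ K0 : ℝ, K0 = K1 + K2 + K4 + 20 + 2 * E := ⟨_, rfl⟩
  have hEn : (0 : ℝ) ≤ E := Nat.cast_nonneg _
  have hK0a : K1 ≤ K0 := by rw [hK0]; linarith
  have hK0b : K2 ≤ K0 := by rw [hK0]; linarith
  have hK0d : K4 ≤ K0 := by rw [hK0]; linarith
  have hK0g : 2 * (E : ℝ) + 20 ≤ K0 := by rw [hK0]; linarith
  refine ⟨K0, by linarith, fun C E0 hE0 hE01 => ?_⟩
  obtain ⟨Q1, hcell'⟩ := hcell C E0 hE0 hE01
  obtain ⟨τ1, c0, hτ1, hτ11, hc0, Q2, hS4'⟩ := hS4 C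
  obtain ⟨Q3, hW2'⟩ := hW2 C
  obtain ⟨τ, hτd⟩ : ∃ τ : ℝ, τ = min τ1 (1 / 10) := ⟨_, rfl⟩
  have hτ0 : 0 < τ := by rw [hτd]; exact lt_min hτ1 (by norm_num)
  have hττ1 : τ ≤ τ1 := by rw [hτd]; exact min_le_left _ _
  have hτ10 : τ ≤ 1 / 10 := by rw [hτd]; exact min_le_right _ _
  obtain ⟨cf, hcfd⟩ : ∃ cf : ℝ, cf = min c2 (c0 / 4) / 2 := ⟨_, rfl⟩
  have hm2 : 0 < min c2 (c0 / 4) := lt_min hc2 (by linarith)
  have hcf : 0 < cf := by rw [hcfd]; linarith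
  have hcf1 : 2 * cf ≤ c2 := by rw [hcfd]; have := min_le_left c2 (c0 / 4); linarith
  have hcf2 : 2 * cf ≤ c0 / 4 := by rw [hcfd]; have := min_le_right c2 (c0 / 4); linarith
  obtain ⟨Q8, _, hQ8⟩ := G1_rlog 3 0 cf hcf
  refine ⟨τ, cf, hτ0, hτ10, hcf, Q1 + Q2 + Q3 + Q8 + 3, ?_⟩
  intro P hPD Q X X1 Y M B b s β hQ hRg hG hGB hXτ hMτ hs1 hs2 hs10 hcs hMB hM hrange
  have hP : Pol A P := ⟨fun i => by rw [(hPD i).1]; exact hD i, fun i => by rw [(hPD i).1]; exact (hDA i).1,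
    fun i => by rw [(hPD i).2]; exact (hDA i).2⟩
  have hV : GeoV Q X X1 P M := U1_geo A Q X X1 P M hP hG
  have hQ0 : 0 < Q := by omega
  have hQr : (0 : ℝ) < Q := by exact_mod_cast hQ0
  have hQ1r : (1 : ℝ) ≤ Q := by exact_mod_cast hQ0
  have hlQ : 0 ≤ Real.log Q := Real.log_natCast_nonneg Q
  have hX0 : 0 < X := lt_of_lt_of_le hG.pos hG.le
  have hXr : (0 : ℝ) < X := by exact_mod_cast hX0
  have hX1' : (1 : ℝ) ≤ X := by exact_mod_cast hX0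
  have hRga : Rg K1 C Q X := ⟨(mul_le_mul_of_nonneg_right hK0a hlQ).trans hRg.1, hRg.2⟩
  have hRgb : Rg K2 C Q X := ⟨(mul_le_mul_of_nonneg_right hK0b hlQ).trans hRg.1, hRg.2⟩
  have hRgd : Rg K4 C Q X := ⟨(mul_le_mul_of_nonneg_right hK0d hlQ).trans hRg.1, hRg.2⟩
  have hQE : Q ^ (2 * E + 20) ≤ X := by
    have h1 : Real.log ((Q : ℝ) ^ (2 * E + 20)) ≤ Real.log X := by
      rw [Real.log_pow]
      push_cast
      exact (mul_le_mul_of_nonneg_right hK0g hlQ).trans hRg.1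
    have h2 : (Q : ℝ) ^ (2 * E + 20) ≤ X := (Real.log_le_log_iff (by positivity) hXr).mp h1
    exact_mod_cast h2
  have hQτ : (Q : ℝ) ^ τ ≤ Q := by
    calc (Q : ℝ) ^ τ ≤ (Q : ℝ) ^ (1 : ℝ) := Real.rpow_le_rpow_of_exponent_le hQ1r (by linarith)
      _ = Q := Real.rpow_one _
  have hQττ : (Q : ℝ) ^ τ ≤ (Q : ℝ) ^ τ1 := Real.rpow_le_rpow_of_exponent_le hQ1r hττ1
  -- the sub-boxes
  choose s' hs' using hs10
  have hs'E : ∀ j, (Q ^ 2) ^ E ≤ s' j := by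
    intro j
    have h1 : (X : ℝ) ≤ Q * s j := by
      calc (X : ℝ) ≤ (X : ℝ) ^ e j := le_self_pow₀ hX1' (by have := he j; omega)
        _ ≤ (Q : ℝ) ^ τ * s j := hs1 j
        _ ≤ Q * s j := mul_le_mul_of_nonneg_right hQτ (Nat.cast_nonneg _)
    have h2 : X ≤ Q * s j := by exact_mod_cast h1
    rw [hs' j] at h2
    have h3 : Q * (Q ^ 10 * s' j) ≤ Q ^ 20 * s' j := by
      calc Q * (Q ^ 10 * s' j) = Q ^ 11 * s' j := by ring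
        _ ≤ Q ^ 20 * s' j := Nat.mul_le_mul_right _ (Nat.pow_le_pow_right hQ0 (by norm_num))
    have h4 : Q ^ 20 * (Q ^ 2) ^ E ≤ Q ^ 20 * s' j := by
      refine le_trans (le_of_eq ?_) (hQE.trans (h2.trans h3))
      rw [← pow_mul, ← pow_add]
      congr 1
      omega
    exact Nat.le_of_mul_le_mul_left h4 (by positivity)
  have hclose : ∀ i, (Q : ℤ) ^ 8 * ∑ j, |c i j| * (s' j : ℤ) ≤ M i := by
    intro i
    have h1 : ∑ j, |c i j| * (s j : ℤ) = (Q : ℤ) ^ 10 * ∑ j, |c i j| * (s' j : ℤ) := by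
      rw [mul_sum]
      refine sum_congr rfl fun j _ => ?_
      rw [hs' j]
      push_cast
      ring
    have h2 := hcs i
    rw [h1] at h2
    have hSn : (0 : ℤ) ≤ ∑ j, |c i j| * (s' j : ℤ) :=
      sum_nonneg fun j _ => mul_nonneg (abs_nonneg _) (Nat.cast_nonneg _)
    have hQz : (0 : ℤ) < Q := by exact_mod_cast hQ0
    have h3 : (Q : ℤ) * ((Q : ℤ) ^ 9 * ∑ j, |c i j| * (s' j : ℤ)) ≤ Q * M i := by
      refine le_trans (le_of_eq ?_) h2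
      ring
    have h4 : (Q : ℤ) ^ 9 * ∑ j, |c i j| * (s' j : ℤ) ≤ M i := le_of_mul_le_mul_left h3 hQz
    refine le_trans (mul_le_mul_of_nonneg_right ?_ hSn) h4
    have h5 : Q ^ 8 ≤ Q ^ 9 := Nat.pow_le_pow_right hQ0 (by norm_num)
    exact_mod_cast h5
  obtain ⟨Bd, hBd⟩ : ∃ Bd : (Fin d → ℤ) → Prop, ∀ t, Bd t ↔
      X1 * (((1 + E0) ^ (k + 1) - 1) * SSf (pr Q) (sys B P (hh c β t)) + (Q : ℝ) ^ (-c2)) <
      |Rw Q X1 P M (fun n => lp (B.eval (n : ℤ))) (hh c β t) - X1 * SSf (pr Q) (sys B P (hh c β t))| :=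
    ⟨_, fun _ => Iff.rfl⟩
  have hboxes : ∀ b' : Fin d → ℤ, tb b' s' ⊆ tb b s → (((tb b' s').filter Bd).card : ℝ) ≤
      (tb b' s').card * (Q : ℝ) ^ (-c2) := by
    intro b' hb'
    rcases (tb b' s').eq_empty_or_nonempty with hem | ⟨t0, ht0⟩
    · rw [hem]; simp
    have hCl : Cl E Cc cc Q P M (tb b' s') (hh c β) (hh c β t0) := by
      refine ⟨hFG P hPD (Q ^ 2) b' s' β (Nat.one_le_pow _ _ hQ0) hs'E
        (fun t ht => (u9_mem c β M t (hrange t (hb' ht))).2.1),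
        fun t ht => (u9_mem c β M t (hrange t (hb' ht))).1, (u9_mem c β M t0 (hrange t0 (hb' ht0))).1, ?_⟩
      intro t ht i
      have h1 := (u9_mem c β M t (hrange t (hb' ht))).2.2 i
      have h2 := (u9_mem c β M t0 (hrange t0 (hb' ht0))).2.2 i
      rw [h1, h2]
      have h3 := R18_var c b' s' i t t0 ht ht0
      have h5 : β i + lf c t i - (β i + lf c t0 i) = lf c t i - lf c t0 i := by ring
      rw [h5]
      exact (mul_le_mul_of_nonneg_left h3 (by positivity)).trans (hclose i)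
    have h1 := hcell' P hP Q X X1 Y M B (by omega) hRga hV hGB hMB hM (Fin d → ℤ) (tb b' s') (hh c β)
      (hh c β t0) hCl
    refine le_trans (le_of_eq ?_) h1
    congr 2
    exact filter_congr fun t _ => hBd t
  have hsplit := R18_split b s s' (Q ^ 10) hs' Bd ((Q : ℝ) ^ (-c2)) hboxes
  -- the mean square over the box
  have hcfM : ∀ i, ∃ (B' : ℤ → Ch → ℂ) (mb : Ch → ℝ), Cf Q (Ysc (M i)) B' mb := by
    intro i
    obtain ⟨e', eb, mb, _, _, _, a4⟩ := CF0 Q (Ysc (M i)) 1 E0 p0 (fun _ => 0) hQ0 (hM i) hE01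
    exact ⟨_, mb, a4⟩
  obtain ⟨C0, mb0, hC0⟩ : ∃ (B' : ℤ → Ch → ℂ) (mb : Ch → ℝ), Cf (Q ^ 100) Y B' mb := by
    have hQ100' : 1 ≤ Q ^ 100 := Nat.one_le_pow _ _ hQ0
    obtain ⟨e', eb, mb, _, _, _, a4⟩ := CF0 (Q ^ 100) Y 1 E0 p0 (fun _ => 0) hQ100' hMB hE01
    exact ⟨_, mb, a4⟩
  have hwb : ∀ n ∈ Ico X1 (2 * X1), |lp (B.eval (n : ℤ))| ≤ (Real.log X) ^ 2 :=
    (hW2' Q X X1 Y B C0 mb0 (by omega) hRgd hG.pos hG.le hG.ge hGB hC0 X1 X1 le_rfl (by omega)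
      (Nat.le_mul_of_pos_right _ (Nat.pow_pos hQ0))).2
  have hms := hS4' P hPD Q X X1 M b s β (by omega) hRgb hG
    (hXτ.trans (mul_le_mul_of_nonneg_left hQττ (Nat.cast_nonneg _)))
    (fun i => (hMτ i).trans (mul_le_mul_of_nonneg_left hQττ (by positivity)))
    (fun j => (hs1 j).trans (mul_le_mul_of_nonneg_right hQττ (Nat.cast_nonneg _)))
    (fun j => (hs2 j).trans (mul_le_mul_of_nonneg_right hQττ (by positivity)))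
    hcfM hrange (fun n => lp (B.eval (n : ℤ))) hwb
  have hms' : ∑ t ∈ tb b s, |RPh X1 B P (hh c β t) - Rw Q X1 P M (fun n => lp (B.eval (n : ℤ))) (hh c β t)| ^ 2 ≤
      (X1 : ℝ) ^ 2 * (tb b s).card * (Q : ℝ) ^ (-c0) := by
    refine le_trans (le_of_eq ?_) hms
    refine sum_congr rfl fun t _ => ?_
    rw [sq_abs]
    rfl
  have hch := u9_cheb (tb b s) (fun t => |RPh X1 B P (hh c β t) -
    Rw Q X1 P M (fun n => lp (B.eval (n : ℤ))) (hh c β t)|) X1 Q hG.pos hQ0 c0 (fun _ => abs_nonneg _) hms'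
  -- the conclusion
  have hQcf : (3 : ℝ) ≤ (Q : ℝ) ^ cf := by
    have := hQ8 Q (by omega)
    rwa [Real.rpow_zero, mul_one] at this
  have h3 := u9_three hQ0 c2 (c0 / 4) (c0 / 2) cf hcf1 hcf2 (by linarith) hQcf
  have p2 : 0 < (Q : ℝ) ^ (-c2) := Real.rpow_pos_of_pos hQr _
  have p4 : 0 < (Q : ℝ) ^ (-(c0 / 4)) := Real.rpow_pos_of_pos hQr _
  have p5 : 0 < (Q : ℝ) ^ (-(c0 / 2)) := Real.rpow_pos_of_pos hQr _
  have hX1r : (0 : ℝ) < X1 := by exact_mod_cast hG.pos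
  have hsub : (tb b s).filter (fun t => X1 * (((1 + E0) ^ (k + 1) - 1) * SSf (pr Q) (sys B P (hh c β t)) + (Q : ℝ) ^ (-cf)) <
      |RPh X1 B P (hh c β t) - X1 * SSf (pr Q) (sys B P (hh c β t))|) ⊆
      (tb b s).filter Bd ∪ (tb b s).filter (fun t => (X1 : ℝ) * (Q : ℝ) ^ (-(c0 / 4)) <
        |RPh X1 B P (hh c β t) - Rw Q X1 P M (fun n => lp (B.eval (n : ℤ))) (hh c β t)|) := by
    intro t ht
    rw [mem_filter] at ht
    obtain ⟨ht1, ht2⟩ := ht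
    rw [mem_union, mem_filter, mem_filter]
    by_contra hcon
    push Not at hcon
    have h1 := hcon.2 ht1
    have h2 : |Rw Q X1 P M (fun n => lp (B.eval (n : ℤ))) (hh c β t) - X1 * SSf (pr Q) (sys B P (hh c β t))| ≤
        X1 * (((1 + E0) ^ (k + 1) - 1) * SSf (pr Q) (sys B P (hh c β t)) + (Q : ℝ) ^ (-c2)) := by
      by_contra h
      push Not at h
      exact hcon.1 ht1 ((hBd t).2 h)
    have h4 := abs_sub_le (RPh X1 B P (hh c β t)) (Rw Q X1 P M (fun n => lp (B.eval (n : ℤ))) (hh c β t))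
      (X1 * SSf (pr Q) (sys B P (hh c β t)))
    have h5 : (X1 : ℝ) * ((Q : ℝ) ^ (-c2) + (Q : ℝ) ^ (-(c0 / 4))) ≤ X1 * (Q : ℝ) ^ (-cf) :=
      mul_le_mul_of_nonneg_left (by linarith) hX1r.le
    have h6 : (X1 : ℝ) * (((1 + E0) ^ (k + 1) - 1) * SSf (pr Q) (sys B P (hh c β t)) + (Q : ℝ) ^ (-cf)) =
      X1 * (((1 + E0) ^ (k + 1) - 1) * SSf (pr Q) (sys B P (hh c β t))) + X1 * (Q : ℝ) ^ (-cf) := by ring
    have h7 : (X1 : ℝ) * (((1 + E0) ^ (k + 1) - 1) * SSf (pr Q) (sys B P (hh c β t)) + (Q : ℝ) ^ (-c2)) =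
      X1 * (((1 + E0) ^ (k + 1) - 1) * SSf (pr Q) (sys B P (hh c β t))) + X1 * (Q : ℝ) ^ (-c2) := by ring
    rw [h6] at ht2
    rw [h7] at h2
    rw [mul_add] at h5
    linarith
  have hcard := (card_le_card hsub).trans (card_union_le _ _)
  have hcard' : (((tb b s).filter (fun t => X1 * (((1 + E0) ^ (k + 1) - 1) * SSf (pr Q) (sys B P (hh c β t)) +
      (Q : ℝ) ^ (-cf)) < |RPh X1 B P (hh c β t) - X1 * SSf (pr Q) (sys B P (hh c β t))|)).card : ℝ) ≤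
      (((tb b s).filter Bd).card : ℝ) + (((tb b s).filter (fun t => (X1 : ℝ) * (Q : ℝ) ^ (-(c0 / 4)) <
        |RPh X1 B P (hh c β t) - Rw Q X1 P M (fun n => lp (B.eval (n : ℤ))) (hh c β t)|)).card : ℝ) := by
    exact_mod_cast hcard
  have h4 := mul_le_mul_of_nonneg_left h3 (Nat.cast_nonneg (tb b s).card : (0 : ℝ) ≤ (tb b s).card)
  have h5 : ((tb b s).card : ℝ) * ((Q : ℝ) ^ (-c2) + (Q : ℝ) ^ (-(c0 / 4)) + (Q : ℝ) ^ (-(c0 / 2))) =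
      (tb b s).card * (Q : ℝ) ^ (-c2) + (tb b s).card * (Q : ℝ) ^ (-(c0 / 4)) +
      (tb b s).card * (Q : ℝ) ^ (-(c0 / 2)) := by ring
  rw [h5] at h4
  have h6 : 0 ≤ ((tb b s).card : ℝ) * (Q : ℝ) ^ (-(c0 / 4)) := mul_nonneg (Nat.cast_nonneg _) p4.le
  linarith

end Pool.Agent.H9P
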