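import Pool.Agent.Lib.H9P.E1
import Pool.Agent.Lib.H9P.E2
import Pool.Agent.Lib.H9P.U9
import Pool.Agent.Lib.H24P.L

/-!
# ASYP, chunk E3 (M): the levels satisfy `Lvl`
-/

open Finset Polynomial

namespace Pool.Agent.H9P

open Pool.Agent.Lib.H68T Pool.Agent.Lib.H18Q Pool.Agent.Lib.H59P Pool.Agent.Lib.H24P
open Pool.Agent.HUP

theorem e3_log (a b : ℝ) (ha : 0 < a) (hb : 0 < b) : ∃ Q0 : ℕ, 3 ≤ Q0 ∧ ∀ Q : ℕ, Q0 ≤ Q →
    (Q : ℝ) ^ (-a) + (Real.log Q) ^ (-(2 * b)) ≤ (Real.log Q) ^ (-b) := by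
  obtain ⟨Q1, h3, h⟩ := G1_aux 2 b a ha
  refine ⟨max Q1 ⌈Real.exp ((2 : ℝ) ^ (1 / b))⌉₊, h3.trans (le_max_left _ _), fun Q hQ => ?_⟩
  have q1 : Q1 ≤ Q := (le_max_left _ _).trans hQ
  have hQ0 : (0 : ℝ) < Q := by exact_mod_cast (show 0 < Q by omega)
  have hL1 : 1 ≤ Real.log Q := G1_log1 (h3.trans q1)
  have hL0 : 0 < Real.log Q := by linarith
  have hL2 : (2 : ℝ) ^ (1 / b) ≤ Real.log Q := by
    rw [Real.le_log_iff_exp_le hQ0]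
    exact (Nat.le_ceil _).trans (by exact_mod_cast (le_max_right _ _).trans hQ)
  have hLb : (2 : ℝ) ≤ (Real.log Q) ^ b := by
    have h1 : ((2 : ℝ) ^ (1 / b)) ^ b = 2 := by
      rw [← Real.rpow_mul (by norm_num), one_div_mul_cancel hb.ne', Real.rpow_one]
    rw [← h1]
    exact Real.rpow_le_rpow (by positivity) hL2 hb.le
  have h1 := h Q q1
  have hp : 0 < (Real.log Q) ^ b := by linarith
  have h2 : (Real.log Q) ^ (-(2 * b)) = (Real.log Q) ^ (-b) * (Real.log Q) ^ (-b) := by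
    rw [← Real.rpow_add hL0]
    congr 1
    ring
  have h4 : (Real.log Q) ^ (-b) = ((Real.log Q) ^ b)⁻¹ := Real.rpow_neg hL0.le _
  have h5 : (Real.log Q) ^ (-b) ≤ 1 / 2 := by
    rw [h4, ← one_div]
    exact one_div_le_one_div_of_le (by norm_num) hLb
  have h6 : 0 < (Real.log Q) ^ (-b) := Real.rpow_pos_of_pos hL0 _
  have h7 : (Q : ℝ) ^ (-a) ≤ 1 / 2 * (Real.log Q) ^ (-b) := by
    rw [Real.rpow_neg hQ0.le, h4, ← one_div, ← one_div, one_div_mul_one_div]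
    exact one_div_le_one_div_of_le (by positivity) h1
  have h8 : (Real.log Q) ^ (-b) * (Real.log Q) ^ (-b) ≤ (Real.log Q) ^ (-b) * (1 / 2) :=
    mul_le_mul_of_nonneg_left h5 h6.le
  rw [h2]
  linarith

theorem e3_nn {k : ℕ} (Q : ℕ) (φ : Fin k → ℤ → ℤ) : 0 ≤ SSf (pr Q) φ :=
  p5_SS_nonneg _ (fun _ hl => (p5_mem_pr.mp hl).1) φ

theorem e3_mono {k A E : ℕ} {Cc cc : ℝ} {Q Z : ℕ} {ε ε' c1 c1' ϑ ϑ' : ℝ} (hQ : 1 ≤ Q)
    (h : Lvl k A E Cc cc Q Z ε c1 ϑ) (hε : ε ≤ ε') (hc : c1' ≤ c1) (hϑ : ϑ ≤ ϑ') :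
    Lvl k A E Cc cc Q Z ε' c1' ϑ' := by
  classical
  refine ⟨h.cf, ?_⟩
  intro P hP X1 Y M B hG hB h1 h2 h3 ι S g h0 hCl
  have h4 := h.cell P hP X1 Y M B hG hB h1 h2 h3 ι S g h0 hCl
  have hQr : (1 : ℝ) ≤ Q := by exact_mod_cast hQ
  refine le_trans ?_ (h4.trans (mul_le_mul_of_nonneg_left hϑ (Nat.cast_nonneg _)))
  refine Nat.cast_le.2 (card_le_card fun x hx => ?_)
  rw [mem_filter] at hx ⊢
  refine ⟨hx.1, hx.2.1, lt_of_le_of_lt ?_ hx.2.2⟩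
  refine mul_le_mul_of_nonneg_left (add_le_add ?_ ?_) (Nat.cast_nonneg _)
  · exact mul_le_mul_of_nonneg_right hε (e3_nn Q _)
  · exact Real.rpow_le_rpow_of_exponent_le hQr (by linarith)

/-- Without exceptional zero. Proof. `cf` by `CF0`; `cell` by `U9_cell`. -/
theorem E3_good (k A E : ℕ) (hA : 1 ≤ A) (Cc cc : ℝ) (hC : FPar Cc cc) :
    ∃ c1 K : ℝ, 0 < c1 ∧ 1 ≤ K ∧ ∀ C E0 : ℝ, 0 ≤ E0 → E0 ≤ 1 → ∃ Q0 : ℕ, ∀ Q Z : ℕ, Q0 ≤ Q → Rg K C Q Z →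
    Lv A Q Z E0 → Lvl k A E Cc cc Q Z ((1 + E0) ^ (k + 1) - 1) c1 ((Q : ℝ) ^ (-c1)) := by
  classical
  obtain ⟨c1, K, hc1, hK, hcell⟩ := U9_cell k A E hA Cc cc hC
  refine ⟨c1, K, hc1, hK, fun C E0 hE0 hE1 => ?_⟩
  obtain ⟨Q0, hcell⟩ := hcell C E0 hE0 hE1
  refine ⟨max Q0 1, fun Q Z hQ hRg hL => ?_⟩
  have q0 : Q0 ≤ Q := (le_max_left _ _).trans hQ
  have q1 : 1 ≤ Q := (le_max_right _ _).trans hQ
  refine ⟨fun Y h1 h2 => ?_, ?_⟩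
  · obtain ⟨e, eb, mb, _, _, _, a4⟩ := CF0 Q Y 1 E0 p0 (fun _ => 0) q1 (hL Y h1 h2).1 hE1
    exact ⟨_, mb, a4⟩
  · intro P hP X1 Y M B hG hB h1 h2 h3 ι S g h0 hCl
    have h4 := hcell P hP Q Z X1 Y M B q0 hRg hG hB (hL Y h1 h2).2 (fun i => (hL _ (h3 i).1 (h3 i).2).1)
      ι S g h0 hCl
    refine le_trans (Nat.cast_le.2 (card_le_card fun x hx => ?_)) h4
    rw [mem_filter] at hx ⊢
    exact ⟨hx.1, hx.2.2⟩

/-- **E3.** With an exceptional zero (compare `U9_cell`). Proof. `px = ⟨r, ψ⟩ ∈ PC Q` (`r ≤ r^100 ≤ Q`, primitive), `th m = m^(β-1)`; `cf` by `CF0`. `cell`: `CF0` for all coordinates, `U6_ms` with `r := r`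
(mean square of `Rw - MZb`), Chebyshev: `Bad1`, at most `S.card Q^(-2 c1)`; `E1_main` (`FGood` at `Q` from `Cl.good` at `Q^2`): `Bad2`, at most `S.card (log Q)^(-2 c2)`; for the other `x` with `NoFix`:
`E2_main` with `th0 = Q^(β-1)` (`th m = m^(β-1) ≤ Q^(β-1)` for `m ≥ Y ≥ Q`, `β < 1`). `B.leadingCoeff.natAbs * r ≤ fl Q (1/16)`: `G1_size`. The sum of the two is at most `S.card (log Q)^(-c2)` for `Q` large. -/
theorem E3_exc (k A E : ℕ) (hA : 1 ≤ A) (Cc cc : ℝ) (hC : FPar Cc cc) :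
    ∃ c1 c2 K : ℝ, 0 < c1 ∧ 0 < c2 ∧ 1 ≤ K ∧ ∀ C E0 ε : ℝ, 0 ≤ E0 → E0 ≤ 1 → 0 < ε → ∃ Q0 : ℕ, ∀ Q Z : ℕ, Q0 ≤ Q →
    Rg K C Q Z → LvX A Q Z E0 →
    Lvl k A E Cc cc Q Z (((1 + E0) ^ (k + 1) - 1) * (1 + ε) + ε) c1 ((Real.log Q) ^ (-c2)) := by
  classical
  obtain ⟨c, K, hc, hK, hms⟩ := U6_ms k A E hA Cc cc hC
  obtain ⟨c2, hc2, hE1⟩ := E1_main k A E hA Cc cc hC
  obtain ⟨Q1, hQ1, hsize⟩ := G1_size A
  refine ⟨c / 4, c2 / 2, max K 2, by positivity, by positivity, le_max_of_le_left hK, fun C E0 ε hE0 hE01 hε => ?_⟩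
  obtain ⟨Q0, hms⟩ := hms C
  obtain ⟨Q2, hE1⟩ := hE1 ε hε
  obtain ⟨Q3, hQ3, hlog⟩ := e3_log (c / 2) (c2 / 2) (by positivity) (by positivity)
  refine ⟨max (max Q0 Q1) (max Q2 Q3), fun Q Z hQ hRg hL => ?_⟩
  have hQ' := max_le_iff.1 hQ
  have q0 : Q0 ≤ Q := (max_le_iff.1 hQ'.1).1
  have q1 : Q1 ≤ Q := (max_le_iff.1 hQ'.1).2
  have q2 : Q2 ≤ Q := (max_le_iff.1 hQ'.2).1
  have q3 : Q3 ≤ Q := (max_le_iff.1 hQ'.2).2
  have hQ1' : 1 ≤ Q := hQ1.trans q1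
  have hQr : (1 : ℝ) ≤ Q := by exact_mod_cast hQ1'
  have hQr0 : (0 : ℝ) < Q := by linarith
  have hQ100 : 1 ≤ Q ^ 100 := Nat.one_le_pow _ _ hQ1'
  have rK : Rg K C Q Z := z4_rg (le_max_left _ _) hRg
  have r2 : Rg 2 C Q Z := z4_rg (le_max_right _ _) hRg
  obtain ⟨r, hr0, ψ, β, η, hr100, hprim, hne, hsq, hβ, hzero, _, hM⟩ := hL
  have hr1 : 1 ≤ r := Nat.one_le_iff_ne_zero.2 (NeZero.ne r)
  refine ⟨fun Y h1 h2 => ?_, ?_⟩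
  · obtain ⟨e, eb, mb, _, _, _, a4⟩ := CF0 Q Y η E0 ⟨r, ψ⟩ (fun m => (m : ℝ) ^ (β - 1)) hQ1' (hM Y h1 h2).1 hE01
    exact ⟨_, mb, a4⟩
  intro P hP X1 Y M B hG hB h1 h2 h3 ι S g h0 hCl
  obtain ⟨e0, eb0, mb0, a1, a2, a3, a4⟩ := CF0 (Q ^ 100) Y η E0 ⟨r, ψ⟩ (fun m => (m : ℝ) ^ (β - 1)) hQ100
    (hM Y h1 h2).2 hE01
  choose e eb mb b1 b2 b3 b4 using fun i => CF0 Q (Ysc (M i)) η E0 ⟨r, ψ⟩ (fun m => (m : ℝ) ^ (β - 1)) hQ1'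
    (hM _ (h3 i).1 (h3 i).2).1 hE01
  have hms' := hms P hP Q Z X1 Y M B _ mb0 q0 rK hG hB a4 _ mb b4 r hr1 hr100 ι S g h0 hCl
  have hch := u9_cheb S (fun x => ‖((Rw Q X1 P M (fun n => lp (B.eval (n : ℤ))) (g x) : ℝ) : ℂ) -
    MZb Q X1 (B.leadingCoeff.natAbs * r) P B
      (fun m p => MX ⟨r, ψ⟩ (fun m => (m : ℝ) ^ (β - 1)) m p + e0 m p)
      (fun i m p => MX ⟨r, ψ⟩ (fun m => (m : ℝ) ^ (β - 1)) m p + e i m p) h0 (g x)‖) X1 Q hG.pos hQ1' c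
    (fun _ => norm_nonneg _) hms'
  have hlc0 : 1 ≤ B.leadingCoeff.natAbs := by
    have h2 : B.leadingCoeff ≠ 0 := by
      rw [Ne, leadingCoeff_eq_zero]
      intro h3
      have h4 := hB.lin.deg
      rw [h3, natDegree_zero] at h4
      omega
    exact Int.natAbs_pos.2 h2
  have hcond := (hsize Q q1 r B.leadingCoeff.natAbs hlc0 hB.lin.lc hr100).1
  have hFG : FGood E Cc cc Q P S g := fun Q' g1 g2 => hCl.good Q' g1 (g2.trans (Nat.le_self_pow two_ne_zero Q))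
  obtain ⟨Bad, hBS, hBcard, hBad⟩ := hE1 Q q2 B hB.lin P hP r ψ β hr100 hprim hne hsq hβ hzero ι S g hFG
  -- lower bounds of the scales
  have hZ0 : 0 < Z := lt_of_lt_of_le hG.pos hG.le
  have hZr : (0 : ℝ) < Z := by exact_mod_cast hZ0
  have hQ2Z : Q ^ 2 ≤ Z := by
    have g1 : Real.log ((Q : ℝ) ^ 2) ≤ Real.log Z := by
      rw [Real.log_pow]
      push_cast
      exact r2.1
    have g2 : (Q : ℝ) ^ 2 ≤ Z := (Real.log_le_log_iff (by positivity) hZr).mp g1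
    exact_mod_cast g2
  have hQY : ∀ Y' : ℕ, Z ≤ Y' ^ 2 → Q ≤ Y' := by
    intro Y' g1
    by_contra g2
    push Not at g2
    have g3 : Y' ^ 2 < Q ^ 2 := Nat.pow_lt_pow_left g2 two_ne_zero
    omega
  have hth : ∀ Y' : ℕ, Z ≤ Y' ^ 2 → ∀ m : ℤ, (Y' : ℤ) ≤ m → (m : ℝ) ^ (β - 1) ≤ (Q : ℝ) ^ (β - 1) := by
    intro Y' g1 m g2
    have g3 : (Q : ℤ) ≤ m := le_trans (by exact_mod_cast hQY Y' g1) g2
    exact Real.rpow_le_rpow_of_nonpos hQr0 (by exact_mod_cast g3) (by linarith)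
  have hsub : (S.filter (fun x => NoFix (sys B P (g x)) ∧
      X1 * ((((1 + E0) ^ (k + 1) - 1) * (1 + ε) + ε) * SSf (pr Q) (sys B P (g x)) + (Q : ℝ) ^ (-(c / 4))) <
      |Rw Q X1 P M (fun n => lp (B.eval (n : ℤ))) (g x) - X1 * SSf (pr Q) (sys B P (g x))|)) ⊆
      (S.filter (fun x => (X1 : ℝ) * (Q : ℝ) ^ (-(c / 4)) < ‖((Rw Q X1 P M (fun n => lp (B.eval (n : ℤ))) (g x) : ℝ) : ℂ) -
        MZb Q X1 (B.leadingCoeff.natAbs * r) P B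
          (fun m p => MX ⟨r, ψ⟩ (fun m => (m : ℝ) ^ (β - 1)) m p + e0 m p)
          (fun i m p => MX ⟨r, ψ⟩ (fun m => (m : ℝ) ^ (β - 1)) m p + e i m p) h0 (g x)‖)) ∪ Bad := by
    intro x hx
    rw [mem_filter] at hx
    rw [mem_union, mem_filter]
    by_cases hxB : x ∈ Bad
    · exact Or.inr hxB
    refine Or.inl ⟨hx.1, ?_⟩
    have hP1 := hBad x hx.1 hxB hx.2.1
    have h7 := E2_main P A Q Z X1 Y hQ1' M B hG hB η E0 ⟨r, ψ⟩ (fun m => (m : ℝ) ^ (β - 1)) (hM Y h1 h2).1.mem hcond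
      (hM Y h1 h2).2 (fun i => (hM _ (h3 i).1 (h3 i).2).1) hE0 e0 eb0 a1 a2 a3 e eb b2 b3 h0 hCl.memb (g x) ε
      ((Q : ℝ) ^ (β - 1)) hε.le (fun m g1 _ => hth Y h1 m g1) (fun i m g1 _ => hth _ (h3 i).1 m g1) hP1
    have h8 : |Rw Q X1 P M (fun n => lp (B.eval (n : ℤ))) (g x) - X1 * SSf (pr Q) (sys B P (g x))| =
        ‖((Rw Q X1 P M (fun n => lp (B.eval (n : ℤ))) (g x) : ℝ) : ℂ) -
          ((X1 * SSf (pr Q) (sys B P (g x)) : ℝ) : ℂ)‖ := by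
      rw [← Complex.ofReal_sub, Complex.norm_real, Real.norm_eq_abs]
    have h9 := norm_sub_le_norm_sub_add_norm_sub ((Rw Q X1 P M (fun n => lp (B.eval (n : ℤ))) (g x) : ℝ) : ℂ)
      (MZb Q X1 (B.leadingCoeff.natAbs * r) P B
        (fun m p => MX ⟨r, ψ⟩ (fun m => (m : ℝ) ^ (β - 1)) m p + e0 m p)
        (fun i m p => MX ⟨r, ψ⟩ (fun m => (m : ℝ) ^ (β - 1)) m p + e i m p) h0 (g x))
      ((X1 * SSf (pr Q) (sys B P (g x)) : ℝ) : ℂ)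
    have h10 := hx.2.2
    rw [h8] at h10
    have h11 : (X1 : ℝ) * ((((1 + E0) ^ (k + 1) - 1) * (1 + ε) + ε) * SSf (pr Q) (sys B P (g x)) + (Q : ℝ) ^ (-(c / 4))) =
      X1 * ((((1 + E0) ^ (k + 1) - 1) * (1 + ε) + ε) * SSf (pr Q) (sys B P (g x))) + X1 * (Q : ℝ) ^ (-(c / 4)) := by ring
    rw [h11] at h10
    linarith
  have hcard := (card_le_card hsub).trans (card_union_le _ _)
  have hcard' : (((S.filter (fun x => NoFix (sys B P (g x)) ∧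
      X1 * ((((1 + E0) ^ (k + 1) - 1) * (1 + ε) + ε) * SSf (pr Q) (sys B P (g x)) + (Q : ℝ) ^ (-(c / 4))) <
      |Rw Q X1 P M (fun n => lp (B.eval (n : ℤ))) (g x) - X1 * SSf (pr Q) (sys B P (g x))|)).card : ℕ) : ℝ) ≤
      (((S.filter (fun x => (X1 : ℝ) * (Q : ℝ) ^ (-(c / 4)) < ‖((Rw Q X1 P M (fun n => lp (B.eval (n : ℤ))) (g x) : ℝ) : ℂ) -
        MZb Q X1 (B.leadingCoeff.natAbs * r) P B
          (fun m p => MX ⟨r, ψ⟩ (fun m => (m : ℝ) ^ (β - 1)) m p + e0 m p)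
          (fun i m p => MX ⟨r, ψ⟩ (fun m => (m : ℝ) ^ (β - 1)) m p + e i m p) h0 (g x)‖)).card : ℕ) : ℝ) +
      (Bad.card : ℝ) := by
    exact_mod_cast hcard
  have h12 := mul_le_mul_of_nonneg_left (hlog Q q3) (Nat.cast_nonneg S.card : (0 : ℝ) ≤ S.card)
  have h13 : -(2 * (c2 / 2)) = -c2 := by ring
  rw [h13, mul_add] at h12
  exact hcard'.trans ((add_le_add hch hBcard).trans h12)

/-- **E3b.** All large scales. Proof. `L_levels` (`H24P/L.lean`) with `A + 1` and `K0 = K`; `E3_good` (if the first alternative holds; `Q^(-c1) ≤ (log Q)^(-c2)` for `Q` large) or `E3_exc`. Choose `E0`, `ε'`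
with `((1 + E0)^(k+1) - 1)(1 + ε') + ε' ≤ ε` (`Lvl` is monotone in `ε`, `ϑ`, and antitone in `c1`: take the smaller `c1`). `Q → ∞` as `Z → ∞` (`log Z ≤ C log Q`). -/
theorem E3_all (k A E : ℕ) (hA : 1 ≤ A) (Cc cc : ℝ) (hC : FPar Cc cc) (K' : ℝ) (hK' : 1 ≤ K') :
    ∃ c1 c2 : ℝ, 0 < c1 ∧ 0 < c2 ∧ ∀ ε : ℝ, 0 < ε → ∃ C : ℝ, 1 ≤ C ∧ ∀ Q0 : ℕ, ∃ Z0 : ℕ, ∀ Z : ℕ, Z0 ≤ Z →
    ∃ Q : ℕ, Q0 ≤ Q ∧ Rg K' C Q Z ∧ Lvl k A E Cc cc Q Z ε c1 ((Real.log Q) ^ (-c2)) := by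
  obtain ⟨cg, Kg, hcg, hKg, hgood⟩ := E3_good k A E hA Cc cc hC
  obtain ⟨cx, c2, Kx, hcx, hc2, hKx, hexc⟩ := E3_exc k A E hA Cc cc hC
  refine ⟨min cg cx, c2, lt_min hcg hcx, hc2, fun ε hε => ?_⟩
  obtain ⟨E0, hE0, hE01, hE2⟩ : ∃ E0 : ℝ, 0 < E0 ∧ E0 ≤ 1 ∧ ((1 + E0) ^ (k + 1) - 1) * (1 + E0) + E0 ≤ ε := by
    have g1 : Filter.Tendsto (fun t : ℝ => ((1 + t) ^ (k + 1) - 1) * (1 + t) + t) (nhds 0) (nhds 0) :=
      Continuous.tendsto' (by fun_prop) 0 0 (by simp)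
    have g2 : ∀ᶠ t in nhdsWithin (0 : ℝ) (Set.Ioi 0), ((1 + t) ^ (k + 1) - 1) * (1 + t) + t < ε :=
      (g1.mono_left nhdsWithin_le_nhds).eventually (gt_mem_nhds hε)
    obtain ⟨t, g3, g4⟩ := (g2.and (Ioc_mem_nhdsGT one_pos)).exists
    exact ⟨t, g4.1, g4.2, g3.le⟩
  have hpow : (0 : ℝ) ≤ (1 + E0) ^ (k + 1) - 1 := by
    have : (1 : ℝ) ≤ (1 + E0) ^ (k + 1) := one_le_pow₀ (by linarith)
    linarith
  have hE3 : (1 + E0) ^ (k + 1) - 1 ≤ ε := by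
    have := mul_nonneg hpow hE0.le
    linarith
  obtain ⟨C, hC1, X0, hL⟩ := L_levels (A + 1) E0 (max K' (max Kg Kx)) hE0 (le_max_of_le_left hK')
  refine ⟨C, hC1, fun Q0 => ?_⟩
  obtain ⟨Q1, hgood⟩ := hgood C E0 hE0.le hE01
  obtain ⟨Q2, hexc⟩ := hexc C E0 E0 hE0.le hE01 hE0
  obtain ⟨Q3, hQ3, hlog⟩ := e3_log cg c2 hcg hc2
  obtain ⟨QQ, hQQ⟩ : ∃ QQ : ℕ, QQ = max (max Q0 Q1) (max Q2 Q3) := ⟨_, rfl⟩
  have hQQ3 : 3 ≤ QQ := by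
    rw [hQQ]
    exact hQ3.trans ((le_max_right _ _).trans (le_max_right _ _))
  refine ⟨max X0 ⌈Real.exp (C * Real.log QQ + 1)⌉₊, fun Z hZ => ?_⟩
  obtain ⟨Q, hQ1, hQ2, _, halt⟩ := hL Z ((le_max_left _ _).trans hZ)
  have hZe : Real.exp (C * Real.log QQ + 1) ≤ Z :=
    (Nat.le_ceil _).trans (by exact_mod_cast (le_max_right _ _).trans hZ)
  have hZ0 : (0 : ℝ) < Z := lt_of_lt_of_le (Real.exp_pos _) hZe
  have hlZ : C * Real.log QQ + 1 ≤ Real.log Z := by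
    rw [Real.le_log_iff_exp_le hZ0]
    exact hZe
  have hQge : QQ ≤ Q := by
    by_contra g1
    push Not at g1
    have g2 : Real.log Q ≤ Real.log QQ := by
      rcases Nat.eq_zero_or_pos Q with g3 | g3
      · rw [g3, Nat.cast_zero, Real.log_zero]
        exact Real.log_natCast_nonneg _
      · exact Real.log_le_log (by exact_mod_cast g3) (by exact_mod_cast g1.le)
    have g3 := mul_le_mul_of_nonneg_left g2 (by linarith : (0 : ℝ) ≤ C)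
    linarith
  rw [hQQ] at hQge
  have hQ' := max_le_iff.1 hQge
  have q0 : Q0 ≤ Q := (max_le_iff.1 hQ'.1).1
  have q1 : Q1 ≤ Q := (max_le_iff.1 hQ'.1).2
  have q2 : Q2 ≤ Q := (max_le_iff.1 hQ'.2).1
  have q3 : Q3 ≤ Q := (max_le_iff.1 hQ'.2).2
  have hQ1' : 1 ≤ Q := by omega
  have hRg : Rg (max K' (max Kg Kx)) C Q Z := ⟨hQ1, hQ2⟩
  refine ⟨Q, q0, z4_rg (le_max_left _ _) hRg, ?_⟩
  rcases halt with h | h
  · have h1 := hgood Q Z q1 (z4_rg ((le_max_left _ _).trans (le_max_right _ _)) hRg) h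
    refine e3_mono hQ1' h1 hE3 (min_le_left _ _) ?_
    have h2 := hlog Q q3
    have h3 : 0 ≤ (Real.log Q) ^ (-(2 * c2)) := Real.rpow_nonneg (Real.log_natCast_nonneg Q) _
    linarith
  · have h1 := hexc Q Z q2 (z4_rg ((le_max_right _ _).trans (le_max_right _ _)) hRg) h
    exact e3_mono hQ1' h1 hE2 (min_le_right _ _) le_rfl

end Pool.Agent.H9P
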