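import Pool.Agent.Lib.H9P.U13
import Pool.Agent.Lib.H59.SchinzelCount

/-!
# ASYP, chunk U17 (M): the quantities of the problem
-/

open Finset Polynomial

namespace Pool.Agent.H9P

open Pool.Agent.Lib.H68T Pool.Agent.Lib.H18Q Pool.Agent.Lib.H59P Pool.Agent.Lib.H24P
open Pool.Agent.HUP
open Pool.Agent.Lib.H59 (argSet argCount Admissible primeCount omegaN seriesTrunc)

noncomputable section

/-- The main term `X/(log X)^(g+1) (h_0 h_1 ⋯ h_g)⁻¹ S_z(N)` of Schinzel's formula, `S_z(N)` being the product over the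
primes `p < z` of the factors of `𝔖(N)`. -/
def mainTermP {g : ℕ} (F : Fin g → ℤ[X]) (G : ℤ[X]) (N z : ℕ) : ℝ :=
  (argCount G N : ℝ) / Real.log (argCount G N) ^ (g + 1) *
    ((G.natDegree : ℝ) * ∏ i, ((F i).natDegree : ℝ))⁻¹ * seriesTrunc F G N z

/-- `N` is admissible for `F, G`, and `Q_1(N)` differs from the main term by more than `ε` times the main term. -/
def FailsP {g : ℕ} (ε : ℝ) (F : Fin g → ℤ[X]) (G : ℤ[X]) (N z : ℕ) : Prop :=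
  Admissible F G N ∧ ε * mainTermP F G N z < |(primeCount F G N : ℝ) - mainTermP F G N z|

/-- The polynomials `P_i + b_i + ψ_i(t)`. -/
def famP {g d : ℕ} (P : Fin g → ℤ[X]) (c : Fin g → Fin d → ℤ) (b : Fin g → ℤ) (t : Fin d → ℤ) : Fin g → ℤ[X] :=
  fun i => P i + C (b i + lf c t i)

end

/-- a value is a prime -/
theorem u17_prime (z : ℤ) : z.toNat.Prime ↔ ∃ q : ℕ, q.Prime ∧ z = q := by
  constructor
  · intro h
    have h1 := h.pos
    exact ⟨z.toNat, h, by omega⟩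
  · rintro ⟨q, hq, rfl⟩
    rwa [Int.toNat_natCast]

/-- a linear polynomial -/
theorem u17_ev (G : ℤ[X]) (hG : G.natDegree = 1) (n : ℤ) : G.eval n = G.leadingCoeff * n + G.coeff 0 := by
  rw [eval_eq_sum_range, hG, sum_range_succ, sum_range_one, leadingCoeff, hG, pow_zero, pow_one, mul_one, add_comm]

/-- the arguments -/
theorem u17_arg (G : ℤ[X]) (hG : G.natDegree = 1) (hG0 : 0 < G.leadingCoeff) (N : ℕ) :
    argSet G N = ((Icc 1 (argCount G N) : Finset ℕ) : Set ℕ) := by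
  have h1 : argSet G N = ((Icc 1 (((N : ℤ) - G.coeff 0 - 1) / G.leadingCoeff).toNat : Finset ℕ) : Set ℕ) := by
    ext n
    rw [mem_coe, mem_Icc]
    have h2 : (n : ℤ) ≤ ((N : ℤ) - G.coeff 0 - 1) / G.leadingCoeff ↔
        (n : ℤ) * G.leadingCoeff ≤ (N : ℤ) - G.coeff 0 - 1 := Int.le_ediv_iff_mul_le hG0
    have e0 : G.leadingCoeff * (n : ℤ) = n * G.leadingCoeff := mul_comm _ _
    constructor
    · rintro ⟨h3, h4⟩
      rw [u17_ev G hG, e0] at h4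
      have h5 := h2.2 (by linarith)
      omega
    · rintro ⟨h3, h4⟩
      have h5 := h2.1 (by omega)
      refine ⟨by omega, ?_⟩
      rw [u17_ev G hG, e0]
      linarith
  have h2 : argCount G N = (((N : ℤ) - G.coeff 0 - 1) / G.leadingCoeff).toNat := by
    unfold argCount
    rw [h1, Set.ncard_coe_finset, Nat.card_Icc]
    omega
  rw [h2]
  exact h1

/-- values of the members of the family -/
theorem u17_fam {g d : ℕ} (P : Fin g → ℤ[X]) (c : Fin g → Fin d → ℤ) (b : Fin g → ℤ) (t : Fin d → ℤ)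
    (h0 : ∀ i, 0 ≤ b i + lf c t i) (i : Fin g) : famP P c b t i = P i + C ((hh c b t i : ℕ) : ℤ) := by
  unfold famP hh
  rw [Int.toNat_of_nonneg (h0 i)]

/-- values of the system -/
theorem u17_sysS {g d : ℕ} (G : ℤ[X]) (P : Fin g → ℤ[X]) (c : Fin g → Fin d → ℤ) (b : Fin g → ℤ) (t : Fin d → ℤ) (N : ℕ)
    (h0 : ∀ i, 0 ≤ b i + lf c t i) (i : Fin g) (n : ℤ) :
    sys (C (N : ℤ) - G) P (hh c b t) i.succ n = (famP P c b t i).eval n := by
  rw [u17_fam P c b t h0]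
  unfold sys ran
  rw [Fin.cons_succ, eval_add, eval_C]

theorem u17_sys0 {g d : ℕ} (G : ℤ[X]) (P : Fin g → ℤ[X]) (c : Fin g → Fin d → ℤ) (b : Fin g → ℤ) (t : Fin d → ℤ) (N : ℕ)
    (n : ℤ) : sys (C (N : ℤ) - G) P (hh c b t) 0 n = (N : ℤ) - G.eval n := by
  unfold sys
  rw [Fin.cons_zero, eval_sub, eval_C]

/-- **U17a.** The number of the arguments. Proof. `N - G(n) = N - γ0 - γ n > 0`, `n ≥ 1`. (Compare `H59/SchinzelCount.lean`, `H9A/N10a.lean`.) -/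
theorem U17_dec (G : ℤ[X]) (hG : G.natDegree = 1) (hG0 : 0 < G.leadingCoeff) : ∃ N0 : ℕ, ∀ N : ℕ, N0 ≤ N →
    Dec G.leadingCoeff.natAbs (argCount G N) (C (N : ℤ) - G) ∧ argSet G N = ↑(Icc 1 (argCount G N)) ∧
    |(G.leadingCoeff.natAbs * argCount G N : ℝ) - N| ≤ |(G.coeff 0 : ℝ)| + G.leadingCoeff.natAbs := by
  refine ⟨(G.coeff 0).natAbs + G.leadingCoeff.natAbs + 1, fun N hN => ?_⟩
  have hs := u17_arg G hG hG0 N
  obtain ⟨Z, hZ⟩ : ∃ Z : ℕ, Z = argCount G N := ⟨_, rfl⟩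
  rw [← hZ] at hs ⊢
  have hev := u17_ev G hG
  have hZ1 : 1 ≤ Z := by
    have h1 : 1 ∈ argSet G N := by
      refine ⟨one_pos, ?_⟩
      rw [hev]
      push_cast
      omega
    rw [hs, mem_coe, mem_Icc] at h1
    exact h1.2
  have hpos : 0 < (N : ℤ) - G.eval (Z : ℤ) := by
    have h1 : Z ∈ argSet G N := by
      rw [hs, mem_coe, mem_Icc]
      exact ⟨hZ1, le_rfl⟩
    exact h1.2
  have hlast : (N : ℤ) - G.eval ((Z : ℤ) + 1) ≤ 0 := by
    by_contra hc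
    have h1 : Z + 1 ∈ argSet G N := by
      refine ⟨Nat.succ_pos _, ?_⟩
      push_cast
      omega
    rw [hs, mem_coe, mem_Icc] at h1
    omega
  have hlc : (C (N : ℤ) - G).leadingCoeff = - G.leadingCoeff := by
    rw [leadingCoeff, Pool.Agent.Lib.H59.natDegree_C_sub', hG, coeff_sub, coeff_C, if_neg one_ne_zero, zero_sub, leadingCoeff, hG]
  refine ⟨⟨?_, ?_, ?_, ?_, ?_⟩, hs, ?_⟩
  · rw [Pool.Agent.Lib.H59.natDegree_C_sub', hG]
  · rw [hlc]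
    omega
  · rw [hlc, Int.natAbs_neg]
  · rw [eval_sub, eval_C]
    exact hpos
  · rw [eval_sub, eval_C]
    exact hlast
  · rw [hev] at hpos hlast
    have e1 : ((G.leadingCoeff.natAbs : ℕ) : ℝ) = (G.leadingCoeff : ℝ) := by
      rw [Nat.cast_natAbs, abs_of_pos hG0]
    rw [e1]
    have h1 : (0 : ℝ) < N - (G.leadingCoeff * Z + G.coeff 0) := by exact_mod_cast hpos
    have h2 : (N : ℝ) - (G.leadingCoeff * (Z + 1) + G.coeff 0) ≤ 0 := by exact_mod_cast hlast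
    have h3 := le_abs_self (G.coeff 0 : ℝ)
    have h4 := neg_abs_le (G.coeff 0 : ℝ)
    have h5 : (0 : ℝ) < G.leadingCoeff := by exact_mod_cast hG0
    rw [abs_le]
    constructor <;> linarith

/-- **U17b.** Proof. `argSet = Icc 1 Z`; `z.toNat.Prime ↔ ∃ q prime, z = q`; `Fin.forall_fin_succ`. -/
theorem U17_cnt {g d : ℕ} (G : ℤ[X]) (P : Fin g → ℤ[X]) (c : Fin g → Fin d → ℤ) (b : Fin g → ℤ) (t : Fin d → ℤ) (N : ℕ)
    (h0 : ∀ i, 0 ≤ b i + lf c t i) (hs : argSet G N = ↑(Icc 1 (argCount G N))) :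
    primeCount (famP P c b t) G N = cnt (sys (C (N : ℤ) - G) P (hh c b t)) 1 (argCount G N) := by
  classical
  unfold primeCount cnt
  have e1 : {n : ℕ | n ∈ argSet G N ∧ (∀ i, ∃ q : ℕ, q.Prime ∧ (famP P c b t i).eval (n : ℤ) = q) ∧
        ∃ q : ℕ, q.Prime ∧ (N : ℤ) - G.eval (n : ℤ) = q} =
      (((Ico 1 (1 + argCount G N)).filter (fun n : ℕ => ∀ i, (sys (C (N : ℤ) - G) P (hh c b t) i (n : ℤ)).toNat.Prime) :
        Finset ℕ) : Set ℕ) := by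
    ext n
    rw [Set.mem_ofPred_eq, hs, mem_coe, mem_coe, mem_filter, mem_Icc, mem_Ico, Fin.forall_fin_succ, u17_sys0, u17_prime]
    constructor
    · rintro ⟨h1, h2, h3⟩
      refine ⟨by omega, h3, fun i => ?_⟩
      rw [u17_sysS G P c b t N h0, u17_prime]
      exact h2 i
    · rintro ⟨h1, h2, h3⟩
      refine ⟨by omega, fun i => ?_, h2⟩
      have h4 := h3 i
      rwa [u17_sysS G P c b t N h0, u17_prime] at h4
  rw [e1, Set.ncard_coe_finset]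

/-- **U17c.** Proof. `Nat.primesBelow z = pr (z - 1)`; `U13_tpf`; `omegaN F G N p` is the `rootCount` of the product (`rfl`, up to the order of the factors). -/
theorem U17_series {g d : ℕ} (G : ℤ[X]) (P : Fin g → ℤ[X]) (c : Fin g → Fin d → ℤ) (b : Fin g → ℤ) (t : Fin d → ℤ) (N z : ℕ)
    (h0 : ∀ i, 0 ≤ b i + lf c t i) :
    seriesTrunc (famP P c b t) G N z = SSf (pr (z - 1)) (sys (C (N : ℤ) - G) P (hh c b t)) := by
  unfold seriesTrunc SSf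
  have e1 : Nat.primesBelow z = pr (z - 1) := by
    ext p
    unfold Nat.primesBelow pr
    rw [mem_filter, mem_filter, mem_range, mem_Icc]
    constructor
    · rintro ⟨h1, h2⟩
      exact ⟨⟨h2.one_lt.le, by omega⟩, h2⟩
    · rintro ⟨h1, h2⟩
      exact ⟨by omega, h2⟩
  rw [e1]
  refine prod_congr rfl fun p hp => ?_
  have hp' : p.Prime := (mem_filter.1 hp).2
  rw [U13_tpf _ _ _ p hp', inv_pow]
  have e2 : omegaN (famP P c b t) G N p =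
      Pool.Agent.Lib.H59.rootCount ((C (N : ℤ) - G) * ∏ i, (P i + C ((hh c b t i : ℕ) : ℤ))) p := by
    unfold omegaN Pool.Agent.Lib.H59.rootCount
    have e3 : (∏ i, famP P c b t i) * (C (N : ℤ) - G) = (C (N : ℤ) - G) * ∏ i, (P i + C ((hh c b t i : ℕ) : ℤ)) := by
      rw [mul_comm]
      refine congrArg _ (prod_congr rfl fun i _ => u17_fam P c b t h0 i)
    rw [e3]
  rw [e2]

/-- **U17d.** Proof. No fixed divisor: for a prime `l` some `n` with `l ∤ ∏ F_i(n) (N - G(n))`. -/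
theorem U17_noFix {g d : ℕ} (G : ℤ[X]) (P : Fin g → ℤ[X]) (c : Fin g → Fin d → ℤ) (b : Fin g → ℤ) (t : Fin d → ℤ) (N : ℕ)
    (h0 : ∀ i, 0 ≤ b i + lf c t i) (ha : Admissible (famP P c b t) G N) :
    NoFix (sys (C (N : ℤ) - G) P (hh c b t)) := by
  intro l hl
  have h1 := ha.2 l hl
  push Not at h1
  obtain ⟨n, hn⟩ := h1
  refine ⟨n, ?_⟩
  rw [eval_mul, eval_sub, eval_C, eval_prod] at hn
  rw [Fin.forall_fin_succ, u17_sys0]
  refine ⟨fun h => hn (dvd_mul_of_dvd_right h _), fun i h => hn (dvd_mul_of_dvd_left ?_ _)⟩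
  rw [u17_sysS G P c b t N h0] at h
  exact h.trans (dvd_prod_of_mem (fun i => (famP P c b t i).eval n) (mem_univ i))

/-- the main term -/
theorem u17_main_term {g d : ℕ} (G : ℤ[X]) (hG : G.natDegree = 1) (P : Fin g → ℤ[X])
    (D : Fin g → ℕ) (a : Fin g → ℤ) (hP : HasD D a P) (c : Fin g → Fin d → ℤ) (b : Fin g → ℤ) (t : Fin d → ℤ) (N z : ℕ)
    (h0 : ∀ i, 0 ≤ b i + lf c t i) :
    mainTermP (famP P c b t) G N z =
      (argCount G N : ℝ) * dens D (z - 1) (argCount G N) (sys (C (N : ℤ) - G) P (hh c b t)) := by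
  unfold mainTermP dens
  rw [U17_series G P c b t N z h0, hG]
  have e1 : ∀ i, ((famP P c b t i).natDegree : ℝ) = D i := by
    intro i
    unfold famP
    rw [natDegree_add_C, (hP i).1]
  rw [prod_congr rfl fun i _ => e1 i]
  push_cast
  rw [one_mul]
  ring

/-- sizes for large `N` -/
theorem u17_large (γ : ℕ) (hγ : 1 ≤ γ) (g0 δ δ1 η s : ℝ) (hδ : 0 < δ) (hδ1 : 0 < δ1) (hη : 0 < η) :
    ∃ N1 : ℕ, ∀ N Z z : ℕ, N1 ≤ N → |(γ * Z : ℝ) - N| ≤ |g0| + γ →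
      (N : ℝ) ≤ 2 * γ * Z ∧ (Z : ℝ) ≤ 2 * N ∧
      ((N : ℝ) ^ δ ≤ z → (Z : ℝ) ^ (δ / 2) ≤ ((z - 1 : ℕ) : ℝ)) ∧
      ((z : ℝ) ≤ (N : ℝ) ^ (δ1 / 2) → ((z - 1 : ℕ) : ℝ) ≤ (Z : ℝ) ^ δ1) ∧
      (Z : ℝ) ^ (s - η) ≤ (N : ℝ) ^ (s - η / 2) := by
  have hγr : (1 : ℝ) ≤ γ := by exact_mod_cast hγ
  have ht1 : Filter.Tendsto (fun N : ℕ => (N : ℝ) ^ (δ / 2)) Filter.atTop Filter.atTop :=
    (tendsto_rpow_atTop (by linarith)).comp tendsto_natCast_atTop_atTop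
  have ht2 : Filter.Tendsto (fun N : ℕ => (N : ℝ) ^ (η / 2)) Filter.atTop Filter.atTop :=
    (tendsto_rpow_atTop (by linarith)).comp tendsto_natCast_atTop_atTop
  have ht3 : Filter.Tendsto (fun N : ℕ => (N : ℝ)) Filter.atTop Filter.atTop := tendsto_natCast_atTop_atTop
  obtain ⟨N1, hN1⟩ := Filter.eventually_atTop.1 ((ht1.eventually_ge_atTop ((2 : ℝ) ^ (δ / 2) + 1)).and
    ((ht2.eventually_ge_atTop ((2 * γ : ℝ) ^ |s - η|)).and
      (ht3.eventually_ge_atTop (2 * (|g0| + γ) + 4 * γ ^ 2 + 1))))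
  refine ⟨N1, fun N Z z hN hZ => ?_⟩
  obtain ⟨a1, a2, a3⟩ := hN1 N hN
  have hg := abs_nonneg g0
  have hab := abs_le.1 hZ
  have hN0 : (1 : ℝ) ≤ N := by nlinarith
  have b1 : (N : ℝ) ≤ 2 * γ * Z := by nlinarith
  have b2 : (Z : ℝ) ≤ 2 * N := by
    have h1 : (γ : ℝ) * Z ≤ 2 * N := by nlinarith
    have h2 : (Z : ℝ) ≤ γ * Z := le_mul_of_one_le_left (Nat.cast_nonneg _) hγr
    linarith
  have hZ2 : (2 * γ : ℝ) ≤ Z := by
    by_contra hc
    push Not at hc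
    have h1 : 2 * (γ : ℝ) * Z ≤ 2 * γ * (2 * γ) := by gcongr
    nlinarith
  have hZ0 : (0 : ℝ) < Z := by linarith
  have hz : (1 : ℝ) ≤ z → ((z - 1 : ℕ) : ℝ) = z - 1 := by
    intro h
    rw [Nat.cast_sub (by exact_mod_cast h), Nat.cast_one]
  refine ⟨b1, b2, fun h => ?_, fun h => ?_, ?_⟩
  · obtain ⟨y, hy⟩ : ∃ y : ℝ, y = (N : ℝ) ^ (δ / 2) := ⟨_, rfl⟩
    have h2 : (N : ℝ) ^ δ = y * y := by
      rw [hy, ← Real.rpow_add (by linarith)]
      congr 1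
      ring
    rw [← hy] at a1
    have h3 : (0 : ℝ) < (2 : ℝ) ^ (δ / 2) := Real.rpow_pos_of_pos (by norm_num) _
    have h4 : (Z : ℝ) ^ (δ / 2) ≤ (2 : ℝ) ^ (δ / 2) * y := by
      rw [hy, ← Real.mul_rpow (by norm_num) (by linarith)]
      exact Real.rpow_le_rpow hZ0.le b2 (by linarith)
    have h5 : (1 : ℝ) ≤ z := by
      refine le_trans ?_ h
      exact Real.one_le_rpow hN0 hδ.le
    rw [hz h5]
    rw [h2] at h
    nlinarith
  · have h2 : (N : ℝ) ^ (δ1 / 2) ≤ (Z : ℝ) ^ δ1 := by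
      calc (N : ℝ) ^ (δ1 / 2) ≤ ((Z : ℝ) * Z) ^ (δ1 / 2) := by
            refine Real.rpow_le_rpow (by linarith) ?_ (by linarith)
            calc (N : ℝ) ≤ 2 * γ * Z := b1
              _ ≤ Z * Z := by gcongr
        _ = (Z : ℝ) ^ δ1 := by
            rw [Real.mul_rpow hZ0.le hZ0.le, ← Real.rpow_add hZ0]
            congr 1
            ring
    have h3 : ((z - 1 : ℕ) : ℝ) ≤ z := by exact_mod_cast Nat.sub_le z 1
    linarith
  · have hN0' : (0 : ℝ) < N := by linarith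
    obtain ⟨r, hr⟩ : ∃ r : ℝ, r = (Z : ℝ) / N := ⟨_, rfl⟩
    have hr0 : 0 < r := by rw [hr]; positivity
    have e1 : (Z : ℝ) = N * r := by rw [hr]; field_simp
    have hr2 : r ≤ 2 * γ := by
      rw [hr, div_le_iff₀ hN0']
      nlinarith
    have hr1 : (2 * γ : ℝ)⁻¹ ≤ r := by
      rw [hr, inv_le_iff_one_le_mul₀ (by positivity)]
      rw [div_mul_eq_mul_div, one_le_div hN0']
      linarith
    have hr3 : r ^ (s - η) ≤ (2 * γ : ℝ) ^ |s - η| := by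
      rcases le_or_gt 0 (s - η) with h | h
      · rw [abs_of_nonneg h]
        exact Real.rpow_le_rpow hr0.le hr2 h
      · rw [abs_of_neg h]
        calc r ^ (s - η) ≤ ((2 * γ : ℝ)⁻¹) ^ (s - η) :=
              Real.rpow_le_rpow_of_nonpos (by positivity) hr1 h.le
          _ = (2 * γ : ℝ) ^ (-(s - η)) := by
              rw [Real.inv_rpow (by positivity), Real.rpow_neg (by positivity)]
    calc (Z : ℝ) ^ (s - η) = (N : ℝ) ^ (s - η) * r ^ (s - η) := by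
          rw [e1, Real.mul_rpow hN0'.le hr0.le]
      _ ≤ (N : ℝ) ^ (s - η) * (N : ℝ) ^ (η / 2) := by
          gcongr
          exact hr3.trans a2
      _ = (N : ℝ) ^ (s - η / 2) := by
          rw [← Real.rpow_add hN0']
          congr 1
          ring

open Classical in
/-- **U17.** The asymptotic formula in terms of the problem. Proof. `γ = lc G`, `Z = argCount G N`, `B = N - G`; `δ1' = min δ1 1/2`. Given `A, C, ε, δ` apply `ACoreP` with `A1 ≥ 2 A + 2`, `A1 ≥ (4 γ)^(e_j) + 1`,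
`≥ C (4 γ)^(D_i)`, `≥ γ`, with `ε` and `δ/2`. `M' = 4 γ M` (or `M' ≥ N0, 4 γ M`): `N ∈ [M', M'^A]` gives `Z ∈ [M, M^A1]` (`N/(2γ) ≤ Z ≤ N`, `U17_dec`). `t ∈ ∏ [0, N^(e_j)]` is in the box as `N ≤ 4 γ Z`. The main
term: `mainTermP = Z * dens D (z - 1) Z φ` by `U17_series` (degrees: `natDegree G = 1`, `natDegree (P_i + const) = D i`), `Z^(δ/2) ≤ z - 1 ≤ z ≤ Z^δ1`. The count `≤ Z^(∑ e - η) ≤ N^(∑ e - η)` (`η` small: `η ≤ ∑ e`, else replace
`η` by `min η 1`; if `d = 0` treat apart or note `∑ e - η` may be negative: then `Z ≥ N/(2γ)`, so the exponent `η/2` absorbs the constant). -/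
theorem U17_main {g d : ℕ} (G : ℤ[X]) (hG : G.natDegree = 1) (hG0 : 0 < G.leadingCoeff) (P : Fin g → ℤ[X])
    (D : Fin g → ℕ) (a : Fin g → ℤ) (hP : HasD D a P) (hD : ∀ i, 1 ≤ D i) (c : Fin g → Fin d → ℤ) (e : Fin d → ℕ)
    (he : ∀ j, 1 ≤ e j) (hA : ACoreP c e D P) :
    ∃ δ1 : ℝ, 0 < δ1 ∧ ∀ (A : ℕ) (Cb ε δ : ℝ), 0 < ε → 0 < δ → ∃ η : ℝ, 0 < η ∧ ∀ M0 : ℕ, ∃ M : ℕ, M0 ≤ M ∧
      ∀ N : ℕ, M ≤ N → N ≤ M ^ A → ∀ b : Fin g → ℤ, (∀ i, |(b i : ℝ)| ≤ Cb * (N : ℝ) ^ D i) →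
      ∀ z : ℕ, (N : ℝ) ^ δ ≤ z → (z : ℝ) ≤ (N : ℝ) ^ δ1 →
      (((tb 0 fun j => N ^ e j + 1).filter fun t => (∀ i, 0 ≤ b i + lf c t i) ∧ FailsP ε (famP P c b t) G N z).card : ℝ) ≤
        (N : ℝ) ^ ((∑ j, (e j : ℝ)) - η) := by
  classical
  obtain ⟨δ1, hδ1, hcore⟩ := hA
  refine ⟨δ1 / 2, by linarith, fun A Cb ε δ hε hδ => ?_⟩
  obtain ⟨γ, hγ⟩ : ∃ γ : ℕ, γ = G.leadingCoeff.natAbs := ⟨_, rfl⟩
  have hγ1 : 1 ≤ γ := by omega
  have hγr : (1 : ℝ) ≤ γ := by exact_mod_cast hγ1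
  obtain ⟨K, hK⟩ : ∃ K : ℕ, K = ⌈|Cb|⌉₊ := ⟨_, rfl⟩
  have hKb : |Cb| ≤ K := by rw [hK]; exact Nat.le_ceil _
  obtain ⟨A1, hA1⟩ : ∃ A1 : ℕ, A1 = 2 * A + 1 + γ + ∑ i, K * (2 * γ) ^ D i + ∑ j, (2 * γ) ^ e j := ⟨_, rfl⟩
  have hA1a : 2 * A + 1 ≤ A1 := by
    rw [hA1]
    have h1 : 0 ≤ ∑ i, K * (2 * γ) ^ D i := Nat.zero_le _
    have h2 : 0 ≤ ∑ j, (2 * γ) ^ e j := Nat.zero_le _
    omega
  have hA1b : γ ≤ A1 := by
    rw [hA1]
    have h1 : 0 ≤ ∑ i, K * (2 * γ) ^ D i := Nat.zero_le _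
    have h2 : 0 ≤ ∑ j, (2 * γ) ^ e j := Nat.zero_le _
    omega
  have hA1c : ∀ i, K * (2 * γ) ^ D i ≤ A1 := by
    intro i
    have h1 : K * (2 * γ) ^ D i ≤ ∑ i, K * (2 * γ) ^ D i :=
      single_le_sum (f := fun i => K * (2 * γ) ^ D i) (fun _ _ => Nat.zero_le _) (mem_univ i)
    rw [hA1]
    omega
  have hA1d : ∀ j, (2 * γ) ^ e j ≤ A1 := by
    intro j
    have h1 : (2 * γ) ^ e j ≤ ∑ j, (2 * γ) ^ e j :=
      single_le_sum (f := fun j => (2 * γ) ^ e j) (fun _ _ => Nat.zero_le _) (mem_univ j)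
    rw [hA1]
    omega
  obtain ⟨η, hη, hη'⟩ := hcore A1 ε (δ / 2) hε (by linarith)
  refine ⟨η / 2, by linarith, fun M0 => ?_⟩
  obtain ⟨N0, hN0⟩ := U17_dec G hG hG0
  obtain ⟨N1, hN1⟩ := u17_large γ hγ1 (G.coeff 0 : ℝ) δ δ1 η (∑ j, (e j : ℝ)) hδ hδ1 hη
  obtain ⟨M, hM, hM'⟩ := hη' (M0 + N0 + N1 + 4 * γ + 2)
  refine ⟨4 * γ * M, ?_, fun N hNl hNu b hb z hz1 hz2 => ?_⟩
  · have : M ≤ 4 * γ * M := Nat.le_mul_of_pos_left _ (by omega)
    omega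
  have hMN : M ≤ 4 * γ * M := Nat.le_mul_of_pos_left _ (by omega)
  obtain ⟨q1, q2, q3⟩ := hN0 N (by omega)
  rw [← hγ] at q1 q3
  obtain ⟨Z, hZ⟩ : ∃ Z : ℕ, Z = argCount G N := ⟨_, rfl⟩
  rw [← hZ] at q1 q2 q3
  obtain ⟨r1, r2, r3, r4, r5⟩ := hN1 N Z z (by omega) q3
  have r3' := r3 hz1
  have r4' := r4 hz2
  have r1' : N ≤ 2 * γ * Z := by exact_mod_cast r1
  have r2' : Z ≤ 2 * N := by exact_mod_cast r2
  have hZM : M ≤ Z := by
    have h1 : 4 * γ * M ≤ 2 * γ * Z := le_trans hNl r1'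
    have h2 : (2 * γ) * (2 * M) ≤ (2 * γ) * Z := by linarith
    have h3 := Nat.le_of_mul_le_mul_left h2 (by omega)
    omega
  have hZM2 : Z ≤ M ^ A1 := by
    calc Z ≤ 2 * N := r2'
      _ ≤ M * (M * M) ^ A := by
          refine Nat.mul_le_mul (by omega) (hNu.trans (Nat.pow_le_pow_left ?_ A))
          exact Nat.mul_le_mul_right _ (by omega)
      _ = M ^ (2 * A + 1) := by
          rw [← pow_two, ← pow_mul, pow_succ]
          ring
      _ ≤ M ^ A1 := Nat.pow_le_pow_right (by omega) hA1a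
  have hdec : Dec A1 Z (C (N : ℤ) - G) := ⟨q1.deg, q1.neg, q1.lc.trans hA1b, q1.pos, q1.last⟩
  have hbb : ∀ i, |b i| ≤ A1 * (Z : ℤ) ^ D i := by
    intro i
    have h1 : (|b i| : ℝ) ≤ A1 * (Z : ℝ) ^ D i := by
      calc (|b i| : ℝ) ≤ Cb * (N : ℝ) ^ D i := hb i
        _ ≤ K * (2 * γ * Z : ℝ) ^ D i := by
            gcongr
            exact (le_abs_self _).trans hKb
        _ = (K * (2 * γ : ℝ) ^ D i) * (Z : ℝ) ^ D i := by rw [mul_pow]; ring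
        _ ≤ A1 * (Z : ℝ) ^ D i := by
            gcongr
            exact_mod_cast hA1c i
    exact_mod_cast h1
  refine le_trans ?_ (le_trans (hM' Z hZM hZM2 (C (N : ℤ) - G) hdec b hbb (z - 1) r3' r4') r5)
  refine Nat.cast_le.2 (card_le_card ?_)
  intro t ht
  rw [mem_filter] at ht ⊢
  obtain ⟨t1, t2, t3, t4⟩ := ht
  refine ⟨?_, t2, U17_noFix G P c b t N t2 t3, ?_⟩
  · unfold tb at t1 ⊢
    rw [Fintype.mem_piFinset] at t1 ⊢
    intro j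
    have h1 := t1 j
    rw [mem_Ico] at h1 ⊢
    have h2 : N ^ e j ≤ A1 * Z ^ e j := by
      calc N ^ e j ≤ (2 * γ * Z) ^ e j := Nat.pow_le_pow_left r1' _
        _ = (2 * γ) ^ e j * Z ^ e j := by rw [mul_pow]
        _ ≤ A1 * Z ^ e j := Nat.mul_le_mul_right _ (hA1d j)
    have h3 : ((N ^ e j + 1 : ℕ) : ℤ) ≤ ((A1 * Z ^ e j + 1 : ℕ) : ℤ) := by exact_mod_cast Nat.succ_le_succ h2
    refine ⟨h1.1, lt_of_lt_of_le h1.2 ?_⟩
    simp only [Pi.zero_apply, zero_add]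
    exact h3
  · rw [u17_main_term G hG P D a hP c b t N z t2, U17_cnt G P c b t N t2 (by rw [← hZ]; exact q2), ← hZ] at t4
    exact t4

end Pool.Agent.H9P
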