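import Pool.Agent.Lib.H9P.V0
import Pool.Agent.Lib.H9P.U17
import Pool.Agent.Lib.HUP.Z0

/-!
# ASYP, W1: symmetric boxes, in terms of the problem
-/

open Finset Polynomial

namespace Pool.Agent.H9P

open Pool.Agent.Lib.H68T Pool.Agent.Lib.H18Q Pool.Agent.Lib.H59P Pool.Agent.Lib.H24P
open Pool.Agent.HUP
open Pool.Agent.Lib.H59 (argSet argCount Admissible primeCount omegaN seriesTrunc)

open Classical in
/-- From boxes with corner `0` to symmetric boxes: conditions which depend on the constant terms only. -/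
theorem w1_box {k d : ℕ} (c : Fin k → Fin d → ℤ) (e : Fin d → ℕ) (D : Fin k → ℕ)
    (hB : ∀ i j, c i j ≠ 0 → e j = D i) (A : ℕ) : ∃ A' : ℕ, A ≤ A' ∧ ∀ (Z : ℕ) (β : Fin k → ℤ),
    (∀ i, |β i| ≤ A * (Z : ℤ) ^ D i) → ∃ β' : Fin k → ℤ, (∀ i, |β' i| ≤ A' * (Z : ℤ) ^ D i) ∧
    ∀ R : (Fin k → ℕ) → Prop,
    ((BoxT A Z e).filter (fun t => (∀ i, 0 ≤ β i + lf c t i) ∧ R (hh c β t))).card ≤
    ((tb 0 fun j => A' * Z ^ e j + 1).filter (fun t => (∀ i, 0 ≤ β' i + lf c t i) ∧ R (hh c β' t))).card := by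
  obtain ⟨S, hS⟩ : ∃ S : ℕ, S = ∑ i, ∑ j, (c i j).natAbs := ⟨_, rfl⟩
  obtain ⟨A', hA'⟩ : ∃ A' : ℕ, A' = 2 * A * (1 + S) := ⟨_, rfl⟩
  have hAA : A ≤ A' := by
    rw [hA']
    nlinarith [Nat.zero_le (A * S)]
  have hAA2 : 2 * A ≤ A' := by
    rw [hA']
    nlinarith [Nat.zero_le (A * S)]
  refine ⟨A', hAA, fun Z β hβ => ?_⟩
  set s : Fin d → ℤ := fun j => ((A * Z ^ e j : ℕ) : ℤ) with hs
  set β' : Fin k → ℤ := fun i => β i - lf c s i with hβ'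
  have hval : ∀ (t : Fin d → ℤ) (i : Fin k), β' i + lf c (fun j => t j + s j) i = β i + lf c t i := by
    intro t i
    rw [z0_add, hβ']
    ring
  have hhe : ∀ t : Fin d → ℤ, hh c β' (fun j => t j + s j) = hh c β t := by
    intro t
    funext i
    unfold hh
    rw [hval t i]
  refine ⟨β', fun i => ?_, fun R => ?_⟩
  · have e1 := hβ i
    have e2 := z0_abs c e i (D i) A Z (fun j hj => hB i j hj)
    have e3 : |β' i| ≤ |β i| + |lf c s i| := by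
      rw [hβ']
      exact abs_sub _ _
    have e4 : (∑ j, |c i j|) ≤ (S : ℤ) := by
      have e5 : (∑ j, (c i j).natAbs) ≤ S := by
        rw [hS]
        exact Finset.single_le_sum (f := fun i => ∑ j, (c i j).natAbs) (fun _ _ => Nat.zero_le _)
          (Finset.mem_univ i)
      have e6 : ((∑ j, (c i j).natAbs : ℕ) : ℤ) = ∑ j, |c i j| := by
        push_cast
        rfl
      rw [← e6]
      exact_mod_cast e5
    have hA0 : (0 : ℤ) ≤ A := Int.natCast_nonneg _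
    have hZ0 : (0 : ℤ) ≤ (Z : ℤ) ^ D i := pow_nonneg (Int.natCast_nonneg _) _
    have e7 : (A : ℤ) * (∑ j, |c i j|) * (Z : ℤ) ^ D i ≤ (A : ℤ) * S * (Z : ℤ) ^ D i :=
      mul_le_mul_of_nonneg_right (mul_le_mul_of_nonneg_left e4 hA0) hZ0
    have e8 : (A : ℤ) * (Z : ℤ) ^ D i + (A : ℤ) * S * (Z : ℤ) ^ D i ≤ (A' : ℤ) * (Z : ℤ) ^ D i := by
      have e9 : (A' : ℤ) = 2 * ((A : ℤ) * (1 + S)) := by
        rw [hA']
        push_cast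
        ring
      have e10 : 0 ≤ ((A : ℤ) * (1 + S)) * (Z : ℤ) ^ D i := mul_nonneg (mul_nonneg hA0 (by positivity)) hZ0
      rw [e9]
      linarith
    linarith
  · refine Finset.card_le_card_of_injOn (fun t j => t j + s j) ?_ ?_
    · intro t ht
      rw [Finset.mem_coe, Finset.mem_filter] at ht ⊢
      obtain ⟨hbox, h0, hR⟩ := ht
      refine ⟨?_, fun i => by rw [hval]; exact h0 i, by rw [hhe]; exact hR⟩
      unfold BoxT at hbox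
      unfold tb
      rw [Fintype.mem_piFinset] at hbox ⊢
      intro j
      have h1 := mem_Icc.1 (hbox j)
      rw [mem_Ico]
      have h2 : (2 * A * Z ^ e j : ℤ) ≤ A' * Z ^ e j := by
        have h3 : (2 * A : ℤ) ≤ A' := by exact_mod_cast hAA2
        exact mul_le_mul_of_nonneg_right h3 (by positivity)
      simp only [hs, Pi.zero_apply]
      push_cast at h1 ⊢
      constructor
      · linarith [h1.1]
      · linarith [h1.2]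
    · intro t _ t' _ h
      funext j
      have := congrFun h j
      simp only at this
      linarith

/-- sizes: `z - 1` and `z` -/
theorem w1_z (δ δ1 : ℝ) (hδ : 0 < δ) (hδ1 : 0 < δ1) : ∃ Z1 : ℕ, ∀ Z z : ℕ, Z1 ≤ Z →
    (Z : ℝ) ^ δ ≤ z → (z : ℝ) ≤ (Z : ℝ) ^ δ1 → (Z : ℝ) ^ (δ / 2) ≤ ((z - 1 : ℕ) : ℝ) ∧
      ((z - 1 : ℕ) : ℝ) ≤ (Z : ℝ) ^ δ1 := by
  have ht1 : Filter.Tendsto (fun N : ℕ => (N : ℝ) ^ (δ / 2)) Filter.atTop Filter.atTop :=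
    (tendsto_rpow_atTop (by linarith)).comp tendsto_natCast_atTop_atTop
  obtain ⟨Z1, hZ1⟩ := Filter.eventually_atTop.1 (ht1.eventually_ge_atTop (2 : ℝ))
  refine ⟨Z1 + 1, fun Z z hZ h1 h2 => ?_⟩
  have a1 := hZ1 Z (by omega)
  have hZr : (1 : ℝ) ≤ Z := by exact_mod_cast (by omega : 1 ≤ Z)
  have e1 : (Z : ℝ) ^ δ = (Z : ℝ) ^ (δ / 2) * (Z : ℝ) ^ (δ / 2) := by
    rw [← Real.rpow_add (by linarith)]
    congr 1
    ring
  have h3 : ((z - 1 : ℕ) : ℝ) ≤ z := by exact_mod_cast Nat.sub_le z 1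
  refine ⟨?_, h3.trans h2⟩
  have h5 : (1 : ℝ) ≤ z := le_trans (Real.one_le_rpow hZr hδ.le) h1
  rw [Nat.cast_sub (by exact_mod_cast h5), Nat.cast_one]
  rw [e1] at h1
  nlinarith

/-- the condition on the constant terms -/
def w1R {g : ℕ} (G : ℤ[X]) (P : Fin g → ℤ[X]) (D : Fin g → ℕ) (N Z z : ℕ) (ε : ℝ) (h : Fin g → ℕ) : Prop :=
  NoFix (sys (C (N : ℤ) - G) P h) ∧
    ε * ((Z : ℝ) * dens D z Z (sys (C (N : ℤ) - G) P h)) <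
      |(cnt (sys (C (N : ℤ) - G) P h) 1 Z : ℝ) - (Z : ℝ) * dens D z Z (sys (C (N : ℤ) - G) P h)|

open Classical in
/-- one `N` -/
theorem w1_one {g d : ℕ} (G : ℤ[X]) (hG : G.natDegree = 1) (P : Fin g → ℤ[X])
    (D : Fin g → ℕ) (a : Fin g → ℤ) (hP : HasD D a P) (c : Fin g → Fin d → ℤ) (e : Fin d → ℕ)
    (A N z : ℕ) (ε : ℝ) (b : Fin g → ℤ) (hs : argSet G N = ↑(Icc 1 (argCount G N))) :
    (((BoxT A (argCount G N) e).filter fun t => (∀ i, 0 ≤ b i + lf c t i) ∧ FailsP ε (famP P c b t) G N z).card) ≤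
    ((BoxT A (argCount G N) e).filter (fun t => (∀ i, 0 ≤ b i + lf c t i) ∧
      w1R G P D N (argCount G N) (z - 1) ε (hh c b t))).card := by
  refine card_le_card ?_
  intro t ht
  rw [mem_filter] at ht ⊢
  obtain ⟨t1, t2, t3, t4⟩ := ht
  refine ⟨t1, t2, U17_noFix G P c b t N t2 t3, ?_⟩
  rw [u17_main_term G hG P D a hP c b t N z t2, U17_cnt G P c b t N t2 hs] at t4
  exact t4

open Classical in
/-- **W1a.** Arbitrarily large scales, power-saving exceptional set. -/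
theorem W1_pow {g d : ℕ} (G : ℤ[X]) (hG : G.natDegree = 1) (hG0 : 0 < G.leadingCoeff) (P : Fin g → ℤ[X])
    (D : Fin g → ℕ) (a : Fin g → ℤ) (hP : HasD D a P) (c : Fin g → Fin d → ℤ) (e : Fin d → ℕ)
    (hB : ∀ i j, c i j ≠ 0 → e j = D i) (hA : ACoreP c e D P) :
    ∃ δ1 : ℝ, 0 < δ1 ∧ ∀ (A : ℕ) (ε δ : ℝ), 0 < ε → 0 < δ → ∃ η : ℝ, 0 < η ∧ ∀ M0 : ℕ, ∃ M : ℕ, M0 ≤ M ∧
      ∀ N : ℕ, M ≤ N → N ≤ M ^ A → ∀ b : Fin g → ℤ, (∀ i, |b i| ≤ A * (argCount G N : ℤ) ^ D i) →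
      ∀ z : ℕ, (argCount G N : ℝ) ^ δ ≤ z → (z : ℝ) ≤ (argCount G N : ℝ) ^ δ1 →
      (((BoxT A (argCount G N) e).filter fun t => (∀ i, 0 ≤ b i + lf c t i) ∧ FailsP ε (famP P c b t) G N z).card : ℝ) ≤
        (argCount G N : ℝ) ^ ((∑ j, (e j : ℝ)) - η) := by
  obtain ⟨δ1, hδ1, hcore⟩ := hA
  refine ⟨δ1, hδ1, fun A ε δ hε hδ => ?_⟩
  obtain ⟨γ, hγ⟩ : ∃ γ : ℕ, γ = G.leadingCoeff.natAbs := ⟨_, rfl⟩
  have hγ1 : 1 ≤ γ := by omega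
  have hγr : (1 : ℝ) ≤ γ := by exact_mod_cast hγ1
  obtain ⟨A', hAA, hbox⟩ := w1_box c e D hB A
  obtain ⟨A1, hA1⟩ : ∃ A1 : ℕ, A1 = A' + 2 * A + 1 + γ := ⟨_, rfl⟩
  obtain ⟨η, hη, hη'⟩ := hcore A1 ε (δ / 2) hε (by linarith)
  refine ⟨η, hη, fun M0 => ?_⟩
  obtain ⟨N0, hN0⟩ := U17_dec G hG hG0
  obtain ⟨N1, hN1⟩ := u17_large γ hγ1 (G.coeff 0 : ℝ) δ δ1 η (∑ j, (e j : ℝ)) hδ hδ1 hη
  obtain ⟨Z1, hZ1⟩ := w1_z δ δ1 hδ hδ1
  obtain ⟨M, hM, hM'⟩ := hη' (M0 + N0 + N1 + Z1 + 4 * γ + 2)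
  refine ⟨4 * γ * M, ?_, fun N hNl hNu b hb z hz1 hz2 => ?_⟩
  · have : M ≤ 4 * γ * M := Nat.le_mul_of_pos_left _ (by omega)
    omega
  have hMN : M ≤ 4 * γ * M := Nat.le_mul_of_pos_left _ (by omega)
  obtain ⟨q1, q2, q3⟩ := hN0 N (by omega)
  rw [← hγ] at q1 q3
  obtain ⟨r1, r2, -, -, -⟩ := hN1 N (argCount G N) z (by omega) q3
  have hone := w1_one G hG P D a hP c e A N z ε b q2
  obtain ⟨Z, hZ⟩ : ∃ Z : ℕ, Z = argCount G N := ⟨_, rfl⟩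
  rw [← hZ] at q1 q3 r1 r2 hone hz1 hz2 hb ⊢
  have r1' : N ≤ 2 * γ * Z := by exact_mod_cast r1
  have r2' : Z ≤ 2 * N := by exact_mod_cast r2
  have hZM : M ≤ Z := by
    have h1 : 4 * γ * M ≤ 2 * γ * Z := le_trans hNl r1'
    have h2 : (2 * γ) * (2 * M) ≤ (2 * γ) * Z := by linarith
    have h3 := Nat.le_of_mul_le_mul_left h2 (by omega)
    omega
  have hZM2 : Z ≤ M ^ A1 := by
    calc Z ≤ 2 * N := r2'
      _ ≤ M * (M * M) ^ A := by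
          refine Nat.mul_le_mul (by omega) (hNu.trans (Nat.pow_le_pow_left ?_ A))
          exact Nat.mul_le_mul_right _ (by omega)
      _ = M ^ (2 * A + 1) := by
          rw [← pow_two, ← pow_mul, pow_succ]
          ring
      _ ≤ M ^ A1 := Nat.pow_le_pow_right (by omega) (by omega)
  have hdec : Dec A1 Z (C (N : ℤ) - G) := ⟨q1.deg, q1.neg, q1.lc.trans (by omega), q1.pos, q1.last⟩
  obtain ⟨r3, r4⟩ := hZ1 Z z (by omega) hz1 hz2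
  obtain ⟨β', hβ', hR⟩ := hbox Z b hb
  have hbb : ∀ i, |β' i| ≤ A1 * (Z : ℤ) ^ D i := fun i =>
    (hβ' i).trans (mul_le_mul_of_nonneg_right (by exact_mod_cast (by omega : A' ≤ A1)) (by positivity))
  have hfin := hM' Z hZM hZM2 (C (N : ℤ) - G) hdec β' hbb (z - 1) r3 r4
  refine le_trans ?_ hfin
  refine Nat.cast_le.2 ((hone.trans (hR (w1R G P D N Z (z - 1) ε))).trans (card_le_card ?_))
  intro t ht
  rw [mem_filter] at ht ⊢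
  obtain ⟨t1, t2, t3, t4⟩ := ht
  refine ⟨?_, t2, t3, t4⟩
  unfold tb at t1 ⊢
  rw [Fintype.mem_piFinset] at t1 ⊢
  intro j
  have h1 := t1 j
  rw [mem_Ico] at h1 ⊢
  have h3 : ((A' * Z ^ e j + 1 : ℕ) : ℤ) ≤ ((A1 * Z ^ e j + 1 : ℕ) : ℤ) := by
    exact_mod_cast Nat.succ_le_succ (Nat.mul_le_mul_right _ (by omega))
  refine ⟨h1.1, lt_of_lt_of_le h1.2 ?_⟩
  simp only [Pi.zero_apply, zero_add]
  exact h3

open Classical in
/-- **W1b.** Every large `N`, exceptional proportion a power of `log X`. -/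
theorem W1_log {g d : ℕ} (G : ℤ[X]) (hG : G.natDegree = 1) (hG0 : 0 < G.leadingCoeff) (P : Fin g → ℤ[X])
    (D : Fin g → ℕ) (a : Fin g → ℤ) (hP : HasD D a P) (c : Fin g → Fin d → ℤ) (e : Fin d → ℕ)
    (hB : ∀ i j, c i j ≠ 0 → e j = D i) (hA : ECoreP c e D P) :
    ∃ δ1 : ℝ, 0 < δ1 ∧ ∀ A : ℕ, ∃ c0 : ℝ, 0 < c0 ∧ ∀ ε δ : ℝ, 0 < ε → 0 < δ → ∃ N0 : ℕ,
      ∀ N : ℕ, N0 ≤ N → ∀ b : Fin g → ℤ, (∀ i, |b i| ≤ A * (argCount G N : ℤ) ^ D i) →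
      ∀ z : ℕ, (argCount G N : ℝ) ^ δ ≤ z → (z : ℝ) ≤ (argCount G N : ℝ) ^ δ1 →
      (((BoxT A (argCount G N) e).filter fun t => (∀ i, 0 ≤ b i + lf c t i) ∧ FailsP ε (famP P c b t) G N z).card : ℝ) ≤
        (argCount G N : ℝ) ^ (∑ j, (e j : ℝ)) * (Real.log (argCount G N)) ^ (-c0) := by
  obtain ⟨δ1, hδ1, hcore⟩ := hA
  refine ⟨δ1, hδ1, fun A => ?_⟩
  obtain ⟨γ, hγ⟩ : ∃ γ : ℕ, γ = G.leadingCoeff.natAbs := ⟨_, rfl⟩
  have hγ1 : 1 ≤ γ := by omega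
  have hγr : (1 : ℝ) ≤ γ := by exact_mod_cast hγ1
  obtain ⟨A', hAA, hbox⟩ := w1_box c e D hB A
  obtain ⟨A1, hA1⟩ : ∃ A1 : ℕ, A1 = A' + γ := ⟨_, rfl⟩
  obtain ⟨c0, hc0, hcore'⟩ := hcore A1
  refine ⟨c0, hc0, fun ε δ hε hδ => ?_⟩
  obtain ⟨Z0, hZ0⟩ := hcore' ε (δ / 2) hε (by linarith)
  obtain ⟨N0, hN0⟩ := U17_dec G hG hG0
  obtain ⟨N1, hN1⟩ := u17_large γ hγ1 (G.coeff 0 : ℝ) δ δ1 1 (∑ j, (e j : ℝ)) hδ hδ1 one_pos
  obtain ⟨Z1, hZ1⟩ := w1_z δ δ1 hδ hδ1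
  refine ⟨N0 + N1 + 2 * γ * (Z0 + Z1), fun N hN b hb z hz1 hz2 => ?_⟩
  obtain ⟨q1, q2, q3⟩ := hN0 N (by omega)
  rw [← hγ] at q1 q3
  obtain ⟨r1, r2, -, -, -⟩ := hN1 N (argCount G N) z (by omega) q3
  have hone := w1_one G hG P D a hP c e A N z ε b q2
  obtain ⟨Z, hZ⟩ : ∃ Z : ℕ, Z = argCount G N := ⟨_, rfl⟩
  rw [← hZ] at q1 q3 r1 r2 hone hz1 hz2 hb ⊢
  have r1' : N ≤ 2 * γ * Z := by exact_mod_cast r1
  have hZZ : Z0 + Z1 ≤ Z := by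
    have h2 : (2 * γ) * (Z0 + Z1) ≤ (2 * γ) * Z := by omega
    exact Nat.le_of_mul_le_mul_left h2 (by omega)
  have hdec : Dec A1 Z (C (N : ℤ) - G) := ⟨q1.deg, q1.neg, q1.lc.trans (by omega), q1.pos, q1.last⟩
  obtain ⟨r3, r4⟩ := hZ1 Z z (by omega) hz1 hz2
  obtain ⟨β', hβ', hR⟩ := hbox Z b hb
  have hbb : ∀ i, |β' i| ≤ A1 * (Z : ℤ) ^ D i := fun i =>
    (hβ' i).trans (mul_le_mul_of_nonneg_right (by exact_mod_cast (by omega : A' ≤ A1)) (by positivity))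
  have hfin := hZ0 Z (by omega) (C (N : ℤ) - G) hdec β' hbb (z - 1) r3 r4
  refine le_trans ?_ hfin
  refine Nat.cast_le.2 ((hone.trans (hR (w1R G P D N Z (z - 1) ε))).trans (card_le_card ?_))
  intro t ht
  rw [mem_filter] at ht ⊢
  obtain ⟨t1, t2, t3, t4⟩ := ht
  refine ⟨?_, t2, t3, t4⟩
  unfold tb at t1 ⊢
  rw [Fintype.mem_piFinset] at t1 ⊢
  intro j
  have h1 := t1 j
  rw [mem_Ico] at h1 ⊢
  have h3 : ((A' * Z ^ e j + 1 : ℕ) : ℤ) ≤ ((A1 * Z ^ e j + 1 : ℕ) : ℤ) := by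
    exact_mod_cast Nat.succ_le_succ (Nat.mul_le_mul_right _ (by omega))
  refine ⟨h1.1, lt_of_lt_of_le h1.2 ?_⟩
  simp only [Pi.zero_apply, zero_add]
  exact h3

end Pool.Agent.H9P
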