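import Pool.Agent.Lib.H9P.W1
import Pool.Agent.Lib.HUP.R20
import Pool.Agent.Lib.H9A.N10

/-!
# ASYP, W2: all degrees one, the complete singular series, symmetric boxes
-/

open Finset Polynomial

namespace Pool.Agent.H9P

open Pool.Agent.HUP
open Pool.Agent.H9A (shiftA familyA AsymA N10_main ACore)
open Pool.Agent.H96U (gsys)
open Pool.Agent.Lib.H59 (argSet argCount Admissible primeCount omegaN seriesTrunc)

/-- a linear polynomial -/
theorem w2_lin (P : ℤ[X]) (hP : P.natDegree = 1) : P = C P.leadingCoeff * X + C (P.coeff 0) := by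
  have h1 := Polynomial.eq_X_add_C_of_natDegree_le_one (show P.natDegree ≤ 1 by omega)
  have h2 : P.leadingCoeff = P.coeff 1 := by
    unfold Polynomial.leadingCoeff
    rw [hP]
  rw [h2]
  exact h1

/-- few `t` in the symmetric box have a small constant term -/
theorem w2_low {k d : ℕ} (c : Fin k → Fin d → ℤ) (h0 : ∀ i, c i ≠ 0) (A W : ℕ) : ∃ K : ℕ, ∀ (Z : ℕ), 1 ≤ Z → ∀ β : Fin k → ℤ,
    (∀ i, |β i| ≤ A * (Z : ℤ)) → ∀ i, (((BoxT A Z (fun _ => 1)).filter fun t => (∀ i, 0 ≤ β i + lf c t i) ∧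
      β i + lf c t i < W).card : ℝ) * Z ≤ K * (Z : ℝ) ^ d := by
  classical
  obtain ⟨A', hAA, hbox⟩ := w1_box c (fun _ => 1) (fun _ => 1) (fun _ _ _ => rfl) A
  refine ⟨(W + 1) * (2 * (A' + 1)) ^ d, fun Z hZ β hβ i => ?_⟩
  obtain ⟨β', hβ', hb⟩ := hbox Z β (fun i => by rw [pow_one]; exact hβ i)
  obtain ⟨R, hR⟩ : ∃ R : (Fin k → ℕ) → Prop, ∀ h, R h ↔ h i < W := ⟨_, fun _ => Iff.rfl⟩
  have h1 := hb R
  have h2 := R20_low c (fun _ : Fin d => 1) (fun _ => 1) (fun _ => le_refl 1)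
    (fun i => by
      by_contra hcon
      push Not at hcon
      exact h0 i (funext hcon)) (fun _ _ _ => rfl) (A' + 1) Z W (by omega) hZ β' i
  have h3 : ((BoxT A Z (fun _ => 1)).filter fun t => (∀ i, 0 ≤ β i + lf c t i) ∧ β i + lf c t i < W).card ≤
      ((tb 0 fun _ : Fin d => (A' + 1) * Z ^ 1 + 1).filter fun t => 0 ≤ β' i + lf c t i ∧ β' i + lf c t i < W).card := by
    refine le_trans (card_le_card ?_) (h1.trans (card_le_card ?_))
    · intro t ht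
      rw [mem_filter] at ht ⊢
      refine ⟨ht.1, ht.2.1, ?_⟩
      rw [hR]
      unfold hh
      have := ht.2.1 i
      have := ht.2.2
      omega
    · intro t ht
      rw [mem_filter] at ht ⊢
      obtain ⟨t1, t2, t3⟩ := ht
      refine ⟨?_, t2 i, ?_⟩
      · unfold tb at t1 ⊢
        rw [Fintype.mem_piFinset] at t1 ⊢
        intro j
        have h4 := mem_Ico.1 (t1 j)
        rw [mem_Ico]
        refine ⟨h4.1, lt_of_lt_of_le h4.2 ?_⟩
        have h5 : A' * Z ^ 1 ≤ (A' + 1) * Z ^ 1 := Nat.mul_le_mul_right _ (by omega)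
        have h6 : ((A' * Z ^ 1 + 1 : ℕ) : ℤ) ≤ (((A' + 1) * Z ^ 1 + 1 : ℕ) : ℤ) := by exact_mod_cast Nat.succ_le_succ h5
        linarith
      · rw [hR] at t3
        unfold hh at t3
        have := t2 i
        omega
  have h4 : (((BoxT A Z (fun _ => 1)).filter fun t => (∀ i, 0 ≤ β i + lf c t i) ∧ β i + lf c t i < W).card : ℝ) ≤
      (((tb 0 fun _ : Fin d => (A' + 1) * Z ^ 1 + 1).filter fun t => 0 ≤ β' i + lf c t i ∧ β' i + lf c t i < W).card : ℝ) := by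
    exact_mod_cast h3
  have hZ0 : (0 : ℝ) ≤ Z := Nat.cast_nonneg _
  calc (((BoxT A Z (fun _ => 1)).filter fun t => (∀ i, 0 ≤ β i + lf c t i) ∧ β i + lf c t i < W).card : ℝ) * Z
      ≤ (((tb 0 fun _ : Fin d => (A' + 1) * Z ^ 1 + 1).filter
          fun t => 0 ≤ β' i + lf c t i ∧ β' i + lf c t i < W).card : ℝ) * Z := mul_le_mul_of_nonneg_right h4 hZ0
    _ ≤ (W + 1) * ∏ j : Fin d, ((2 * (A' + 1) * Z ^ 1 : ℕ) : ℝ) := by
        have := h2
        simp only [pow_one] at this ⊢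
        exact this
    _ = (((W + 1) * (2 * (A' + 1)) ^ d : ℕ) : ℝ) * (Z : ℝ) ^ d := by
        rw [Finset.prod_const, Finset.card_univ, Fintype.card_fin]
        push_cast
        rw [pow_one, mul_pow]
        ring

/-- the new constant terms -/
def w2b {g d : ℕ} (p : Fin g → ℤ) (c : Fin g → Fin d → ℤ) (b : Fin g → ℤ) (N Y : ℕ) (u : Fin d → ℕ) : Fin g → ℤ :=
  fun i => p i + b i + ∑ j, c i j * ((N : ℤ) * u j - Y)

/-- the shifted parameters -/
theorem w2_shift {g d : ℕ} (p : Fin g → ℤ) (c : Fin g → Fin d → ℤ) (b : Fin g → ℤ) (N Y : ℕ) (u r : Fin d → ℕ)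
    (t : Fin d → ℤ) (ht : ∀ j, t j + Y = (N : ℤ) * u j + r j) (i : Fin g) :
    shiftA c (w2b p c b N Y u) r i = p i + (b i + lf c t i) := by
  unfold shiftA w2b lf
  have h1 : ∑ j, c i j * t j = ∑ j, c i j * ((N : ℤ) * u j - Y) + ∑ j, c i j * (r j : ℤ) := by
    rw [← Finset.sum_add_distrib]
    refine Finset.sum_congr rfl fun j _ => ?_
    have : t j = (N : ℤ) * u j - Y + r j := by linarith [ht j]
    rw [this]
    ring
  rw [h1]
  ring

open Classical in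
/-- covering by translates of the box `[0, N)^d` -/
theorem w2_cover {g d : ℕ} (P : Fin g → ℤ[X]) (hP : ∀ i, (P i).natDegree = 1) (c : Fin g → Fin d → ℤ) (b : Fin g → ℤ)
    (A N Z W : ℕ) (hN : 1 ≤ N) (hZ : Z ≤ 2 * N) (hW : ∀ i, 0 ≤ (P i).coeff 0 + W) (Q : (Fin g → ℤ[X]) → Prop) :
    ((BoxT A Z (fun _ => 1)).filter fun t => (∀ i, 0 ≤ b i + lf c t i) ∧ Q (famP P c b t)).card ≤
    (∑ i, ((BoxT A Z (fun _ => 1)).filter fun t => (∀ i, 0 ≤ b i + lf c t i) ∧ b i + lf c t i < W).card) +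
    ∑ u : Fin d → Fin (4 * A + 1), ({r : Fin d → ℕ | (∀ j, r j ≤ N) ∧
      (∀ i, 0 ≤ shiftA c (w2b (fun i => (P i).coeff 0) c b N (A * Z) (fun j => (u j : ℕ))) r i) ∧
      Q (familyA (fun i => (P i).leadingCoeff) c (w2b (fun i => (P i).coeff 0) c b N (A * Z) (fun j => (u j : ℕ))) r)}.ncard) := by
  set S1 : Fin g → Finset (Fin d → ℤ) := fun i => (BoxT A Z (fun _ => 1)).filter fun t =>
    (∀ i, 0 ≤ b i + lf c t i) ∧ b i + lf c t i < W with hS1
  set T : (Fin d → Fin (4 * A + 1)) → Finset (Fin d → ℕ) := fun u => (Fintype.piFinset fun _ : Fin d => range (N + 1)).filter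
    fun r => (∀ i, 0 ≤ shiftA c (w2b (fun i => (P i).coeff 0) c b N (A * Z) (fun j => (u j : ℕ))) r i) ∧
      Q (familyA (fun i => (P i).leadingCoeff) c (w2b (fun i => (P i).coeff 0) c b N (A * Z) (fun j => (u j : ℕ))) r) with hT
  have hTc : ∀ u, ({r : Fin d → ℕ | (∀ j, r j ≤ N) ∧
      (∀ i, 0 ≤ shiftA c (w2b (fun i => (P i).coeff 0) c b N (A * Z) (fun j => (u j : ℕ))) r i) ∧
      Q (familyA (fun i => (P i).leadingCoeff) c (w2b (fun i => (P i).coeff 0) c b N (A * Z) (fun j => (u j : ℕ))) r)}.ncard) =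
      (T u).card := by
    intro u
    rw [← Set.ncard_coe_finset]
    congr 1
    ext r
    rw [mem_coe, hT, mem_filter, Fintype.mem_piFinset]
    simp only [Set.mem_ofPred_eq, mem_range]
    constructor
    · rintro ⟨h1, h2⟩
      exact ⟨fun j => Nat.lt_succ_of_le (h1 j), h2⟩
    · rintro ⟨h1, h2⟩
      exact ⟨fun j => Nat.le_of_lt_succ (h1 j), h2⟩
  rw [Finset.sum_congr rfl fun u _ => hTc u]
  have hsub : ((BoxT A Z (fun _ => 1)).filter fun t => (∀ i, 0 ≤ b i + lf c t i) ∧ Q (famP P c b t)) ⊆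
      (univ.biUnion S1) ∪ (univ.biUnion fun u => (T u).image fun r => fun j => (N : ℤ) * (u j : ℕ) + r j - (A * Z : ℕ)) := by
    intro t ht
    rw [mem_filter] at ht
    obtain ⟨t1, t2, t3⟩ := ht
    rw [mem_union, mem_biUnion, mem_biUnion]
    by_cases hlow : ∃ i, b i + lf c t i < W
    · obtain ⟨i, hi⟩ := hlow
      left
      exact ⟨i, mem_univ _, mem_filter.2 ⟨t1, t2, hi⟩⟩
    right
    push Not at hlow
    unfold BoxT at t1
    rw [Fintype.mem_piFinset] at t1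
    have hN0 : (0 : ℤ) < N := by exact_mod_cast hN
    have hy : ∀ j, 0 ≤ t j + (A * Z : ℕ) ∧ t j + (A * Z : ℕ) ≤ 4 * A * N := by
      intro j
      have h1 := mem_Icc.1 (t1 j)
      rw [pow_one] at h1
      have h2 : ((A * Z : ℕ) : ℤ) ≤ 2 * A * N := by
        have h3 : A * Z ≤ A * (2 * N) := Nat.mul_le_mul_left _ hZ
        have h4 : ((A * Z : ℕ) : ℤ) ≤ ((A * (2 * N) : ℕ) : ℤ) := by exact_mod_cast h3
        refine h4.trans (le_of_eq ?_)
        push_cast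
        ring
      constructor
      · linarith [h1.1]
      · linarith [h1.2]
    obtain ⟨v, hv⟩ : ∃ v : Fin d → ℕ, ∀ j, (v j : ℤ) = t j + (A * Z : ℕ) :=
      ⟨fun j => (t j + (A * Z : ℕ)).toNat, fun j => Int.toNat_of_nonneg (hy j).1⟩
    have hvle : ∀ j, v j ≤ 4 * A * N := by
      intro j
      have := (hy j).2
      rw [← hv j] at this
      exact_mod_cast this
    have hu : ∀ j, v j / N < 4 * A + 1 := by
      intro j
      have h1 : v j / N ≤ 4 * A := by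
        refine Nat.div_le_of_le_mul ?_
        rw [mul_comm N]
        exact hvle j
      omega
    have hdm : ∀ j, (v j : ℤ) = (N : ℤ) * ((v j / N : ℕ) : ℤ) + ((v j % N : ℕ) : ℤ) := by
      intro j
      have := Nat.div_add_mod (v j) N
      exact_mod_cast this.symm
    refine ⟨fun j => ⟨v j / N, hu j⟩, mem_univ _, ?_⟩
    rw [mem_image]
    refine ⟨fun j => v j % N, ?_, ?_⟩
    · have hsh : ∀ i, shiftA c (w2b (fun i => (P i).coeff 0) c b N (A * Z) (fun j => v j / N)) (fun j => v j % N) i =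
          (P i).coeff 0 + (b i + lf c t i) := by
        intro i
        refine w2_shift (fun i => (P i).coeff 0) c b N (A * Z) (fun j => v j / N) (fun j => v j % N) t (fun j => ?_) i
        rw [← hv j]
        exact hdm j
      rw [hT, mem_filter, Fintype.mem_piFinset]
      refine ⟨fun j => ?_, fun i => ?_, ?_⟩
      · rw [mem_range]
        have := Nat.mod_lt (v j) (show 0 < N by omega)
        omega
      · show 0 ≤ shiftA c (w2b (fun i => (P i).coeff 0) c b N (A * Z) (fun j => v j / N)) (fun j => v j % N) i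
        rw [hsh i]
        linarith [hW i, hlow i]
      · show Q (familyA (fun i => (P i).leadingCoeff) c (w2b (fun i => (P i).coeff 0) c b N (A * Z) (fun j => v j / N))
          (fun j => v j % N))
        have hfe : familyA (fun i => (P i).leadingCoeff) c (w2b (fun i => (P i).coeff 0) c b N (A * Z) (fun j => v j / N))
          (fun j => v j % N) = famP P c b t := by
          funext i
          unfold familyA famP
          rw [hsh i]
          conv_rhs => rw [w2_lin (P i) (hP i)]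
          rw [C_add]
          ring
        rw [hfe]
        exact t3
    · funext j
      show (N : ℤ) * ((v j / N : ℕ) : ℤ) + ((v j % N : ℕ) : ℤ) - (A * Z : ℕ) = t j
      rw [← hdm j, hv j]
      ring
  refine (card_le_card hsub).trans ((card_union_le _ _).trans (add_le_add card_biUnion_le ?_))
  exact card_biUnion_le.trans (Finset.sum_le_sum fun u _ => card_image_le)

/-- size of the new constant terms -/
theorem w2_size {g d : ℕ} (p : Fin g → ℤ) (c : Fin g → Fin d → ℤ) (A : ℕ) : ∃ C : ℕ, ∀ (b : Fin g → ℤ) (N Z : ℕ),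
    1 ≤ N → Z ≤ 2 * N → (∀ i, |b i| ≤ A * (Z : ℤ)) → ∀ u : Fin d → Fin (4 * A + 1), ∀ i,
      |w2b p c b N (A * Z) (fun j => (u j : ℕ)) i| ≤ C * N := by
  refine ⟨∑ i, (p i).natAbs + 2 * A + (∑ i, ∑ j, (c i j).natAbs) * (6 * A), fun b N Z hN hZ hb u i => ?_⟩
  have h1 : |p i| ≤ ((∑ i, (p i).natAbs : ℕ) : ℤ) * N := by
    have h2 : (p i).natAbs ≤ (∑ i, (p i).natAbs) * N :=
      le_trans (Finset.single_le_sum (f := fun i => (p i).natAbs) (fun _ _ => Nat.zero_le _) (Finset.mem_univ i))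
        (Nat.le_mul_of_pos_right _ (by omega))
    have h3 : (((p i).natAbs : ℕ) : ℤ) ≤ (((∑ i, (p i).natAbs) * N : ℕ) : ℤ) := by exact_mod_cast h2
    rw [Int.natCast_natAbs] at h3
    rw [← Nat.cast_mul]
    exact h3
  have h2 : |b i| ≤ 2 * A * N := by
    refine (hb i).trans ?_
    have h3 : (Z : ℤ) ≤ 2 * N := by exact_mod_cast hZ
    have hA0 : (0 : ℤ) ≤ A := Int.natCast_nonneg _
    nlinarith
  have h3 : |∑ j, c i j * ((N : ℤ) * (u j : ℕ) - (A * Z : ℕ))| ≤ (∑ j, |c i j|) * (6 * A * N) := by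
    refine (Finset.abs_sum_le_sum_abs _ _).trans ?_
    rw [Finset.sum_mul]
    refine Finset.sum_le_sum fun j _ => ?_
    rw [abs_mul]
    refine mul_le_mul_of_nonneg_left ?_ (abs_nonneg _)
    have hu : ((u j : ℕ) : ℤ) ≤ 4 * A := by
      have := (u j).2
      have h4 : (u j : ℕ) ≤ 4 * A := by omega
      exact_mod_cast h4
    have hu0 : (0 : ℤ) ≤ ((u j : ℕ) : ℤ) := Int.natCast_nonneg _
    have hN0 : (0 : ℤ) ≤ N := Int.natCast_nonneg _
    have hA0 : (0 : ℤ) ≤ A := Int.natCast_nonneg _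
    have h5 : (N : ℤ) * (u j : ℕ) ≤ N * (4 * A) := mul_le_mul_of_nonneg_left hu hN0
    have h6 : (0 : ℤ) ≤ (N : ℤ) * (u j : ℕ) := mul_nonneg hN0 hu0
    have h7 : ((A * Z : ℕ) : ℤ) ≤ 2 * A * N := by
      have h3 : (Z : ℤ) ≤ 2 * N := by exact_mod_cast hZ
      push_cast
      nlinarith
    have h8 : (0 : ℤ) ≤ ((A * Z : ℕ) : ℤ) := Int.natCast_nonneg _
    have h9 : (0 : ℤ) ≤ A * N := mul_nonneg hA0 hN0
    rw [abs_le]
    constructor
    · nlinarith
    · nlinarith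
  have h4 : (∑ j, |c i j|) ≤ ((∑ i, ∑ j, (c i j).natAbs : ℕ) : ℤ) := by
    have h5 : (∑ j, (c i j).natAbs) ≤ ∑ i, ∑ j, (c i j).natAbs :=
      Finset.single_le_sum (f := fun i => ∑ j, (c i j).natAbs) (fun _ _ => Nat.zero_le _) (Finset.mem_univ i)
    have h6 : ((∑ j, (c i j).natAbs : ℕ) : ℤ) = ∑ j, |c i j| := by
      push_cast
      rfl
    rw [← h6]
    exact_mod_cast h5
  have h5 : (0 : ℤ) ≤ 6 * A * N := by positivity
  have h6 := mul_le_mul_of_nonneg_right h4 h5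
  have h7 : |w2b p c b N (A * Z) (fun j => (u j : ℕ)) i| ≤ |p i| + |b i| +
      |∑ j, c i j * ((N : ℤ) * (u j : ℕ) - (A * Z : ℕ))| := by
    unfold w2b
    exact (abs_add_le _ _).trans (add_le_add (abs_add_le _ _) le_rfl)
  refine h7.trans ?_
  calc |p i| + |b i| + |∑ j, c i j * ((N : ℤ) * (u j : ℕ) - (A * Z : ℕ))|
      ≤ ((∑ i, (p i).natAbs : ℕ) : ℤ) * N + 2 * A * N + ((∑ i, ∑ j, (c i j).natAbs : ℕ) : ℤ) * (6 * A * N) := by
        linarith
    _ = _ := by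
        push_cast
        ring

/-- sizes: a constant is absorbed by a power -/
theorem w2_pow (K d : ℕ) (η : ℝ) (hη : 0 < η) : ∃ Z0 : ℕ, 1 ≤ Z0 ∧ ∀ Z : ℕ, Z0 ≤ Z →
    (K : ℝ) * (Z : ℝ) ^ ((d : ℝ) - η) ≤ (Z : ℝ) ^ ((d : ℝ) - η / 2) := by
  have ht : Filter.Tendsto (fun N : ℕ => (N : ℝ) ^ (η / 2)) Filter.atTop Filter.atTop :=
    (tendsto_rpow_atTop (by linarith)).comp tendsto_natCast_atTop_atTop
  obtain ⟨Z0, hZ0⟩ := Filter.eventually_atTop.1 (ht.eventually_ge_atTop (K : ℝ))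
  refine ⟨Z0 + 1, by omega, fun Z hZ => ?_⟩
  have h1 := hZ0 Z (by omega)
  have hZ1 : (0 : ℝ) < Z := by
    have : 1 ≤ Z := by omega
    exact_mod_cast this
  calc (K : ℝ) * (Z : ℝ) ^ ((d : ℝ) - η) ≤ (Z : ℝ) ^ (η / 2) * (Z : ℝ) ^ ((d : ℝ) - η) :=
        mul_le_mul_of_nonneg_right h1 (Real.rpow_nonneg hZ1.le _)
    _ = (Z : ℝ) ^ ((d : ℝ) - η / 2) := by
        rw [← Real.rpow_add hZ1]
        congr 1
        ring

open Classical in
/-- **W2.** All degrees one, the complete singular series, symmetric boxes. -/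
theorem W2_main {g d : ℕ} (hd : 1 ≤ d) (G : ℤ[X]) (hG : G.natDegree = 1) (hG0 : 0 < G.leadingCoeff) (P : Fin g → ℤ[X])
    (hP : ∀ i, (P i).natDegree = 1) (hP0 : ∀ i, 0 < (P i).leadingCoeff) (c : Fin g → Fin d → ℤ) (h0 : ∀ i, c i ≠ 0)
    (hc : ∀ i j, i ≠ j → (P i).leadingCoeff • c j ≠ (P j).leadingCoeff • c i)
    (hA : ∀ γ : ℕ, 0 < γ → ACore (gsys γ (fun i => (P i).leadingCoeff) c)) (A : ℕ) (ε : ℝ) (hε : 0 < ε) :
    ∃ η : ℝ, 0 < η ∧ ∀ M0 : ℕ, ∃ M : ℕ, M0 ≤ M ∧ ∀ N : ℕ, M ≤ N → N ≤ M ^ A → ∀ b : Fin g → ℤ,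
      (∀ i, |b i| ≤ A * (argCount G N : ℤ)) →
      (((BoxT A (argCount G N) (fun _ : Fin d => 1)).filter fun t => (∀ i, 0 ≤ b i + lf c t i) ∧
        Admissible (famP P c b t) G N ∧ ¬ AsymA (famP P c b t) G N ε).card : ℝ) ≤ (argCount G N : ℝ) ^ ((d : ℝ) - η) := by
  obtain ⟨γ, hγ⟩ : ∃ γ : ℕ, γ = G.leadingCoeff.natAbs := ⟨_, rfl⟩
  have hγ1 : 1 ≤ γ := by omega
  have hγr : (1 : ℝ) ≤ γ := by exact_mod_cast hγ1
  obtain ⟨C, hC⟩ := w2_size (fun i => (P i).coeff 0) c A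
  obtain ⟨W, hW⟩ : ∃ W : ℕ, W = ∑ i, ((P i).coeff 0).natAbs := ⟨_, rfl⟩
  have hW' : ∀ i, 0 ≤ (P i).coeff 0 + W := by
    intro i
    have h1 : ((P i).coeff 0).natAbs ≤ W := by
      rw [hW]
      exact Finset.single_le_sum (f := fun i => ((P i).coeff 0).natAbs) (fun _ _ => Nat.zero_le _) (Finset.mem_univ i)
    omega
  obtain ⟨K1, hK1⟩ := w2_low c h0 A W
  obtain ⟨η0, hη0, hmain⟩ := N10_main hd G hG hG0 (fun i => (P i).leadingCoeff) hP0 c h0 hc hA C (max A 1)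
    (le_max_right _ _) ε hε
  obtain ⟨η, hη⟩ : ∃ η : ℝ, η = min η0 1 := ⟨_, rfl⟩
  have hη1 : 0 < η := by
    rw [hη]
    exact lt_min hη0 one_pos
  have hη2 : η ≤ η0 := by
    rw [hη]
    exact min_le_left _ _
  have hη3 : η ≤ 1 := by
    rw [hη]
    exact min_le_right _ _
  have hdr : (1 : ℝ) ≤ d := by exact_mod_cast hd
  obtain ⟨K, hK⟩ : ∃ K : ℕ, K = g * K1 + (4 * A + 1) ^ d * (2 * γ) ^ d := ⟨_, rfl⟩
  obtain ⟨Z0, hZ01, hZ0⟩ := w2_pow K d η hη1
  obtain ⟨N0, hN0⟩ := U17_dec G hG hG0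
  obtain ⟨N1, hN1⟩ := u17_large γ hγ1 (G.coeff 0 : ℝ) 1 1 1 1 one_pos one_pos one_pos
  refine ⟨η / 2, by linarith, fun M0 => ?_⟩
  obtain ⟨M, hM, hM'⟩ := hmain (M0 + N0 + N1 + 2 * γ * Z0 + 1)
  refine ⟨M, by omega, fun N hNl hNu b hb => ?_⟩
  obtain ⟨q1, q2, q3⟩ := hN0 N (by omega)
  rw [← hγ] at q3
  obtain ⟨p1, p2, -, -, -⟩ := hN1 N (argCount G N) 0 (by omega) q3
  obtain ⟨Z, hZ⟩ : ∃ Z : ℕ, Z = argCount G N := ⟨_, rfl⟩
  rw [← hZ] at hb p1 p2 ⊢
  have hZN : Z ≤ 2 * N := by exact_mod_cast p2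
  have hNZ : N ≤ 2 * γ * Z := by exact_mod_cast p1
  have hZZ : Z0 ≤ Z := by
    have h1 : 2 * γ * Z0 ≤ 2 * γ * Z := by omega
    exact Nat.le_of_mul_le_mul_left h1 (by omega)
  have hZ1 : (1 : ℝ) ≤ Z := by exact_mod_cast hZ01.trans hZZ
  have hN1' : 1 ≤ N := by omega
  have hN1r : (1 : ℝ) ≤ N := by exact_mod_cast hN1'
  have hNu' : N ≤ M ^ max A 1 := hNu.trans (Nat.pow_le_pow_right (by omega) (le_max_left _ _))
  have hcov := w2_cover P hP c b A N Z W hN1' hZN hW' (fun F => Admissible F G N ∧ ¬ AsymA F G N ε)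
  have hcov' : (((BoxT A Z (fun _ : Fin d => 1)).filter fun t => (∀ i, 0 ≤ b i + lf c t i) ∧
        Admissible (famP P c b t) G N ∧ ¬ AsymA (famP P c b t) G N ε).card : ℝ) ≤
      (∑ i, (((BoxT A Z (fun _ : Fin d => 1)).filter fun t => (∀ i, 0 ≤ b i + lf c t i) ∧ b i + lf c t i < W).card : ℝ)) +
      ∑ u : Fin d → Fin (4 * A + 1), (({r : Fin d → ℕ | (∀ j, r j ≤ N) ∧
      (∀ i, 0 ≤ shiftA c (w2b (fun i => (P i).coeff 0) c b N (A * Z) (fun j => (u j : ℕ))) r i) ∧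
      Admissible (familyA (fun i => (P i).leadingCoeff) c (w2b (fun i => (P i).coeff 0) c b N (A * Z) (fun j => (u j : ℕ))) r) G N ∧
      ¬ AsymA (familyA (fun i => (P i).leadingCoeff) c (w2b (fun i => (P i).coeff 0) c b N (A * Z) (fun j => (u j : ℕ))) r) G N ε
        }.ncard : ℕ) : ℝ) := by
    exact_mod_cast hcov
  refine hcov'.trans ?_
  have hA1 : ∀ i, (((BoxT A Z (fun _ : Fin d => 1)).filter fun t => (∀ i, 0 ≤ b i + lf c t i) ∧ b i + lf c t i < W).card : ℝ) ≤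
      K1 * (Z : ℝ) ^ ((d : ℝ) - η) := by
    intro i
    have h1 := hK1 Z (hZ01.trans hZZ) b hb i
    have hZp : (0 : ℝ) < Z := by linarith
    have h2 : (Z : ℝ) ^ d = (Z : ℝ) ^ ((d : ℝ) - 1) * Z := by
      rw [Real.rpow_sub_one hZp.ne', Real.rpow_natCast]
      field_simp
    rw [h2, ← mul_assoc] at h1
    have h3 := le_of_mul_le_mul_right h1 hZp
    refine h3.trans (mul_le_mul_of_nonneg_left ?_ (Nat.cast_nonneg _))
    exact Real.rpow_le_rpow_of_exponent_le hZ1 (by linarith)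
  have hB1 : ∀ u : Fin d → Fin (4 * A + 1), (({r : Fin d → ℕ | (∀ j, r j ≤ N) ∧
      (∀ i, 0 ≤ shiftA c (w2b (fun i => (P i).coeff 0) c b N (A * Z) (fun j => (u j : ℕ))) r i) ∧
      Admissible (familyA (fun i => (P i).leadingCoeff) c (w2b (fun i => (P i).coeff 0) c b N (A * Z) (fun j => (u j : ℕ))) r) G N ∧
      ¬ AsymA (familyA (fun i => (P i).leadingCoeff) c (w2b (fun i => (P i).coeff 0) c b N (A * Z) (fun j => (u j : ℕ))) r) G N ε
        }.ncard : ℕ) : ℝ) ≤ (2 * γ : ℝ) ^ d * (Z : ℝ) ^ ((d : ℝ) - η) := by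
    intro u
    refine (hM' N hNl hNu' _ (hC b N Z hN1' hZN hb u)).trans ?_
    calc (N : ℝ) ^ ((d : ℝ) - η0) ≤ (N : ℝ) ^ ((d : ℝ) - η) :=
          Real.rpow_le_rpow_of_exponent_le hN1r (by linarith)
      _ ≤ (2 * γ * Z : ℝ) ^ ((d : ℝ) - η) := Real.rpow_le_rpow (by linarith) p1 (by linarith)
      _ = (2 * γ : ℝ) ^ ((d : ℝ) - η) * (Z : ℝ) ^ ((d : ℝ) - η) := Real.mul_rpow (by linarith) (by linarith)
      _ ≤ (2 * γ : ℝ) ^ (d : ℝ) * (Z : ℝ) ^ ((d : ℝ) - η) :=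
          mul_le_mul_of_nonneg_right (Real.rpow_le_rpow_of_exponent_le (by linarith) (by linarith))
            (Real.rpow_nonneg (by linarith) _)
      _ = (2 * γ : ℝ) ^ d * (Z : ℝ) ^ ((d : ℝ) - η) := by rw [Real.rpow_natCast]
  refine (add_le_add (Finset.sum_le_sum fun i _ => hA1 i) (Finset.sum_le_sum fun u _ => hB1 u)).trans ?_
  rw [Finset.sum_const, Finset.sum_const, Finset.card_univ, Finset.card_univ, Fintype.card_fin, Fintype.card_fun,
    Fintype.card_fin, Fintype.card_fin, nsmul_eq_mul, nsmul_eq_mul]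
  refine le_trans (le_of_eq ?_) (hZ0 Z hZZ)
  rw [hK]
  push_cast
  ring

end Pool.Agent.H9P
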