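import Pool.Agent.Lib.H9P.U16
import Pool.Agent.Lib.H9P.W1
import Pool.Agent.Lib.H9P.W2
import Pool.Agent.Lib.H9A.N5
import Pool.Agent.Lib.HUP.Z3
import Pool.Agent.Lib.HUK.FIN

/-!
# ASYP: the core statement for all data
-/

open Finset Polynomial

namespace Pool.Agent.H9P

open Pool.Agent.HUP
open Pool.Agent.H9A (ACore N5_all)
open Pool.Agent.H96U (gsys fin_gsys)
open Pool.Agent.HUK (DFIN_fin2 FIN_PK UCH_all)

/-- **The core statement for all data with positive leading coefficients.** -/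
theorem acore_all {k d : ℕ} (c : Fin k → Fin d → ℤ) (e : Fin d → ℕ) (P : Fin k → ℤ[X])
    (hD : Dat c e (fun i => (P i).natDegree) (fun i => (P i).leadingCoeff)) (ha : ∀ i, 0 < (P i).leadingCoeff) :
    ACoreP c e (fun i => (P i).natDegree) P := by
  have hF : FMT c e (fun i => (P i).natDegree) (fun i => (P i).leadingCoeff) :=
    FMT_of c e _ _ hD fun D q r h1 h2 => Pool.Agent.HPP.C8_Z D q h1 r h2
  exact U16_core c e _ _ (FGTU_of hD hF) (S4TU_of c e _ _ hD hF Pool.Agent.HUK.FIN_PK) hD.par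
    (fun i j h => hD.blk i j h) hD.deg ha P (fun i => ⟨rfl, rfl⟩)

/-- **The core statement for linear polynomials**, arbitrarily large scales. -/
theorem acore_lin {g d : ℕ} (hd : 1 ≤ d) (f : Fin g → ℤ) (hf : ∀ i, 0 < f i) (c : Fin g → Fin d → ℤ)
    (h0 : ∀ i, c i ≠ 0) (hc : ∀ i j, i ≠ j → f i • c j ≠ f j • c i) (γ : ℕ) (hγ : 0 < γ) : ACore (gsys γ f c) :=
  N5_all (k := g + 1) (by omega) hd (gsys γ f c) (DFIN_fin2 _ (fin_gsys γ (by exact_mod_cast hγ) f hf c h0 hc))
    (FIN_PK _ (by omega)) (UCH_all _ (by omega))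

end Pool.Agent.H9P
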