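import Pool.Agent.Lib.HUP.Defs2

/-!
# Project ASYP (MP_0bf1d2_nt): the asymptotic formula for systems of polynomials of any degrees. Definitions

See `PROOF.md` in this folder.
-/

open Finset Polynomial

namespace Pool.Agent.H9P

open Pool.Agent.Lib.H68T Pool.Agent.Lib.H18Q Pool.Agent.Lib.H59P Pool.Agent.Lib.H24P
open Pool.Agent.HUP

noncomputable section

/-- The geometry as it is used in the estimates: on `[X1, 2 X1)` the polynomials are small compared to `M_i` and vary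
slowly. It follows from `GeoU` (`U1_geo`). -/
structure GeoV (Q X X1 : ℕ) {k : ℕ} (P : Fin k → ℤ[X]) (M : Fin k → ℕ) : Prop where
  dvd : Q ^ 800 ∣ X1
  pos : 0 < X1
  le : X1 ≤ X
  ge : X ≤ X1 * Q
  dvdM : ∀ i, 8 * Q ^ 8 ∣ M i
  two : ∀ i, 2 * X1 ≤ M i
  hi : ∀ i, (M i : ℝ) ≤ (X1 : ℝ) ^ (P i).natDegree * (Q : ℝ) ^ (1 / 8 : ℝ)
  small : ∀ i, ∀ n ∈ Ico X1 (2 * X1), 8 * |(P i).eval (n : ℤ)| ≤ M i
  slow : ∀ i, ∀ n ∈ Ico X1 (2 * X1), ∀ n' ∈ Ico X1 (2 * X1), n ≤ n' → (n' - n) * Q ^ 8 ≤ X1 →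
    (Q : ℤ) ^ 8 * |(P i).eval (n' : ℤ) - (P i).eval (n : ℤ)| ≤ M i

/-- The polynomial `P(n0 + x) - P(n0)`. -/
def shf (n0 : ℕ) (P : ℤ[X]) : ℤ[X] := P.comp (X + C (n0 : ℤ)) - C (P.eval (n0 : ℤ))

/-- The number of the `n ∈ [n1, n1 + L)` at which all the maps are primes. -/
def cnt {k : ℕ} (φ : Fin k → ℤ → ℤ) (n1 L : ℕ) : ℕ :=
  ((Ico n1 (n1 + L)).filter (fun n : ℕ => ∀ i, (φ i (n : ℤ)).toNat.Prime)).card

/-- The expected density of the `n` near which all values of the system are primes (one linear coordinate and `k`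
coordinates of degrees `D i`), the singular series truncated at `z`. -/
def dens {k : ℕ} (D : Fin k → ℕ) (z Z : ℕ) (φ : Fin (k + 1) → ℤ → ℤ) : ℝ :=
  SSf (pr z) φ / ((∏ i, (D i : ℝ)) * (Real.log Z) ^ (k + 1))

/-- The weighted number. -/
def wct {k : ℕ} (φ : Fin k → ℤ → ℤ) (n1 L : ℕ) : ℝ := ∑ n ∈ Ico n1 (n1 + L), ∏ i, lp (φ i (n : ℤ))

/-- The models without exceptional zero, for all lengths between `√Z` and `Z^(A+2)`. -/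
def Lv (A Q Z : ℕ) (E0 : ℝ) : Prop := ∀ Y : ℕ, Z ≤ Y ^ 2 → Y ≤ Z ^ (A + 2) →
  Mdl Q Y 1 E0 p0 (fun _ => 0) ∧ Mdl (Q ^ 100) Y 1 E0 p0 (fun _ => 0)

/-- The linear coordinate `B(n) = N - G(n)`, `G` linear: decreasing, leading coefficient at most `A` in absolute value,
`Z` is the last `n` with `B(n) > 0`. -/
structure Dec (A Z : ℕ) (B : ℤ[X]) : Prop where
  deg : B.natDegree = 1
  neg : B.leadingCoeff < 0
  lc : B.leadingCoeff.natAbs ≤ A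
  pos : 0 < B.eval (Z : ℤ)
  last : B.eval ((Z : ℤ) + 1) ≤ 0

open Classical in
/-- **The core statement** for given forms `c` and polynomials `P` (of degrees `D`). -/
def ACoreP {k d : ℕ} (c : Fin k → Fin d → ℤ) (e : Fin d → ℕ) (D : Fin k → ℕ) (P : Fin k → ℤ[X]) : Prop :=
  ∃ δ1 : ℝ, 0 < δ1 ∧ ∀ (A : ℕ) (ε δ : ℝ), 0 < ε → 0 < δ → ∃ η : ℝ, 0 < η ∧ ∀ M0 : ℕ, ∃ M : ℕ, M0 ≤ M ∧
    ∀ Z : ℕ, M ≤ Z → Z ≤ M ^ A → ∀ B : ℤ[X], Dec A Z B → ∀ β : Fin k → ℤ, (∀ i, |β i| ≤ A * (Z : ℤ) ^ D i) →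
    ∀ z : ℕ, (Z : ℝ) ^ δ ≤ z → (z : ℝ) ≤ (Z : ℝ) ^ δ1 →
    (((tb 0 fun j => A * Z ^ e j + 1).filter fun t => (∀ i, 0 ≤ β i + lf c t i) ∧ NoFix (sys B P (hh c β t)) ∧
      ε * (Z * dens D z Z (sys B P (hh c β t))) <
        |(cnt (sys B P (hh c β t)) 1 Z : ℝ) - Z * dens D z Z (sys B P (hh c β t))|).card : ℝ) ≤
      (Z : ℝ) ^ ((∑ j, (e j : ℝ)) - η)

end

end Pool.Agent.H9P
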