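import Pool.Agent.Lib.H9P.U0
import Pool.Agent.Lib.H24P.G2

/-!
# ASYP, chunk U1 (S/M): the geometry
-/

open Finset Polynomial

namespace Pool.Agent.H9P

open Pool.Agent.Lib.H68T Pool.Agent.Lib.H18Q Pool.Agent.Lib.H59P Pool.Agent.Lib.H24P
open Pool.Agent.HUP

/-- The values of a polynomial with small coefficients. -/
theorem u1_small (A X1 m n : ℕ) (P : ℤ[X]) (hd : P.natDegree ≤ A)
    (hlo : ∀ j, 1000 * (A + 1) ^ 2 * (P.coeff j).natAbs * (2 * X1) ^ j ≤ m) (hn : n < 2 * X1) :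
    8 * |P.eval (n : ℤ)| ≤ m := by
  have hloz : ∀ j, 1000 * ((A : ℤ) + 1) ^ 2 * |P.coeff j| * (2 * (X1 : ℤ)) ^ j ≤ m := by
    intro j
    have h1 : ((1000 * (A + 1) ^ 2 * (P.coeff j).natAbs * (2 * X1) ^ j : ℕ) : ℤ) ≤ (m : ℤ) := by
      exact_mod_cast hlo j
    push_cast at h1
    exact h1
  have hn0 : (0 : ℤ) ≤ n := by positivity
  have hn2 : (n : ℤ) ≤ 2 * X1 := by
    have := hn.le
    exact_mod_cast this
  have hA : (0 : ℤ) ≤ A := by positivity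
  have h2 : |P.eval (n : ℤ)| ≤ ∑ j ∈ range (P.natDegree + 1), |P.coeff j| * (2 * (X1 : ℤ)) ^ j := by
    rw [eval_eq_sum_range]
    refine (abs_sum_le_sum_abs _ _).trans (sum_le_sum fun j _ => ?_)
    rw [abs_mul, abs_of_nonneg (by positivity : (0 : ℤ) ≤ (n : ℤ) ^ j)]
    exact mul_le_mul_of_nonneg_left (pow_le_pow_left₀ hn0 hn2 j) (abs_nonneg _)
  have h3 : 1000 * ((A : ℤ) + 1) ^ 2 * ∑ j ∈ range (P.natDegree + 1), |P.coeff j| * (2 * (X1 : ℤ)) ^ j ≤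
      ((A : ℤ) + 1) * m := by
    rw [mul_sum]
    refine (sum_le_sum fun j _ => ?_).trans (b := ∑ j ∈ range (P.natDegree + 1), (m : ℤ)) ?_
    · have := hloz j
      linarith
    · rw [sum_const, card_range, nsmul_eq_mul]
      refine mul_le_mul_of_nonneg_right ?_ (by positivity)
      push_cast
      have : (P.natDegree : ℤ) ≤ A := by exact_mod_cast hd
      linarith
  set S := ∑ j ∈ range (P.natDegree + 1), |P.coeff j| * (2 * (X1 : ℤ)) ^ j with hS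
  have hS0 : 0 ≤ S := (abs_nonneg _).trans h2
  have h4 : ((A : ℤ) + 1) * (1000 * ((A : ℤ) + 1) * S) ≤ ((A : ℤ) + 1) * m := by
    calc ((A : ℤ) + 1) * (1000 * ((A : ℤ) + 1) * S) = 1000 * ((A : ℤ) + 1) ^ 2 * S := by ring
      _ ≤ _ := h3
  have h5 : 1000 * ((A : ℤ) + 1) * S ≤ m := le_of_mul_le_mul_left h4 (by linarith)
  have h6 : 8 * S ≤ 1000 * ((A : ℤ) + 1) * S := by
    refine mul_le_mul_of_nonneg_right ?_ hS0
    linarith
  linarith

/-- The variation of a polynomial with small coefficients. -/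
theorem u1_slow (A X1 m n n' : ℕ) (P : ℤ[X]) (hd : P.natDegree ≤ A)
    (hlo : ∀ j, 1000 * (A + 1) ^ 2 * (P.coeff j).natAbs * (2 * X1) ^ j ≤ m) (hnn : n ≤ n') (hn : n' < 2 * X1) :
    (X1 : ℤ) * |P.eval (n' : ℤ) - P.eval (n : ℤ)| ≤ ((n' : ℤ) - n) * m := by
  have hloz : ∀ j, 1000 * ((A : ℤ) + 1) ^ 2 * |P.coeff j| * (2 * (X1 : ℤ)) ^ j ≤ m := by
    intro j
    have h1 : ((1000 * (A + 1) ^ 2 * (P.coeff j).natAbs * (2 * X1) ^ j : ℕ) : ℤ) ≤ (m : ℤ) := by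
      exact_mod_cast hlo j
    push_cast at h1
    exact h1
  have hn0 : (0 : ℤ) ≤ n := by positivity
  have hnn' : (n : ℤ) ≤ n' := by exact_mod_cast hnn
  have hn2 : (n' : ℤ) ≤ 2 * X1 := by
    have := hn.le
    exact_mod_cast this
  have hA : (0 : ℤ) ≤ A := by positivity
  have hdn : (0 : ℤ) ≤ (n' : ℤ) - n := by linarith
  have hX0 : (0 : ℤ) ≤ X1 := by positivity
  have hdA : (P.natDegree : ℤ) ≤ A := by exact_mod_cast hd
  have h1 : 2 * (X1 : ℤ) * |P.eval (n' : ℤ) - P.eval (n : ℤ)| ≤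
      ∑ j ∈ range (P.natDegree + 1), |P.coeff j| * (j * (2 * (X1 : ℤ)) ^ j * ((n' : ℤ) - n)) := by
    rw [eval_eq_sum_range, eval_eq_sum_range, ← sum_sub_distrib]
    refine (mul_le_mul_of_nonneg_left (abs_sum_le_sum_abs _ _) (by linarith)).trans ?_
    rw [mul_sum]
    refine sum_le_sum fun j _ => ?_
    obtain ⟨p0, p1⟩ := g2_pow (2 * X1) n n' hn0 hnn' hn2 j
    have h2 : P.coeff j * (n' : ℤ) ^ j - P.coeff j * (n : ℤ) ^ j
        = P.coeff j * ((n' : ℤ) ^ j - (n : ℤ) ^ j) := by ring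
    rw [h2, abs_mul, abs_of_nonneg p0]
    calc 2 * (X1 : ℤ) * (|P.coeff j| * ((n' : ℤ) ^ j - (n : ℤ) ^ j))
        = |P.coeff j| * (2 * (X1 : ℤ) * ((n' : ℤ) ^ j - (n : ℤ) ^ j)) := by ring
      _ ≤ |P.coeff j| * (j * (2 * (X1 : ℤ)) ^ j * ((n' : ℤ) - n)) :=
          mul_le_mul_of_nonneg_left p1 (abs_nonneg _)
  have h2 : 1000 * ((A : ℤ) + 1) ^ 2 * ∑ j ∈ range (P.natDegree + 1),
      |P.coeff j| * (j * (2 * (X1 : ℤ)) ^ j * ((n' : ℤ) - n)) ≤ ((A : ℤ) + 1) ^ 2 * (((n' : ℤ) - n) * m) := by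
    rw [mul_sum]
    refine (sum_le_sum fun j hj => ?_).trans
      (b := ∑ j ∈ range (P.natDegree + 1), (A : ℤ) * (((n' : ℤ) - n) * m)) ?_
    · have hj1 : (j : ℤ) ≤ A := by
        have : j ≤ A := by
          have := mem_range.mp hj
          omega
        exact_mod_cast this
      have hj0 : (0 : ℤ) ≤ j := by positivity
      calc 1000 * ((A : ℤ) + 1) ^ 2 * (|P.coeff j| * (j * (2 * (X1 : ℤ)) ^ j * ((n' : ℤ) - n)))
          = j * (((n' : ℤ) - n) * (1000 * ((A : ℤ) + 1) ^ 2 * |P.coeff j| * (2 * (X1 : ℤ)) ^ j)) := by ring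
        _ ≤ j * (((n' : ℤ) - n) * m) :=
            mul_le_mul_of_nonneg_left (mul_le_mul_of_nonneg_left (hloz j) hdn) hj0
        _ ≤ A * (((n' : ℤ) - n) * m) :=
            mul_le_mul_of_nonneg_right hj1 (mul_nonneg hdn (by positivity))
    · rw [sum_const, card_range, nsmul_eq_mul, ← mul_assoc]
      refine mul_le_mul_of_nonneg_right ?_ (mul_nonneg hdn (by positivity))
      push_cast
      nlinarith
  set S := ∑ j ∈ range (P.natDegree + 1), |P.coeff j| * (j * (2 * (X1 : ℤ)) ^ j * ((n' : ℤ) - n)) with hS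
  have h3 : ((A : ℤ) + 1) ^ 2 * (1000 * S) ≤ ((A : ℤ) + 1) ^ 2 * (((n' : ℤ) - n) * m) := by
    calc ((A : ℤ) + 1) ^ 2 * (1000 * S) = 1000 * ((A : ℤ) + 1) ^ 2 * S := by ring
      _ ≤ _ := h2
  have h4 : 1000 * S ≤ ((n' : ℤ) - n) * m := le_of_mul_le_mul_left h3 (by positivity)
  have h5 : 0 ≤ (X1 : ℤ) * |P.eval (n' : ℤ) - P.eval (n : ℤ)| := mul_nonneg hX0 (abs_nonneg _)
  linarith

/-- Proof. Let `d = deg P_i`, `1 ≤ d ≤ A`, `a_j` the coefficients, `m = M i`; `GeoU.lo`: `1000 (A+1)² |a_j| (2 X1)^j ≤ m`. For `j = d` (`|a_d| ≥ 1`):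
`2 X1 ≤ (2 X1)^d ≤ m`. `|P(n)| ≤ ∑_(j ≤ d) |a_j| (2 X1)^j ≤ (A+1) m/(1000 (A+1)²)`. `P(n') - P(n) = ∑_j a_j (n'^j - n^j)`, `|n'^j - n^j| ≤ (n' - n) j (2 X1)^(j-1)`
(`g2_pow` in `H24P/G2.lean`, see `G2_one` there), so `X1 |P(n') - P(n)| ≤ (n' - n) ∑_j j |a_j| (2 X1)^j ≤ (n' - n) m`, multiply by `Q^8` and divide by `X1` (compare `G2_P`). -/
theorem U1_geo {k : ℕ} (A Q X X1 : ℕ) (P : Fin k → ℤ[X]) (M : Fin k → ℕ) (hP : Pol A P)
    (hG : GeoU A Q X X1 P M) : GeoV Q X X1 P M := by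
  refine ⟨hG.dvd, hG.pos, hG.le, hG.ge, hG.dvdM, fun i => ?_, hG.hi, fun i n hn => ?_,
    fun i n hn n' hn' hnn hQ => ?_⟩
  · have h1 := hG.lo i (P i).natDegree
    have hd := hP.deg i
    have h2 : 1 ≤ ((P i).coeff (P i).natDegree).natAbs := by
      refine Nat.one_le_iff_ne_zero.mpr fun h => ?_
      have h3 : (P i).leadingCoeff = 0 := Int.natAbs_eq_zero.mp h
      rw [leadingCoeff_eq_zero] at h3
      rw [h3, natDegree_zero] at hd
      omega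
    have h3 : 2 * X1 ≤ (2 * X1) ^ (P i).natDegree := le_self_pow₀ (by have := hG.pos; omega) (by omega)
    refine h3.trans (le_trans ?_ h1)
    refine Nat.le_mul_of_pos_left _ (Nat.mul_pos ?_ h2)
    positivity
  · exact u1_small A X1 (M i) n (P i) (hP.degA i) (hG.lo i) (mem_Ico.mp hn).2
  · have h1 := u1_slow A X1 (M i) n n' (P i) (hP.degA i) (hG.lo i) hnn (mem_Ico.mp hn').2
    have hXp : (0 : ℤ) < X1 := by exact_mod_cast hG.pos
    have hQz : ((n' : ℤ) - n) * (Q : ℤ) ^ 8 ≤ X1 := by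
      have h4 : (((n' - n) * Q ^ 8 : ℕ) : ℤ) ≤ X1 := by exact_mod_cast hQ
      push_cast [Nat.cast_sub hnn] at h4
      exact h4
    have h5 : (X1 : ℤ) * ((Q : ℤ) ^ 8 * |(P i).eval (n' : ℤ) - (P i).eval (n : ℤ)|) ≤ X1 * M i := by
      calc (X1 : ℤ) * ((Q : ℤ) ^ 8 * |(P i).eval (n' : ℤ) - (P i).eval (n : ℤ)|)
          = (Q : ℤ) ^ 8 * (X1 * |(P i).eval (n' : ℤ) - (P i).eval (n : ℤ)|) := by ring
        _ ≤ (Q : ℤ) ^ 8 * (((n' : ℤ) - n) * M i) := mul_le_mul_of_nonneg_left h1 (by positivity)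
        _ = (((n' : ℤ) - n) * (Q : ℤ) ^ 8) * M i := by ring
        _ ≤ X1 * M i := mul_le_mul_of_nonneg_right hQz (by positivity)
    exact le_of_mul_le_mul_left h5 hXp

/-- Port of `G2_reg` (`H24P/G2.lean`; there `Geo.lo` is only used for `2 X1 ≤ M i`, now `GeoV.two`; the constant `Q0` depends on the degrees only by
`∑ deg P_i ≤ k A`). -/
theorem U1_reg (k A : ℕ) (K C : ℝ) (hK : 1 ≤ K) : ∃ Q0 : ℕ, ∀ P : Fin k → ℤ[X], Pol A P →
    ∀ (Q X X1 : ℕ) (M : Fin k → ℕ), Q0 ≤ Q → Rg (K + 1) C Q X →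
    GeoV Q X X1 P M → ∀ i, RegP K Q (Ysc (M i)) ∧ X1 ≤ Ysc (M i) ∧
      Real.log (Ysc (M i)) ≤ ((P i).natDegree + 1) * Real.log X := by
  set D : ℝ := ((A : ℕ) + 1 : ℝ) * max C 1 with hD
  have hD0 : 0 < D := mul_pos (by positivity) (lt_of_lt_of_le one_pos (le_max_right _ _))
  obtain ⟨Q0, hQ0⟩ := g2_asy K D hK hD0
  refine ⟨Q0, ?_⟩
  intro P hP Q X X1 M hQ hR hG i
  obtain ⟨hQ3, hlQ1, hllQ, hasy⟩ := hQ0 Q hQ
  obtain ⟨hR1, hR2⟩ := hR
  have hX1 : 1 ≤ X1 := hG.pos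
  have hXX : X1 ≤ X := hG.le
  have hX1r : (1 : ℝ) ≤ X1 := by exact_mod_cast hX1
  have hXr : (1 : ℝ) ≤ X := by exact_mod_cast hX1.trans hXX
  have hQr : (0 : ℝ) < Q := by
    have : 0 < Q := by omega
    exact_mod_cast this
  have hlX1 : Real.log X - Real.log Q ≤ Real.log X1 := by
    have h1 : (X : ℝ) ≤ X1 * Q := by exact_mod_cast hG.ge
    have h2 := Real.log_le_log (by linarith) h1
    rw [Real.log_mul (by linarith) hQr.ne'] at h2
    linarith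
  have hlX1' : Real.log X1 ≤ Real.log X := Real.log_le_log (by linarith) (by exact_mod_cast hXX)
  have h8 : 8 ∣ M i := (Dvd.intro _ rfl : 8 ∣ 8 * Q ^ 8).trans (hG.dvdM i)
  have hY4 : 4 * Ysc (M i) = 3 * M i := by
    obtain ⟨m, hm⟩ := h8
    unfold Ysc
    omega
  have hM2 : 2 * X1 ≤ M i := hG.two i
  have hXY : X1 ≤ Ysc (M i) := by omega
  have hYM : Ysc (M i) ≤ M i := by omega
  have hYr : (1 : ℝ) ≤ Ysc (M i) := by exact_mod_cast hX1.trans hXY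
  have hlXY : Real.log X1 ≤ Real.log (Ysc (M i)) :=
    Real.log_le_log (by linarith) (by exact_mod_cast hXY)
  have hlow : K * Real.log Q ≤ Real.log (Ysc (M i)) := by linarith
  have hQX : Real.log Q ≤ Real.log X := by nlinarith
  have hup : Real.log (Ysc (M i)) ≤ ((P i).natDegree + 1) * Real.log X := by
    have h1 : ((Ysc (M i) : ℕ) : ℝ) ≤ (X1 : ℝ) ^ (P i).natDegree * (Q : ℝ) ^ (1 / 8 : ℝ) :=
      (by exact_mod_cast hYM : ((Ysc (M i) : ℕ) : ℝ) ≤ M i).trans (hG.hi i)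
    have h2 := Real.log_le_log (by linarith) h1
    rw [Real.log_mul (by positivity) (by positivity), Real.log_pow, Real.log_rpow hQr] at h2
    have h3 : ((P i).natDegree : ℝ) * Real.log X1 ≤ (P i).natDegree * Real.log X :=
      mul_le_mul_of_nonneg_left hlX1' (by positivity)
    have h4 : (0 : ℝ) ≤ Real.log Q := by linarith
    linarith
  have hlY1 : 1 ≤ Real.log (Ysc (M i)) := by nlinarith
  refine ⟨⟨?_, ?_, hlow⟩, hXY, hup⟩
  · refine hllQ.trans (Real.log_le_log (by linarith) ?_)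
    nlinarith
  · refine le_trans (mul_le_mul_of_nonneg_left (Real.log_le_log (by linarith) ?_) (by linarith)) hasy
    refine hup.trans ?_
    have h5 : Real.log X ≤ max C 1 * Real.log Q :=
      hR2.trans (mul_le_mul_of_nonneg_right (le_max_left _ _) (by linarith))
    have h6 : (((P i).natDegree : ℕ) : ℝ) ≤ (A : ℝ) := by
      exact_mod_cast hP.degA i
    have h7 : 0 ≤ max C 1 * Real.log Q := by positivity
    calc (((P i).natDegree : ℝ) + 1) * Real.log X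
        ≤ (((P i).natDegree : ℝ) + 1) * (max C 1 * Real.log Q) :=
          mul_le_mul_of_nonneg_left h5 (by positivity)
      _ ≤ ((A : ℝ) + 1) * (max C 1 * Real.log Q) :=
          mul_le_mul_of_nonneg_right (by linarith) h7
      _ = D * Real.log Q := by rw [hD]; ring

end Pool.Agent.H9P
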