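import Pool.Agent.Lib.H9P.U0
import Pool.Agent.Lib.HUP.R6
import Pool.Agent.Lib.HUP.R18
import Pool.Agent.Lib.H24P.K1

/-!
# ASYP, chunk U10 (M): the singular series truncated at different places
-/

open Finset Polynomial

namespace Pool.Agent.H9P

open Pool.Agent.Lib.H68T Pool.Agent.Lib.H18Q Pool.Agent.Lib.H59P Pool.Agent.Lib.H24P
open Pool.Agent.HUP

theorem u10_mono {k : ℕ} {E : ℕ} {Cc cc : ℝ} {Qm Qm' : ℕ} (h : Qm' ≤ Qm) {P : Fin k → ℤ[X]} {ι : Type}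
    {S : Finset ι} {g : ι → Fin k → ℕ} (hF : FGood E Cc cc Qm P S g) : FGood E Cc cc Qm' P S g :=
  fun Q h1 h2 => hF Q h1 (h2.trans h)

theorem u10_split {k : ℕ} (φ : Fin k → ℤ → ℤ) (Q z a A : ℕ) (ha1 : 1 ≤ a) (haA : a ≤ A) (hAQ : A ≤ Q)
    (hQz : Q ≤ z) : SSf (pr z) φ - SSf (pr Q) φ = SSf ((pr Q).filter (fun l => l ∣ a)) φ *
      (SSf ((pr z).filter (fun l => ¬ l ∣ a)) φ - SSf ((pr Q).filter (fun l => ¬ l ∣ a)) φ) := by
  have h1 : (pr z).filter (fun l => l ∣ a) = (pr Q).filter (fun l => l ∣ a) := by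
    ext l
    unfold pr
    simp only [mem_filter, mem_Icc]
    constructor
    · rintro ⟨⟨⟨h1, h2⟩, h3⟩, h4⟩
      exact ⟨⟨⟨h1, (Nat.le_of_dvd ha1 h4).trans (haA.trans hAQ)⟩, h3⟩, h4⟩
    · rintro ⟨⟨⟨h1, h2⟩, h3⟩, h4⟩
      exact ⟨⟨⟨h1, h2.trans hQz⟩, h3⟩, h4⟩
  have h2 : ∀ w, SSf (pr w) φ = SSf ((pr w).filter (fun l => l ∣ a)) φ *
      SSf ((pr w).filter (fun l => ¬ l ∣ a)) φ := by
    intro w
    unfold SSf
    rw [Finset.prod_filter_mul_prod_filter_not]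
  rw [h2 z, h2 Q, h1]
  ring

theorem u10_sq3 (x y z : ℝ) : (x + y + z) ^ 2 ≤ 3 * x ^ 2 + 3 * y ^ 2 + 3 * z ^ 2 := by
  nlinarith [sq_nonneg (x - y), sq_nonneg (y - z), sq_nonneg (x - z)]

/-- Proof. Let `a = |lc B| ≤ A`. `SSf (pr z) φ = SSf ((pr z).filter (· ∣ a)) φ * SSf ((pr z).filter (¬ · ∣ a)) φ`; the first factor is the same for `z` and `Q` (both `≥ A`) and between `0` and
`2^((k+1) A)` (`0 ≤ 1 + tpf l ≤ (l/(l-1))^(k+1) ≤ 2^(k+1)`, at most `A` primes). By `R6_main` (`TMb`) at the levels `z` and `Q` with `R = a` the second factors are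
`∑_{d ∈ SF(fl z (1/2)/a) a} tdf d` and `∑_{d ∈ SF(fl Q (1/2)/a) a} tdf d` in mean square (`S.card z^(-c)`, `S.card Q^(-c)`; `FGood` is monotone in `Qm`); the difference of these is the sum over
`Δ = SF(fl z (1/2)/a) a \ SF(fl Q (1/2)/a) a`, `R5_main` with `Q := z`, `D = fl Q (1/2)/a`: `≤ C (1 + log z)^C S.card D^(-c) ≤ S.card Q^(-c/4)` as `log z ≤ C log Q`.
`(x+y+z)² ≤ 3(x²+y²+z²)`. -/
theorem U10_ms (k A E : ℕ) (hA : 1 ≤ A) (Cc cc : ℝ) (hC : FPar Cc cc) : ∃ c : ℝ, 0 < c ∧ ∀ C : ℝ, ∃ Q0 : ℕ,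
    ∀ Q z : ℕ, Q0 ≤ Q → Q ≤ z → Real.log z ≤ C * Real.log Q → ∀ B : ℤ[X], Lin A B → ∀ P : Fin k → ℤ[X], Pol A P →
    ∀ (ι : Type) (S : Finset ι) (g : ι → Fin k → ℕ), FGood E Cc cc (z ^ 2) P S g →
    ∑ x ∈ S, (SSf (pr z) (sys B P (g x)) - SSf (pr Q) (sys B P (g x))) ^ 2 ≤ S.card * (Q : ℝ) ^ (-c) := by
  classical
  obtain ⟨c6, hc6, Q6, h6⟩ := R6_main k A E hA Cc cc hC
  obtain ⟨C5, c5, hC5, hc5, hc51, h5⟩ := R5_main k A E hA Cc cc hC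
  obtain ⟨Qs, hQs, hsize⟩ := G1_size A
  obtain ⟨c, hcd⟩ : ∃ c : ℝ, c = min c6 (c5 / 8) / 2 := ⟨_, rfl⟩
  have hc0 : 0 < c := by
    rw [hcd]
    have := lt_min hc6 (show 0 < c5 / 8 by linarith)
    linarith
  have hc1 : 2 * c ≤ c6 := by
    rw [hcd]
    have := min_le_left c6 (c5 / 8)
    linarith
  have hc2 : 2 * c ≤ c5 / 8 := by
    rw [hcd]
    have := min_le_right c6 (c5 / 8)
    linarith
  refine ⟨c, hc0, fun C => ?_⟩
  obtain ⟨Q1, hQ1, hl1⟩ := G1_rlog (C5 * (1 + |C|) ^ C5) C5 (c5 / 8) (by linarith)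
  obtain ⟨Q2, hQ2, hl2⟩ := G1_log 1 (2 * (k + 1)) (9 * 500 ^ (2 * (k + 1))) c hc0
  refine ⟨max (max Q6 Qs) (max (max Q1 Q2) (max A 3)), fun Q z hQ hQz hlog B hB P hP ι S g hG => ?_⟩
  have hq6 : Q6 ≤ Q := ((le_max_left _ _).trans (le_max_left _ _)).trans hQ
  have hqs : Qs ≤ Q := ((le_max_right _ _).trans (le_max_left _ _)).trans hQ
  have hq1 : Q1 ≤ Q := ((le_max_left _ _).trans ((le_max_left _ _).trans (le_max_right _ _))).trans hQ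
  have hq2 : Q2 ≤ Q := ((le_max_right _ _).trans ((le_max_left _ _).trans (le_max_right _ _))).trans hQ
  have hqA : A ≤ Q := ((le_max_left _ _).trans ((le_max_right _ _).trans (le_max_right _ _))).trans hQ
  have hq3 : 3 ≤ Q := ((le_max_right _ _).trans ((le_max_right _ _).trans (le_max_right _ _))).trans hQ
  have hQr : (1 : ℝ) ≤ Q := by exact_mod_cast (show 1 ≤ Q by omega)
  have hQ0 : (0 : ℝ) < Q := by linarith
  have hzr : (Q : ℝ) ≤ z := by exact_mod_cast hQz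
  have hz0 : (0 : ℝ) < z := by linarith
  have hL : 0 ≤ Real.log Q := Real.log_nonneg hQr
  have hLz : 0 ≤ Real.log z := Real.log_nonneg (hQr.trans hzr)
  obtain ⟨a, had⟩ : ∃ a : ℕ, a = B.leadingCoeff.natAbs := ⟨_, rfl⟩
  have ha1 : 1 ≤ a := by
    rw [had, Nat.one_le_iff_ne_zero, Ne, Int.natAbs_eq_zero, leadingCoeff_eq_zero]
    intro h
    have := hB.deg
    rw [h, natDegree_zero] at this
    omega
  have haA : a ≤ A := had ▸ hB.lc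
  obtain ⟨hs1, hs2, -, -, hs5⟩ := hsize Q hqs 1 a ha1 haA (by rw [one_pow]; omega)
  obtain ⟨hz1, -, -, -, -⟩ := hsize z (hqs.trans hQz) 1 a ha1 haA (by rw [one_pow]; omega)
  rw [mul_one] at hs1 hz1
  have hD := hs5 a ha1 hs1
  have hone : (1 : ℝ) ≤ (Q : ℝ) ^ (1 / 4 : ℝ) := Real.one_le_rpow hQr (by norm_num)
  obtain ⟨D, hDd⟩ : ∃ D : ℕ, D = fl Q (1 / 2) / a := ⟨_, rfl⟩
  obtain ⟨D', hD'd⟩ : ∃ D' : ℕ, D' = fl z (1 / 2) / a := ⟨_, rfl⟩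
  rw [← hDd] at hD
  have hD1 : 1 ≤ D := by exact_mod_cast hone.trans hD
  have hD'z : D' ≤ z := by
    rw [hD'd]
    exact (Nat.div_le_self _ _).trans (G1_le (by omega) (by norm_num) (by norm_num))
  have hDD' : D ≤ D' := by
    rw [hDd, hD'd]
    refine Nat.div_le_div_right ?_
    unfold fl
    exact Nat.floor_le_floor (Real.rpow_le_rpow hQ0.le hzr (by norm_num))
  have r6z := h6 z (hq6.trans hQz) B hB P hP ι S g hG a ha1 hz1 (by rw [had])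
  have hGQ : FGood E Cc cc (Q ^ 2) P S g := u10_mono (Nat.pow_le_pow_left hQz 2) hG
  have r6Q := h6 Q hq6 B hB P hP ι S g hGQ a ha1 hs1 (by rw [had])
  rw [← hDd] at r6Q
  rw [← hD'd] at r6z
  have hsubSF : SF D a ⊆ SF D' a := by
    intro d hd
    unfold SF at hd ⊢
    rw [mem_filter, mem_Icc] at hd ⊢
    exact ⟨⟨hd.1.1, hd.1.2.trans hDD'⟩, hd.2⟩
  obtain ⟨Δ, hΔd⟩ : ∃ Δ : Finset ℕ, Δ = SF D' a \ SF D a := ⟨_, rfl⟩
  have hΔ : ∀ d ∈ Δ, Squarefree d ∧ D < d ∧ d ≤ z ^ 2 ∧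
      ∀ l ∈ d.primeFactors, l ≤ z ∧ ¬ l ∣ B.leadingCoeff.natAbs := by
    intro d hd
    rw [hΔd, mem_sdiff] at hd
    obtain ⟨h1, h2⟩ := hd
    unfold SF at h1 h2
    rw [mem_filter, mem_Icc] at h1 h2
    have hdz : d ≤ z := h1.1.2.trans hD'z
    refine ⟨h1.2.1, ?_, ?_, ?_⟩
    · by_contra hlt
      exact h2 ⟨⟨h1.1.1, by omega⟩, h1.2⟩
    · refine hdz.trans ?_
      rw [pow_two]
      exact Nat.le_mul_of_pos_left z (by omega)
    · intro l hl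
      have hlp := Nat.prime_of_mem_primeFactors hl
      have hld := Nat.dvd_of_mem_primeFactors hl
      refine ⟨(Nat.le_of_dvd h1.1.1 hld).trans hdz, fun hla => ?_⟩
      rw [← had] at hla
      exact hlp.one_lt.ne' (Nat.dvd_one.1 (h1.2.2 ▸ Nat.dvd_gcd hld hla))
  have r5 := h5 B hB P hP z (by omega) Δ D hD1 hΔ ι S g hG
  have hcard : (0 : ℝ) ≤ S.card := Nat.cast_nonneg _
  have e1 : (z : ℝ) ^ (-c6) ≤ (Q : ℝ) ^ (-(2 * c)) :=
    (Real.rpow_le_rpow_of_nonpos hQ0 hzr (by linarith)).trans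
      (Real.rpow_le_rpow_of_exponent_le hQr (by linarith))
  have e2 : (Q : ℝ) ^ (-c6) ≤ (Q : ℝ) ^ (-(2 * c)) := Real.rpow_le_rpow_of_exponent_le hQr (by linarith)
  have e3 : C5 * (1 + Real.log z) ^ C5 ≤ (Q : ℝ) ^ (c5 / 8) := by
    refine le_trans ?_ (hl1 Q hq1)
    have h1 : 1 + Real.log z ≤ (1 + |C|) * (1 + Real.log Q) := by
      have h2 : C * Real.log Q ≤ |C| * Real.log Q := mul_le_mul_of_nonneg_right (le_abs_self C) hL
      have h3 := abs_nonneg C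
      nlinarith
    have h2 : (1 + Real.log z) ^ C5 ≤ (1 + |C|) ^ C5 * (1 + Real.log Q) ^ C5 := by
      rw [← Real.mul_rpow (by positivity) (by linarith)]
      exact Real.rpow_le_rpow (by linarith) h1 (by linarith)
    calc C5 * (1 + Real.log z) ^ C5 ≤ C5 * ((1 + |C|) ^ C5 * (1 + Real.log Q) ^ C5) :=
          mul_le_mul_of_nonneg_left h2 (by linarith)
      _ = C5 * (1 + |C|) ^ C5 * (1 + Real.log Q) ^ C5 := by ring
  have e4 : (D : ℝ) ^ (-c5) ≤ (Q : ℝ) ^ (-(c5 / 4)) := by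
    calc (D : ℝ) ^ (-c5) ≤ ((Q : ℝ) ^ (1 / 4 : ℝ)) ^ (-c5) :=
          Real.rpow_le_rpow_of_nonpos (by linarith) hD (by linarith)
      _ = (Q : ℝ) ^ (-(c5 / 4)) := by
          rw [← Real.rpow_mul hQ0.le]
          congr 1
          ring
  have e5 : C5 * (1 + Real.log z) ^ C5 * S.card * (D : ℝ) ^ (-c5) ≤ S.card * (Q : ℝ) ^ (-(2 * c)) := by
    calc C5 * (1 + Real.log z) ^ C5 * S.card * (D : ℝ) ^ (-c5)
        ≤ (Q : ℝ) ^ (c5 / 8) * S.card * (Q : ℝ) ^ (-(c5 / 4)) :=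
          mul_le_mul (mul_le_mul_of_nonneg_right e3 hcard) e4 (Real.rpow_nonneg (Nat.cast_nonneg D) _)
            (mul_nonneg (Real.rpow_nonneg hQ0.le _) hcard)
      _ = S.card * ((Q : ℝ) ^ (c5 / 8) * (Q : ℝ) ^ (-(c5 / 4))) := by ring
      _ = S.card * (Q : ℝ) ^ (-(c5 / 8)) := by
          rw [← Real.rpow_add hQ0]
          congr 2
          ring
      _ ≤ S.card * (Q : ℝ) ^ (-(2 * c)) :=
          mul_le_mul_of_nonneg_left (Real.rpow_le_rpow_of_exponent_le hQr (by linarith)) hcard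
  obtain ⟨W, hWd⟩ : ∃ W : ℝ, W = (500 * Real.log Q) ^ (2 * (k + 1)) := ⟨_, rfl⟩
  have hW0 : 0 ≤ W := by rw [hWd]; positivity
  have hpt : ∀ x ∈ S, (SSf (pr z) (sys B P (g x)) - SSf (pr Q) (sys B P (g x))) ^ 2 ≤
      W * (3 * (∑ d ∈ SF D' a, tdf d (sys B P (g x)) -
        SSf ((pr z).filter (fun l => ¬ l ∣ a)) (sys B P (g x))) ^ 2 +
        3 * (∑ d ∈ Δ, tdf d (sys B P (g x))) ^ 2 +
        3 * (∑ d ∈ SF D a, tdf d (sys B P (g x)) -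
        SSf ((pr Q).filter (fun l => ¬ l ∣ a)) (sys B P (g x))) ^ 2) := by
    intro x _
    obtain ⟨φ, hφ⟩ : ∃ φ : Fin (k + 1) → ℤ → ℤ, φ = sys B P (g x) := ⟨_, rfl⟩
    rw [← hφ, u10_split φ Q z a A ha1 haA hqA hQz, mul_pow]
    obtain ⟨hF0, hF1⟩ := T5_up φ Q (by omega) ((pr Q).filter (fun l => l ∣ a)) (filter_subset _ _)
    have hF2 : SSf ((pr Q).filter (fun l => l ∣ a)) φ ^ 2 ≤ W := by
      calc SSf ((pr Q).filter (fun l => l ∣ a)) φ ^ 2 ≤ ((500 * Real.log Q) ^ (k + 1)) ^ 2 :=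
            pow_le_pow_left₀ hF0 hF1 2
        _ = W := by rw [hWd, ← pow_mul, mul_comm (k + 1) 2]
    have hsum : ∑ d ∈ Δ, tdf d φ = ∑ d ∈ SF D' a, tdf d φ - ∑ d ∈ SF D a, tdf d φ := by
      rw [hΔd, ← Finset.sum_sdiff hsubSF]
      ring
    refine mul_le_mul hF2 ?_ (sq_nonneg _) hW0
    have h3 := u10_sq3 (-(∑ d ∈ SF D' a, tdf d φ - SSf ((pr z).filter (fun l => ¬ l ∣ a)) φ))
      (∑ d ∈ Δ, tdf d φ) (∑ d ∈ SF D a, tdf d φ - SSf ((pr Q).filter (fun l => ¬ l ∣ a)) φ)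
    rw [neg_sq] at h3
    refine le_trans (le_of_eq ?_) h3
    rw [hsum]
    ring
  calc ∑ x ∈ S, (SSf (pr z) (sys B P (g x)) - SSf (pr Q) (sys B P (g x))) ^ 2
      ≤ ∑ x ∈ S, W * (3 * (∑ d ∈ SF D' a, tdf d (sys B P (g x)) -
        SSf ((pr z).filter (fun l => ¬ l ∣ a)) (sys B P (g x))) ^ 2 +
        3 * (∑ d ∈ Δ, tdf d (sys B P (g x))) ^ 2 +
        3 * (∑ d ∈ SF D a, tdf d (sys B P (g x)) -
        SSf ((pr Q).filter (fun l => ¬ l ∣ a)) (sys B P (g x))) ^ 2) := Finset.sum_le_sum hpt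
    _ = W * (3 * ∑ x ∈ S, (∑ d ∈ SF D' a, tdf d (sys B P (g x)) -
        SSf ((pr z).filter (fun l => ¬ l ∣ a)) (sys B P (g x))) ^ 2 +
        3 * ∑ x ∈ S, (∑ d ∈ Δ, tdf d (sys B P (g x))) ^ 2 +
        3 * ∑ x ∈ S, (∑ d ∈ SF D a, tdf d (sys B P (g x)) -
        SSf ((pr Q).filter (fun l => ¬ l ∣ a)) (sys B P (g x))) ^ 2) := by
        rw [← Finset.mul_sum, Finset.sum_add_distrib, Finset.sum_add_distrib, ← Finset.mul_sum, ← Finset.mul_sum,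
          ← Finset.mul_sum]
    _ ≤ W * (3 * (S.card * (Q : ℝ) ^ (-(2 * c))) + 3 * (S.card * (Q : ℝ) ^ (-(2 * c))) +
        3 * (S.card * (Q : ℝ) ^ (-(2 * c)))) := by
        refine mul_le_mul_of_nonneg_left ?_ hW0
        have g1 := r6z.trans (mul_le_mul_of_nonneg_left e1 hcard)
        have g2 := r6Q.trans (mul_le_mul_of_nonneg_left e2 hcard)
        have g3 := r5.trans e5
        linarith
    _ = (9 * 500 ^ (2 * (k + 1)) * (Real.log Q) ^ (2 * (k + 1))) * (S.card * (Q : ℝ) ^ (-(2 * c))) := by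
        rw [hWd, mul_pow]
        ring
    _ ≤ (Q : ℝ) ^ c * (S.card * (Q : ℝ) ^ (-(2 * c))) := by
        refine mul_le_mul_of_nonneg_right ?_ (mul_nonneg hcard (Real.rpow_nonneg hQ0.le _))
        exact hl2 Q Q hq2 (by rw [one_mul])
    _ = S.card * ((Q : ℝ) ^ c * (Q : ℝ) ^ (-(2 * c))) := by ring
    _ = S.card * (Q : ℝ) ^ (-c) := by
        rw [← Real.rpow_add hQ0]
        congr 2
        ring

/-- `SSf` depends only on the residues of the constant terms modulo the primes. -/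
theorem U10_mod {k : ℕ} (S : Finset ℕ) (B : ℤ[X]) (P : Fin k → ℤ[X]) (h h' : Fin k → ℕ)
    (hh : ∀ l ∈ S, ∀ i, (l : ℤ) ∣ (h i : ℤ) - h' i) : SSf S (sys B P h) = SSf S (sys B P h') := by
  unfold SSf
  refine Finset.prod_congr rfl fun l hl => ?_
  unfold tpf
  have h1 : ∀ n : ℤ, ∏ i, (1 + gl l (sys B P h i n)) = ∏ i, (1 + gl l (sys B P h' i n)) := by
    intro n
    refine Finset.prod_congr rfl fun i _ => ?_
    refine Fin.cases ?_ (fun j => ?_) i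
    · rfl
    · obtain ⟨q, hq⟩ := hh l hl j
      show 1 + gl l ((P j).eval n + (h j : ℤ)) = 1 + gl l ((P j).eval n + (h' j : ℤ))
      have h2 : (P j).eval n + (h j : ℤ) = ((P j).eval n + (h' j : ℤ)) + q * l := by linarith
      rw [h2, gl_per]
  simp only [h1]

theorem u10_pol {k : ℕ} (D : Fin k → ℕ) (a : Fin k → ℤ) (P : Fin k → ℤ[X]) (hP : HasD D a P) (hD : ∀ i, 1 ≤ D i)
    (A : ℕ) : Pol (A + ∑ i, D i + ∑ i, (a i).natAbs) P := by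
  refine ⟨fun i => ?_, fun i => ?_, fun i => ?_⟩
  · rw [(hP i).1]
    exact hD i
  · rw [(hP i).1]
    have := Finset.single_le_sum (f := D) (fun _ _ => Nat.zero_le _) (mem_univ i)
    omega
  · rw [(hP i).2]
    have := Finset.single_le_sum (f := fun i => (a i).natAbs) (fun _ _ => Nat.zero_le _) (mem_univ i)
    omega

theorem u10_lin {A A' : ℕ} (h : A ≤ A') {B : ℤ[X]} (hB : Lin A B) : Lin A' B := ⟨hB.deg, hB.lc.trans h, hB.cop⟩

theorem u10_card {d : ℕ} (e : Fin d → ℕ) (A Z : ℕ) (hA : 1 ≤ A) (hZ : 1 ≤ Z) :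
    ((tb 0 fun j => A * Z ^ e j + 1).card : ℝ) ≤ (2 * A) ^ d * (Z : ℝ) ^ (∑ j, e j) := by
  rw [R18_card]
  push_cast
  calc ∏ j, ((A : ℝ) * (Z : ℝ) ^ e j + 1) ≤ ∏ j, ((2 * A) * (Z : ℝ) ^ e j) := by
        refine Finset.prod_le_prod (fun j _ => by positivity) fun j _ => ?_
        have h1 : (1 : ℝ) ≤ A := by exact_mod_cast hA
        have h2 : (1 : ℝ) ≤ (Z : ℝ) ^ e j := one_le_pow₀ (by exact_mod_cast hZ)
        nlinarith
    _ = (2 * A) ^ d * (Z : ℝ) ^ (∑ j, e j) := by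
        rw [Finset.prod_mul_distrib, Finset.prod_const, card_univ, Fintype.card_fin, Finset.prod_pow_eq_pow_sum]

/-- **U10.** All `t`. Proof. `FGTU` gives `E, Cc, cc`; `δ1 = 1/(2E+4)`. WLOG `Q ≤ z` (else exchange them; the exponent is then multiplied by `δ`, as `z ≥ Z^δ ≥ Q^δ`). Put `β' i = β i + V`,
`V` a multiple of `z!` so large that `0 ≤ β' i + ψ_i(t)` on `tb 0 (A Z^e + 1)`; `FGTU` with `Qm = z^2` (`z^(2E) ≤ Z ≤ s_j`) for this box, `U10_ms`, Chebyshev (`k1_cheb` in `H24P/K1.lean`).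
For `t` with `β i + ψ_i(t) ≥ 0` the series are the same as those for `β'` (`U10_mod`). The number of the `t` is at most `(2A)^d Z^(∑ e)` (`R18_card`). -/
theorem U10_main {k d : ℕ} (c : Fin k → Fin d → ℤ) (e : Fin d → ℕ) (D : Fin k → ℕ) (a : Fin k → ℤ)
    (hF : FGTU c D a) (he : ∀ j, 1 ≤ e j) (hD : ∀ i, 1 ≤ D i) (P : Fin k → ℤ[X]) (hP : HasD D a P) :
    ∃ δ1 : ℝ, 0 < δ1 ∧ ∀ (A : ℕ) (C δ : ℝ), 1 ≤ A → 0 < δ → ∃ c1 : ℝ, 0 < c1 ∧ ∃ Q0 : ℕ, ∀ Q Z z : ℕ, Q0 ≤ Q →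
    Real.log Z ≤ C * Real.log Q → (Q : ℝ) ≤ (Z : ℝ) ^ δ1 → (Z : ℝ) ^ δ ≤ z → (z : ℝ) ≤ (Z : ℝ) ^ δ1 →
    ∀ B : ℤ[X], Lin A B → ∀ β : Fin k → ℤ,
    (((tb 0 fun j => A * Z ^ e j + 1).filter fun t => (∀ i, 0 ≤ β i + lf c t i) ∧
      (Q : ℝ) ^ (-c1) < |SSf (pr z) (sys B P (hh c β t)) - SSf (pr Q) (sys B P (hh c β t))|).card : ℝ) ≤
      (Z : ℝ) ^ (∑ j, e j) * (Q : ℝ) ^ (-c1) := by
  classical
  obtain ⟨E, Cc, cc, hpar, hFG⟩ := hF
  obtain ⟨δ1, hδ1d⟩ : ∃ δ1 : ℝ, δ1 = 1 / (2 * E + 4) := ⟨_, rfl⟩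
  have hE0 : (0 : ℝ) ≤ E := Nat.cast_nonneg E
  have hδ10 : 0 < δ1 := by
    rw [hδ1d]
    positivity
  have hδ11 : δ1 ≤ 1 := by
    rw [hδ1d, div_le_one (by positivity)]
    linarith
  have hδ1E : δ1 * (2 * E) ≤ 1 := by
    rw [hδ1d, div_mul_eq_mul_div, one_mul, div_le_one (by positivity)]
    linarith
  refine ⟨δ1, hδ10, fun A C δ hA hδ => ?_⟩
  obtain ⟨A', hA'd⟩ : ∃ A' : ℕ, A' = A + ∑ i, D i + ∑ i, (a i).natAbs := ⟨_, rfl⟩
  obtain ⟨c0, hc0, hms0⟩ := U10_ms k A' E (by omega) Cc cc hpar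
  obtain ⟨Q1, hms⟩ := hms0 (max |C| (1 / δ))
  obtain ⟨c2, hc2d⟩ : ∃ c2 : ℝ, c2 = c0 * min 1 δ := ⟨_, rfl⟩
  have hmin : 0 < min 1 δ := lt_min one_pos hδ
  have hc2 : 0 < c2 := by
    rw [hc2d]
    exact mul_pos hc0 hmin
  have hc2a : c2 ≤ c0 := by
    rw [hc2d]
    have := mul_le_mul_of_nonneg_left (min_le_left 1 δ) hc0.le
    linarith
  have hc2b : c2 ≤ c0 * δ := by
    rw [hc2d]
    exact mul_le_mul_of_nonneg_left (min_le_right 1 δ) hc0.le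
  obtain ⟨Q2, hQ2, hl2⟩ := G1_rlog ((2 * A) ^ d) 0 (c2 / 4) (by linarith)
  refine ⟨c2 / 4, by linarith, max (max Q1 Q2) (max ⌈(Q1 : ℝ) ^ (1 / δ)⌉₊ 1), ?_⟩
  intro Q Z z hQ hlog hQZ hzZ hzZ' B hB β
  have hq1 : Q1 ≤ Q := ((le_max_left _ _).trans (le_max_left _ _)).trans hQ
  have hq2 : Q2 ≤ Q := ((le_max_right _ _).trans (le_max_left _ _)).trans hQ
  have hq3 : ⌈(Q1 : ℝ) ^ (1 / δ)⌉₊ ≤ Q := ((le_max_left _ _).trans (le_max_right _ _)).trans hQ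
  have hq4 : 1 ≤ Q := ((le_max_right _ _).trans (le_max_right _ _)).trans hQ
  have hQr : (1 : ℝ) ≤ Q := by exact_mod_cast hq4
  have hQ0 : (0 : ℝ) < Q := by linarith
  have hLQ : 0 ≤ Real.log Q := Real.log_nonneg hQr
  have hZ1 : 1 ≤ Z := by
    rcases Nat.eq_zero_or_pos Z with h | h
    · rw [h, Nat.cast_zero, Real.zero_rpow hδ10.ne'] at hQZ
      linarith
    · exact h
  have hZr : (1 : ℝ) ≤ Z := by exact_mod_cast hZ1
  have hZ0 : (0 : ℝ) < Z := by linarith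
  have hLZ : 0 ≤ Real.log Z := Real.log_nonneg hZr
  have hz1r : (1 : ℝ) ≤ z := (Real.one_le_rpow hZr hδ.le).trans hzZ
  have hz0 : (0 : ℝ) < z := by linarith
  have hLz : 0 ≤ Real.log z := Real.log_nonneg hz1r
  have hZδ1 : (Z : ℝ) ^ δ1 ≤ Z := by
    calc (Z : ℝ) ^ δ1 ≤ (Z : ℝ) ^ (1 : ℝ) := Real.rpow_le_rpow_of_exponent_le hZr hδ11
      _ = Z := Real.rpow_one _
  have hlogz : Real.log z ≤ Real.log Z := Real.log_le_log hz0 (hzZ'.trans hZδ1)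
  have hlogQ : Real.log Q ≤ Real.log Z := Real.log_le_log hQ0 (hQZ.trans hZδ1)
  have hlogZz : Real.log Z ≤ 1 / δ * Real.log z := by
    have h1 : δ * Real.log Z ≤ Real.log z := by
      rw [← Real.log_rpow hZ0]
      exact Real.log_le_log (Real.rpow_pos_of_pos hZ0 _) hzZ
    calc Real.log Z = 1 / δ * (δ * Real.log Z) := by field_simp
      _ ≤ 1 / δ * Real.log z := mul_le_mul_of_nonneg_left h1 (by positivity)
  have hQδ : (Q : ℝ) ^ δ ≤ z := (Real.rpow_le_rpow hQ0.le (hQZ.trans hZδ1) hδ.le).trans hzZ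
  obtain ⟨w, hwd⟩ : ∃ w : ℕ, w = max Q z := ⟨_, rfl⟩
  have hwQ : Q ≤ w := hwd ▸ le_max_left _ _
  have hwz : z ≤ w := hwd ▸ le_max_right _ _
  have hw1 : 1 ≤ w := hq4.trans hwQ
  have hwZ : (w : ℝ) ≤ (Z : ℝ) ^ δ1 := by
    rw [hwd, Nat.cast_max]
    exact max_le hQZ hzZ'
  have hwE : (w ^ 2) ^ E ≤ Z := by
    have h1 : ((w : ℝ) ^ 2) ^ E ≤ Z := by
      calc ((w : ℝ) ^ 2) ^ E = (w : ℝ) ^ (2 * E) := (pow_mul _ _ _).symm
        _ ≤ ((Z : ℝ) ^ δ1) ^ (2 * E) := pow_le_pow_left₀ (Nat.cast_nonneg w) hwZ _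
        _ = (Z : ℝ) ^ (δ1 * (2 * E)) := by
            rw [← Real.rpow_natCast, ← Real.rpow_mul hZ0.le]
            congr 1
            push_cast
            ring
        _ ≤ (Z : ℝ) ^ (1 : ℝ) := Real.rpow_le_rpow_of_exponent_le hZr hδ1E
        _ = Z := Real.rpow_one _
    exact_mod_cast h1
  obtain ⟨s, hsd⟩ : ∃ s : Fin d → ℕ, s = fun j => A * Z ^ e j + 1 := ⟨_, rfl⟩
  rw [← hsd]
  have hsj : ∀ j, (w ^ 2) ^ E ≤ s j := by
    intro j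
    rw [hsd]
    have h1 : Z ≤ Z ^ e j := by
      calc Z = Z ^ 1 := (pow_one Z).symm
        _ ≤ Z ^ e j := Nat.pow_le_pow_right hZ1 (he j)
    have h2 : Z ^ e j ≤ A * Z ^ e j := Nat.le_mul_of_pos_left _ hA
    show (w ^ 2) ^ E ≤ A * Z ^ e j + 1
    omega
  obtain ⟨N, hNd⟩ : ∃ N : ℕ, N = ∑ i, (β i).natAbs + ∑ t ∈ tb 0 s, ∑ i, (lf c t i).natAbs := ⟨_, rfl⟩
  obtain ⟨V, hVd⟩ : ∃ V : ℕ, V = w.factorial * N := ⟨_, rfl⟩
  have hNV : N ≤ V := by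
    rw [hVd]
    exact Nat.le_mul_of_pos_left _ (Nat.factorial_pos w)
  obtain ⟨β', hβ'd⟩ : ∃ β' : Fin k → ℤ, β' = fun i => β i + (V : ℤ) := ⟨_, rfl⟩
  have hnn : ∀ t ∈ tb 0 s, ∀ i, 0 ≤ β' i + lf c t i := by
    intro t ht i
    have h1 := Finset.single_le_sum (f := fun i => (β i).natAbs) (fun _ _ => Nat.zero_le _) (mem_univ i)
    have h2 := Finset.single_le_sum (f := fun i => (lf c t i).natAbs) (fun _ _ => Nat.zero_le _) (mem_univ i)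
    have h3 := Finset.single_le_sum (f := fun t => ∑ i, (lf c t i).natAbs) (fun _ _ => Nat.zero_le _) ht
    rw [hβ'd]
    show 0 ≤ β i + (V : ℤ) + lf c t i
    omega
  have hG : FGood E Cc cc (w ^ 2) P (tb 0 s) (hh c β') :=
    hFG P hP (w ^ 2) 0 s β' (Nat.one_le_pow _ _ hw1) hsj hnn
  have hmod : ∀ t : Fin d → ℤ, (∀ i, 0 ≤ β i + lf c t i) → ∀ y : ℕ, y ≤ w →
      SSf (pr y) (sys B P (hh c β t)) = SSf (pr y) (sys B P (hh c β' t)) := by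
    intro t ht y hy
    refine U10_mod _ B P _ _ fun l hl i => ?_
    have h1 : ((hh c β t i : ℕ) : ℤ) - (hh c β' t i : ℕ) = -(V : ℤ) := by
      show (((β i + lf c t i).toNat : ℕ) : ℤ) - (((β' i + lf c t i).toNat : ℕ) : ℤ) = -(V : ℤ)
      rw [hβ'd]
      have h2 := ht i
      rw [Int.toNat_of_nonneg h2, Int.toNat_of_nonneg (by simp only; omega)]
      ring
    rw [h1, dvd_neg]
    unfold pr at hl
    rw [mem_filter, mem_Icc] at hl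
    have h3 : l ∣ V := by
      rw [hVd]
      exact Dvd.dvd.mul_right (Nat.dvd_factorial hl.1.1 (hl.1.2.trans hy)) _
    exact_mod_cast h3
  have hPol : Pol A' P := hA'd ▸ u10_pol D a P hP hD A
  have hBL : Lin A' B := u10_lin (by omega) hB
  have hcard : (0 : ℝ) ≤ (tb 0 s).card := Nat.cast_nonneg _
  have hkey : ∑ t ∈ tb 0 s, (SSf (pr z) (sys B P (hh c β' t)) - SSf (pr Q) (sys B P (hh c β' t))) ^ 2 ≤
      (tb 0 s).card * (Q : ℝ) ^ (-c2) := by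
    rcases le_total Q z with h | h
    · have h1 := hms Q z hq1 h (by
        have h2 : C * Real.log Q ≤ max |C| (1 / δ) * Real.log Q :=
          mul_le_mul_of_nonneg_right ((le_abs_self C).trans (le_max_left _ _)) hLQ
        linarith) B hBL P hPol _ (tb 0 s) (hh c β') (u10_mono (Nat.pow_le_pow_left hwz 2) hG)
      refine h1.trans (mul_le_mul_of_nonneg_left ?_ hcard)
      exact Real.rpow_le_rpow_of_exponent_le hQr (by linarith)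
    · have hQ1z : Q1 ≤ z := by
        have h2 : (Q1 : ℝ) ≤ z := by
          have h3 : (Q1 : ℝ) ^ (1 / δ) ≤ Q := (Nat.le_ceil _).trans (by exact_mod_cast hq3)
          have h4 : ((Q1 : ℝ) ^ (1 / δ)) ^ δ ≤ (Q : ℝ) ^ δ :=
            Real.rpow_le_rpow (Real.rpow_nonneg (Nat.cast_nonneg Q1) _) h3 hδ.le
          rw [← Real.rpow_mul (Nat.cast_nonneg Q1), one_div, inv_mul_cancel₀ hδ.ne', Real.rpow_one] at h4
          exact h4.trans hQδ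
        exact_mod_cast h2
      have h1 := hms z Q hQ1z h (by
        have h2 : 1 / δ * Real.log z ≤ max |C| (1 / δ) * Real.log z :=
          mul_le_mul_of_nonneg_right (le_max_right _ _) hLz
        linarith) B hBL P hPol _ (tb 0 s) (hh c β') (u10_mono (Nat.pow_le_pow_left hwQ 2) hG)
      have h2 : ∑ t ∈ tb 0 s, (SSf (pr z) (sys B P (hh c β' t)) - SSf (pr Q) (sys B P (hh c β' t))) ^ 2 =
          ∑ t ∈ tb 0 s, (SSf (pr Q) (sys B P (hh c β' t)) - SSf (pr z) (sys B P (hh c β' t))) ^ 2 :=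
        Finset.sum_congr rfl fun t _ => by ring
      rw [h2]
      refine h1.trans (mul_le_mul_of_nonneg_left ?_ hcard)
      calc (z : ℝ) ^ (-c0) ≤ ((Q : ℝ) ^ δ) ^ (-c0) :=
            Real.rpow_le_rpow_of_nonpos (Real.rpow_pos_of_pos hQ0 _) hQδ (by linarith)
        _ = (Q : ℝ) ^ (δ * (-c0)) := (Real.rpow_mul hQ0.le _ _).symm
        _ ≤ (Q : ℝ) ^ (-c2) := Real.rpow_le_rpow_of_exponent_le hQr (by linarith)
  have hT : 0 < (Q : ℝ) ^ (-(c2 / 4)) := Real.rpow_pos_of_pos hQ0 _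
  have hch := k1_cheb (tb 0 s)
    (fun t => |SSf (pr z) (sys B P (hh c β' t)) - SSf (pr Q) (sys B P (hh c β' t))|)
    ((Q : ℝ) ^ (-(c2 / 4))) ((tb 0 s).card * (Q : ℝ) ^ (-c2)) hT
    (by
      refine le_trans (le_of_eq ?_) hkey
      exact Finset.sum_congr rfl fun t _ => sq_abs _) (fun t => abs_nonneg _)
  have hsub : ((tb 0 s).filter fun t => (∀ i, 0 ≤ β i + lf c t i) ∧
      (Q : ℝ) ^ (-(c2 / 4)) < |SSf (pr z) (sys B P (hh c β t)) - SSf (pr Q) (sys B P (hh c β t))|) ⊆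
      (tb 0 s).filter fun t => (Q : ℝ) ^ (-(c2 / 4)) <
        |SSf (pr z) (sys B P (hh c β' t)) - SSf (pr Q) (sys B P (hh c β' t))| := by
    intro t ht
    rw [mem_filter] at ht ⊢
    refine ⟨ht.1, ?_⟩
    rw [← hmod t ht.2.1 z hwz, ← hmod t ht.2.1 Q hwQ]
    exact ht.2.2
  have hcd : ((tb 0 s).card : ℝ) ≤ (2 * A) ^ d * (Z : ℝ) ^ (∑ j, e j) := by
    rw [hsd]
    exact u10_card e A Z hA hZ1
  have hl2' : (2 * A : ℝ) ^ d ≤ (Q : ℝ) ^ (c2 / 4) := by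
    have := hl2 Q hq2
    rwa [Real.rpow_zero, mul_one] at this
  have hZs : (0 : ℝ) ≤ (Z : ℝ) ^ (∑ j, e j) := by positivity
  calc ((((tb 0 s).filter fun t => (∀ i, 0 ≤ β i + lf c t i) ∧
      (Q : ℝ) ^ (-(c2 / 4)) < |SSf (pr z) (sys B P (hh c β t)) - SSf (pr Q) (sys B P (hh c β t))|).card : ℕ) : ℝ)
      ≤ ((((tb 0 s).filter fun t => (Q : ℝ) ^ (-(c2 / 4)) <
        |SSf (pr z) (sys B P (hh c β' t)) - SSf (pr Q) (sys B P (hh c β' t))|).card : ℕ) : ℝ) := by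
        exact_mod_cast card_le_card hsub
    _ ≤ (tb 0 s).card * (Q : ℝ) ^ (-c2) / ((Q : ℝ) ^ (-(c2 / 4))) ^ 2 := hch
    _ = (tb 0 s).card * (Q : ℝ) ^ (-(c2 / 2)) := by
        rw [mul_div_assoc]
        congr 1
        rw [← Real.rpow_natCast, ← Real.rpow_mul hQ0.le, ← Real.rpow_sub hQ0]
        congr 1
        push_cast
        ring
    _ ≤ ((Q : ℝ) ^ (c2 / 4) * (Z : ℝ) ^ (∑ j, e j)) * (Q : ℝ) ^ (-(c2 / 2)) := by
        refine mul_le_mul_of_nonneg_right ?_ (Real.rpow_nonneg hQ0.le _)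
        exact hcd.trans (mul_le_mul_of_nonneg_right hl2' hZs)
    _ = (Z : ℝ) ^ (∑ j, e j) * ((Q : ℝ) ^ (c2 / 4) * (Q : ℝ) ^ (-(c2 / 2))) := by ring
    _ = (Z : ℝ) ^ (∑ j, e j) * (Q : ℝ) ^ (-(c2 / 4)) := by
        rw [← Real.rpow_add hQ0]
        congr 2
        ring

end Pool.Agent.H9P
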