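import Pool.Agent.Lib.H9P.U0
import Pool.Agent.Lib.H24P.P2

/-!
# ASYP, chunk U11 (M): translation of the variable `n`
-/

open Finset Polynomial

namespace Pool.Agent.H9P

open Pool.Agent.Lib.H68T Pool.Agent.Lib.H18Q Pool.Agent.Lib.H59P Pool.Agent.Lib.H24P
open Pool.Agent.HUP

theorem u11_per (G : ℤ → ℝ) (l : ℕ) (hG : ∀ n, G (n + l) = G n) (m : ℤ) :
    ∑ n ∈ range l, G (m + n) = ∑ n ∈ range l, G n := by
  have hstep : ∀ m : ℤ, ∑ n ∈ range l, G (m + 1 + n) = ∑ n ∈ range l, G (m + n) := by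
    intro m
    have h1 := Finset.sum_range_succ (fun n : ℕ => G (m + n)) l
    have h2 := Finset.sum_range_succ' (fun n : ℕ => G (m + n)) l
    rw [h1] at h2
    have h3 : ∑ n ∈ range l, G (m + ((n + 1 : ℕ) : ℤ)) = ∑ n ∈ range l, G (m + 1 + n) := by
      refine Finset.sum_congr rfl fun n _ => ?_
      congr 1
      push_cast
      ring
    rw [h3, hG] at h2
    simp only [Nat.cast_zero, add_zero] at h2
    linarith
  induction m using Int.induction_on with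
  | zero => simp
  | succ i ih => rw [hstep, ih]
  | pred i ih =>
    have h1 := hstep (-(i : ℤ) - 1)
    rw [sub_add_cancel] at h1
    rw [← h1, ih]

theorem U11_eval (n0 : ℕ) (P : ℤ[X]) (m : ℤ) : (shf n0 P).eval m = P.eval ((n0 : ℤ) + m) - P.eval (n0 : ℤ) := by
  unfold shf
  rw [eval_sub, eval_comp, eval_add, eval_X, eval_C, eval_C, add_comm m (n0 : ℤ)]

theorem u11_deg (n0 : ℕ) (P : ℤ[X]) : (shf n0 P).natDegree = P.natDegree := by
  unfold shf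
  rw [natDegree_sub_C, natDegree_comp, natDegree_X_add_C, mul_one]

/-- Degree at least `1`: degree and leading coefficient are unchanged (`natDegree_comp`, `leadingCoeff_comp`, `natDegree_sub_C`). -/
theorem U11_hasD {k : ℕ} (D : Fin k → ℕ) (a : Fin k → ℤ) (P : Fin k → ℤ[X]) (hP : HasD D a P) (hD : ∀ i, 1 ≤ D i)
    (n0 : ℕ) : HasD D a (fun i => shf n0 (P i)) := by
  intro i
  obtain ⟨h1, h2⟩ := hP i
  refine ⟨(u11_deg n0 (P i)).trans h1, ?_⟩
  have h3 : ((P i).comp (X + C (n0 : ℤ))).leadingCoeff = (P i).leadingCoeff := by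
    rw [leadingCoeff_comp (by rw [natDegree_X_add_C]; exact one_ne_zero), leadingCoeff_X_add_C, one_pow, mul_one]
  have h4 : (shf n0 (P i)).leadingCoeff = ((P i).comp (X + C (n0 : ℤ))).leadingCoeff := by
    unfold leadingCoeff
    rw [u11_deg, natDegree_comp, natDegree_X_add_C, mul_one]
    unfold shf
    rw [coeff_sub, coeff_C, if_neg (by rw [h1]; have := hD i; omega), sub_zero]
  show (shf n0 (P i)).leadingCoeff = a i
  rw [h4, h3, h2]

/-- Proof. The constant coefficient of `shf n0 P` is `P(n0) - P(n0) = 0`; the others are those of `P(x + n0)` (`Polynomial.taylor`, `taylor_coeff`, hasseDeriv; or by induction on `P`):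
`|coeff j| ≤ ∑_(l ≥ j) |a_l| (l choose j) n0^(l-j)`. -/
theorem U11_coeff (P : ℤ[X]) : ∃ Cp : ℕ, 1 ≤ Cp ∧ ∀ n0 Z : ℕ, n0 ≤ Z → 1 ≤ Z → (shf n0 P).coeff 0 = 0 ∧
    ∀ j, ((shf n0 P).coeff j).natAbs * Z ^ j ≤ Cp * Z ^ P.natDegree := by
  refine ⟨∑ i ∈ P.support, 2 ^ i * (P.coeff i).natAbs + 1, by omega, fun n0 Z hn hZ => ?_⟩
  have h0 : (shf n0 P).coeff 0 = 0 := by
    rw [coeff_zero_eq_eval_zero, U11_eval, add_zero, sub_self]
  refine ⟨h0, fun j => ?_⟩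
  rcases Nat.eq_zero_or_pos j with hj | hj
  · rw [hj, h0]
    simp
  have h1 : (shf n0 P).coeff j = ∑ i ∈ P.support, (i.choose j : ℤ) * P.coeff i * (n0 : ℤ) ^ (i - j) := by
    unfold shf
    rw [coeff_sub, coeff_C, if_neg (by omega), sub_zero, ← taylor_apply, taylor_coeff, hasseDeriv_apply,
      Polynomial.sum_def, eval_finsetSum]
    refine Finset.sum_congr rfl fun i _ => ?_
    rw [eval_monomial]
  have h2 : ((shf n0 P).coeff j).natAbs ≤ ∑ i ∈ P.support, i.choose j * (P.coeff i).natAbs * n0 ^ (i - j) := by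
    rw [h1]
    refine (Int.natAbs_sum_le _ _).trans (Finset.sum_le_sum fun i _ => ?_)
    rw [Int.natAbs_mul, Int.natAbs_mul, Int.natAbs_pow, Int.natAbs_natCast, Int.natAbs_natCast]
  calc ((shf n0 P).coeff j).natAbs * Z ^ j
      ≤ (∑ i ∈ P.support, i.choose j * (P.coeff i).natAbs * n0 ^ (i - j)) * Z ^ j := Nat.mul_le_mul_right _ h2
    _ = ∑ i ∈ P.support, i.choose j * (P.coeff i).natAbs * n0 ^ (i - j) * Z ^ j := by rw [Finset.sum_mul]
    _ ≤ ∑ i ∈ P.support, 2 ^ i * (P.coeff i).natAbs * Z ^ P.natDegree := by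
        refine Finset.sum_le_sum fun i hi => ?_
        rcases Nat.lt_or_ge i j with h | h
        · rw [Nat.choose_eq_zero_of_lt h]
          simp
        · have h3 : n0 ^ (i - j) * Z ^ j ≤ Z ^ P.natDegree := by
            calc n0 ^ (i - j) * Z ^ j ≤ Z ^ (i - j) * Z ^ j := Nat.mul_le_mul_right _ (Nat.pow_le_pow_left hn _)
              _ = Z ^ i := by rw [← pow_add, Nat.sub_add_cancel h]
              _ ≤ Z ^ P.natDegree := Nat.pow_le_pow_right hZ (le_natDegree_of_mem_supp i hi)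
          have h4 : i.choose j ≤ 2 ^ i := Nat.choose_le_two_pow i j
          rw [mul_assoc]
          exact Nat.mul_le_mul (Nat.mul_le_mul_right _ h4) h3
    _ = (∑ i ∈ P.support, 2 ^ i * (P.coeff i).natAbs) * Z ^ P.natDegree := by rw [Finset.sum_mul]
    _ ≤ (∑ i ∈ P.support, 2 ^ i * (P.coeff i).natAbs + 1) * Z ^ P.natDegree :=
        Nat.mul_le_mul_right _ (Nat.le_succ _)

/-- The geometry of a cell. Proof. For `j = 0` the coefficient is `0`; for `j ≥ 1`, `2 X1 ≤ Z`: `(2 X1)^j Z ≤ 2 X1 Z^j`, so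
`Z · (1000 (A+1)² |coeff j| (2 X1)^j) ≤ 1000 (A+1)² 2 X1 Cp Z^(deg)` (`U11_coeff`, the maximum of the `Cp`), which is at most `Z M_i` by hypothesis. -/
theorem U11_geo {k : ℕ} (P : Fin k → ℤ[X]) (A : ℕ) : ∃ Cg : ℕ, 1 ≤ Cg ∧ ∀ (Q X Z X1 n0 : ℕ) (M : Fin k → ℕ),
    1 ≤ Z → n0 ≤ A * Z → 2 * X1 ≤ Z → Q ^ 800 ∣ X1 → 0 < X1 → X1 ≤ X → X ≤ X1 * Q → (∀ i, 8 * Q ^ 8 ∣ M i) →
    (∀ i, Cg * X1 * Z ^ (P i).natDegree ≤ Z * M i) →
    (∀ i, (M i : ℝ) ≤ (X1 : ℝ) ^ (P i).natDegree * (Q : ℝ) ^ (1 / 8 : ℝ)) → (∀ i, 1 ≤ (P i).natDegree) →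
    GeoU A Q X X1 (fun i => shf n0 (P i)) M := by
  choose Cp hCp1 hCp using fun i => U11_coeff (P i)
  refine ⟨2000 * (A + 1) ^ 2 * ∑ i, Cp i * (A + 1) ^ (P i).natDegree + 1, by omega, ?_⟩
  intro Q X Z X1 n0 M hZ hn0 hX1Z hdvd hpos hle hge hdvdM hlo hhi hdeg
  refine ⟨hdvd, hpos, hle, hge, hdvdM, ?_, ?_⟩
  · intro i j
    have hZ' : n0 ≤ (A + 1) * Z := by
      have : (A + 1) * Z = A * Z + Z := by ring
      omega
    have hZ1 : 1 ≤ (A + 1) * Z := Nat.mul_pos (Nat.succ_pos A) hZ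
    obtain ⟨h0, hc⟩ := hCp i n0 ((A + 1) * Z) hZ' hZ1
    show 1000 * (A + 1) ^ 2 * ((shf n0 (P i)).coeff j).natAbs * (2 * X1) ^ j ≤ M i
    rcases Nat.eq_zero_or_pos j with hj | hj
    · rw [hj, h0]
      simp
    have h1 : (2 * X1) ^ j * Z ≤ 2 * X1 * Z ^ j := by
      obtain ⟨m, rfl⟩ : ∃ m, j = m + 1 := ⟨j - 1, by omega⟩
      have h2 : (2 * X1) ^ m ≤ Z ^ m := Nat.pow_le_pow_left hX1Z m
      calc (2 * X1) ^ (m + 1) * Z = (2 * X1) ^ m * (2 * X1 * Z) := by ring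
        _ ≤ Z ^ m * (2 * X1 * Z) := Nat.mul_le_mul_right _ h2
        _ = 2 * X1 * Z ^ (m + 1) := by ring
    have h2 : ((shf n0 (P i)).coeff j).natAbs * Z ^ j ≤ Cp i * ((A + 1) ^ (P i).natDegree * Z ^ (P i).natDegree) := by
      calc ((shf n0 (P i)).coeff j).natAbs * Z ^ j ≤ ((shf n0 (P i)).coeff j).natAbs * ((A + 1) * Z) ^ j :=
            Nat.mul_le_mul_left _ (Nat.pow_le_pow_left (Nat.le_mul_of_pos_left Z (Nat.succ_pos A)) j)
        _ ≤ Cp i * ((A + 1) * Z) ^ (P i).natDegree := hc j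
        _ = Cp i * ((A + 1) ^ (P i).natDegree * Z ^ (P i).natDegree) := by rw [mul_pow]
    have h3 : Cp i * (A + 1) ^ (P i).natDegree ≤ ∑ i, Cp i * (A + 1) ^ (P i).natDegree :=
      Finset.single_le_sum (f := fun i => Cp i * (A + 1) ^ (P i).natDegree) (fun _ _ => Nat.zero_le _)
        (mem_univ i)
    have h4 : Z * (1000 * (A + 1) ^ 2 * ((shf n0 (P i)).coeff j).natAbs * (2 * X1) ^ j) ≤ Z * M i := by
      calc Z * (1000 * (A + 1) ^ 2 * ((shf n0 (P i)).coeff j).natAbs * (2 * X1) ^ j)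
          = 1000 * (A + 1) ^ 2 * ((shf n0 (P i)).coeff j).natAbs * ((2 * X1) ^ j * Z) := by ring
        _ ≤ 1000 * (A + 1) ^ 2 * ((shf n0 (P i)).coeff j).natAbs * (2 * X1 * Z ^ j) := Nat.mul_le_mul_left _ h1
        _ = 2000 * (A + 1) ^ 2 * X1 * (((shf n0 (P i)).coeff j).natAbs * Z ^ j) := by ring
        _ ≤ 2000 * (A + 1) ^ 2 * X1 * (Cp i * ((A + 1) ^ (P i).natDegree * Z ^ (P i).natDegree)) :=
            Nat.mul_le_mul_left _ h2
        _ = 2000 * (A + 1) ^ 2 * (Cp i * (A + 1) ^ (P i).natDegree) * (X1 * Z ^ (P i).natDegree) := by ring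
        _ ≤ 2000 * (A + 1) ^ 2 * (∑ i, Cp i * (A + 1) ^ (P i).natDegree) * (X1 * Z ^ (P i).natDegree) :=
            Nat.mul_le_mul_right _ (Nat.mul_le_mul_left _ h3)
        _ ≤ (2000 * (A + 1) ^ 2 * (∑ i, Cp i * (A + 1) ^ (P i).natDegree) + 1) * (X1 * Z ^ (P i).natDegree) :=
            Nat.mul_le_mul_right _ (Nat.le_succ _)
        _ = (2000 * (A + 1) ^ 2 * (∑ i, Cp i * (A + 1) ^ (P i).natDegree) + 1) * X1 * Z ^ (P i).natDegree := by ring
        _ ≤ Z * M i := hlo i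
    exact Nat.le_of_mul_le_mul_left h4 hZ
  · intro i
    show (M i : ℝ) ≤ (X1 : ℝ) ^ (shf n0 (P i)).natDegree * (Q : ℝ) ^ (1 / 8 : ℝ)
    rw [u11_deg]
    exact hhi i

/-- The local factors of the translated system. Proof. `tpf l`: the sum over a complete system of residues; `Cp φ` (all `φ_i(n + l) ≡ φ_i(n)` mod `l`, so `gl l (φ_i n)` is periodic). -/
theorem U11_SS {k : ℕ} (φ : Fin k → ℤ → ℤ) (hφ : Cp φ) (S : Finset ℕ) (n0 : ℤ) :
    SSf S (fun i n => φ i (n0 + n)) = SSf S φ := by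
  unfold SSf
  refine Finset.prod_congr rfl fun l _ => ?_
  unfold tpf
  have h := u11_per (fun n => ∏ i, (1 + gl l (φ i n))) l (fun n => by
    refine Finset.prod_congr rfl fun i _ => ?_
    rw [P2_gl φ hφ l l (dvd_refl l) i n]) n0
  simp only at h ⊢
  rw [h]

/-- The translated system. Proof. `funext`, `Fin.cases`; `hh c β' t i = β i + P_i(n0) + ψ_i(t)` as both `β i + ψ_i(t)` and this sum are not negative. -/
theorem U11_sys {k d : ℕ} (c : Fin k → Fin d → ℤ) (B : ℤ[X]) (P : Fin k → ℤ[X]) (n0 : ℕ) (β : Fin k → ℤ)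
    (t : Fin d → ℤ) (h1 : ∀ i, 0 ≤ β i + lf c t i) (h2 : ∀ i, 0 ≤ (P i).eval (n0 : ℤ) + β i + lf c t i) :
    sys (B.comp (X + C (n0 : ℤ))) (fun i => shf n0 (P i)) (hh c (fun i => β i + (P i).eval (n0 : ℤ)) t) =
      fun i n => sys B P (hh c β t) i ((n0 : ℤ) + n) := by
  funext i n
  refine Fin.cases ?_ (fun j => ?_) i
  · show (B.comp (X + C (n0 : ℤ))).eval n = B.eval ((n0 : ℤ) + n)
    rw [eval_comp, eval_add, eval_X, eval_C, add_comm]
  · show (shf n0 (P j)).eval n + (((β j + (P j).eval (n0 : ℤ) + lf c t j).toNat : ℕ) : ℤ) =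
      (P j).eval ((n0 : ℤ) + n) + (((β j + lf c t j).toNat : ℕ) : ℤ)
    rw [U11_eval, Int.toNat_of_nonneg (h1 j), Int.toNat_of_nonneg (by have := h2 j; linarith)]
    ring

/-- `RPh` is a `wct`, and translation. (`Fin.prod_univ_succ`; `Finset.sum_Ico_add'`.) -/
theorem U11_wct {k : ℕ} (X1 : ℕ) (B : ℤ[X]) (P : Fin k → ℤ[X]) (h : Fin k → ℕ) :
    RPh X1 B P h = wct (sys B P h) X1 X1 := by
  unfold RPh wct
  rw [two_mul]
  refine Finset.sum_congr rfl fun n _ => ?_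
  rw [Fin.prod_univ_succ]
  rfl

theorem U11_wct_add {k : ℕ} (φ : Fin k → ℤ → ℤ) (n0 n1 L : ℕ) :
    wct (fun i n => φ i ((n0 : ℤ) + n)) n1 L = wct φ (n0 + n1) L := by
  unfold wct
  have h := Finset.sum_Ico_add (fun n : ℕ => ∏ i, lp (φ i (n : ℤ))) n1 (n1 + L) n0
  rw [show n0 + n1 = n1 + n0 by omega, show n1 + n0 + L = n1 + L + n0 by omega, ← h]
  refine Finset.sum_congr rfl fun n _ => ?_
  refine Finset.prod_congr rfl fun i _ => ?_
  push_cast
  rfl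

/-- The linear coordinate of a cell. Proof. `natDegree_comp`, leading coefficient unchanged; `IsCoprime (b0 + n0 b1) b1`. `Y` = the smaller of the two values at `X1` and at `2 X1 - 1` (linear: monotone);
the values differ by at most `A X1 ≤ δ Z ≤ Y`, so they are in `[Y, 3Y)`. -/
theorem U11_geoB (A : ℕ) (hA : 1 ≤ A) (δ : ℝ) (hδ : 0 < δ) (Z X1 n0 : ℕ) (hX1 : 0 < X1) (hs : (A : ℝ) * X1 ≤ δ * Z)
    (B : ℤ[X]) (hB : Lin A B) (hv : ∀ n ∈ Ico (n0 + X1) (n0 + 2 * X1), δ * Z ≤ ((B.eval (n : ℤ) : ℤ) : ℝ) ∧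
      ((B.eval (n : ℤ) : ℤ) : ℝ) ≤ A * Z) :
    ∃ Y : ℕ, GeoB A Z X1 Y (B.comp (X + C (n0 : ℤ))) ∧ δ * Z ≤ Y ∧ Y ≤ A * Z := by
  obtain ⟨b0, hb0⟩ : ∃ b0, B.coeff 0 = b0 := ⟨_, rfl⟩
  obtain ⟨b1, hb1⟩ : ∃ b1, B.coeff 1 = b1 := ⟨_, rfl⟩
  have hBe : B = C b1 * X + C b0 := by
    have := eq_X_add_C_of_natDegree_le_one (le_of_eq hB.deg)
    rw [hb0, hb1] at this
    exact this
  have hlcB : B.leadingCoeff = b1 := by
    unfold leadingCoeff
    rw [hB.deg, hb1]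
  have hb1A : b1.natAbs ≤ A := hlcB ▸ hB.lc
  have hcop : IsCoprime b0 b1 := by
    have := hB.cop
    rwa [hb0, hb1] at this
  have hb10 : b1 ≠ 0 := by
    intro h
    rw [h] at hlcB
    have h1 := leadingCoeff_eq_zero.1 hlcB
    have h2 := hB.deg
    rw [h1, natDegree_zero] at h2
    exact absurd h2 (by norm_num)
  have hBv : ∀ m : ℤ, B.eval m = b1 * m + b0 := fun m => by
    rw [hBe]
    simp
  have hB'e : B.comp (X + C (n0 : ℤ)) = C b1 * X + C (b0 + n0 * b1) := by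
    rw [hBe]
    simp only [add_comp, mul_comp, C_comp, X_comp, C_add, C_mul]
    ring
  have hB'v : ∀ m : ℤ, (B.comp (X + C (n0 : ℤ))).eval m = b1 * m + (b0 + n0 * b1) := fun m => by
    rw [hB'e]
    simp
  have hX1r : (1 : ℝ) ≤ X1 := by exact_mod_cast hX1
  have hAr : (1 : ℝ) ≤ A := by exact_mod_cast hA
  have hAX : (X1 : ℝ) ≤ A * X1 := by nlinarith
  have hval : ∀ n : ℕ, n ∈ Ico X1 (2 * X1) → δ * Z ≤ ((b1 * n + (b0 + n0 * b1) : ℤ) : ℝ) ∧
      ((b1 * n + (b0 + n0 * b1) : ℤ) : ℝ) ≤ A * Z := by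
    intro n hn
    rw [mem_Ico] at hn
    have h := hv (n0 + n) (mem_Ico.2 ⟨by omega, by omega⟩)
    rw [hBv] at h
    have h2 : b1 * (((n0 + n : ℕ) : ℤ)) + b0 = b1 * n + (b0 + n0 * b1) := by
      push_cast
      ring
    rw [h2] at h
    exact h
  have hlast : 2 * X1 - 1 ∈ Ico X1 (2 * X1) := mem_Ico.2 ⟨by omega, by omega⟩
  have hfirst : X1 ∈ Ico X1 (2 * X1) := mem_Ico.2 ⟨le_refl _, by omega⟩
  -- the value at the point of the minimum
  obtain ⟨m, hm, hmin⟩ : ∃ m : ℕ, m ∈ Ico X1 (2 * X1) ∧ ∀ n : ℕ, n ∈ Ico X1 (2 * X1) →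
      b1 * m + (b0 + n0 * b1) ≤ b1 * n + (b0 + n0 * b1) := by
    obtain ⟨m, hm, h⟩ := Finset.exists_min_image (Ico X1 (2 * X1)) (fun n : ℕ => b1 * n + (b0 + n0 * b1))
      ⟨X1, hfirst⟩
    exact ⟨m, hm, h⟩
  obtain ⟨v, hvd⟩ : ∃ v : ℤ, v = b1 * m + (b0 + n0 * b1) := ⟨_, rfl⟩
  have hv1 := hval m hm
  rw [← hvd] at hv1
  have hδZ : 0 < δ * Z := by linarith
  have hvpos : 0 ≤ v := by
    have : (0 : ℝ) ≤ (v : ℝ) := by linarith [hv1.1]
    exact_mod_cast this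
  have hvn : ((v.toNat : ℕ) : ℤ) = v := Int.toNat_of_nonneg hvpos
  have hvr : ((v.toNat : ℕ) : ℝ) = (v : ℝ) := by
    have : (((v.toNat : ℕ) : ℤ) : ℝ) = (v : ℝ) := by rw [hvn]
    exact_mod_cast this
  refine ⟨v.toNat, ⟨⟨?_, ?_, ?_⟩, ?_, ?_, ?_, ?_⟩, ?_, ?_⟩
  · rw [natDegree_comp, natDegree_X_add_C, hB.deg]
  · rw [leadingCoeff_comp (by rw [natDegree_X_add_C]; exact one_ne_zero), leadingCoeff_X_add_C, one_pow, mul_one]
    exact hB.lc
  · rw [hB'e]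
    simp only [coeff_add, coeff_C_mul, coeff_X_zero, coeff_C_zero, coeff_X_one, mul_zero, zero_add, mul_one]
    rw [coeff_C, if_neg one_ne_zero, add_zero]
    exact hcop.add_mul_right_left (n0 : ℤ)
  · intro n hn
    rw [hB'v, hvn, hvd]
    exact hmin n hn
  · intro n hn
    rw [hB'v, hvn]
    have h1 : b1 * n + (b0 + n0 * b1) = v + b1 * ((n : ℤ) - m) := by rw [hvd]; ring
    rw [h1]
    rw [mem_Ico] at hn hm
    have h2 : |b1 * ((n : ℤ) - m)| ≤ A * X1 := by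
      rw [abs_mul]
      have h3 : |b1| ≤ (A : ℤ) := by
        rw [Int.abs_eq_natAbs]
        exact_mod_cast hb1A
      have h4 : |(n : ℤ) - m| ≤ (X1 : ℤ) := by
        rw [abs_le]
        omega
      exact mul_le_mul h3 h4 (abs_nonneg _) (by positivity)
    have h3 : ((A : ℤ) : ℝ) * ((X1 : ℤ) : ℝ) ≤ (v : ℝ) := by
      push_cast
      linarith [hv1.1]
    have h4 : (A : ℤ) * X1 ≤ v := by exact_mod_cast h3
    have h5 : 0 < v := by
      have : (0 : ℝ) < (v : ℝ) := by linarith [hv1.1]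
      exact_mod_cast this
    have h6 := le_abs_self (b1 * ((n : ℤ) - m))
    linarith
  · have h3 : (X1 : ℝ) ≤ ((v.toNat : ℕ) : ℝ) := by
      rw [hvr]
      linarith [hv1.1]
    have h4 : X1 ≤ v.toNat := by exact_mod_cast h3
    omega
  · have h3 : ((v.toNat : ℕ) : ℝ) ≤ (A : ℝ) * Z := by
      rw [hvr]
      exact hv1.2
    exact_mod_cast h3
  · rw [hvr]
    exact hv1.1
  · have h3 : ((v.toNat : ℕ) : ℝ) ≤ (A : ℝ) * Z := by
      rw [hvr]
      exact hv1.2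
    exact_mod_cast h3

end Pool.Agent.H9P
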