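import Pool.Agent.Lib.H9P.U0

/-!
# ASYP, chunk U12 (S/M): from the weighted number to the number
-/

open Finset Polynomial

namespace Pool.Agent.H9P

open Pool.Agent.Lib.H68T Pool.Agent.Lib.H18Q Pool.Agent.Lib.H59P Pool.Agent.Lib.H24P
open Pool.Agent.HUP

open Filter Topology in
theorem u12_theta (k : ℕ) (ε : ℝ) (hε : 0 < ε) :
    ∃ θ : ℝ, 0 < θ ∧ θ < 1 ∧ (1 + θ) ^ (k + 1) ≤ 1 + ε ∧ 1 ≤ (1 + ε) * (1 - θ) ^ (k + 1) := by
  have h1 : Tendsto (fun θ : ℝ => (1 + θ) ^ (k + 1)) (𝓝[>] 0) (𝓝 ((1 + 0) ^ (k + 1))) :=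
    (by fun_prop : Continuous fun θ : ℝ => (1 + θ) ^ (k + 1)).continuousAt.tendsto.mono_left nhdsWithin_le_nhds
  have h2 : Tendsto (fun θ : ℝ => (1 + ε) * (1 - θ) ^ (k + 1)) (𝓝[>] 0) (𝓝 ((1 + ε) * (1 - 0) ^ (k + 1))) :=
    (by fun_prop : Continuous fun θ : ℝ => (1 + ε) * (1 - θ) ^ (k + 1)).continuousAt.tendsto.mono_left
      nhdsWithin_le_nhds
  have h3 : Tendsto (fun θ : ℝ => θ) (𝓝[>] (0 : ℝ)) (𝓝 0) := nhdsWithin_le_nhds
  have e1 := h1.eventually_lt_const (u := 1 + ε) (by rw [add_zero, one_pow]; linarith)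
  have e2 := h2.eventually_const_lt (u := 1) (by rw [sub_zero, one_pow]; linarith)
  have e3 := h3.eventually_lt_const (u := 1) one_pos
  obtain ⟨θ, a, b, c, d⟩ := (e1.and (e2.and (e3.and self_mem_nhdsWithin))).exists
  exact ⟨θ, d, c, a.le, b.le⟩

open Filter Topology in
theorem u12_log (C θ : ℝ) (hθ : 0 < θ) : ∃ Z0 : ℕ, ∀ Z : ℕ, Z0 ≤ Z → 2 ≤ Z ∧ C ≤ θ * Real.log Z := by
  have h1 : Tendsto (fun Z : ℕ => θ * Real.log (Z : ℝ)) atTop atTop :=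
    (Real.tendsto_log_atTop.comp tendsto_natCast_atTop_atTop).const_mul_atTop hθ
  obtain ⟨Z0, h0⟩ := eventually_atTop.1 ((eventually_ge_atTop 2).and (h1.eventually_ge_atTop C))
  exact ⟨Z0, fun Z hZ => h0 Z hZ⟩

/-- the logarithm of a number between `δ Z^D` and `Cz Z^D` -/
theorem u12_one {δ Cz θ Z m : ℝ} {D : ℕ} (hδ : 0 < δ) (hCz : 1 ≤ Cz) (hZ : 1 < Z) (hθ : 0 < θ)
    (hD : 1 ≤ D) (hC : |Real.log δ| + |Real.log Cz| ≤ θ * Real.log Z) (h1 : δ * Z ^ D ≤ m) (h2 : m ≤ Cz * Z ^ D) :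
    (1 - θ) * (D * Real.log Z) ≤ Real.log m ∧ Real.log m ≤ (1 + θ) * (D * Real.log Z) := by
  have hZ0 : 0 < Z := by linarith
  have hZD : 0 < Z ^ D := pow_pos hZ0 D
  have hl : 0 < Real.log Z := Real.log_pos hZ
  have hm : 0 < m := lt_of_lt_of_le (mul_pos hδ hZD) h1
  have a1 := Real.log_le_log (mul_pos hδ hZD) h1
  have a2 := Real.log_le_log hm h2
  rw [Real.log_mul hδ.ne' hZD.ne', Real.log_pow] at a1
  rw [Real.log_mul (by linarith) hZD.ne', Real.log_pow] at a2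
  have b1 := neg_abs_le (Real.log δ)
  have b2 := le_abs_self (Real.log Cz)
  have b3 := abs_nonneg (Real.log δ)
  have b4 := abs_nonneg (Real.log Cz)
  have hD' : (1 : ℝ) ≤ D := by exact_mod_cast hD
  have c1 : θ * Real.log Z ≤ θ * (D * Real.log Z) := by
    refine mul_le_mul_of_nonneg_left ?_ hθ.le
    nlinarith
  constructor <;> nlinarith

/-- **U12.** Proof. `lp m` is `log m` if `m` is a (positive) prime, else `0` (look up the definition), so only the `n` counted in `cnt` contribute, each with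
`∏_i log (φ_i n)`, where `log (φ_0 n) = log Z + O(1)`, `log (φ_(i+1) n) = D_i log Z + O(1)`, the `O(1)` at most `C = |log δ| + |log Cz|`. For `Z` large every factor
`log(φ_(i+1) n)/(D_i log Z)` is between `1 - θ` and `1 + θ` with `(1 + θ)^(k+1) ≤ 1 + ε/4`, `(1 - θ)^(k+1) ≥ 1 - ε/4`. So every term is `L (1 ± ε/4)`,
`L = (∏ D_i) (log Z)^(k+1)`, `|cnt L - wct| ≤ (ε/4) cnt L` and `cnt L ≤ 2 wct`. -/
theorem U12_wt {k : ℕ} (D : Fin k → ℕ) (hD : ∀ i, 1 ≤ D i) (δ Cz ε : ℝ) (hδ : 0 < δ) (hCz : 1 ≤ Cz) (hε : 0 < ε) :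
    ∃ Z0 : ℕ, ∀ Z : ℕ, Z0 ≤ Z → ∀ (φ : Fin (k + 1) → ℤ → ℤ) (n1 L : ℕ),
    (∀ n ∈ Ico n1 (n1 + L), (δ * Z ≤ φ 0 (n : ℤ) ∧ (φ 0 (n : ℤ) : ℝ) ≤ Cz * Z) ∧
      ∀ i : Fin k, δ * (Z : ℝ) ^ D i ≤ φ i.succ (n : ℤ) ∧ (φ i.succ (n : ℤ) : ℝ) ≤ Cz * (Z : ℝ) ^ D i) →
    |(cnt φ n1 L : ℝ) * ((∏ i, (D i : ℝ)) * (Real.log Z) ^ (k + 1)) - wct φ n1 L| ≤ ε * wct φ n1 L := by
  obtain ⟨θ, hθ, hθ1, ht1, ht2⟩ := u12_theta k ε hε
  obtain ⟨Z0, h0⟩ := u12_log (|Real.log δ| + |Real.log Cz|) θ hθ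
  refine ⟨Z0, fun Z hZ φ n1 L hφ => ?_⟩
  obtain ⟨hZ2, hC⟩ := h0 Z hZ
  have hZ1 : (1 : ℝ) < Z := by
    have : (2 : ℝ) ≤ Z := by exact_mod_cast hZ2
    linarith
  have hl : 0 < Real.log Z := Real.log_pos hZ1
  set L0 : ℝ := (∏ i, (D i : ℝ)) * (Real.log Z) ^ (k + 1) with hL0
  set T := (Ico n1 (n1 + L)).filter (fun n : ℕ => ∀ i, (φ i (n : ℤ)).toNat.Prime) with hT
  have hL0n : 0 ≤ L0 := by positivity
  let A : Fin (k + 1) → ℝ := Fin.cons (Real.log Z) (fun i => (D i : ℝ) * Real.log Z)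
  have hA0 : ∀ i, 0 ≤ A i := by
    intro i
    refine Fin.cases ?_ (fun i => ?_) i
    · exact hl.le
    · exact mul_nonneg (Nat.cast_nonneg _) hl.le
  have hAp : ∏ i, A i = L0 := by
    rw [Fin.prod_univ_succ]
    show Real.log Z * ∏ i : Fin k, ((D i : ℝ) * Real.log Z) = L0
    rw [prod_mul_distrib, prod_const, card_univ, Fintype.card_fin, hL0]
    ring
  have hw : wct φ n1 L = ∑ n ∈ T, ∏ i, Real.log (φ i (n : ℤ)) := by
    unfold wct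
    rw [hT, sum_filter]
    refine sum_congr rfl fun n _ => ?_
    split_ifs with h
    · refine prod_congr rfl fun i _ => ?_
      unfold Pool.Agent.Lib.H68T.lp
      rw [if_pos (h i)]
    · push Not at h
      obtain ⟨i, hi⟩ := h
      refine prod_eq_zero (mem_univ i) ?_
      unfold Pool.Agent.Lib.H68T.lp
      rw [if_neg hi]
  have hc : (cnt φ n1 L : ℝ) = (T.card : ℝ) := rfl
  have hb : ∀ n ∈ T, (1 - θ) ^ (k + 1) * L0 ≤ ∏ i, Real.log (φ i (n : ℤ)) ∧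
      ∏ i, Real.log (φ i (n : ℤ)) ≤ (1 + θ) ^ (k + 1) * L0 := by
    intro n hn
    have hn1 := (mem_filter.1 hn).1
    obtain ⟨⟨f1, f2⟩, f3⟩ := hφ n hn1
    have hi : ∀ i, (1 - θ) * A i ≤ Real.log (φ i (n : ℤ)) ∧ Real.log (φ i (n : ℤ)) ≤ (1 + θ) * A i := by
      intro i
      refine Fin.cases ?_ (fun i => ?_) i
      · have h := u12_one (D := 1) hδ hCz hZ1 hθ le_rfl hC (m := (φ 0 (n : ℤ) : ℝ)) (by rw [pow_one]; exact f1)
          (by rw [pow_one]; exact f2)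
        rw [Nat.cast_one, one_mul] at h
        exact h
      · exact u12_one (D := D i) hδ hCz hZ1 hθ (hD i) hC (f3 i).1 (f3 i).2
    have e : ∀ r : ℝ, r ^ (k + 1) * L0 = ∏ i, (r * A i) := by
      intro r
      rw [prod_mul_distrib, prod_const, card_univ, Fintype.card_fin, hAp]
    constructor
    · rw [e]
      exact prod_le_prod (fun i _ => mul_nonneg (by linarith) (hA0 i)) fun i _ => (hi i).1
    · rw [e]
      exact prod_le_prod (fun i _ => le_trans (mul_nonneg (by linarith) (hA0 i)) (hi i).1) fun i _ => (hi i).2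
  have hd : ∀ n ∈ T, |L0 - ∏ i, Real.log (φ i (n : ℤ))| ≤ ε * ∏ i, Real.log (φ i (n : ℤ)) := by
    intro n hn
    obtain ⟨b1, b2⟩ := hb n hn
    set p := ∏ i, Real.log (φ i (n : ℤ)) with hp
    have hp0 : 0 ≤ p := le_trans (mul_nonneg (pow_nonneg (by linarith) _) hL0n) b1
    have c1 : L0 ≤ (1 + ε) * p := by
      calc L0 ≤ ((1 + ε) * (1 - θ) ^ (k + 1)) * L0 := le_mul_of_one_le_left hL0n ht2
        _ = (1 + ε) * ((1 - θ) ^ (k + 1) * L0) := by ring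
        _ ≤ (1 + ε) * p := mul_le_mul_of_nonneg_left b1 (by linarith)
    have c2 : p ≤ (1 + ε) * L0 := le_trans b2 (mul_le_mul_of_nonneg_right ht1 hL0n)
    rw [abs_le]
    constructor
    · rcases le_total p L0 with h | h
      · have : 0 ≤ ε * p := mul_nonneg hε.le hp0
        linarith
      · nlinarith
    · linarith
  rw [hw, hc, Finset.mul_sum]
  have e : (T.card : ℝ) * L0 - ∑ n ∈ T, ∏ i, Real.log (φ i (n : ℤ)) =
      ∑ n ∈ T, (L0 - ∏ i, Real.log (φ i (n : ℤ))) := by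
    rw [sum_sub_distrib, sum_const, nsmul_eq_mul]
  rw [e]
  exact le_trans (abs_sum_le_sum_abs _ _) (sum_le_sum hd)

end Pool.Agent.H9P
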