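import Pool.Agent.Lib.H9P.U0
import Pool.Agent.Lib.H9P.U11
import Pool.Agent.Lib.H24P.T1
import Pool.Agent.Lib.H59.SchinzelUpper

/-!
# ASYP, chunk U13 (M): the upper bound sieve
-/

open Finset Polynomial

namespace Pool.Agent.H9P

open Pool.Agent.Lib.H68T Pool.Agent.Lib.H18Q Pool.Agent.Lib.H59P Pool.Agent.Lib.H24P
open Pool.Agent.HUP

open Pool.Agent.Lib.H59 (rootCount poly_sieve rootCount_mul_le rootCount_prod_le rootCount_le_natDegree
  card_value_le prod_one_sub_inv_le)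

theorem u13_dvd {k : ℕ} (B : ℤ[X]) (P : Fin k → ℤ[X]) (h : Fin k → ℕ) (l : ℕ) (hl : l.Prime) (n : ℤ) :
    (l : ℤ) ∣ (B * ∏ i, (P i + C ((h i : ℕ) : ℤ))).eval n ↔ ∃ i, (l : ℤ) ∣ sys B P h i n := by
  have hlp := Nat.prime_iff_prime_int.mp hl
  rw [eval_mul, eval_prod, hlp.dvd_mul, hlp.dvd_finsetProd_iff, Fin.exists_fin_succ]
  apply or_congr
  · rfl
  · simp only [eval_add, eval_C, mem_univ, true_and]
    rfl

theorem u13_cnt {k : ℕ} (B : ℤ[X]) (P : Fin k → ℤ[X]) (h : Fin k → ℕ) (l : ℕ) (hl : l.Prime) :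
    ((range l).filter (fun n : ℕ => ∀ i, ¬ (l : ℤ) ∣ sys B P h i n)).card +
      rootCount (B * ∏ i, (P i + C ((h i : ℕ) : ℤ))) l = l := by
  classical
  unfold rootCount
  have h1 := Finset.card_filter_add_card_filter_not (s := range l)
    (fun n : ℕ => (l : ℤ) ∣ (B * ∏ i, (P i + C ((h i : ℕ) : ℤ))).eval (n : ℤ))
  rw [card_range] at h1
  have h2 : (range l).filter (fun n : ℕ => ∀ i, ¬ (l : ℤ) ∣ sys B P h i n) =
      (range l).filter (fun n : ℕ => ¬ (l : ℤ) ∣ (B * ∏ i, (P i + C ((h i : ℕ) : ℤ))).eval (n : ℤ)) := by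
    apply Finset.filter_congr
    intro n _
    rw [u13_dvd B P h l hl, not_exists]
  rw [h2]
  omega

/-- The local factor and the number of roots. Proof. `1 + gl l m = l/(l-1)` if `l ∤ m`, else `0`; the sum over `n < l` of the product is `(l/(l-1))^(k+1)` times the number of the `n` for which no
`φ_i(n)` is divisible by `l`, i.e. the product polynomial is not divisible by `l`. (`rootCount`: `H59`.) -/
theorem U13_tpf {k : ℕ} (B : ℤ[X]) (P : Fin k → ℤ[X]) (h : Fin k → ℕ) (l : ℕ) (hl : l.Prime) :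
    1 + tpf l (sys B P h) = (1 - (Pool.Agent.Lib.H59.rootCount (B * ∏ i, (P i + C ((h i : ℕ) : ℤ))) l : ℝ) / l) *
      (1 - 1 / (l : ℝ))⁻¹ ^ (k + 1) := by
  classical
  have hl1 : (1 : ℝ) < l := by exact_mod_cast hl.one_lt
  have hl0 : (l : ℝ) ≠ 0 := by linarith
  have hl2 : (l : ℝ) - 1 ≠ 0 := by linarith
  rw [T1_count l hl]
  have h1 := u13_cnt B P h l hl
  have h2 : (((range l).filter (fun n : ℕ => ∀ i, ¬ (l : ℤ) ∣ sys B P h i n)).card : ℝ) =
      l - (rootCount (B * ∏ i, (P i + C ((h i : ℕ) : ℤ))) l : ℝ) := by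
    rw [eq_sub_iff_add_eq]
    exact_mod_cast h1
  rw [h2]
  have h3 : (1 - 1 / (l : ℝ))⁻¹ = (l : ℝ) / (l - 1) := by
    have : (1 - 1 / (l : ℝ)) = (l - 1) / l := by field_simp
    rw [this, inv_div]
  rw [h3, sub_div, div_self hl0]

theorem u13_period (H : ℤ[X]) (l : ℕ) : Function.Periodic (fun m : ℕ => (l : ℤ) ∣ H.eval (m : ℤ)) l := by
  intro m
  have h1 : (l : ℤ) ∣ H.eval (((m + l : ℕ) : ℤ)) - H.eval (m : ℤ) := by
    have h2 := Polynomial.sub_dvd_eval_sub ((m + l : ℕ) : ℤ) (m : ℤ) H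
    have h3 : ((m + l : ℕ) : ℤ) - (m : ℤ) = l := by push_cast; ring
    rw [h3] at h2
    exact h2
  have h4 : (l : ℤ) ∣ H.eval ((m + l : ℕ) : ℤ) ↔ (l : ℤ) ∣ H.eval (m : ℤ) := by
    constructor
    · intro h
      have := dvd_sub h h1
      simpa using this
    · intro h
      have := dvd_add h h1
      simpa using this
  exact propext h4

/-- the number of roots is invariant under translation -/
theorem u13_shift (H : ℤ[X]) (t l : ℕ) : rootCount (H.comp (X + C (t : ℤ))) l = rootCount H l := by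
  classical
  have h1 := Nat.filter_Ico_card_eq_of_periodic t l (fun m : ℕ => (l : ℤ) ∣ H.eval (m : ℤ)) (u13_period H l)
  have h2 := Nat.filter_Ico_card_eq_of_periodic 0 l (fun m : ℕ => (l : ℤ) ∣ H.eval (m : ℤ)) (u13_period H l)
  rw [← h2, Nat.zero_add, ← Finset.range_eq_Ico] at h1
  unfold rootCount
  rw [← h1]
  apply Finset.card_bij (fun a _ => a + t)
  · intro a ha
    rw [mem_filter, mem_range] at ha
    rw [mem_filter, mem_Ico]
    refine ⟨⟨by omega, by omega⟩, ?_⟩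
    have h3 := ha.2
    rw [eval_comp, eval_add, eval_X, eval_C] at h3
    push_cast
    exact h3
  · intro a _ b _ hab
    exact Nat.add_right_cancel hab
  · intro b hb
    rw [mem_filter, mem_Ico] at hb
    refine ⟨b - t, ?_, by omega⟩
    rw [mem_filter, mem_range]
    refine ⟨by omega, ?_⟩
    rw [eval_comp, eval_add, eval_X, eval_C]
    have h4 : ((b - t : ℕ) : ℤ) + (t : ℤ) = (b : ℤ) := by omega
    rw [h4]
    exact hb.2

/-- primitive coordinates -/
theorem u13_prim (F : ℤ[X]) (hF : ∀ l : ℕ, l.Prime → ∃ n : ℤ, ¬ (l : ℤ) ∣ F.eval n) : F.IsPrimitive := by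
  intro r hr
  by_contra hu
  have h1 : r.natAbs ≠ 1 := fun h => hu (Int.isUnit_iff_natAbs_eq.2 h)
  obtain ⟨l, hl, hlr⟩ := Nat.exists_prime_and_dvd h1
  obtain ⟨n, hn⟩ := hF l hl
  apply hn
  obtain ⟨G, hG⟩ := hr
  rw [hG, eval_mul, eval_C]
  exact Dvd.dvd.mul_right (Int.natCast_dvd.2 hlr) _

theorem u13_lt {k : ℕ} (B : ℤ[X]) (P : Fin k → ℤ[X]) (h : Fin k → ℕ) (hN : NoFix (sys B P h)) (l : ℕ)
    (hl : l.Prime) : rootCount (B * ∏ i, (P i + C ((h i : ℕ) : ℤ))) l < l := by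
  classical
  by_contra hcon
  push Not at hcon
  obtain ⟨n, hn⟩ := hN l hl
  set H := B * ∏ i, (P i + C ((h i : ℕ) : ℤ)) with hH
  have h1 : ((Finset.range l).filter fun a : ℕ => (l : ℤ) ∣ H.eval (a : ℤ)) = Finset.range l := by
    refine eq_of_subset_of_card_le (filter_subset _ _) ?_
    rw [card_range]
    exact hcon
  have hp0 : (0 : ℤ) < l := by exact_mod_cast hl.pos
  set a : ℕ := (n % l).toNat with ha
  have ha0 : 0 ≤ n % (l : ℤ) := Int.emod_nonneg _ hp0.ne'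
  have ha1 : n % (l : ℤ) < l := Int.emod_lt_of_pos _ hp0
  have haa : (a : ℤ) = n % l := Int.toNat_of_nonneg ha0
  have hmem : a ∈ Finset.range l := by
    rw [Finset.mem_range]
    omega
  rw [← h1, mem_filter] at hmem
  have h2 : (l : ℤ) ∣ n - (a : ℤ) := by
    rw [haa]
    exact Int.dvd_self_sub_emod
  have h3 := h2.trans (Polynomial.sub_dvd_eval_sub n (a : ℤ) H)
  have h4 : (l : ℤ) ∣ H.eval n := by
    have := dvd_add h3 hmem.2
    simpa using this
  rw [hH, u13_dvd B P h l hl] at h4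
  obtain ⟨i, hi⟩ := h4
  exact hn i hi

theorem u13_deg (F : ℤ[X]) (h : ℕ) : (F + C ((h : ℕ) : ℤ)).natDegree = F.natDegree := natDegree_add_C

theorem u13_le {k A : ℕ} (B : ℤ[X]) (hB : Lin A B) (P : Fin k → ℤ[X]) (hP : Pol A P) (h : Fin k → ℕ)
    (hN : NoFix (sys B P h)) (l : ℕ) (hl : l.Prime) :
    rootCount (B * ∏ i, (P i + C ((h i : ℕ) : ℤ))) l ≤ k * A + 1 := by
  have h1 : rootCount B l ≤ 1 := by
    have hp : B.IsPrimitive := u13_prim B fun l hl => by
      obtain ⟨n, hn⟩ := hN l hl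
      exact ⟨n, hn 0⟩
    have := rootCount_le_natDegree hp hl
    rwa [hB.deg] at this
  have h2 : rootCount (∏ i, (P i + C ((h i : ℕ) : ℤ))) l ≤ k * A := by
    refine (rootCount_prod_le univ _ hl).trans ?_
    have h3 : ∀ i ∈ (univ : Finset (Fin k)), rootCount (P i + C ((h i : ℕ) : ℤ)) l ≤ A := by
      intro i _
      have hp : (P i + C ((h i : ℕ) : ℤ)).IsPrimitive := u13_prim _ fun l hl => by
        obtain ⟨n, hn⟩ := hN l hl
        refine ⟨n, ?_⟩
        have := hn i.succ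
        rw [eval_add, eval_C]
        exact this
      refine (rootCount_le_natDegree hp hl).trans ?_
      rw [u13_deg]
      exact hP.degA i
    refine (Finset.sum_le_sum h3).trans ?_
    rw [Finset.sum_const, card_univ, Fintype.card_fin, smul_eq_mul]
  have h4 := rootCount_mul_le B (∏ i, (P i + C ((h i : ℕ) : ℤ))) hl
  omega

/-- the exceptional `n`: some value is less than `Y` -/
theorem u13_small {k A : ℕ} (B : ℤ[X]) (hB : Lin A B) (P : Fin k → ℤ[X]) (hP : Pol A P) (h : Fin k → ℕ)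
    (X Y : ℕ) : ((Finset.range Y).biUnion fun q => (Finset.univ : Finset (Fin (k + 1))).biUnion fun i =>
      (Icc 1 X).filter fun n : ℕ => sys B P h i (n : ℤ) = (q : ℤ)).card ≤ (k * A + 1) * Y := by
  classical
  have h1 : ∀ q ∈ Finset.range Y, ((Finset.univ : Finset (Fin (k + 1))).biUnion fun i =>
      (Icc 1 X).filter fun n : ℕ => sys B P h i (n : ℤ) = (q : ℤ)).card ≤ k * A + 1 := by
    intro q _
    refine card_biUnion_le.trans ?_
    rw [Fin.sum_univ_succ, Nat.add_comm]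
    apply Nat.add_le_add
    · have h3 : ∀ i ∈ (univ : Finset (Fin k)),
          ((Icc 1 X).filter fun n : ℕ => sys B P h i.succ (n : ℤ) = (q : ℤ)).card ≤ A := by
        intro i _
        have hd : 1 ≤ (P i + C ((h i : ℕ) : ℤ)).natDegree := by
          rw [u13_deg]
          exact hP.deg i
        have h4 := card_value_le hd (q : ℤ) X
        rw [u13_deg] at h4
        refine le_trans (le_of_eq ?_) (h4.trans (hP.degA i))
        congr 1
        apply Finset.filter_congr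
        intro n _
        rw [eval_add, eval_C]
        rfl
      refine (Finset.sum_le_sum h3).trans ?_
      rw [Finset.sum_const, card_univ, Fintype.card_fin, smul_eq_mul]
    · have hd : 1 ≤ B.natDegree := by rw [hB.deg]
      have h4 := card_value_le hd (q : ℤ) X
      rw [hB.deg] at h4
      exact h4
  refine card_biUnion_le.trans ((sum_le_sum h1).trans ?_)
  rw [sum_const, card_range, smul_eq_mul, mul_comm]

theorem u13_pr (Q : ℕ) : Nat.primesBelow (Q + 1) = pr Q := by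
  ext l
  unfold pr
  rw [Nat.mem_primesBelow, mem_filter, mem_Icc]
  constructor
  · rintro ⟨h1, h2⟩
    exact ⟨⟨h2.one_lt.le, by omega⟩, h2⟩
  · rintro ⟨⟨_, h1⟩, h2⟩
    exact ⟨by omega, h2⟩

/-- **U13.** Proof. As `sieve_step` (`H59/SchinzelUpper.lean`). `H(x) = (B * ∏ (P_i + h_i))(x + n1 - 1)` (for `n1 = 0` treat `n = 0` apart; or `n1 ≥ 1` is assumed), `κ = k A + 1`,
`rootCount H l ≤ κ` and `< l` for every prime `l` (`NoFix`; every coordinate is primitive by `NoFix`, `rootCount_le_natDegree`, `rootCount_prod_le`), the number of roots is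
invariant under translation. `poly_sieve` with `X := L`, `Y := Q + 1`, `R = L^(1/12)`: `(log 2 + 28 κ log 4) log (Q+1) ≤ log L/12` if `L ≥ Q^K`. The `n ∈ [n1, n1 + L)` with all values primes: either no
value is `≤ Q` and `H` has no prime factor `≤ Q`, or some value is one of the `Q` numbers `≤ Q`: at most `κ Q ≤ κ R^10 ≤ 2 κ L ∏ (1 - ν/p)`. So `cnt ≤ (4 + 2κ) L ∏_{l ≤ Q} (1 - ν_l/l)`, and
`∏ (1 - ν_l/l) = SSf (pr Q) ∏ (1 - 1/l)^(k+1)` (`U13_tpf`), `∏_{l ≤ Q} (1 - 1/l) ≤ C/log Q` (Mertens; search `Helper57` or `H59` for the bound used in `H59/SchinzelUpper.lean`, `H9A/N7.lean`). -/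
theorem U13_sieve (k A : ℕ) (hA : 1 ≤ A) : ∃ Cs K : ℝ, 1 ≤ Cs ∧ 1 ≤ K ∧ ∃ Q0 : ℕ, ∀ Q : ℕ, Q0 ≤ Q →
    ∀ B : ℤ[X], Lin A B → ∀ P : Fin k → ℤ[X], Pol A P → ∀ h : Fin k → ℕ, NoFix (sys B P h) →
    ∀ n1 L : ℕ, 1 ≤ n1 → K * Real.log Q ≤ Real.log L →
    (cnt (sys B P h) n1 L : ℝ) ≤ Cs * L * SSf (pr Q) (sys B P h) / (Real.log Q) ^ (k + 1) := by
  classical
  obtain ⟨κ, hκ⟩ : ∃ κ, κ = k * A + 1 := ⟨_, rfl⟩
  obtain ⟨c0, hc0⟩ : ∃ c0 : ℝ, c0 = Real.log 2 + 28 * (κ : ℝ) * Real.log 4 := ⟨_, rfl⟩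
  have hlog2 : (0 : ℝ) < Real.log 2 := Real.log_pos (by norm_num)
  have hlog4 : (0 : ℝ) < Real.log 4 := Real.log_pos (by norm_num)
  have hκ1 : (1 : ℝ) ≤ κ := by
    rw [hκ]
    push_cast
    have : (0 : ℝ) ≤ (k : ℝ) * A := by positivity
    linarith
  have hc0p : 0 < c0 := by
    rw [hc0]
    positivity
  refine ⟨4 + 2 * κ, 24 * c0 + 3, by linarith, by linarith, 3, ?_⟩
  intro Q hQ B hB P hP h hN n1 L hn1 hL
  have hQr : (3 : ℝ) ≤ Q := by exact_mod_cast hQ
  have hQ0 : (0 : ℝ) < Q := by linarith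
  have hlogQ : 0 < Real.log Q := Real.log_pos (by linarith)
  have hlogL : 0 < Real.log L := lt_of_lt_of_le (by positivity) hL
  have hL1 : 1 ≤ L := by
    rcases Nat.eq_zero_or_pos L with h0 | h0
    · rw [h0, Nat.cast_zero, Real.log_zero] at hlogL
      exact absurd hlogL (lt_irrefl _)
    · exact h0
  have hLr : (1 : ℝ) ≤ L := by exact_mod_cast hL1
  have hL0 : (0 : ℝ) < L := by linarith
  have hlogY : Real.log ((Q + 1 : ℕ) : ℝ) ≤ 2 * Real.log Q := by
    rw [← Real.log_rpow hQ0]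
    apply Real.log_le_log (by positivity)
    push_cast
    rw [Real.rpow_two]
    nlinarith
  -- the polynomial
  obtain ⟨H, hH⟩ : ∃ H : ℤ[X], H = B * ∏ i, (P i + C ((h i : ℕ) : ℤ)) := ⟨_, rfl⟩
  obtain ⟨t, ht⟩ : ∃ t : ℕ, t = n1 - 1 := ⟨_, rfl⟩
  have hroot : ∀ l : ℕ, rootCount (H.comp (X + C (t : ℤ))) l = rootCount H l := u13_shift H t
  have hκle : ∀ p : ℕ, p.Prime → p < Q + 1 → rootCount (H.comp (X + C (t : ℤ))) p ≤ κ := by
    intro p hp _
    rw [hroot, hH, hκ]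
    exact u13_le B hB P hP h hN p hp
  have hlt : ∀ p : ℕ, p.Prime → p < Q + 1 → rootCount (H.comp (X + C (t : ℤ))) p < p := by
    intro p hp _
    rw [hroot, hH]
    exact u13_lt B P h hN p hp
  obtain ⟨R, hR⟩ : ∃ R : ℝ, R = (L : ℝ) ^ (1 / 12 : ℝ) := ⟨_, rfl⟩
  have hR1 : 1 ≤ R := by
    rw [hR]
    exact Real.one_le_rpow hLr (by norm_num)
  have hR0 : 0 < R := by linarith
  have hR12 : R ^ 12 = L := by
    rw [hR, ← Real.rpow_natCast, ← Real.rpow_mul hL0.le]
    norm_num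
  have hlogR : Real.log R = Real.log L / 12 := by
    rw [hR, Real.log_rpow hL0]
    ring
  have hRY : (Real.log 2 + 28 * (κ : ℝ) * Real.log 4) * Real.log ((Q + 1 : ℕ) : ℝ) ≤ Real.log R := by
    rw [← hc0, hlogR]
    have h1 : c0 * Real.log ((Q + 1 : ℕ) : ℝ) ≤ c0 * (2 * Real.log Q) := mul_le_mul_of_nonneg_left hlogY hc0p.le
    have h2 : (24 * c0 + 3) * Real.log Q ≤ Real.log L := hL
    nlinarith
  have hYR : ((Q + 1 : ℕ) : ℝ) ≤ R ^ 10 := by
    rw [← Real.log_le_log_iff (by positivity) (by positivity), Real.log_pow, hlogR]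
    have h2 : (24 * c0 + 3) * Real.log Q ≤ Real.log L := hL
    have h3 : 0 < c0 * Real.log Q := by positivity
    push_cast at hlogY ⊢
    nlinarith
  obtain ⟨h1, h2⟩ := poly_sieve (H.comp (X + C (t : ℤ))) hκle hlt (Y := Q + 1) (X := L) (by omega) hR1 hRY
    (le_of_eq hR12)
  -- the counting
  obtain ⟨T₁, hT₁⟩ : ∃ T₁ : Finset ℕ, T₁ = (Icc 1 L).filter fun n : ℕ => ∀ p ∈ Nat.primesBelow (Q + 1),
    ¬ (p : ℤ) ∣ (H.comp (X + C (t : ℤ))).eval (n : ℤ) := ⟨_, rfl⟩
  rw [← hT₁] at h1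
  obtain ⟨T₂, hT₂⟩ : ∃ T₂ : Finset ℕ, T₂ = (Finset.range (Q + 1)).biUnion fun q =>
    (Finset.univ : Finset (Fin (k + 1))).biUnion fun i =>
      (Icc 1 (n1 + L)).filter fun n : ℕ => sys B P h i (n : ℤ) = (q : ℤ) := ⟨_, rfl⟩
  have hT₂card : T₂.card ≤ κ * (Q + 1) := by
    rw [hT₂, hκ]
    exact u13_small B hB P hP h _ _
  have hcount : cnt (sys B P h) n1 L ≤ T₁.card + κ * (Q + 1) := by
    have h3 : cnt (sys B P h) n1 L ≤ (T₁.image (fun m => m + t) ∪ T₂).card := by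
      unfold cnt
      apply Finset.card_le_card
      intro n hn
      rw [mem_filter, mem_Ico] at hn
      obtain ⟨⟨hn2, hn3⟩, hn4⟩ := hn
      rw [mem_union]
      by_cases hs : ∃ i, sys B P h i (n : ℤ) < ((Q + 1 : ℕ) : ℤ)
      · right
        obtain ⟨i, hi⟩ := hs
        rw [hT₂, mem_biUnion]
        refine ⟨(sys B P h i (n : ℤ)).toNat, ?_, ?_⟩
        · rw [mem_range]
          have := (hn4 i).pos
          omega
        · rw [mem_biUnion]
          refine ⟨i, mem_univ _, ?_⟩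
          rw [mem_filter, mem_Icc]
          refine ⟨⟨by omega, by omega⟩, ?_⟩
          have := (hn4 i).pos
          omega
      · left
        push Not at hs
        rw [mem_image]
        refine ⟨n - t, ?_, by omega⟩
        rw [hT₁, mem_filter, mem_Icc]
        refine ⟨⟨by omega, by omega⟩, ?_⟩
        intro p hp hd
        rw [Nat.mem_primesBelow] at hp
        rw [eval_comp, eval_add, eval_X, eval_C] at hd
        have h5 : ((n - t : ℕ) : ℤ) + (t : ℤ) = (n : ℤ) := by omega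
        rw [h5, hH, u13_dvd B P h p hp.2] at hd
        obtain ⟨i, hi⟩ := hd
        have h6 := hn4 i
        have h7 := hs i
        have h8 : sys B P h i (n : ℤ) = ((sys B P h i (n : ℤ)).toNat : ℤ) := by
          have := h6.pos
          omega
        rw [h8, Int.natCast_dvd_natCast, Nat.prime_dvd_prime_iff_eq hp.2 h6] at hi
        have := hp.1
        omega
    refine h3.trans ((card_union_le _ _).trans ?_)
    exact Nat.add_le_add Finset.card_image_le hT₂card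
  have hcount' : (cnt (sys B P h) n1 L : ℝ) ≤ T₁.card + κ * ((Q + 1 : ℕ) : ℝ) := by exact_mod_cast hcount
  -- the product
  have hprod : ∏ p ∈ Nat.primesBelow (Q + 1), (1 - (rootCount (H.comp (X + C (t : ℤ))) p : ℝ) / p) =
      SSf (pr Q) (sys B P h) * (∏ p ∈ Nat.primesBelow (Q + 1), (1 - (p : ℝ)⁻¹)) ^ (k + 1) := by
    unfold SSf
    rw [← u13_pr, ← Finset.prod_pow, ← Finset.prod_mul_distrib]
    apply Finset.prod_congr rfl
    intro p hp
    have hpp := Nat.prime_of_mem_primesBelow hp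
    rw [U13_tpf B P h p hpp, hroot, hH, mul_assoc, ← mul_pow, one_div]
    have hp1 : (1 : ℝ) < p := by exact_mod_cast hpp.one_lt
    have h9 : (1 - (p : ℝ)⁻¹) ≠ 0 := by
      have : (p : ℝ)⁻¹ < 1 := inv_lt_one_of_one_lt₀ hp1
      linarith
    rw [inv_mul_cancel₀ h9, one_pow, mul_one]
  have hSS : 0 ≤ SSf (pr Q) (sys B P h) := by
    unfold SSf
    apply Finset.prod_nonneg
    intro p hp
    rw [← u13_pr] at hp
    have hpp := Nat.prime_of_mem_primesBelow hp
    have hp0 : (0 : ℝ) < p := by exact_mod_cast hpp.pos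
    have hp1 : (1 : ℝ) < p := by exact_mod_cast hpp.one_lt
    rw [U13_tpf B P h p hpp]
    apply mul_nonneg
    · rw [sub_nonneg, div_le_one hp0]
      exact_mod_cast (u13_lt B P h hN p hpp).le
    · apply pow_nonneg
      rw [inv_nonneg, sub_nonneg, div_le_one hp0]
      exact hp1.le
  have hM : (∏ p ∈ Nat.primesBelow (Q + 1), (1 - (p : ℝ)⁻¹)) ^ (k + 1) ≤ 1 / (Real.log Q) ^ (k + 1) := by
    have h10 := prod_one_sub_inv_le (z := Q + 1) (by omega)
    have h11 : 0 ≤ ∏ p ∈ Nat.primesBelow (Q + 1), (1 - (p : ℝ)⁻¹) := by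
      apply Finset.prod_nonneg
      intro p hp
      have hp1 : (1 : ℝ) < p := by exact_mod_cast (Nat.prime_of_mem_primesBelow hp).one_lt
      have : (p : ℝ)⁻¹ < 1 := inv_lt_one_of_one_lt₀ hp1
      linarith
    have h12 : 1 / Real.log ((Q + 1 : ℕ) : ℝ) ≤ 1 / Real.log Q := by
      apply one_div_le_one_div_of_le hlogQ
      apply Real.log_le_log hQ0
      push_cast
      linarith
    rw [← one_div_pow]
    exact pow_le_pow_left₀ h11 (h10.trans h12) _
  have hfin : L * ∏ p ∈ Nat.primesBelow (Q + 1), (1 - (rootCount (H.comp (X + C (t : ℤ))) p : ℝ) / p) ≤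
      L * (SSf (pr Q) (sys B P h) * (1 / (Real.log Q) ^ (k + 1))) := by
    rw [hprod]
    exact mul_le_mul_of_nonneg_left (mul_le_mul_of_nonneg_left hM hSS) hL0.le
  have hκ0 : (0 : ℝ) ≤ κ := by linarith
  have h4 := mul_le_mul_of_nonneg_left (hYR.trans h2) hκ0
  have h13 : (4 + 2 * (κ : ℝ)) * (L * ∏ p ∈ Nat.primesBelow (Q + 1),
      (1 - (rootCount (H.comp (X + C (t : ℤ))) p : ℝ) / p)) ≤
      (4 + 2 * (κ : ℝ)) * (L * (SSf (pr Q) (sys B P h) * (1 / (Real.log Q) ^ (k + 1)))) :=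
    mul_le_mul_of_nonneg_left hfin (by positivity)
  calc (cnt (sys B P h) n1 L : ℝ) ≤ T₁.card + κ * ((Q + 1 : ℕ) : ℝ) := hcount'
    _ ≤ (4 + 2 * (κ : ℝ)) * (L * ∏ p ∈ Nat.primesBelow (Q + 1),
      (1 - (rootCount (H.comp (X + C (t : ℤ))) p : ℝ) / p)) := by linarith
    _ ≤ (4 + 2 * (κ : ℝ)) * (L * (SSf (pr Q) (sys B P h) * (1 / (Real.log Q) ^ (k + 1)))) := h13
    _ = (4 + 2 * κ) * L * SSf (pr Q) (sys B P h) / (Real.log Q) ^ (k + 1) := by ring

end Pool.Agent.H9P
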