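import Pool.Agent.Lib.H9P.U9
import Pool.Agent.Lib.H9P.U11
import Pool.Agent.Lib.HUP.R20

/-!
# ASYP, chunk U14 (M/L): one cell of `n`, all parameters
-/

open Finset Polynomial

namespace Pool.Agent.H9P

open Pool.Agent.Lib.H68T Pool.Agent.Lib.H18Q Pool.Agent.Lib.H59P Pool.Agent.Lib.H24P
open Pool.Agent.HUP

/-- The numbers of one box. -/
theorem u14a_num (C1 T δ Zd v y M q : ℝ) (hC : 1 ≤ C1) (hT : 2500 * C1 ≤ T * δ) (hδ0 : 0 < δ) (hδ1 : δ ≤ 1)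
    (hZd : 0 < Zd) (hv : 9 * (δ * Zd) ≤ 10 * v) (hq0 : 0 ≤ q) (hq : q * (2500 * T) ≤ Zd * δ)
    (hy : |y - v| * T ≤ C1 * Zd) (hM2 : 5 * v / 8 - q ≤ M) (hM1 : M ≤ 5 * v / 8) :
    δ * Zd ≤ 2 * M ∧ 151 * M ≤ 100 * y ∧ 100 * y < 168 * M := by
  have hTδ : 0 < T * δ := by linarith
  have hT0 : 0 < T := by
    by_contra hneg
    push Not at hneg
    have := mul_nonpos_of_nonpos_of_nonneg hneg hδ0.le
    linarith
  have hT1 : 2500 ≤ T := by
    have h1 : T * δ ≤ T * 1 := mul_le_mul_of_nonneg_left hδ1 hT0.le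
    linarith
  have hδZ : 0 < δ * Zd := mul_pos hδ0 hZd
  have hv0 : 0 < v := by linarith
  have h1 : q * 2500 ≤ v / 2000 := by
    have h2 : q * 2500 * 2500 ≤ q * 2500 * T := mul_le_mul_of_nonneg_left hT1 (by linarith)
    have h3 : q * 2500 * T = q * (2500 * T) := by ring
    have h4 : Zd * δ = δ * Zd := mul_comm _ _
    linarith
  have h6 : |y - v| * 2250 ≤ v := by
    have h7 : |y - v| * (T * δ) ≤ C1 * (δ * Zd) := by
      calc |y - v| * (T * δ) = (|y - v| * T) * δ := by ring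
        _ ≤ C1 * Zd * δ := mul_le_mul_of_nonneg_right hy hδ0.le
        _ = C1 * (δ * Zd) := by ring
    have h8 : |y - v| * (2500 * C1) ≤ |y - v| * (T * δ) := mul_le_mul_of_nonneg_left hT (abs_nonneg _)
    have h9 : C1 * (δ * Zd) ≤ C1 * (10 / 9 * v) := mul_le_mul_of_nonneg_left (by linarith) (by linarith)
    have h10 : (|y - v| * 2500) * C1 ≤ (10 / 9 * v) * C1 := by
      calc (|y - v| * 2500) * C1 = |y - v| * (2500 * C1) := by ring
        _ ≤ C1 * (10 / 9 * v) := h8.trans (h7.trans h9)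
        _ = (10 / 9 * v) * C1 := by ring
    have h11 := le_of_mul_le_mul_right h10 (by linarith)
    linarith
  have h11 := abs_le.1 (show |y - v| ≤ v / 50 by linarith [abs_nonneg (y - v)])
  refine ⟨by linarith, by linarith [h11.1], by linarith [h11.2]⟩

/-- **U14a**: covering by boxes (compare `R20_cover`, `HUP/R20.lean`). `T` is a constant. Let `s_j = q ⌊Z^(e_j)/(q T)⌋` (`≥ Z^(e_j)/(2T)` for `Z ≥ Cv q T`). The boxes `tb (u s) s`,
`u ∈ ∏ [0, A Z^(e_j)/s_j]`, cover `tb 0 (A Z^e + 1)`, total volume at most `(3A)^d Z^(∑ e)`. A box which contains a `t` with `v_i(t) = β_i + ψ_i(t) ≥ δ Z^(D_i)` for all `i`: the forms vary by at most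
`∑_j |c_ij| s_j ≤ C Z^(D_i)/T` on it (`R18_var`; `e_j = D_i` if `c_ij ≠ 0`), which is at most `v_i/100` if `T ≥ Cv/δ`; `M_i = q ⌊5 v_i/(8 q)⌋` (`v_i` the value at the corner), so
`151 M_i ≤ 100 v_i(t') < 168 M_i` on the box and `(δ/2) Z^(D_i) ≤ M_i ≤ Cv Z^(D_i)`. For such a box use `hE`; the other boxes contain no `t` of the set. Sum. -/
theorem U14_cover {k d : ℕ} (c : Fin k → Fin d → ℤ) (e : Fin d → ℕ) (D : Fin k → ℕ) (he : ∀ j, 1 ≤ e j)
    (hD : ∀ i, 1 ≤ D i) (hB : ∀ i j, c i j ≠ 0 → e j = D i) (A : ℕ) (hA : 1 ≤ A) : ∃ Cv : ℕ, 1 ≤ Cv ∧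
    ∀ (Z q : ℕ) (T δ θ : ℝ), 1 ≤ q → 0 < δ → δ ≤ 1 → (Cv : ℝ) ≤ T * δ → 0 ≤ θ → Cv * T * q ≤ Z * δ → ∀ β : Fin k → ℤ,
    (∀ i, |β i| ≤ A * (Z : ℤ) ^ D i) → ∀ (E : (Fin d → ℤ) → Prop) [DecidablePred E],
    (∀ (M : Fin k → ℕ) (b : Fin d → ℤ) (s : Fin d → ℕ), (∀ i, q ∣ M i) → (∀ j, q ∣ s j) →
      (∀ i, δ * (Z : ℝ) ^ D i ≤ 2 * M i) → (∀ i, (M i : ℝ) ≤ Cv * (Z : ℝ) ^ D i) →
      (∀ j, (Z : ℝ) ^ e j ≤ 2 * T * s j) → (∀ j, (s j : ℝ) ≤ (Z : ℝ) ^ e j) →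
      (∀ t ∈ tb b s, ∀ i, 151 * (M i : ℤ) ≤ 100 * (β i + lf c t i) ∧ 100 * (β i + lf c t i) < 168 * (M i : ℤ)) →
      (((tb b s).filter E).card : ℝ) ≤ (tb b s).card * θ) →
    (((tb 0 fun j => A * Z ^ e j + 1).filter fun t => (∀ i, δ * (Z : ℝ) ^ D i ≤ ((β i + lf c t i : ℤ) : ℝ)) ∧ E t).card : ℝ) ≤
      Cv * θ * (Z : ℝ) ^ (∑ j, e j) := by
  classical
  obtain ⟨C1, hC1⟩ : ∃ C1 : ℕ, (C1 : ℤ) = 1 + ∑ i, ∑ j, |c i j| :=
    ⟨(1 + ∑ i, ∑ j, |c i j|).toNat, Int.toNat_of_nonneg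
      (add_nonneg zero_le_one (Finset.sum_nonneg fun _ _ => Finset.sum_nonneg fun _ _ => abs_nonneg _))⟩
  have hS : ∀ i, ∑ j, |c i j| ≤ (C1 : ℤ) - 1 := by
    intro i
    have h1 := Finset.single_le_sum (f := fun i => ∑ j, |c i j|)
      (fun _ _ => Finset.sum_nonneg fun _ _ => abs_nonneg _) (mem_univ i)
    omega
  have hC1' : 1 ≤ C1 := by
    have h1 : (0 : ℤ) ≤ ∑ i, ∑ j, |c i j| :=
      Finset.sum_nonneg fun _ _ => Finset.sum_nonneg fun _ _ => abs_nonneg _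
    omega
  obtain ⟨Cv, hCv⟩ : ∃ Cv : ℕ, Cv = 2500 * C1 + A * (1 + C1) + (2 * A) ^ d := ⟨_, rfl⟩
  have hCa : 2500 * C1 ≤ Cv := by rw [hCv]; exact (Nat.le_add_right _ _).trans (Nat.le_add_right _ _)
  have hCb : A * (1 + C1) ≤ Cv := by rw [hCv]; exact (Nat.le_add_left _ _).trans (Nat.le_add_right _ _)
  have hCc : (2 * A) ^ d ≤ Cv := by rw [hCv]; exact Nat.le_add_left _ _
  have hCd : 2500 ≤ Cv := by omega
  refine ⟨Cv, by omega, ?_⟩
  intro Z q T δ θ hq hδ0 hδ1 hT hθ hZ β hβ E _ hE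
  have hqr : (1 : ℝ) ≤ q := by exact_mod_cast hq
  have hCr : (2500 : ℝ) ≤ Cv := by exact_mod_cast hCd
  have hC1r : (1 : ℝ) ≤ C1 := by exact_mod_cast hC1'
  have hTd : 2500 * (C1 : ℝ) ≤ T * δ := by
    have h1 : (2500 : ℝ) * (C1 : ℝ) ≤ Cv := by exact_mod_cast hCa
    exact h1.trans hT
  have hT0 : 0 < T := by
    by_contra hneg
    push Not at hneg
    have := mul_nonpos_of_nonpos_of_nonneg hneg hδ0.le
    linarith
  have hT1 : (2500 : ℝ) ≤ T := by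
    have h1 : T * δ ≤ T * 1 := mul_le_mul_of_nonneg_left hδ1 hT0.le
    linarith
  have hZ1 : 2500 * T * q ≤ Z * δ := by
    refine le_trans ?_ hZ
    exact mul_le_mul_of_nonneg_right (mul_le_mul_of_nonneg_right hCr hT0.le) (by linarith)
  have hZT : 2500 * T * q ≤ Z := by
    refine hZ1.trans ?_
    calc (Z : ℝ) * δ ≤ Z * 1 := mul_le_mul_of_nonneg_left hδ1 (Nat.cast_nonneg _)
      _ = Z := mul_one _
  have hTq : (2500 : ℝ) ≤ 2500 * T * q := by nlinarith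
  have hZr1 : (1 : ℝ) ≤ Z := by linarith
  have hZn : 1 ≤ Z := by exact_mod_cast hZr1
  have hZe : ∀ n : ℕ, 1 ≤ n → (Z : ℝ) ≤ (Z : ℝ) ^ n := fun n hn => le_self_pow₀ hZr1 (by omega)
  obtain ⟨s, hs⟩ : ∃ s : Fin d → ℕ, s = fun j => q * ⌊(Z : ℝ) ^ e j / (q * T)⌋₊ := ⟨_, rfl⟩
  have hqT : 0 < (q : ℝ) * T := by positivity
  have hs1 : ∀ j, q ∣ s j := fun j => by rw [hs]; exact dvd_mul_right _ _
  have hs3 : ∀ j, (s j : ℝ) * T ≤ (Z : ℝ) ^ e j := by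
    intro j
    have h1 : ((⌊(Z : ℝ) ^ e j / (q * T)⌋₊ : ℕ) : ℝ) ≤ (Z : ℝ) ^ e j / (q * T) := Nat.floor_le (by positivity)
    rw [le_div_iff₀ hqT] at h1
    rw [hs]
    push_cast
    linarith [mul_comm (q : ℝ) ((⌊(Z : ℝ) ^ e j / (q * T)⌋₊ : ℕ) : ℝ),
      mul_assoc ((⌊(Z : ℝ) ^ e j / (q * T)⌋₊ : ℕ) : ℝ) (q : ℝ) T]
  have hs2 : ∀ j, (Z : ℝ) ^ e j ≤ 2 * T * s j := by
    intro j
    have h1 : (Z : ℝ) ^ e j / (q * T) < ((⌊(Z : ℝ) ^ e j / (q * T)⌋₊ : ℕ) : ℝ) + 1 := Nat.lt_floor_add_one _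
    have h2 : 1 ≤ (Z : ℝ) ^ e j / (q * T) := by
      rw [le_div_iff₀ hqT]
      have h3 := hZe (e j) (he j)
      nlinarith
    have h4 : (1 : ℝ) ≤ ((⌊(Z : ℝ) ^ e j / (q * T)⌋₊ : ℕ) : ℝ) := by
      exact_mod_cast Nat.le_floor (by exact_mod_cast h2)
    have h5 : (Z : ℝ) ^ e j / (q * T) ≤ 2 * ((⌊(Z : ℝ) ^ e j / (q * T)⌋₊ : ℕ) : ℝ) := by linarith
    rw [div_le_iff₀ hqT] at h5
    rw [hs]
    push_cast
    calc (Z : ℝ) ^ e j ≤ 2 * ((⌊(Z : ℝ) ^ e j / (q * T)⌋₊ : ℕ) : ℝ) * (q * T) := h5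
      _ = 2 * T * (q * ((⌊(Z : ℝ) ^ e j / (q * T)⌋₊ : ℕ) : ℝ)) := by ring
  have hsZ : ∀ j, (s j : ℝ) ≤ (Z : ℝ) ^ e j := by
    intro j
    refine le_trans ?_ (hs3 j)
    exact le_mul_of_one_le_right (Nat.cast_nonneg _) (by linarith)
  have hspos : ∀ j, 0 < s j := by
    intro j
    rcases Nat.eq_zero_or_pos (s j) with h | h
    · have h1 := hs2 j
      rw [h] at h1
      have h3 := hZe (e j) (he j)
      push_cast at h1
      linarith
    · exact h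
  obtain ⟨cr, hcr⟩ : ∃ cr : (Fin d → ℕ) → (Fin d → ℤ), cr = fun u j => ((u j * s j : ℕ) : ℤ) := ⟨_, rfl⟩
  obtain ⟨U, hU⟩ : ∃ U : Finset (Fin d → ℕ), U = Fintype.piFinset fun j => range (A * Z ^ e j / s j + 1) :=
    ⟨_, rfl⟩
  obtain ⟨G, hG⟩ : ∃ G : Finset (Fin d → ℕ), G = U.filter fun u => ∀ i, 9 * (δ * (Z : ℝ) ^ D i) ≤ 10 * ((β i + lf c (cr u) i : ℤ) : ℝ) :=
    ⟨_, rfl⟩
  have hvar : ∀ (b : Fin d → ℤ) (i : Fin k) (t t' : Fin d → ℤ), t ∈ tb b s → t' ∈ tb b s →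
      |((β i + lf c t i : ℤ) : ℝ) - ((β i + lf c t' i : ℤ) : ℝ)| * T ≤ C1 * (Z : ℝ) ^ D i := by
    intro b i t t' ht ht'
    have h1 := R18_var c b s i t t' ht ht'
    have h2 : |((β i + lf c t i : ℤ) : ℝ) - ((β i + lf c t' i : ℤ) : ℝ)| ≤ ∑ j, |(c i j : ℝ)| * (s j : ℝ) := by
      have h3 : ((|lf c t i - lf c t' i| : ℤ) : ℝ) ≤ ((∑ j, |c i j| * (s j : ℤ) : ℤ) : ℝ) := by exact_mod_cast h1
      push_cast at h3
      push_cast
      rw [add_sub_add_left_eq_sub]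
      exact h3
    have h4 : (∑ j, |(c i j : ℝ)| * (s j : ℝ)) * T ≤ (∑ j, |(c i j : ℝ)|) * (Z : ℝ) ^ D i := by
      rw [Finset.sum_mul, Finset.sum_mul]
      refine Finset.sum_le_sum fun j _ => ?_
      by_cases hj : c i j = 0
      · rw [hj]
        simp
      · rw [mul_assoc, ← hB i j hj]
        exact mul_le_mul_of_nonneg_left (hs3 j) (abs_nonneg _)
    have h5 : (∑ j, |(c i j : ℝ)|) ≤ C1 := by
      have h6 : ((∑ j, |c i j| : ℤ) : ℝ) ≤ ((C1 : ℤ) : ℝ) := by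
        exact_mod_cast (hS i).trans (by omega)
      push_cast at h6
      exact h6
    calc _ ≤ (∑ j, |(c i j : ℝ)| * (s j : ℝ)) * T := mul_le_mul_of_nonneg_right h2 hT0.le
      _ ≤ (∑ j, |(c i j : ℝ)|) * (Z : ℝ) ^ D i := h4
      _ ≤ C1 * (Z : ℝ) ^ D i := mul_le_mul_of_nonneg_right h5 (by positivity)
  have hcrm : ∀ u : Fin d → ℕ, cr u ∈ tb (cr u) s := by
    intro u
    rw [r18_mem]
    intro j
    have h1 := hspos j
    omega
  -- the cover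
  have hsub : ((tb 0 fun j => A * Z ^ e j + 1).filter
        fun t => (∀ i, δ * (Z : ℝ) ^ D i ≤ ((β i + lf c t i : ℤ) : ℝ)) ∧ E t) ⊆
      (G.biUnion fun u => (tb (cr u) s).filter E) := by
    intro t ht
    rw [mem_filter] at ht
    obtain ⟨u, hu⟩ : ∃ u : Fin d → ℕ, u = fun j => (t j).toNat / s j := ⟨_, rfl⟩
    have htb := (r18_mem _ _ _).1 ht.1
    have htu : t ∈ tb (cr u) s := by
      rw [r18_mem]
      intro j
      have h1 := htb j
      simp only [Pi.zero_apply] at h1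
      obtain ⟨n, hn⟩ : ∃ n : ℕ, (n : ℤ) = t j := ⟨(t j).toNat, Int.toNat_of_nonneg h1.1⟩
      have h2 : u j = n / s j := by
        rw [hu]
        simp only
        rw [← hn, Int.toNat_natCast]
      have h3 : n / s j * s j ≤ n := Nat.div_mul_le_self _ _
      have h4 : n < n / s j * s j + s j := Nat.lt_div_mul_add (hspos j)
      rw [hcr]
      simp only
      rw [h2, ← hn]
      constructor
      · exact_mod_cast h3
      · exact_mod_cast h4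
    rw [mem_biUnion]
    refine ⟨u, ?_, mem_filter.2 ⟨htu, ht.2.2⟩⟩
    rw [hG, mem_filter]
    constructor
    · rw [hU, Fintype.mem_piFinset]
      intro j
      rw [mem_range, Nat.lt_succ_iff]
      rw [hu]
      apply Nat.div_le_div_right
      have h1 := htb j
      simp only [Pi.zero_apply] at h1
      push_cast at h1
      have h2 : (((t j).toNat : ℕ) : ℤ) ≤ ((A * Z ^ e j : ℕ) : ℤ) := by
        rw [Int.toNat_of_nonneg h1.1]
        push_cast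
        omega
      exact_mod_cast h2
    · intro i
      have h1 := ht.2.1 i
      have h3 := hvar (cr u) i t (cr u) htu (hcrm u)
      have hZD : 0 < (Z : ℝ) ^ D i := by positivity
      have h4 : |((β i + lf c t i : ℤ) : ℝ) - ((β i + lf c (cr u) i : ℤ) : ℝ)| * 2500 ≤ δ * (Z : ℝ) ^ D i := by
        have h5 : (|((β i + lf c t i : ℤ) : ℝ) - ((β i + lf c (cr u) i : ℤ) : ℝ)| * 2500) * C1 ≤
            (δ * (Z : ℝ) ^ D i) * C1 := by
          calc _ = |((β i + lf c t i : ℤ) : ℝ) - ((β i + lf c (cr u) i : ℤ) : ℝ)| * (2500 * C1) := by ring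
            _ ≤ |((β i + lf c t i : ℤ) : ℝ) - ((β i + lf c (cr u) i : ℤ) : ℝ)| * (T * δ) :=
              mul_le_mul_of_nonneg_left hTd (abs_nonneg _)
            _ = (|((β i + lf c t i : ℤ) : ℝ) - ((β i + lf c (cr u) i : ℤ) : ℝ)| * T) * δ := by ring
            _ ≤ (C1 * (Z : ℝ) ^ D i) * δ := mul_le_mul_of_nonneg_right h3 hδ0.le
            _ = (δ * (Z : ℝ) ^ D i) * C1 := by ring
        exact le_of_mul_le_mul_right h5 (by linarith)
      have h6 : ((β i + lf c t i : ℤ) : ℝ) - ((β i + lf c (cr u) i : ℤ) : ℝ) ≤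
          |((β i + lf c t i : ℤ) : ℝ) - ((β i + lf c (cr u) i : ℤ) : ℝ)| := le_abs_self _
      have h7 : 0 < δ * (Z : ℝ) ^ D i := mul_pos hδ0 hZD
      linarith
  -- the boxes
  have hbox : ∀ u ∈ G, (((tb (cr u) s).filter E).card : ℝ) ≤ (tb (cr u) s).card * θ := by
    intro u hu
    rw [hG, mem_filter] at hu
    obtain ⟨v, hv⟩ : ∃ v : Fin k → ℕ, v = fun i => (β i + lf c (cr u) i).toNat := ⟨_, rfl⟩
    have hZD : ∀ i, 0 < (Z : ℝ) ^ D i := fun i => by positivity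
    have hvpos : ∀ i, (0 : ℝ) < ((β i + lf c (cr u) i : ℤ) : ℝ) := by
      intro i
      have h1 := hu.2 i
      have h2 := mul_pos hδ0 (hZD i)
      linarith
    have hvr : ∀ i, (v i : ℝ) = ((β i + lf c (cr u) i : ℤ) : ℝ) := by
      intro i
      have h1 : (0 : ℤ) ≤ β i + lf c (cr u) i := by
        have h2 := hvpos i
        exact_mod_cast h2.le
      have h2 : ((v i : ℕ) : ℤ) = β i + lf c (cr u) i := by
        rw [hv]
        exact Int.toNat_of_nonneg h1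
      rw [← h2]
      push_cast
      rfl
    have hqw : ∀ i, (q : ℝ) * (2500 * T) ≤ (Z : ℝ) ^ D i * δ := by
      intro i
      calc (q : ℝ) * (2500 * T) = 2500 * T * q := by ring
        _ ≤ (Z : ℝ) * δ := hZ1
        _ ≤ (Z : ℝ) ^ D i * δ := mul_le_mul_of_nonneg_right (hZe _ (hD i)) hδ0.le
    have hnum : ∀ (t : Fin d → ℤ), t ∈ tb (cr u) s → ∀ i,
        δ * (Z : ℝ) ^ D i ≤ 2 * ((q * (5 * v i / (8 * q)) : ℕ) : ℝ) ∧
        151 * ((q * (5 * v i / (8 * q)) : ℕ) : ℝ) ≤ 100 * ((β i + lf c t i : ℤ) : ℝ) ∧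
        100 * ((β i + lf c t i : ℤ) : ℝ) < 168 * ((q * (5 * v i / (8 * q)) : ℕ) : ℝ) := by
      intro t ht i
      have h1 := r20_M q (v i) hq
      refine u14a_num C1 T δ ((Z : ℝ) ^ D i) (v i) ((β i + lf c t i : ℤ) : ℝ) _ q hC1r hTd hδ0 hδ1 (hZD i) ?_
        (by linarith) (hqw i) ?_ h1.2 h1.1
      · rw [hvr i]
        exact hu.2 i
      · rw [hvr i]
        exact hvar (cr u) i t (cr u) ht (hcrm u)
    refine hE (fun i => q * (5 * v i / (8 * q))) (cr u) s (fun i => dvd_mul_right _ _) hs1 ?_ ?_ hs2 hsZ ?_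
    · intro i
      exact (hnum (cr u) (hcrm u) i).1
    · intro i
      have h1 := (r20_M q (v i) hq).1
      have h2 : (v i : ℝ) ≤ A * (1 + C1) * (Z : ℝ) ^ D i := by
        rw [hvr i]
        have h3 : ((β i + lf c (cr u) i : ℤ) : ℝ) = (β i : ℝ) + ∑ j, (c i j : ℝ) * (cr u j : ℝ) := by
          unfold lf
          push_cast
          rfl
        have h4 : (β i : ℝ) ≤ A * (Z : ℝ) ^ D i := by
          have h5 := (le_abs_self _).trans (hβ i)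
          exact_mod_cast h5
        have h6 : ∑ j, (c i j : ℝ) * (cr u j : ℝ) ≤ ∑ j, |(c i j : ℝ)| * (A * (Z : ℝ) ^ D i) := by
          refine Finset.sum_le_sum fun j _ => ?_
          by_cases hj : c i j = 0
          · rw [hj]
            simp
          · have h7 : (0 : ℝ) ≤ (cr u j : ℝ) := by
              rw [hcr]
              positivity
            have h8 : (cr u j : ℝ) ≤ A * (Z : ℝ) ^ D i := by
              have h9 := hu.1
              rw [hU, Fintype.mem_piFinset] at h9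
              have h10 := h9 j
              rw [mem_range, Nat.lt_succ_iff] at h10
              have h11 : u j * s j ≤ A * Z ^ e j := (Nat.mul_le_mul_right _ h10).trans (Nat.div_mul_le_self _ _)
              have h12 : ((u j * s j : ℕ) : ℝ) ≤ ((A * Z ^ e j : ℕ) : ℝ) := Nat.cast_le.2 h11
              rw [hcr, ← hB i j hj]
              push_cast at h12 ⊢
              exact h12
            exact (mul_le_mul_of_nonneg_right (le_abs_self _) h7).trans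
              (mul_le_mul_of_nonneg_left h8 (abs_nonneg _))
        have h12 : (∑ j, |(c i j : ℝ)|) ≤ C1 := by
          have h13 : ((∑ j, |c i j| : ℤ) : ℝ) ≤ ((C1 : ℤ) : ℝ) := by
            exact_mod_cast (hS i).trans (by omega)
          push_cast at h13
          exact h13
        rw [← Finset.sum_mul] at h6
        have h14 : (∑ j, |(c i j : ℝ)|) * (A * (Z : ℝ) ^ D i) ≤ C1 * (A * (Z : ℝ) ^ D i) :=
          mul_le_mul_of_nonneg_right h12 (by positivity)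
        rw [h3]
        calc _ ≤ A * (Z : ℝ) ^ D i + C1 * (A * (Z : ℝ) ^ D i) := add_le_add h4 (h6.trans h14)
          _ = A * (1 + C1) * (Z : ℝ) ^ D i := by ring
      have h15 : ((A * (1 + C1) : ℕ) : ℝ) ≤ Cv := by exact_mod_cast hCb
      push_cast at h15
      have h16 : (A * (1 + C1) : ℝ) * (Z : ℝ) ^ D i ≤ Cv * (Z : ℝ) ^ D i :=
        mul_le_mul_of_nonneg_right h15 (hZD i).le
      have h17 : (0 : ℝ) ≤ v i := Nat.cast_nonneg _
      linarith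
    · intro t ht i
      have h1 := hnum t ht i
      have h2 := h1.2.1
      have h3 := h1.2.2
      have h4 : ((151 * ((q * (5 * v i / (8 * q)) : ℕ) : ℤ) : ℤ) : ℝ) ≤ ((100 * (β i + lf c t i) : ℤ) : ℝ) := by
        push_cast
        push_cast at h2
        exact h2
      have h5 : ((100 * (β i + lf c t i) : ℤ) : ℝ) < ((168 * ((q * (5 * v i / (8 * q)) : ℕ) : ℤ) : ℤ) : ℝ) := by
        push_cast
        push_cast at h3
        exact h3
      exact ⟨Int.cast_le.1 h4, Int.cast_lt.1 h5⟩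
  -- the sums
  have hcard := Finset.card_le_card hsub
  have hP : ∏ j, ((2 * A * Z ^ e j : ℕ) : ℝ) = (2 * A) ^ d * (Z : ℝ) ^ (∑ j, e j) := by
    push_cast
    rw [Finset.prod_mul_distrib, Finset.prod_const, Finset.card_univ, Fintype.card_fin, Finset.prod_pow_eq_pow_sum]
  have hboxs : ∑ u ∈ G, (((tb (cr u) s).filter E).card : ℝ) ≤ θ * ((2 * A) ^ d * (Z : ℝ) ^ (∑ j, e j)) := by
    have h1 : ∀ u ∈ G, (((tb (cr u) s).filter E).card : ℝ) ≤ ((∏ j, s j : ℕ) : ℝ) * θ := by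
      intro u hu
      have h2 := hbox u hu
      rw [R18_card] at h2
      exact h2
    have h3 := Finset.sum_le_sum h1
    rw [Finset.sum_const, nsmul_eq_mul] at h3
    have h4 : (G.card : ℝ) ≤ U.card := by
      rw [hG]
      exact_mod_cast Finset.card_filter_le _ _
    have h5 : U.card * ∏ j, s j ≤ ∏ j, (2 * A * Z ^ e j) := by
      rw [hU, Fintype.card_piFinset, ← Finset.prod_mul_distrib]
      refine Finset.prod_le_prod' fun j _ => ?_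
      rw [card_range]
      have h6 : s j ≤ Z ^ e j := by exact_mod_cast hsZ j
      have h7 : A * Z ^ e j / s j * s j ≤ A * Z ^ e j := Nat.div_mul_le_self _ _
      have h8 : 1 * Z ^ e j ≤ A * Z ^ e j := Nat.mul_le_mul_right _ hA
      calc (A * Z ^ e j / s j + 1) * s j = A * Z ^ e j / s j * s j + s j := by ring
        _ ≤ A * Z ^ e j + A * Z ^ e j := by omega
        _ = 2 * A * Z ^ e j := by ring
    have h9 : (U.card : ℝ) * ((∏ j, s j : ℕ) : ℝ) ≤ ∏ j, ((2 * A * Z ^ e j : ℕ) : ℝ) := by exact_mod_cast h5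
    rw [hP] at h9
    calc _ ≤ (G.card : ℝ) * (((∏ j, s j : ℕ) : ℝ) * θ) := h3
      _ ≤ (U.card : ℝ) * (((∏ j, s j : ℕ) : ℝ) * θ) := mul_le_mul_of_nonneg_right h4 (by positivity)
      _ = θ * ((U.card : ℝ) * ((∏ j, s j : ℕ) : ℝ)) := by ring
      _ ≤ _ := mul_le_mul_of_nonneg_left h9 hθ
  have hfin : (((tb 0 fun j => A * Z ^ e j + 1).filter
        fun t => (∀ i, δ * (Z : ℝ) ^ D i ≤ ((β i + lf c t i : ℤ) : ℝ)) ∧ E t).card : ℝ) ≤
      ∑ u ∈ G, (((tb (cr u) s).filter E).card : ℝ) := by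
    have h1 := hcard.trans Finset.card_biUnion_le
    exact_mod_cast h1
  have h2 : ((2 * A) ^ d : ℝ) ≤ Cv := by exact_mod_cast hCc
  have hZs : (0 : ℝ) ≤ (Z : ℝ) ^ (∑ j, e j) := by positivity
  calc _ ≤ θ * ((2 * A) ^ d * (Z : ℝ) ^ (∑ j, e j)) := hfin.trans hboxs
    _ = (2 * A) ^ d * (θ * (Z : ℝ) ^ (∑ j, e j)) := by ring
    _ ≤ Cv * (θ * (Z : ℝ) ^ (∑ j, e j)) := mul_le_mul_of_nonneg_right h2 (mul_nonneg hθ hZs)
    _ = Cv * θ * (Z : ℝ) ^ (∑ j, e j) := by ring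

theorem u14_eval (P : ℤ[X]) (A : ℕ) : ∃ Cp : ℕ, ∀ n0 Z : ℕ, 1 ≤ Z → n0 ≤ A * Z →
    |P.eval (n0 : ℤ)| ≤ Cp * (Z : ℤ) ^ P.natDegree := by
  refine ⟨∑ j ∈ range (P.natDegree + 1), (P.coeff j).natAbs * A ^ j, ?_⟩
  intro n0 Z hZ hn
  rw [eval_eq_sum_range]
  refine (abs_sum_le_sum_abs _ _).trans ?_
  push_cast
  rw [Finset.sum_mul]
  apply Finset.sum_le_sum
  intro j hj
  rw [mem_range] at hj
  rw [abs_mul, abs_pow, Nat.abs_cast]
  have h1 : (n0 : ℤ) ^ j ≤ ((A : ℤ) * Z) ^ j := pow_le_pow_left₀ (by positivity) (by exact_mod_cast hn) j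
  have h2 : (Z : ℤ) ^ j ≤ (Z : ℤ) ^ P.natDegree := pow_le_pow_right₀ (by exact_mod_cast hZ) (by omega)
  calc |P.coeff j| * (n0 : ℤ) ^ j ≤ |P.coeff j| * ((A : ℤ) * Z) ^ j := mul_le_mul_of_nonneg_left h1 (abs_nonneg _)
    _ = |P.coeff j| * (A : ℤ) ^ j * (Z : ℤ) ^ j := by rw [mul_pow, mul_assoc]
    _ ≤ |P.coeff j| * (A : ℤ) ^ j * (Z : ℤ) ^ P.natDegree := mul_le_mul_of_nonneg_left h2 (by positivity)

theorem u14_ev (c : ℝ) (hc : 0 < c) (K : ℝ) : ∃ Z0 : ℕ, ∀ Z : ℕ, Z0 ≤ Z → K ≤ (Z : ℝ) ^ c := by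
  have h1 : Filter.Tendsto (fun Z : ℕ => (Z : ℝ) ^ c) Filter.atTop Filter.atTop :=
    (tendsto_rpow_atTop hc).comp tendsto_natCast_atTop_atTop
  exact Filter.eventually_atTop.1 (h1.eventually_ge_atTop K)

/-- `Z` is large compared to `Q`. -/
theorem u14_rg {K C : ℝ} {Q Z : ℕ} (hK : 2000 ≤ K) (hQ : 2 ≤ Q) (h : Rg K C Q Z) : (Q : ℝ) ^ 12 ≤ Z := by
  have hQr : (2 : ℝ) ≤ Q := by exact_mod_cast hQ
  have hlogQ : 0 < Real.log Q := Real.log_pos (by linarith)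
  have h1 : K * Real.log Q ≤ Real.log Z := h.1
  have hlogZ : 0 < Real.log Z := by nlinarith
  have hZ0 : (0 : ℝ) < Z := by
    rcases Nat.eq_zero_or_pos Z with h0 | h0
    · rw [h0, Nat.cast_zero, Real.log_zero] at hlogZ
      exact absurd hlogZ (lt_irrefl _)
    · exact_mod_cast h0
  rw [← Real.log_le_log_iff (by positivity) hZ0, Real.log_pow]
  push_cast
  nlinarith

/-- The scales of the models. -/
theorem u14_ysc {A Z M : ℕ} {δ Cv : ℝ} {D : ℕ} (hδ : 0 < δ) (hM8 : 8 ∣ M) (hD1 : 1 ≤ D) (hDA : D ≤ A) (hZ1 : 1 ≤ Z)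
    (h1 : δ * (Z : ℝ) ^ D ≤ 2 * M) (h2 : (M : ℝ) ≤ Cv * (Z : ℝ) ^ D) (h3 : 16 / δ ^ 2 ≤ Z) (h4 : Cv ≤ Z) :
    Z ≤ (Ysc M) ^ 2 ∧ Ysc M ≤ Z ^ (A + 2) := by
  obtain ⟨m, rfl⟩ := hM8
  have hY : Ysc (8 * m) = 6 * m := by
    unfold Ysc
    omega
  have hZr : (1 : ℝ) ≤ Z := by exact_mod_cast hZ1
  have hZ0 : (0 : ℝ) < Z := by linarith
  have hZD : (Z : ℝ) ≤ (Z : ℝ) ^ D := by
    calc (Z : ℝ) = (Z : ℝ) ^ 1 := (pow_one _).symm
      _ ≤ (Z : ℝ) ^ D := pow_le_pow_right₀ hZr hD1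
  rw [hY]
  push_cast at h1 h2
  constructor
  · have h5 : δ * Z / 4 ≤ 6 * (m : ℝ) := by
      have : δ * (Z : ℝ) ≤ δ * (Z : ℝ) ^ D := mul_le_mul_of_nonneg_left hZD hδ.le
      have hm : (0 : ℝ) ≤ m := Nat.cast_nonneg _
      linarith
    have h6 : (δ * Z / 4) ^ 2 ≤ (6 * (m : ℝ)) ^ 2 := pow_le_pow_left₀ (by positivity) h5 2
    have h7 : (Z : ℝ) ≤ (δ * Z / 4) ^ 2 := by
      rw [div_le_iff₀ (by positivity)] at h3
      have h8 : (δ * Z / 4) ^ 2 = Z * (Z * δ ^ 2) / 16 := by ring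
      rw [h8]
      have h9 : (Z : ℝ) * 16 ≤ Z * (Z * δ ^ 2) := mul_le_mul_of_nonneg_left h3 hZ0.le
      linarith
    have h8 : (Z : ℝ) ≤ ((6 * m : ℕ) : ℝ) ^ 2 := by
      push_cast
      exact h7.trans h6
    exact_mod_cast h8
  · have h5 : ((6 * m : ℕ) : ℝ) ≤ (Z : ℝ) ^ (A + 2) := by
      push_cast
      have hm : (0 : ℝ) ≤ m := Nat.cast_nonneg _
      calc 6 * (m : ℝ) ≤ 8 * m := by linarith
        _ ≤ Cv * (Z : ℝ) ^ D := h2
        _ ≤ Z * (Z : ℝ) ^ D := mul_le_mul_of_nonneg_right h4 (by positivity)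
        _ = (Z : ℝ) ^ (D + 1) := by rw [pow_succ]; ring
        _ ≤ (Z : ℝ) ^ (A + 2) := pow_le_pow_right₀ hZr (by omega)
    exact_mod_cast h5

open Classical in
/-- **U14.** Proof. `K` from `U9_box` (for `A' = A + 1`, say, or `A`), plus `2000`. For `C, δ, E0`: `U9_box` gives `τ, c2`. Constants: `Cp = max` of the constants of `U11_geo` (`Cg`), `Ca` with
`|β_i + P_i(n0)| ≤ Ca Z^(D_i)` for `n0 ≤ A Z` (`P` is fixed), `Cv` from `U14_cover` with `Ca` in place of `A`, `T = Cv/δ + 1`, `ρ0 = min(δ/(4 Cg), δ/A, 1/2)`.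
Put `P' = shf n0 (P ·)` (`HasD D a P'` by `U11_hasD`), `β' i = β i + P_i(n0)`, `B' = B(x + n0)`, `q = 8 Q^10`. `U14_cover` for `β'` with `E t` = (all `β i + ψ_i(t) ≥ 0` and the inequality of the statement),
`θ = Q^(-c2)`. On a box: `X = Z`, `GeoU A Q Z X1 P' M` by `U11_geo` (`Cg X1 Z^D ≤ Cg ρ0 Z Z^D ≤ Z M_i` as `M_i ≥ (δ/2) Z^D`; `M_i ≤ Cv Z^D ≤ Cv (2/ρ)^D X1^D ≤ X1^D Q^τ` for `Q` large in terms of `ρ`),
`GeoB A Z X1 Y B'` by `U11_geoB`; `Z ≤ (2/ρ) X1 ≤ X1 Q^τ`; `Z^(e_j) ≤ 2 T s_j ≤ Q^τ s_j`; `∑ |c_ij| s_j ≤ C Z^(D_i) ≤ Q M_i`; `Mdl` from `Lv` (`Z ≤ Y^2`, `Z ≤ Ysc (M i)^2`: `Ysc (M i) ≥ M_i/2 ≥ (δ/4) Z`;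
`≤ Z^(A+2)`). So `U9_box` applies. On the set: `sys B' P' (hh c β' t)` is the translated system (`U11_sys`), so `RPh X1 B' P' (hh c β' t) = wct (sys B P (hh c β t)) (n0 + X1) X1` (`U11_wct`, `U11_wct_add`) and
the series are equal (`U11_SS`). `c1 = c2/2` absorbs the constant `Cv`. -/
theorem U14_main {k d : ℕ} (c : Fin k → Fin d → ℤ) (e : Fin d → ℕ) (D : Fin k → ℕ) (a : Fin k → ℤ)
    (hF : FGTU c D a) (hS : S4TU c e D a) (he : ∀ j, 1 ≤ e j) (hB : ∀ i j, c i j ≠ 0 → e j = D i)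
    (hD : ∀ i, 1 ≤ D i) (P : Fin k → ℤ[X]) (hP : HasD D a P) (A : ℕ) (hA : 1 ≤ A)
    (hDA : ∀ i, D i ≤ A ∧ (a i).natAbs ≤ A) : ∃ K : ℝ, 1 ≤ K ∧ ∀ C E0 δ : ℝ, 0 ≤ E0 → E0 ≤ 1 → 0 < δ →
    ∃ ρ0 : ℝ, 0 < ρ0 ∧ ∀ ρ : ℝ, 0 < ρ → ρ ≤ ρ0 → ∃ c1 : ℝ, 0 < c1 ∧ ∃ Q0 : ℕ, ∀ Q Z : ℕ, Q0 ≤ Q → Rg K C Q Z →
    Lv A Q Z E0 → ∀ X1 n0 : ℕ, Q ^ 800 ∣ X1 → ρ * Z ≤ 2 * X1 → X1 ≤ ρ * Z → n0 ≤ A * Z → ∀ B : ℤ[X], Lin A B →
    (∀ n ∈ Ico (n0 + X1) (n0 + 2 * X1), δ * Z ≤ ((B.eval (n : ℤ) : ℤ) : ℝ) ∧ ((B.eval (n : ℤ) : ℤ) : ℝ) ≤ A * Z) →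
    ∀ β : Fin k → ℤ, (∀ i, |β i| ≤ A * (Z : ℤ) ^ D i) →
    (((tb 0 fun j => A * Z ^ e j + 1).filter fun t => (∀ i, 0 ≤ β i + lf c t i) ∧
      (∀ i, δ * (Z : ℝ) ^ D i ≤ (((P i).eval (n0 : ℤ) + β i + lf c t i : ℤ) : ℝ)) ∧
      X1 * (((1 + E0) ^ (k + 1) - 1) * SSf (pr Q) (sys B P (hh c β t)) + (Q : ℝ) ^ (-c1)) <
        |wct (sys B P (hh c β t)) (n0 + X1) X1 - X1 * SSf (pr Q) (sys B P (hh c β t))|).card : ℝ) ≤
      (Z : ℝ) ^ (∑ j, e j) * (Q : ℝ) ^ (-c1) := by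
  obtain ⟨K9, hK9, h9⟩ := U9_box c e D a hF hS he hD A hA hDA
  obtain ⟨Cg, hCg, hgeo⟩ := U11_geo P A
  refine ⟨K9 + 2000, by linarith, ?_⟩
  intro Cr E0 δ0 hE0 hE1 hδ0
  obtain ⟨τ, c2, hτ, hτ1, hc2, Q9, h9⟩ := h9 Cr E0 hE0 hE1
  obtain ⟨δ, hδd⟩ : ∃ δ : ℝ, δ = min δ0 1 := ⟨_, rfl⟩
  have hδ : 0 < δ := by
    rw [hδd]
    exact lt_min hδ0 one_pos
  have hδ1 : δ ≤ 1 := by
    rw [hδd]
    exact min_le_right _ _
  have hδδ : δ ≤ δ0 := by
    rw [hδd]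
    exact min_le_left _ _
  have hev : ∀ i, ∃ Cp : ℕ, ∀ n0 Z : ℕ, 1 ≤ Z → n0 ≤ A * Z →
      |(P i).eval (n0 : ℤ)| ≤ Cp * (Z : ℤ) ^ (P i).natDegree := fun i => u14_eval (P i) A
  choose Cp hCp using hev
  obtain ⟨Ca, hCa⟩ : ∃ Ca, Ca = A + ∑ i, Cp i := ⟨_, rfl⟩
  obtain ⟨Cv, hCv, hcov⟩ := U14_cover c e D he hD hB Ca (by omega)
  have hAr : (1 : ℝ) ≤ A := by exact_mod_cast hA
  have hCgr : (1 : ℝ) ≤ Cg := by exact_mod_cast hCg
  have hCvr : (1 : ℝ) ≤ Cv := by exact_mod_cast hCv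
  refine ⟨min (δ / (4 * Cg)) (min (δ / A) (1 / 2)), by positivity, ?_⟩
  intro ρ hρ hρ0
  have hρ1 : 4 * Cg * ρ ≤ δ := by
    have h1 := hρ0.trans (min_le_left _ _)
    rw [le_div_iff₀ (by positivity)] at h1
    linarith
  have hρ2 : A * ρ ≤ δ := by
    have h1 := hρ0.trans ((min_le_right _ _).trans (min_le_left _ _))
    rw [le_div_iff₀ (by positivity)] at h1
    linarith
  have hρ3 : ρ ≤ 1 / 2 := hρ0.trans ((min_le_right _ _).trans (min_le_right _ _))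
  obtain ⟨T, hT⟩ : ∃ T : ℝ, T = Cv / δ + 1 := ⟨_, rfl⟩
  have hT1 : 1 ≤ T := by
    rw [hT]
    have : (0 : ℝ) ≤ Cv / δ := by positivity
    linarith
  have hTδ : (Cv : ℝ) ≤ T * δ := by
    rw [hT, add_mul, div_mul_cancel₀ _ hδ.ne']
    linarith
  obtain ⟨Cc, hCc⟩ : ∃ Cc : ℕ, Cc = ∑ i, ∑ j, (c i j).natAbs := ⟨_, rfl⟩
  obtain ⟨b0, hb0⟩ : ∃ b0 : ℝ, b0 = min τ (min (1 / 8) (c2 / 2)) := ⟨_, rfl⟩
  have hb0p : 0 < b0 := by
    rw [hb0]
    exact lt_min hτ (lt_min (by norm_num) (by linarith))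
  have hb1 : b0 ≤ τ := by
    rw [hb0]
    exact min_le_left _ _
  have hb2 : b0 ≤ 1 / 8 := by
    rw [hb0]
    exact (min_le_right _ _).trans (min_le_left _ _)
  have hb3 : b0 ≤ c2 / 2 := by
    rw [hb0]
    exact (min_le_right _ _).trans (min_le_right _ _)
  obtain ⟨Q1, hQ1⟩ := u14_ev b0 hb0p (2 / ρ + Cv * (1 + 2 / ρ) ^ A + 2 * T + 2 * Cc / δ + 8 * Cv * T / δ +
    16 / δ ^ 2 + A + Cv)
  refine ⟨c2 / 2, by linarith, Q9 + Q1 + 2, ?_⟩
  intro Q Z hQ hRg hLv X1 n0 hX1d hX1l hX1u hn0 B hBL hBv β hβ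
  have hQ2 : 2 ≤ Q := by omega
  have hQr : (2 : ℝ) ≤ Q := by exact_mod_cast hQ2
  have hQ1r : (1 : ℝ) ≤ Q := by linarith
  have hQ0 : (0 : ℝ) < Q := by linarith
  have hΛ := hQ1 Q (by omega)
  have n1 : (0 : ℝ) ≤ 2 / ρ := by positivity
  have n2 : (0 : ℝ) ≤ Cv * (1 + 2 / ρ) ^ A := by positivity
  have n3 : (0 : ℝ) ≤ 2 * T := by positivity
  have n4 : (0 : ℝ) ≤ 2 * Cc / δ := by positivity
  have n5 : (0 : ℝ) ≤ 8 * Cv * T / δ := by positivity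
  have n6 : (0 : ℝ) ≤ 16 / δ ^ 2 := by positivity
  have hQbτ : (Q : ℝ) ^ b0 ≤ (Q : ℝ) ^ τ := Real.rpow_le_rpow_of_exponent_le hQ1r hb1
  have hQb8 : (Q : ℝ) ^ b0 ≤ (Q : ℝ) ^ (1 / 8 : ℝ) := Real.rpow_le_rpow_of_exponent_le hQ1r hb2
  have hQbc : (Q : ℝ) ^ b0 ≤ (Q : ℝ) ^ (c2 / 2) := Real.rpow_le_rpow_of_exponent_le hQ1r hb3
  have hQbQ : (Q : ℝ) ^ b0 ≤ Q := by
    calc (Q : ℝ) ^ b0 ≤ (Q : ℝ) ^ (1 : ℝ) := Real.rpow_le_rpow_of_exponent_le hQ1r (by linarith)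
      _ = Q := Real.rpow_one _
  have hQ12 : (Q : ℝ) ^ 12 ≤ Z := u14_rg (by linarith) hQ2 hRg
  have hQZ : (Q : ℝ) ≤ Z := by
    refine le_trans ?_ hQ12
    calc (Q : ℝ) = (Q : ℝ) ^ 1 := (pow_one _).symm
      _ ≤ (Q : ℝ) ^ 12 := pow_le_pow_right₀ hQ1r (by norm_num)
  have hZr : (1 : ℝ) ≤ Z := by linarith
  have hZ0 : (0 : ℝ) < Z := by linarith
  have hZ1 : 1 ≤ Z := by exact_mod_cast hZr
  have hX1p : 0 < X1 := by
    have h1 : (0 : ℝ) < 2 * X1 := lt_of_lt_of_le (by positivity) hX1l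
    have h2 : (0 : ℝ) < X1 := by linarith
    exact_mod_cast h2
  have hX1r : (0 : ℝ) < X1 := by exact_mod_cast hX1p
  have hZX : (Z : ℝ) ≤ (2 / ρ) * X1 := by
    rw [div_mul_eq_mul_div, le_div_iff₀ hρ]
    linarith
  have h2X1 : 2 * X1 ≤ Z := by
    have h1 : 2 * (X1 : ℝ) ≤ Z := by nlinarith
    exact_mod_cast h1
  -- the translated data
  obtain ⟨β', hβ'⟩ : ∃ β' : Fin k → ℤ, β' = fun i => β i + (P i).eval (n0 : ℤ) := ⟨_, rfl⟩
  have hβ'b : ∀ i, |β' i| ≤ Ca * (Z : ℤ) ^ D i := by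
    intro i
    rw [hβ']
    refine (abs_add_le _ _).trans ?_
    have h1 := hCp i n0 Z hZ1 hn0
    rw [(hP i).1] at h1
    have h2 := hβ i
    have h3 : ((Cp i : ℕ) : ℤ) ≤ ((∑ i, Cp i : ℕ) : ℤ) := by
      exact_mod_cast Finset.single_le_sum (f := Cp) (fun _ _ => Nat.zero_le _) (mem_univ i)
    have h4 : ((Cp i : ℕ) : ℤ) * (Z : ℤ) ^ D i ≤ ((∑ i, Cp i : ℕ) : ℤ) * (Z : ℤ) ^ D i :=
      mul_le_mul_of_nonneg_right h3 (by positivity)
    calc |β i| + |(P i).eval (n0 : ℤ)| ≤ A * (Z : ℤ) ^ D i + ((∑ i, Cp i : ℕ) : ℤ) * (Z : ℤ) ^ D i := by linarith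
      _ = Ca * (Z : ℤ) ^ D i := by
        rw [hCa]
        push_cast
        ring
  have hHD := U11_hasD D a P hP hD n0
  have hBv' : ∀ n ∈ Ico (n0 + X1) (n0 + 2 * X1), δ * Z ≤ ((B.eval (n : ℤ) : ℤ) : ℝ) ∧
      ((B.eval (n : ℤ) : ℤ) : ℝ) ≤ A * Z := by
    intro n hn
    obtain ⟨h1, h2⟩ := hBv n hn
    exact ⟨(mul_le_mul_of_nonneg_right hδδ hZ0.le).trans h1, h2⟩
  have hAX : (A : ℝ) * X1 ≤ δ * Z := by
    calc (A : ℝ) * X1 ≤ A * (ρ * Z) := mul_le_mul_of_nonneg_left hX1u (by positivity)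
      _ = (A * ρ) * Z := by ring
      _ ≤ δ * Z := mul_le_mul_of_nonneg_right hρ2 hZ0.le
  obtain ⟨Y, hYB, hY1, hY2⟩ := U11_geoB A hA δ hδ Z X1 n0 hX1p hAX B hBL hBv'
  have hδZ : 16 / δ ^ 2 ≤ Z := by
    have hA0 : (0 : ℝ) ≤ A := by linarith
    linarith
  have hδ2 : 16 ≤ Z * δ ^ 2 := by
    rw [div_le_iff₀ (by positivity)] at hδZ
    exact hδZ
  have hMdlY : Mdl (Q ^ 100) Y 1 E0 p0 (fun _ => 0) := by
    refine (hLv Y ?_ ?_).2
    · have h1 : (δ * Z) ^ 2 ≤ (Y : ℝ) ^ 2 := pow_le_pow_left₀ (by positivity) hY1 2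
      have h2 : (Z : ℝ) ≤ (δ * Z) ^ 2 := by
        have h3 : (δ * Z) ^ 2 = Z * (Z * δ ^ 2) := by ring
        rw [h3]
        have h4 : (Z : ℝ) * 16 ≤ Z * (Z * δ ^ 2) := mul_le_mul_of_nonneg_left hδ2 hZ0.le
        linarith
      have h3 : (Z : ℝ) ≤ (Y : ℝ) ^ 2 := h2.trans h1
      exact_mod_cast h3
    · have hAZ : (A : ℝ) ≤ Z := by linarith
      have h1 : (Y : ℝ) ≤ (Z : ℝ) ^ (A + 2) := by
        calc (Y : ℝ) ≤ A * Z := by exact_mod_cast hY2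
          _ ≤ Z * Z := mul_le_mul_of_nonneg_right hAZ hZ0.le
          _ = (Z : ℝ) ^ 2 := by ring
          _ ≤ (Z : ℝ) ^ (A + 2) := pow_le_pow_right₀ hZr (by omega)
      exact_mod_cast h1
  have hcov' := hcov Z (8 * Q ^ 10) T δ ((Q : ℝ) ^ (-c2))
    (by have := Nat.one_le_pow 10 Q (by omega); omega) hδ hδ1 hTδ (by positivity)
    (by
      push_cast
      have h1 : 8 * Cv * T / δ ≤ Q := by
        have hA0 : (0 : ℝ) ≤ A := by linarith
        linarith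
      rw [div_le_iff₀ hδ] at h1
      have h2 : (Q : ℝ) * (Q : ℝ) ^ 10 ≤ Z := by
        refine le_trans ?_ hQ12
        calc (Q : ℝ) * (Q : ℝ) ^ 10 = (Q : ℝ) ^ 11 := by ring
          _ ≤ (Q : ℝ) ^ 12 := pow_le_pow_right₀ hQ1r (by norm_num)
      calc (Cv : ℝ) * T * (8 * (Q : ℝ) ^ 10) = (8 * Cv * T) * (Q : ℝ) ^ 10 := by ring
        _ ≤ (Q * δ) * (Q : ℝ) ^ 10 := mul_le_mul_of_nonneg_right h1 (by positivity)
        _ = (Q * (Q : ℝ) ^ 10) * δ := by ring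
        _ ≤ Z * δ := mul_le_mul_of_nonneg_right h2 hδ.le)
    β' hβ'b
    (fun t => (∀ i, 0 ≤ β i + lf c t i) ∧
      X1 * (((1 + E0) ^ (k + 1) - 1) * SSf (pr Q) (sys B P (hh c β t)) + (Q : ℝ) ^ (-(c2 / 2))) <
        |wct (sys B P (hh c β t)) (n0 + X1) X1 - X1 * SSf (pr Q) (sys B P (hh c β t))|)
    (fun M b s hM hs h1 h2 h3 h4 h5 => by
      have hMr : ∀ i, (M i : ℝ) ≤ (Q : ℝ) ^ b0 * (X1 : ℝ) ^ D i := by
        intro i
        have h6 : (Z : ℝ) ^ D i ≤ ((2 / ρ) * X1) ^ D i := pow_le_pow_left₀ hZ0.le hZX _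
        have h7 : (2 / ρ) ^ D i ≤ (1 + 2 / ρ) ^ A := by
          calc (2 / ρ) ^ D i ≤ (1 + 2 / ρ) ^ D i := pow_le_pow_left₀ n1 (by linarith) _
            _ ≤ (1 + 2 / ρ) ^ A := pow_le_pow_right₀ (by linarith) (hDA i).1
        calc (M i : ℝ) ≤ Cv * (Z : ℝ) ^ D i := h2 i
          _ ≤ Cv * ((2 / ρ) * X1) ^ D i := mul_le_mul_of_nonneg_left h6 (by positivity)
          _ = (Cv * (2 / ρ) ^ D i) * (X1 : ℝ) ^ D i := by rw [mul_pow]; ring
          _ ≤ (Cv * (1 + 2 / ρ) ^ A) * (X1 : ℝ) ^ D i := by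
            apply mul_le_mul_of_nonneg_right _ (by positivity)
            exact mul_le_mul_of_nonneg_left h7 (by positivity)
          _ ≤ (Q : ℝ) ^ b0 * (X1 : ℝ) ^ D i := by
            apply mul_le_mul_of_nonneg_right _ (by positivity)
            linarith
      have hM8 : ∀ i, 8 ∣ M i := fun i => (Dvd.intro _ rfl).trans (hM i)
      have hX1Z : X1 ≤ Z := by omega
      have hZXQ : Z ≤ X1 * Q := by
        have h6 : (Z : ℝ) ≤ X1 * Q := by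
          refine hZX.trans ?_
          rw [mul_comm]
          exact mul_le_mul_of_nonneg_left (by linarith) hX1r.le
        exact_mod_cast h6
      have hGeoU : GeoU A Q Z X1 (fun i => shf n0 (P i)) M := by
        refine hgeo Q Z Z X1 n0 M hZ1 hn0 h2X1 hX1d hX1p hX1Z hZXQ (fun i => ?_) (fun i => ?_) (fun i => ?_)
          (fun i => ?_)
        · refine Dvd.dvd.trans ?_ (hM i)
          exact Nat.mul_dvd_mul_left 8 (pow_dvd_pow Q (by norm_num))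
        · rw [(hP i).1]
          have h6 : (Cg : ℝ) * X1 * (Z : ℝ) ^ D i ≤ Z * M i := by
            have h7 : (Cg : ℝ) * X1 ≤ Cg * (ρ * Z) := mul_le_mul_of_nonneg_left hX1u (by positivity)
            have h8 : (Cg : ℝ) * (ρ * Z) ≤ (δ / 2) * Z := by nlinarith
            calc (Cg : ℝ) * X1 * (Z : ℝ) ^ D i ≤ ((δ / 2) * Z) * (Z : ℝ) ^ D i :=
                  mul_le_mul_of_nonneg_right (h7.trans h8) (by positivity)
              _ = Z * (δ * (Z : ℝ) ^ D i / 2) := by ring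
              _ ≤ Z * M i := mul_le_mul_of_nonneg_left (by linarith [h1 i]) hZ0.le
          exact_mod_cast h6
        · rw [(hP i).1, mul_comm]
          exact (hMr i).trans (mul_le_mul_of_nonneg_right hQb8 (by positivity))
        · rw [(hP i).1]
          exact hD i
      have hcell := h9 (fun i => shf n0 (P i)) hHD Q Z X1 Y M (B.comp (X + C (n0 : ℤ))) b s β' (by omega)
        ⟨by
          have hlogQ : 0 ≤ Real.log Q := Real.log_nonneg hQ1r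
          have := hRg.1
          nlinarith, hRg.2⟩ hGeoU hYB
        (by
          refine hZX.trans ?_
          rw [mul_comm]
          exact mul_le_mul_of_nonneg_left (by linarith) hX1r.le)
        (fun i => by
          rw [(hHD i).1, mul_comm]
          exact (hMr i).trans (mul_le_mul_of_nonneg_right hQbτ (by positivity)))
        (fun j => (h3 j).trans (mul_le_mul_of_nonneg_right (by linarith) (by positivity)))
        (fun j => (h4 j).trans (le_mul_of_one_le_left (by positivity) (by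
          exact Real.one_le_rpow hQ1r hτ.le)))
        (fun j => (Dvd.intro_left _ rfl).trans (hs j))
        (fun i => by
          have h6 : ∀ j ∈ (univ : Finset (Fin d)), ((|c i j| * (s j : ℤ) : ℤ) : ℝ) ≤
              ((c i j).natAbs : ℝ) * (Z : ℝ) ^ D i := by
            intro j _
            push_cast
            rw [Nat.cast_natAbs, Int.cast_abs]
            by_cases hc : c i j = 0
            · rw [hc]
              simp
            · have h7 := h4 j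
              rw [hB i j hc] at h7
              exact mul_le_mul_of_nonneg_left h7 (abs_nonneg _)
          have h7 : ((∑ j, |c i j| * (s j : ℤ) : ℤ) : ℝ) ≤ ((Q : ℤ) * (M i : ℤ) : ℤ) := by
            rw [Int.cast_sum]
            refine (Finset.sum_le_sum h6).trans ?_
            rw [← Finset.sum_mul]
            have h8 : ∑ j, ((c i j).natAbs : ℝ) ≤ Cc := by
              have h9 : ∑ j, (c i j).natAbs ≤ Cc := by
                rw [hCc]
                exact Finset.single_le_sum (f := fun i => ∑ j, (c i j).natAbs) (fun _ _ => Nat.zero_le _)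
                  (mem_univ i)
              exact_mod_cast h9
            have h9 : 2 * Cc / δ ≤ Q := by linarith
            rw [div_le_iff₀ hδ] at h9
            push_cast
            calc (∑ j, ((c i j).natAbs : ℝ)) * (Z : ℝ) ^ D i ≤ Cc * (Z : ℝ) ^ D i :=
                  mul_le_mul_of_nonneg_right h8 (by positivity)
              _ = (2 * Cc) * (Z : ℝ) ^ D i / 2 := by ring
              _ ≤ (Q * δ) * (Z : ℝ) ^ D i / 2 := by
                apply div_le_div_of_nonneg_right _ (by norm_num)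
                exact mul_le_mul_of_nonneg_right h9 (by positivity)
              _ = Q * (δ * (Z : ℝ) ^ D i / 2) := by ring
              _ ≤ Q * M i := mul_le_mul_of_nonneg_left (by linarith [h1 i]) hQ0.le
          exact_mod_cast h7)
        hMdlY
        (fun i => by
          have h6 := u14_ysc (A := A) hδ (hM8 i) (hD i) (hDA i).1 hZ1 (h1 i) (h2 i) hδZ (by linarith)
          exact (hLv (Ysc (M i)) h6.1 h6.2).1)
        h5
      refine le_trans (Nat.cast_le.2 (Finset.card_le_card ?_)) hcell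
      intro t ht
      rw [mem_filter] at ht ⊢
      obtain ⟨ht1, ht2, ht3⟩ := ht
      refine ⟨ht1, ?_⟩
      have h6 : ∀ i, 0 ≤ (P i).eval (n0 : ℤ) + β i + lf c t i := by
        intro i
        have h7 := (h5 t ht1 i).1
        rw [hβ'] at h7
        have h8 : (0 : ℤ) ≤ M i := by positivity
        have h9 : (P i).eval (n0 : ℤ) + β i + lf c t i = β i + (P i).eval (n0 : ℤ) + lf c t i := by ring
        rw [h9]
        simp only at h7
        linarith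
      have h7 := U11_sys c B P n0 β t ht2 h6
      rw [← hβ'] at h7
      have h8 : RPh X1 (B.comp (X + C (n0 : ℤ))) (fun i => shf n0 (P i)) (hh c β' t) =
          wct (sys B P (hh c β t)) (n0 + X1) X1 := by
        rw [U11_wct, h7, U11_wct_add]
      have h9 : SSf (pr Q) (sys (B.comp (X + C (n0 : ℤ))) (fun i => shf n0 (P i)) (hh c β' t)) =
          SSf (pr Q) (sys B P (hh c β t)) := by
        rw [h7]
        exact U11_SS (sys B P (hh c β t)) (P2_sys B P (hh c β t)) (pr Q) (n0 : ℤ)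
      rw [h8, h9]
      refine lt_of_le_of_lt ?_ ht3
      apply mul_le_mul_of_nonneg_left _ hX1r.le
      have h10 : (Q : ℝ) ^ (-c2) ≤ (Q : ℝ) ^ (-(c2 / 2)) :=
        Real.rpow_le_rpow_of_exponent_le hQ1r (by linarith)
      linarith)
  refine le_trans (Nat.cast_le.2 (Finset.card_le_card ?_)) (hcov'.trans ?_)
  · intro t ht
    rw [mem_filter] at ht ⊢
    obtain ⟨ht1, ht2, ht3, ht4⟩ := ht
    refine ⟨?_, fun i => ?_, ht2, ht4⟩
    · unfold tb at ht1 ⊢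
      rw [Fintype.mem_piFinset] at ht1 ⊢
      intro j
      have h2 := ht1 j
      rw [mem_Ico] at h2 ⊢
      refine ⟨h2.1, h2.2.trans_le ?_⟩
      have h3 : A * Z ^ e j + 1 ≤ Ca * Z ^ e j + 1 := by
        have : A ≤ Ca := by omega
        have := Nat.mul_le_mul_right (Z ^ e j) this
        omega
      have h4 : ((A * Z ^ e j + 1 : ℕ) : ℤ) ≤ ((Ca * Z ^ e j + 1 : ℕ) : ℤ) := by exact_mod_cast h3
      linarith
    · have h3 := ht3 i
      rw [hβ']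
      have h4 : β i + (P i).eval (n0 : ℤ) + lf c t i = (P i).eval (n0 : ℤ) + β i + lf c t i := by ring
      simp only
      rw [h4]
      exact (mul_le_mul_of_nonneg_right hδδ (by positivity)).trans h3
  · have h1 : (Cv : ℝ) * (Q : ℝ) ^ (-c2) ≤ (Q : ℝ) ^ (-(c2 / 2)) := by
      calc (Cv : ℝ) * (Q : ℝ) ^ (-c2) ≤ (Q : ℝ) ^ (c2 / 2) * (Q : ℝ) ^ (-c2) := by
            apply mul_le_mul_of_nonneg_right _ (by positivity)
            linarith
        _ = (Q : ℝ) ^ (-(c2 / 2)) := by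
            rw [← Real.rpow_add hQ0]
            congr 1
            ring
    rw [mul_comm ((Z : ℝ) ^ (∑ j, e j))]
    exact mul_le_mul_of_nonneg_right h1 (by positivity)

end Pool.Agent.H9P
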