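import Pool.Agent.Lib.H9P.U0

/-!
# ASYP, chunk U15 (S/M): sum over the cells, one `t`
-/

open Finset Polynomial

namespace Pool.Agent.H9P

open Pool.Agent.Lib.H68T Pool.Agent.Lib.H18Q Pool.Agent.Lib.H59P Pool.Agent.Lib.H24P
open Pool.Agent.HUP

theorem u15_add {k : ℕ} (φ : Fin k → ℤ → ℤ) (n a b : ℕ) : cnt φ n (a + b) = cnt φ n a + cnt φ (n + a) b := by
  unfold cnt
  rw [card_filter, card_filter, card_filter, ← add_assoc]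
  exact (Finset.sum_Ico_consecutive _ (by omega) (by omega)).symm

theorem u15_cells {k : ℕ} (φ : Fin k → ℤ → ℤ) (X1 ja jb : ℕ) (hj : ja ≤ jb) :
    cnt φ ((ja + 1) * X1) ((jb - ja) * X1) = ∑ j ∈ Ico ja jb, cnt φ ((j + 1) * X1) X1 := by
  induction jb, hj using Nat.le_induction with
  | base => simp [cnt]
  | succ n hn ih =>
    have e1 : (n + 1 - ja) * X1 = (n - ja) * X1 + X1 := by
      rw [Nat.succ_sub hn, Nat.succ_mul]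
    have e2 : (ja + 1) * X1 + (n - ja) * X1 = (n + 1) * X1 := by
      rw [← Nat.add_mul]
      congr 1
      omega
    rw [e1, u15_add, ih, e2, Finset.sum_Ico_succ_top hn]

/-- **U15.** The cells `[(j+1) X1, (j+2) X1)`, `ja ≤ j < jb`. Proof. `[1, Z+1)` is the union of `[1, (ja+1) X1)`, the cells and `[(jb+1) X1, Z+1)`. For a cell
`|cnt_j Lg - X1 SS| ≤ ε1 W_j + X1 (E1 SS + θ1) ≤ X1 SS (ε1 (1 + 2 E1) + 2 E1)`; sum: `(jb - ja) X1 ≤ Z`. The rest has length at most `2 θ Z + 1 ≤ 3 θ Z`. Total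
`Z SS (ε/8 · 9/8 + ε/8 + 3 θ (Cb + 1)) ≤ ε Z SS`, divide by `Lg`. -/
theorem U15_sum {k : ℕ} (φ : Fin (k + 1) → ℤ → ℤ) (Z X1 ja jb : ℕ) (SS Lg E1 θ1 ε1 θ Cb ε : ℝ) (hSS : 0 < SS)
    (hLg : 0 < Lg) (hE1 : 0 ≤ E1) (hε1 : 0 ≤ ε1) (hε : 0 < ε) (hε' : ε ≤ 1) (h1 : 16 * E1 ≤ ε) (h2 : 8 * ε1 ≤ ε)
    (hθ : 0 < θ) (hCb : 0 ≤ Cb) (h3 : 12 * θ * (Cb + 1) ≤ ε) (h4 : 1 ≤ θ * Z) (hj : ja ≤ jb) (hX1 : 0 < X1)
    (ha : ((ja + 1) * X1 : ℕ) ≤ θ * Z) (hb : (1 - θ) * Z ≤ ((jb + 1) * X1 : ℕ)) (hb' : (jb + 1) * X1 ≤ Z)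
    (hθ1 : θ1 ≤ E1 * SS)
    (hcell : ∀ j ∈ Ico ja jb, |wct φ ((j + 1) * X1) X1 - X1 * SS| ≤ X1 * (E1 * SS + θ1))
    (hcnt : ∀ j ∈ Ico ja jb, |(cnt φ ((j + 1) * X1) X1 : ℝ) * Lg - wct φ ((j + 1) * X1) X1| ≤ ε1 * wct φ ((j + 1) * X1) X1)
    (hl : (cnt φ 1 ((ja + 1) * X1 - 1) : ℝ) * Lg ≤ Cb * ((ja + 1) * X1 : ℕ) * SS)
    (hr : (cnt φ ((jb + 1) * X1) (Z + 1 - (jb + 1) * X1) : ℝ) * Lg ≤ Cb * (Z + 1 - (jb + 1) * X1 : ℕ) * SS) :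
    |(cnt φ 1 Z : ℝ) - Z * (SS / Lg)| ≤ ε * (Z * (SS / Lg)) := by
  have hE : E1 ≤ 1 / 16 := by linarith
  have hX0 : (0 : ℝ) < X1 := by exact_mod_cast hX1
  -- the cells
  have hc : ∀ j ∈ Ico ja jb, |(cnt φ ((j + 1) * X1) X1 : ℝ) * Lg - X1 * SS| ≤ X1 * SS * (17 / 64 * ε) := by
    intro j hjm
    have a1 := hcell j hjm
    have a2 := hcnt j hjm
    have a3 : X1 * (E1 * SS + θ1) ≤ X1 * SS * (2 * E1) := by
      calc (X1 : ℝ) * (E1 * SS + θ1) ≤ X1 * (E1 * SS + E1 * SS) :=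
            mul_le_mul_of_nonneg_left (by linarith) hX0.le
        _ = X1 * SS * (2 * E1) := by ring
    have a4 : wct φ ((j + 1) * X1) X1 ≤ X1 * SS * (1 + 2 * E1) := by
      have := (abs_le.1 (a1.trans a3)).2
      linarith
    have a5 : ε1 * wct φ ((j + 1) * X1) X1 ≤ ε1 * (X1 * SS * (1 + 2 * E1)) := mul_le_mul_of_nonneg_left a4 hε1
    have a6 : |(cnt φ ((j + 1) * X1) X1 : ℝ) * Lg - X1 * SS| ≤
        |(cnt φ ((j + 1) * X1) X1 : ℝ) * Lg - wct φ ((j + 1) * X1) X1| + |wct φ ((j + 1) * X1) X1 - X1 * SS| := by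
      have := abs_add_le ((cnt φ ((j + 1) * X1) X1 : ℝ) * Lg - wct φ ((j + 1) * X1) X1)
        (wct φ ((j + 1) * X1) X1 - X1 * SS)
      rw [sub_add_sub_cancel] at this
      exact this
    have a7 : ε1 * (1 + 2 * E1) + 2 * E1 ≤ 17 / 64 * ε := by nlinarith
    calc |(cnt φ ((j + 1) * X1) X1 : ℝ) * Lg - X1 * SS| ≤ ε1 * (X1 * SS * (1 + 2 * E1)) + X1 * SS * (2 * E1) := by
          linarith
      _ = X1 * SS * (ε1 * (1 + 2 * E1) + 2 * E1) := by ring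
      _ ≤ X1 * SS * (17 / 64 * ε) := mul_le_mul_of_nonneg_left a7 (by positivity)
  obtain ⟨sm, hsm⟩ : ∃ sm : ℝ, sm = ∑ j ∈ Ico ja jb, (cnt φ ((j + 1) * X1) X1 : ℝ) := ⟨_, rfl⟩
  have hsum : |sm * Lg - ((jb : ℝ) - ja) * X1 * SS| ≤ ((jb : ℝ) - ja) * X1 * SS * (17 / 64 * ε) := by
    have b1 : sm * Lg - ((jb : ℝ) - ja) * X1 * SS =
        ∑ j ∈ Ico ja jb, ((cnt φ ((j + 1) * X1) X1 : ℝ) * Lg - X1 * SS) := by
      rw [sum_sub_distrib, ← sum_mul, ← hsm, sum_const, Nat.card_Ico, nsmul_eq_mul, Nat.cast_sub hj]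
      ring
    rw [b1]
    refine (abs_sum_le_sum_abs _ _).trans ((sum_le_sum hc).trans (le_of_eq ?_))
    rw [sum_const, Nat.card_Ico, nsmul_eq_mul, Nat.cast_sub hj]
    ring
  -- the partition
  have hp1 : 0 < (ja + 1) * X1 := Nat.mul_pos (Nat.succ_pos _) hX1
  have hp2 : (ja + 1) * X1 + (jb - ja) * X1 = (jb + 1) * X1 := by
    rw [← Nat.add_mul]
    congr 1
    omega
  have hpart : (cnt φ 1 Z : ℝ) = (cnt φ 1 ((ja + 1) * X1 - 1) : ℝ) + sm +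
      (cnt φ ((jb + 1) * X1) (Z + 1 - (jb + 1) * X1) : ℝ) := by
    have e0 : Z = ((ja + 1) * X1 - 1) + ((jb - ja) * X1 + (Z + 1 - (jb + 1) * X1)) := by omega
    have e1 : cnt φ 1 Z = cnt φ 1 ((ja + 1) * X1 - 1) + (∑ j ∈ Ico ja jb, cnt φ ((j + 1) * X1) X1 +
        cnt φ ((jb + 1) * X1) (Z + 1 - (jb + 1) * X1)) := by
      have e2 : cnt φ 1 Z = cnt φ 1 (((ja + 1) * X1 - 1) + ((jb - ja) * X1 + (Z + 1 - (jb + 1) * X1))) := by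
        rw [← e0]
      have e3 : 1 + ((ja + 1) * X1 - 1) = (ja + 1) * X1 := by omega
      rw [e2, u15_add, e3, u15_add, hp2, u15_cells φ X1 ja jb hj]
    rw [e1, hsm]
    push_cast
    ring
  have hjr : (ja : ℝ) ≤ jb := by exact_mod_cast hj
  have hz1 : (((jb + 1) * X1 : ℕ) : ℝ) ≤ Z := by exact_mod_cast hb'
  have hd1 : ((jb : ℝ) - ja) * X1 = (((jb + 1) * X1 : ℕ) : ℝ) - (((ja + 1) * X1 : ℕ) : ℝ) := by
    push_cast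
    ring
  have hpa : (0 : ℝ) ≤ (((ja + 1) * X1 : ℕ) : ℝ) := Nat.cast_nonneg _
  have hd2 : ((jb : ℝ) - ja) * X1 ≤ Z := by rw [hd1]; linarith
  have hd0 : 0 ≤ ((jb : ℝ) - ja) * X1 := mul_nonneg (by linarith) hX0.le
  have hd3 : (Z : ℝ) - ((jb : ℝ) - ja) * X1 ≤ 2 * (θ * Z) := by rw [hd1]; linarith
  have hr2 : ((Z + 1 - (jb + 1) * X1 : ℕ) : ℝ) ≤ 2 * (θ * Z) := by
    rw [Nat.cast_sub (by omega)]
    push_cast
    push_cast at hb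
    linarith
  have hZp : (0 : ℝ) < Z := by
    by_contra hneg
    push Not at hneg
    have : θ * (Z : ℝ) ≤ 0 := mul_nonpos_of_nonneg_of_nonpos hθ.le hneg
    linarith
  have hCS : 0 ≤ Cb * SS := mul_nonneg hCb hSS.le
  have hl' : (cnt φ 1 ((ja + 1) * X1 - 1) : ℝ) * Lg ≤ (θ * Z) * (Cb * SS) := by
    refine hl.trans ?_
    calc Cb * ((ja + 1) * X1 : ℕ) * SS = (((ja + 1) * X1 : ℕ) : ℝ) * (Cb * SS) := by ring
      _ ≤ (θ * Z) * (Cb * SS) := mul_le_mul_of_nonneg_right ha hCS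
  have hr' : (cnt φ ((jb + 1) * X1) (Z + 1 - (jb + 1) * X1) : ℝ) * Lg ≤ (2 * (θ * Z)) * (Cb * SS) := by
    refine hr.trans ?_
    calc Cb * (Z + 1 - (jb + 1) * X1 : ℕ) * SS = ((Z + 1 - (jb + 1) * X1 : ℕ) : ℝ) * (Cb * SS) := by ring
      _ ≤ (2 * (θ * Z)) * (Cb * SS) := mul_le_mul_of_nonneg_right hr2 hCS
  have hl0 : 0 ≤ (cnt φ 1 ((ja + 1) * X1 - 1) : ℝ) * Lg := mul_nonneg (Nat.cast_nonneg _) hLg.le
  have hr0 : 0 ≤ (cnt φ ((jb + 1) * X1) (Z + 1 - (jb + 1) * X1) : ℝ) * Lg := mul_nonneg (Nat.cast_nonneg _) hLg.le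
  have hmain : |(cnt φ 1 Z : ℝ) * Lg - Z * SS| ≤ ε * (Z * SS) := by
    obtain ⟨s1, s2⟩ := abs_le.1 hsum
    have g1 : ((jb : ℝ) - ja) * X1 * SS * (17 / 64 * ε) ≤ Z * SS * (17 / 64 * ε) :=
      mul_le_mul_of_nonneg_right (mul_le_mul_of_nonneg_right hd2 hSS.le) (by positivity)
    have g2 : (Z : ℝ) * SS - ((jb : ℝ) - ja) * X1 * SS ≤ 2 * (θ * Z) * SS := by
      calc (Z : ℝ) * SS - ((jb : ℝ) - ja) * X1 * SS = ((Z : ℝ) - ((jb : ℝ) - ja) * X1) * SS := by ring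
        _ ≤ 2 * (θ * Z) * SS := mul_le_mul_of_nonneg_right hd3 hSS.le
    have g3 : 0 ≤ (Z : ℝ) * SS - ((jb : ℝ) - ja) * X1 * SS := by
      have : ((jb : ℝ) - ja) * X1 * SS ≤ Z * SS := mul_le_mul_of_nonneg_right hd2 hSS.le
      linarith
    have g4 : (12 * θ * (Cb + 1)) * (Z * SS) ≤ ε * (Z * SS) := mul_le_mul_of_nonneg_right h3 (by positivity)
    have g5 : 0 ≤ θ * Z * SS := by positivity
    have g6 : 0 ≤ ε * (Z * SS) := by positivity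
    have g7 : 0 ≤ θ * Z * (Cb * SS) := by positivity
    obtain ⟨cl, hcl⟩ : ∃ cl : ℝ, cl = (cnt φ 1 ((ja + 1) * X1 - 1) : ℝ) * Lg := ⟨_, rfl⟩
    obtain ⟨cr, hcr⟩ : ∃ cr : ℝ, cr = (cnt φ ((jb + 1) * X1) (Z + 1 - (jb + 1) * X1) : ℝ) * Lg := ⟨_, rfl⟩
    have g8 : (cnt φ 1 Z : ℝ) * Lg = cl + sm * Lg + cr := by rw [hpart, hcl, hcr]; ring
    rw [← hcl] at hl' hl0
    rw [← hcr] at hr' hr0
    rw [g8, abs_le]
    constructor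
    · linarith
    · linarith
  have hfin : (cnt φ 1 Z : ℝ) - Z * (SS / Lg) = ((cnt φ 1 Z : ℝ) * Lg - Z * SS) / Lg := by
    field_simp
  have hfin2 : ε * (Z * (SS / Lg)) = ε * (Z * SS) / Lg := by ring
  rw [hfin, hfin2, abs_div, abs_of_pos hLg]
  exact div_le_div_of_nonneg_right hmain hLg.le

end Pool.Agent.H9P
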