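import Pool.Agent.Lib.H9P.U8
import Pool.Agent.Lib.H9P.U10
import Pool.Agent.Lib.H9P.U12
import Pool.Agent.Lib.H9P.U13
import Pool.Agent.Lib.H9P.U14
import Pool.Agent.Lib.H9P.U15
import Pool.Agent.Lib.H24P.X2

/-!
# ASYP, chunk U16 (M/L): the core theorem
-/

open Finset Polynomial

namespace Pool.Agent.H9P

open Pool.Agent.Lib.H68T Pool.Agent.Lib.H18Q Pool.Agent.Lib.H59P Pool.Agent.Lib.H24P
open Pool.Agent.HUP

theorem u16_val1 (P : ℤ[X]) (hl : 0 < P.leadingCoeff) : ∃ (C : ℝ) (n0 : ℕ), 1 ≤ C ∧ ∀ n : ℕ, n0 ≤ n →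
    (n : ℝ) ^ P.natDegree ≤ 2 * ((P.eval (n : ℤ) : ℤ) : ℝ) ∧
      ((P.eval (n : ℤ) : ℤ) : ℝ) ≤ C * (n : ℝ) ^ P.natDegree := by
  have hinj : Function.Injective (Int.castRingHom ℝ) := Int.cast_injective
  obtain ⟨q, hq⟩ : ∃ q : ℝ[X], q = P.map (Int.castRingHom ℝ) := ⟨_, rfl⟩
  have hP0 : P ≠ 0 := by
    rintro rfl
    simp at hl
  have hqd : q.natDegree = P.natDegree := by rw [hq, natDegree_map_eq_of_injective hinj]
  have hql : q.leadingCoeff = (P.leadingCoeff : ℝ) := by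
    rw [hq, leadingCoeff_map_of_injective hinj]
    rfl
  have hq0 : q ≠ 0 := by
    intro h
    rw [h, leadingCoeff_zero] at hql
    have : P.leadingCoeff = 0 := by exact_mod_cast hql.symm
    omega
  have hdeg : q.degree = (X ^ P.natDegree : ℝ[X]).degree := by
    rw [degree_X_pow, degree_eq_natDegree hq0, hqd]
  have h1 := Polynomial.div_tendsto_atTop_leadingCoeff_div_of_degree_eq q (X ^ P.natDegree : ℝ[X]) hdeg
  rw [leadingCoeff_X_pow, div_one, hql] at h1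
  have hl1 : (1 : ℝ) ≤ (P.leadingCoeff : ℝ) := by exact_mod_cast hl
  have h2 := h1.comp (tendsto_natCast_atTop_atTop (R := ℝ))
  have h3 := h2.eventually (lt_mem_nhds (show (1 / 2 : ℝ) < (P.leadingCoeff : ℝ) by linarith))
  have h4 := h2.eventually (gt_mem_nhds (show (P.leadingCoeff : ℝ) < (P.leadingCoeff : ℝ) + 1 by linarith))
  obtain ⟨N, hN⟩ := Filter.eventually_atTop.1 (h3.and h4)
  refine ⟨(P.leadingCoeff : ℝ) + 1, N + 1, by linarith, fun n hn => ?_⟩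
  have h5 := hN n (by omega)
  have hn1 : (1 : ℝ) ≤ n := by exact_mod_cast (by omega : 1 ≤ n)
  have hnp : (0 : ℝ) < (n : ℝ) ^ P.natDegree := by positivity
  have hev : q.eval (n : ℝ) = ((P.eval (n : ℤ) : ℤ) : ℝ) := by
    rw [hq]
    have := Polynomial.eval_intCast_map (Int.castRingHom ℝ) P (n : ℤ)
    rw [Int.cast_natCast] at this
    rw [this]
    rfl
  simp only [Function.comp_apply, eval_pow, eval_X, hev] at h5
  obtain ⟨h6, h7⟩ := h5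
  rw [lt_div_iff₀ hnp] at h6
  rw [div_lt_iff₀ hnp] at h7
  exact ⟨by linarith, h7.le⟩

/-- Values of the polynomials. Proof. `a_i ≥ 1`: `P_i(n) ≥ n^(D_i)/2` for large `n`, `|P_i(n)| ≤ C n^(D_i)` for `n ≥ 1`. -/
theorem U16_val {k : ℕ} (D : Fin k → ℕ) (a : Fin k → ℤ) (P : Fin k → ℤ[X]) (hP : HasD D a P) (hD : ∀ i, 1 ≤ D i)
    (ha : ∀ i, 0 < a i) : ∃ (C : ℝ) (n0 : ℕ), 1 ≤ C ∧ ∀ n : ℕ, n0 ≤ n → ∀ i,
    (n : ℝ) ^ D i ≤ 2 * (((P i).eval (n : ℤ) : ℤ) : ℝ) ∧ (((P i).eval (n : ℤ) : ℤ) : ℝ) ≤ C * (n : ℝ) ^ D i := by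
  have h : ∀ i, ∃ (C : ℝ) (n0 : ℕ), 1 ≤ C ∧ ∀ n : ℕ, n0 ≤ n →
      (n : ℝ) ^ D i ≤ 2 * (((P i).eval (n : ℤ) : ℤ) : ℝ) ∧ (((P i).eval (n : ℤ) : ℤ) : ℝ) ≤ C * (n : ℝ) ^ D i := by
    intro i
    have := u16_val1 (P i) (by rw [(hP i).2]; exact ha i)
    rw [(hP i).1] at this
    exact this
  choose C n0 hC hn using h
  refine ⟨1 + ∑ i, C i, ∑ i, n0 i, ?_, ?_⟩
  · have : 0 ≤ ∑ i, C i := sum_nonneg fun i _ => by linarith [hC i]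
    linarith
  · intro n hn' i
    have h1 : n0 i ≤ n := (single_le_sum (f := n0) (fun _ _ => Nat.zero_le _) (mem_univ i)).trans hn'
    have h2 : C i ≤ 1 + ∑ i, C i := by
      have := single_le_sum (f := C) (fun j _ => by linarith [hC j]) (mem_univ i)
      linarith
    obtain ⟨h3, h4⟩ := hn i n h1
    exact ⟨h3, h4.trans (mul_le_mul_of_nonneg_right h2 (by positivity))⟩

theorem u16_ev (B : ℤ[X]) (hB : B.natDegree = 1) (x : ℤ) : B.eval x = B.coeff 0 + B.leadingCoeff * x := by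
  rw [eval_eq_sum_range, hB, Finset.sum_range_succ, Finset.sum_range_one, leadingCoeff, hB]
  ring

theorem u16_dec (A Z : ℕ) (B : ℤ[X]) (h : Dec A Z B) (n : ℤ) (hn : n ≤ Z) :
    (Z : ℤ) - n ≤ B.eval n ∧ B.eval n ≤ A * (Z + 1 - n) := by
  have h1 := h.pos
  have h2 := h.last
  have h3 := h.neg
  have h4 := h.lc
  rw [u16_ev B h.deg] at h1 h2 ⊢
  have h5 : -B.leadingCoeff ≤ A := by omega
  obtain ⟨l, hl⟩ : ∃ l, l = B.leadingCoeff := ⟨_, rfl⟩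
  rw [← hl] at h1 h2 h3 h5 ⊢
  constructor
  · have h6 := mul_nonneg (sub_nonneg.2 hn) (by omega : 0 ≤ -l - 1)
    linarith [mul_sub (Z - n : ℤ) (-l) 1, mul_comm (Z - n : ℤ) (-l), sub_mul (Z : ℤ) n (-l)]
  · have h6 := mul_le_mul_of_nonneg_right h5 (by omega : (0 : ℤ) ≤ Z + 1 - n)
    linarith [mul_sub (-l) ((Z : ℤ) + 1) n, neg_mul l ((Z : ℤ) + 1), neg_mul l n]

theorem u16_cop {k : ℕ} (B : ℤ[X]) (hB : B.natDegree = 1) (P : Fin k → ℤ[X]) (h : Fin k → ℕ)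
    (hN : NoFix (sys B P h)) : IsCoprime (B.coeff 0) (B.coeff 1) := by
  rw [Int.isCoprime_iff_gcd_eq_one]
  by_contra hg
  obtain ⟨l, hl, hd⟩ := Nat.exists_prime_and_dvd hg
  obtain ⟨n, hn⟩ := hN l hl
  have h0 := hn 0
  apply h0
  show (l : ℤ) ∣ B.eval n
  rw [u16_ev B hB, leadingCoeff, hB]
  have h1 : (l : ℤ) ∣ B.coeff 0 := (Int.natCast_dvd_natCast.2 hd).trans (Int.gcd_dvd_left _ _)
  have h2 : (l : ℤ) ∣ B.coeff 1 := (Int.natCast_dvd_natCast.2 hd).trans (Int.gcd_dvd_right _ _)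
  exact dvd_add h1 (h2.mul_right _)

theorem u16_cells (Z Q : ℕ) (ρ θ : ℝ) (hQ : 1 ≤ Q) (hρ : 0 < ρ) (hρθ : 8 * ρ ≤ θ) (hθ : 2 * θ ≤ 1)
    (h : (Q : ℝ) ^ 800 ≤ ρ * Z) :
    ∃ X1 ja jb : ℕ, Q ^ 800 ∣ X1 ∧ 0 < X1 ∧ ρ * Z ≤ 2 * X1 ∧ X1 ≤ ρ * Z ∧ ja ≤ jb ∧
      (((ja + 1) * X1 : ℕ) : ℝ) ≤ θ * Z ∧ θ / 4 * Z ≤ ja * X1 ∧ (1 - θ) * Z ≤ (((jb + 1) * X1 : ℕ) : ℝ) ∧
      (((jb + 1) * X1 : ℕ) : ℝ) ≤ (1 - θ / 2) * Z ∧ (jb : ℝ) ≤ 2 / ρ := by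
  have hQr : (0 : ℝ) < (Q : ℝ) ^ 800 := by
    have : (0 : ℝ) < Q := by exact_mod_cast hQ
    positivity
  have hZ : (0 : ℝ) < Z := by
    by_contra h0
    have : (Z : ℝ) ≤ 0 := by linarith
    nlinarith
  obtain ⟨m, hm⟩ : ∃ m : ℕ, m = ⌊ρ * Z / (Q : ℝ) ^ 800⌋₊ := ⟨_, rfl⟩
  have h1 : 1 ≤ ρ * Z / (Q : ℝ) ^ 800 := by rwa [le_div_iff₀ hQr, one_mul]
  have hm1 : 1 ≤ m := by
    rw [hm]
    exact Nat.one_le_floor_iff _ |>.2 h1
  have hm2 : (m : ℝ) ≤ ρ * Z / (Q : ℝ) ^ 800 := by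
    rw [hm]
    exact Nat.floor_le (by positivity)
  have hm3 : ρ * Z / (Q : ℝ) ^ 800 < m + 1 := by
    rw [hm]
    exact Nat.lt_floor_add_one _
  rw [le_div_iff₀ hQr] at hm2
  rw [div_lt_iff₀ hQr] at hm3
  have hm1r : (1 : ℝ) ≤ m := by exact_mod_cast hm1
  obtain ⟨X1, hX1⟩ : ∃ X1 : ℕ, X1 = Q ^ 800 * m := ⟨_, rfl⟩
  have hX1r : (X1 : ℝ) = (Q : ℝ) ^ 800 * m := by rw [hX1]; push_cast; ring
  have hX1p : 0 < X1 := by
    rw [hX1]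
    exact Nat.mul_pos (pow_pos (by omega) _) (by omega)
  have hX1p' : (0 : ℝ) < X1 := by exact_mod_cast hX1p
  have ha1 : ρ * Z ≤ 2 * X1 := by rw [hX1r]; nlinarith
  have ha2 : (X1 : ℝ) ≤ ρ * Z := by rw [hX1r]; linarith
  obtain ⟨ja, hja⟩ : ∃ ja : ℕ, ja = ⌈θ / 4 * Z / X1⌉₊ := ⟨_, rfl⟩
  obtain ⟨m2, hm2'⟩ : ∃ m2 : ℕ, m2 = ⌊(1 - θ / 2) * Z / X1⌋₊ := ⟨_, rfl⟩
  have hθ0 : 0 < θ := by linarith
  have hρZ : 8 * ρ * Z ≤ θ * Z := mul_le_mul_of_nonneg_right hρθ hZ.le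
  have hθZ : 2 * θ * Z ≤ 1 * Z := mul_le_mul_of_nonneg_right hθ hZ.le
  have hja1 : θ / 4 * Z ≤ ja * X1 := by
    have : θ / 4 * Z / X1 ≤ ja := by rw [hja]; exact Nat.le_ceil _
    rwa [div_le_iff₀ hX1p'] at this
  have hja2 : (ja : ℝ) * X1 ≤ θ / 4 * Z + X1 := by
    have : (ja : ℝ) < θ / 4 * Z / X1 + 1 := by rw [hja]; exact Nat.ceil_lt_add_one (by positivity)
    have h2 : (ja : ℝ) * X1 ≤ (θ / 4 * Z / X1 + 1) * X1 := mul_le_mul_of_nonneg_right this.le hX1p'.le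
    have h3 : (θ / 4 * Z / X1 + 1) * X1 = θ / 4 * Z + X1 := by field_simp
    linarith
  have hb0 : (0 : ℝ) ≤ (1 - θ / 2) * Z / X1 := by
    have : 0 ≤ 1 - θ / 2 := by linarith
    positivity
  have hb1 : (m2 : ℝ) * X1 ≤ (1 - θ / 2) * Z := by
    have : (m2 : ℝ) ≤ (1 - θ / 2) * Z / X1 := by rw [hm2']; exact Nat.floor_le hb0
    rwa [le_div_iff₀ hX1p'] at this
  have hb2 : (1 - θ / 2) * Z - X1 ≤ (m2 : ℝ) * X1 := by
    have : (1 - θ / 2) * Z / X1 < m2 + 1 := by rw [hm2']; exact Nat.lt_floor_add_one _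
    rw [div_lt_iff₀ hX1p'] at this
    linarith
  have hab : ja + 1 ≤ m2 := by
    by_contra hc
    have h2 : (m2 : ℝ) + 1 ≤ ja + 1 := by exact_mod_cast (by omega : m2 + 1 ≤ ja + 1)
    have h3 : ((m2 : ℝ) + 1) * X1 ≤ (ja + 1) * X1 := mul_le_mul_of_nonneg_right h2 hX1p'.le
    nlinarith
  have hm2e : ((m2 - 1 : ℕ) + 1) = m2 := by omega
  refine ⟨X1, ja, m2 - 1, ⟨m, hX1⟩, hX1p, ha1, ha2, by omega, ?_, hja1, ?_, ?_, ?_⟩
  · push_cast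
    nlinarith
  · rw [hm2e]
    push_cast
    nlinarith
  · rw [hm2e]
    push_cast
    exact hb1
  · have h2 : ((m2 - 1 : ℕ) : ℝ) ≤ m2 := by exact_mod_cast Nat.sub_le _ _
    refine h2.trans ?_
    rw [le_div_iff₀ hρ]
    have h3 : (m2 : ℝ) * X1 ≤ Z := by nlinarith
    have h4 : (m2 : ℝ) * (ρ * Z) ≤ m2 * (2 * X1) := mul_le_mul_of_nonneg_left ha1 (by positivity)
    have h5 : (m2 : ℝ) * ρ * Z ≤ 2 * Z := by nlinarith
    exact le_of_mul_le_mul_right h5 hZ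

theorem u16_lf {k d : ℕ} (c : Fin k → Fin d → ℤ) (e : Fin d → ℕ) (D : Fin k → ℕ) (hB : ∀ i j, c i j ≠ 0 → e j = D i)
    (A Z : ℕ) (t : Fin d → ℤ) (ht : t ∈ tb 0 fun j => A * Z ^ e j + 1) (i : Fin k) :
    lf c t i ≤ A * (∑ i, ∑ j, |c i j|) * (Z : ℤ) ^ D i := by
  have ht' : ∀ j, 0 ≤ t j ∧ t j ≤ A * (Z : ℤ) ^ e j := by
    intro j
    unfold tb at ht
    rw [Fintype.mem_piFinset] at ht
    have h := mem_Ico.1 (ht j)
    simp only [Pi.zero_apply] at h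
    push_cast at h
    exact ⟨h.1, by omega⟩
  have h1 : lf c t i ≤ ∑ j, |c i j| * (A * (Z : ℤ) ^ D i) := by
    unfold lf
    refine sum_le_sum fun j _ => ?_
    by_cases h0 : c i j = 0
    · rw [h0, zero_mul, abs_zero, zero_mul]
    · rw [← hB i j h0]
      exact mul_le_mul (le_abs_self _) (ht' j).2 (ht' j).1 (abs_nonneg _)
  refine h1.trans ?_
  rw [← sum_mul]
  have h2 : ∑ j, |c i j| ≤ ∑ i, ∑ j, |c i j| :=
    single_le_sum (f := fun i => ∑ j, |c i j|) (fun i _ => sum_nonneg fun j _ => abs_nonneg _) (mem_univ i)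
  have h3 : (0 : ℤ) ≤ A * (Z : ℤ) ^ D i := by positivity
  calc (∑ j, |c i j|) * (A * (Z : ℤ) ^ D i) ≤ (∑ i, ∑ j, |c i j|) * (A * (Z : ℤ) ^ D i) :=
        mul_le_mul_of_nonneg_right h2 h3
    _ = A * (∑ i, ∑ j, |c i j|) * (Z : ℤ) ^ D i := by ring

theorem u16_log (c C c2 ε : ℝ) (hc : 0 < c) (hC : 0 ≤ C) (hc2 : 0 < c2) (hε : 0 < ε) : ∃ Q0 : ℕ, ∀ Q : ℕ, Q0 ≤ Q →
    (Q : ℝ) ^ (-c2) ≤ ε * (c * (1 + Real.log Q) ^ (-C)) := by
  obtain ⟨s, hs⟩ : ∃ s : ℝ, s = c2 / (2 * (C + 1)) := ⟨_, rfl⟩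
  have hs0 : 0 < s := by rw [hs]; positivity
  obtain ⟨G, hG⟩ : ∃ G : ℝ, G = ε * c * (1 + 1 / s) ^ (-C) := ⟨_, rfl⟩
  have hG0 : 0 < G := by rw [hG]; positivity
  have h1 := (tendsto_rpow_atTop (show 0 < c2 / 2 by linarith)).comp (tendsto_natCast_atTop_atTop (R := ℝ))
  obtain ⟨N, hN⟩ := Filter.eventually_atTop.1 (h1.eventually_ge_atTop (1 / G))
  refine ⟨N + 1, fun Q hQ => ?_⟩
  have h2 := hN Q (by omega)
  simp only [Function.comp_apply] at h2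
  have hQ1 : (1 : ℝ) ≤ Q := by exact_mod_cast (by omega : 1 ≤ Q)
  have hQ0 : (0 : ℝ) < Q := by linarith
  have hl0 : 0 ≤ Real.log Q := Real.log_nonneg hQ1
  have h3 : Real.log Q ≤ (Q : ℝ) ^ s / s := Real.log_le_rpow_div hQ0.le hs0
  have hQs : (1 : ℝ) ≤ (Q : ℝ) ^ s := Real.one_le_rpow hQ1 hs0.le
  have h4 : 1 + Real.log Q ≤ (1 + 1 / s) * (Q : ℝ) ^ s := by
    have : (1 + 1 / s) * (Q : ℝ) ^ s = (Q : ℝ) ^ s + (Q : ℝ) ^ s / s := by ring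
    rw [this]
    linarith
  have h5 : ((1 + 1 / s) * (Q : ℝ) ^ s) ^ (-C) ≤ (1 + Real.log Q) ^ (-C) :=
    Real.rpow_le_rpow_of_nonpos (by linarith) h4 (by linarith)
  have h6 : ((1 + 1 / s) * (Q : ℝ) ^ s) ^ (-C) = (1 + 1 / s) ^ (-C) * (Q : ℝ) ^ (-(s * C)) := by
    rw [Real.mul_rpow (by positivity) (by positivity), ← Real.rpow_mul hQ0.le]
    congr 2
    ring
  have h7 : (Q : ℝ) ^ (-(c2 / 2)) ≤ (Q : ℝ) ^ (-(s * C)) := by
    refine Real.rpow_le_rpow_of_exponent_le hQ1 ?_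
    have : s * C ≤ c2 / 2 := by
      rw [hs, div_mul_eq_mul_div, div_le_div_iff₀ (by positivity) (by positivity)]
      nlinarith
    linarith
  have h8 : (Q : ℝ) ^ (-c2) ≤ G * (Q : ℝ) ^ (-(c2 / 2)) := by
    have e1 : (Q : ℝ) ^ (-(c2 / 2)) = (Q : ℝ) ^ (-c2) * (Q : ℝ) ^ (c2 / 2) := by
      rw [← Real.rpow_add hQ0]
      congr 1
      ring
    rw [e1]
    have h9 : 1 ≤ G * (Q : ℝ) ^ (c2 / 2) := by
      rw [div_le_iff₀ hG0] at h2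
      linarith
    have h10 : (0 : ℝ) ≤ (Q : ℝ) ^ (-c2) := by positivity
    nlinarith
  calc (Q : ℝ) ^ (-c2) ≤ G * (Q : ℝ) ^ (-(c2 / 2)) := h8
    _ ≤ G * (Q : ℝ) ^ (-(s * C)) := mul_le_mul_of_nonneg_left h7 hG0.le
    _ = ε * (c * ((1 + 1 / s) ^ (-C) * (Q : ℝ) ^ (-(s * C)))) := by rw [hG]; ring
    _ = ε * (c * ((1 + 1 / s) * (Q : ℝ) ^ s) ^ (-C)) := by rw [h6]
    _ ≤ ε * (c * (1 + Real.log Q) ^ (-C)) := by gcongr

theorem u16_E0 (k : ℕ) (ε : ℝ) (hε : 0 < ε) : ∃ E0 : ℝ, 0 < E0 ∧ E0 ≤ 1 ∧ (1 + E0) ^ (k + 1) - 1 ≤ ε := by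
  have hc : Continuous fun x : ℝ => (1 + x) ^ (k + 1) := by fun_prop
  have h1 := (hc.tendsto 0).eventually (gt_mem_nhds (show (1 + (0 : ℝ)) ^ (k + 1) < 1 + ε by
    rw [add_zero, one_pow]; linarith))
  obtain ⟨r, hr, h2⟩ := Metric.eventually_nhds_iff.1 h1
  refine ⟨min (r / 2) 1, lt_min (by linarith) one_pos, min_le_right _ _, ?_⟩
  have h3 := h2 (y := min (r / 2) 1) (by
    rw [Real.dist_eq, sub_zero, abs_of_pos (lt_min (by linarith) one_pos)]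
    exact (min_le_left _ _).trans_lt (by linarith))
  linarith

theorem u16_fin (x U SS Sz ε e : ℝ) (hU : 0 ≤ U) (hSS : 0 < SS) (he0 : 0 < e) (he : e ≤ 1) (heε : e ≤ ε)
    (h1 : |Sz - SS| ≤ e / 64 * SS) (h2 : |x - U * SS| ≤ e / 2 * (U * SS)) :
    |x - U * Sz| ≤ ε * (U * Sz) := by
  have h3 := abs_le.1 h1
  have h4 : SS ≤ 64 / 63 * Sz := by nlinarith
  have hSz : 0 < Sz := by linarith
  have h5 : |x - U * Sz| ≤ |x - U * SS| + U * |Sz - SS| := by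
    have e1 : x - U * Sz = (x - U * SS) - U * (Sz - SS) := by ring
    rw [e1]
    refine (abs_sub _ _).trans ?_
    rw [abs_mul, abs_of_nonneg hU]
  have h6 : U * |Sz - SS| ≤ U * (e / 64 * SS) := mul_le_mul_of_nonneg_left h1 hU
  have h7 : U * SS ≤ 64 / 63 * (U * Sz) := by nlinarith [mul_le_mul_of_nonneg_left h4 hU]
  have h8 : 0 ≤ U * Sz := mul_nonneg hU hSz.le
  calc |x - U * Sz| ≤ e / 2 * (U * SS) + U * (e / 64 * SS) := by linarith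
    _ = (33 / 64 * e) * (U * SS) := by ring
    _ ≤ (33 / 64 * e) * (64 / 63 * (U * Sz)) := mul_le_mul_of_nonneg_left h7 (by linarith)
    _ ≤ e * (U * Sz) := by nlinarith
    _ ≤ ε * (U * Sz) := mul_le_mul_of_nonneg_right heε h8

theorem u16_union {α : Type} (T : Finset α) (p r : α → Prop) (q : ℕ → α → Prop) [DecidablePred p] [DecidablePred r]
    [∀ j, DecidablePred (q j)] (a b : ℕ) (h : ∀ t ∈ T, p t → r t ∨ ∃ j ∈ Ico a b, q j t) (u v : ℝ)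
    (hq : ∀ j ∈ Ico a b, ((T.filter (q j)).card : ℝ) ≤ u) (hr : ((T.filter r).card : ℝ) ≤ v) :
    ((T.filter p).card : ℝ) ≤ ((b - a : ℕ) : ℝ) * u + v := by
  classical
  have h1 : T.filter p ⊆ T.filter r ∪ (Ico a b).biUnion fun j => T.filter (q j) := by
    intro t ht
    rw [mem_filter] at ht
    rw [mem_union, mem_filter, mem_biUnion]
    rcases h t ht.1 ht.2 with h2 | ⟨j, hj, h2⟩
    · exact Or.inl ⟨ht.1, h2⟩
    · exact Or.inr ⟨j, hj, mem_filter.2 ⟨ht.1, h2⟩⟩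
  have h2 : ((T.filter p).card : ℝ) ≤ (T.filter r).card + ∑ j ∈ Ico a b, ((T.filter (q j)).card : ℝ) := by
    have h3 := (card_le_card h1).trans ((card_union_le _ _).trans (Nat.add_le_add_left card_biUnion_le _))
    exact_mod_cast h3
  have h3 : ∑ j ∈ Ico a b, ((T.filter (q j)).card : ℝ) ≤ ((b - a : ℕ) : ℝ) * u := by
    refine (sum_le_sum hq).trans ?_
    rw [sum_const, Nat.card_Ico, nsmul_eq_mul]
  linarith

theorem u16_t {k : ℕ} (D : Fin k → ℕ) (hD : ∀ i, 1 ≤ D i) (φ : Fin (k + 1) → ℤ → ℤ) (Z Q X1 ja jb : ℕ)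
    (SS Sz θ1 θ Cs C ε : ℝ) (hSS : 0 < SS) (hε : 0 < ε) (hε1 : ε ≤ 1) (hθ : 0 < θ) (hQ : 2 ≤ Q) (hCs : 1 ≤ Cs)
    (hC : 1 ≤ C) (hZ : 2 ≤ Z) (hlZ : Real.log Z ≤ C * Real.log Q)
    (h3 : 24 * θ * (Cs * (∏ i, (D i : ℝ)) * C ^ (k + 1) + 1) ≤ ε) (h4 : 1 ≤ θ * Z) (hj : ja ≤ jb) (hX1 : 0 < X1)
    (ha : (((ja + 1) * X1 : ℕ) : ℝ) ≤ θ * Z) (ha' : θ / 4 * Z ≤ ja * X1) (hb : (1 - θ) * Z ≤ (((jb + 1) * X1 : ℕ) : ℝ))
    (hb' : (((jb + 1) * X1 : ℕ) : ℝ) ≤ (1 - θ / 2) * Z) (hθ1 : θ1 ≤ ε / 64 * SS)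
    (hcell : ∀ j ∈ Ico ja jb, |wct φ ((j + 1) * X1) X1 - X1 * SS| ≤ X1 * (ε / 64 * SS + θ1))
    (hcnt : ∀ j ∈ Ico ja jb, |(cnt φ ((j + 1) * X1) X1 : ℝ) * ((∏ i, (D i : ℝ)) * (Real.log Z) ^ (k + 1)) -
      wct φ ((j + 1) * X1) X1| ≤ ε / 16 * wct φ ((j + 1) * X1) X1)
    (h13 : ∀ n1 L : ℕ, 1 ≤ n1 → θ / 4 * Z ≤ L → (cnt φ n1 L : ℝ) ≤ Cs * L * SS / (Real.log Q) ^ (k + 1))
    (hSz : |Sz - SS| ≤ ε / 64 * SS) :
    |(cnt φ 1 Z : ℝ) - Z * (Sz / ((∏ i, (D i : ℝ)) * (Real.log Z) ^ (k + 1)))| ≤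
      ε * (Z * (Sz / ((∏ i, (D i : ℝ)) * (Real.log Z) ^ (k + 1)))) := by
  have hZr : (2 : ℝ) ≤ Z := by exact_mod_cast hZ
  have hQr : (2 : ℝ) ≤ Q := by exact_mod_cast hQ
  have hlogZ : 0 < Real.log Z := Real.log_pos (by linarith)
  have hlogQ : 0 < Real.log Q := Real.log_pos (by linarith)
  have hDp : 0 < ∏ i, (D i : ℝ) := prod_pos fun i _ => by exact_mod_cast hD i
  obtain ⟨Lg, hLg⟩ : ∃ Lg : ℝ, Lg = (∏ i, (D i : ℝ)) * (Real.log Z) ^ (k + 1) := ⟨_, rfl⟩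
  have hLg0 : 0 < Lg := by rw [hLg]; positivity
  obtain ⟨Cb, hCb⟩ : ∃ Cb : ℝ, Cb = Cs * (∏ i, (D i : ℝ)) * C ^ (k + 1) := ⟨_, rfl⟩
  have hCb0 : 0 ≤ Cb := by rw [hCb]; positivity
  rw [← hLg] at hcnt ⊢
  rw [← hCb] at h3
  have hLgQ : Lg ≤ (∏ i, (D i : ℝ)) * C ^ (k + 1) * (Real.log Q) ^ (k + 1) := by
    rw [hLg, mul_assoc, ← mul_pow]
    exact mul_le_mul_of_nonneg_left (pow_le_pow_left₀ hlogZ.le hlZ _) hDp.le
  have hbZ : (((jb + 1) * X1 : ℕ) : ℝ) ≤ Z := by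
    have : 0 ≤ θ / 2 * Z := by positivity
    linarith
  have hgen : ∀ n1 L L' : ℕ, 1 ≤ n1 → θ / 4 * Z ≤ L → L ≤ L' → (cnt φ n1 L : ℝ) * Lg ≤ Cb * L' * SS := by
    intro n1 L L' hn1 hL hLL
    have h5 := h13 n1 L hn1 hL
    have hLr : (L : ℝ) ≤ L' := by exact_mod_cast hLL
    have hlq : 0 < (Real.log Q) ^ (k + 1) := pow_pos hlogQ _
    calc (cnt φ n1 L : ℝ) * Lg ≤ Cs * L * SS / (Real.log Q) ^ (k + 1) *
          ((∏ i, (D i : ℝ)) * C ^ (k + 1) * (Real.log Q) ^ (k + 1)) :=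
          mul_le_mul h5 hLgQ hLg0.le (by positivity)
      _ = Cb * L * SS := by
          rw [hCb]
          field_simp
      _ ≤ Cb * L' * SS := by gcongr
  have h5 := U15_sum φ Z X1 ja jb SS Lg (ε / 64) θ1 (ε / 16) θ Cb (ε / 2) hSS hLg0 (by linarith) (by linarith)
    (by linarith) (by linarith) (by linarith) (by linarith) hθ hCb0 (by linarith) h4 hj hX1 ha hb (by
      exact_mod_cast hbZ) hθ1 hcell hcnt (by
      refine hgen 1 _ _ le_rfl ?_ (Nat.sub_le _ _)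
      have h6 : ja * X1 ≤ (ja + 1) * X1 - 1 := by
        have : (ja + 1) * X1 = ja * X1 + X1 := by ring
        omega
      have h7 : ((ja * X1 : ℕ) : ℝ) ≤ (((ja + 1) * X1 - 1 : ℕ) : ℝ) := by exact_mod_cast h6
      push_cast at h7 ⊢
      linarith) (by
      refine hgen _ _ _ (Nat.one_le_iff_ne_zero.2 (Nat.mul_ne_zero (by omega) (by omega))) ?_ le_rfl
      have h7 : (jb + 1) * X1 ≤ Z := by exact_mod_cast hbZ
      rw [Nat.cast_sub (by omega)]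
      have h8 : 0 ≤ θ / 4 * Z := by positivity
      push_cast at hb' ⊢
      linarith)
  have hU : (0 : ℝ) ≤ Z / Lg := by positivity
  have e1 : ∀ s : ℝ, (Z : ℝ) * (s / Lg) = Z / Lg * s := by
    intro s
    ring
  rw [e1] at h5 ⊢
  exact u16_fin _ _ SS Sz ε ε hU hSS hε hε1 le_rfl hSz h5

open Classical in
theorem u16_core1 {k d : ℕ} (c : Fin k → Fin d → ℤ) (e : Fin d → ℕ) (D : Fin k → ℕ) (a : Fin k → ℤ)
    (hF : FGTU c D a) (hS : S4TU c e D a) (he : ∀ j, 1 ≤ e j) (hB : ∀ i j, c i j ≠ 0 → e j = D i)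
    (hD : ∀ i, 1 ≤ D i) (ha : ∀ i, 0 < a i) (P : Fin k → ℤ[X]) (hP : HasD D a P) (δ1 : ℝ) (hδ1 : 0 < δ1)
    (h10 : ∀ (A : ℕ) (C δ : ℝ), 1 ≤ A → 0 < δ → ∃ c1 : ℝ, 0 < c1 ∧ ∃ Q0 : ℕ, ∀ Q Z z : ℕ, Q0 ≤ Q →
      Real.log Z ≤ C * Real.log Q → (Q : ℝ) ≤ (Z : ℝ) ^ δ1 → (Z : ℝ) ^ δ ≤ z → (z : ℝ) ≤ (Z : ℝ) ^ δ1 →
      ∀ B : ℤ[X], Lin A B → ∀ β : Fin k → ℤ,
      (((tb 0 fun j => A * Z ^ e j + 1).filter fun t => (∀ i, 0 ≤ β i + lf c t i) ∧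
        (Q : ℝ) ^ (-c1) < |SSf (pr z) (sys B P (hh c β t)) - SSf (pr Q) (sys B P (hh c β t))|).card : ℝ) ≤
        (Z : ℝ) ^ (∑ j, e j) * (Q : ℝ) ^ (-c1))
    (A : ℕ) (hA : 1 ≤ A) (hDA : ∀ i, D i ≤ A ∧ (a i).natAbs ≤ A) (ε δ : ℝ) (hε : 0 < ε) (hε1 : ε ≤ 1) (hδ : 0 < δ) :
    ∃ η : ℝ, 0 < η ∧ ∀ M0 : ℕ, ∃ M : ℕ, M0 ≤ M ∧ 1 ≤ M ∧
    ∀ Z : ℕ, M ≤ Z → Z ≤ M ^ A → ∀ B : ℤ[X], Dec A Z B → ∀ β : Fin k → ℤ, (∀ i, |β i| ≤ A * (Z : ℤ) ^ D i) →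
    ∀ z : ℕ, (Z : ℝ) ^ δ ≤ z → (z : ℝ) ≤ (Z : ℝ) ^ δ1 →
    (((tb 0 fun j => A * Z ^ e j + 1).filter fun t => (∀ i, 0 ≤ β i + lf c t i) ∧ NoFix (sys B P (hh c β t)) ∧
      ε * (Z * dens D z Z (sys B P (hh c β t))) <
        |(cnt (sys B P (hh c β t)) 1 Z : ℝ) - Z * dens D z Z (sys B P (hh c β t))|).card : ℝ) ≤
      (Z : ℝ) ^ ((∑ j, (e j : ℝ)) - η) := by
  obtain ⟨E0, hE0, hE01, hE0ε⟩ := u16_E0 k (ε / 64) (by positivity)
  obtain ⟨Cs, Ks, hCs, hKs, Q13, h13⟩ := U13_sieve k A hA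
  obtain ⟨K1, hK1, h14⟩ := U14_main c e D a hF hS he hB hD P hP A hA hDA
  obtain ⟨K, hK⟩ : ∃ K : ℝ, K = K1 + Ks + 1 / δ1 + 1000 := ⟨_, rfl⟩
  have hδi : 0 < 1 / δ1 := by positivity
  obtain ⟨C, hC, h8⟩ := U8_level (2 * A * (A + 2)) (Nat.one_le_iff_ne_zero.2 (by positivity)) E0 K hE0
  have hDp1 : (1 : ℝ) ≤ ∏ i, (D i : ℝ) := by
    have : 0 < ∏ i, D i := Finset.prod_pos fun i _ => hD i
    exact_mod_cast this
  obtain ⟨Cb, hCb⟩ : ∃ Cb : ℝ, Cb = Cs * (∏ i, (D i : ℝ)) * C ^ (k + 1) := ⟨_, rfl⟩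
  have hCb0 : 0 ≤ Cb := by rw [hCb]; positivity
  obtain ⟨θ, hθ⟩ : ∃ θ : ℝ, θ = ε / (24 * (Cb + 1)) := ⟨_, rfl⟩
  have hθ0 : 0 < θ := by rw [hθ]; positivity
  have hθ24 : 24 * θ * (Cb + 1) = ε := by rw [hθ]; field_simp
  have hθ1 : 24 * θ ≤ 1 := by
    have : 24 * θ ≤ 24 * θ * (Cb + 1) := le_mul_of_one_le_right (by linarith) (by linarith)
    linarith
  obtain ⟨δ2, hδ2⟩ : ∃ δ2 : ℝ, δ2 = (θ / 8) ^ A / 4 := ⟨_, rfl⟩
  have hδ20 : 0 < δ2 := by rw [hδ2]; positivity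
  have hθ8 : θ / 8 ≤ 1 := by linarith
  have hδD : ∀ i, δ2 ≤ (θ / 4) ^ D i / 2 := by
    intro i
    have h1 : (θ / 8) ^ A ≤ (θ / 8) ^ D i := pow_le_pow_of_le_one (by positivity) hθ8 (hDA i).1
    have h2 : (θ / 8) ^ D i ≤ (θ / 4) ^ D i := pow_le_pow_left₀ (by positivity) (by linarith) _
    have h3 : (0 : ℝ) ≤ (θ / 4) ^ D i := by positivity
    rw [hδ2]
    linarith
  have hδθ : δ2 ≤ θ / 2 := by
    have h1 : (θ / 8) ^ A ≤ (θ / 8) ^ 1 := pow_le_pow_of_le_one (by positivity) hθ8 hA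
    rw [pow_one] at h1
    rw [hδ2]
    linarith
  obtain ⟨ρ0, hρ0, h14b⟩ := h14 C E0 δ2 hE0.le hE01 hδ20
  obtain ⟨ρ, hρ⟩ : ∃ ρ : ℝ, ρ = min ρ0 (θ / 8) := ⟨_, rfl⟩
  have hρp : 0 < ρ := by rw [hρ]; exact lt_min hρ0 (by positivity)
  have hρ1 : ρ ≤ ρ0 := by rw [hρ]; exact min_le_left _ _
  have hρ2 : 8 * ρ ≤ θ := by
    have : ρ ≤ θ / 8 := by rw [hρ]; exact min_le_right _ _
    linarith
  obtain ⟨c1, hc1, Q14, h14c⟩ := h14b ρ hρp hρ1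
  obtain ⟨c1', hc1', Q10, h10c⟩ := h10 A C δ hA hδ
  obtain ⟨c2, hc2⟩ : ∃ c2 : ℝ, c2 = min c1 c1' := ⟨_, rfl⟩
  have hc20 : 0 < c2 := by rw [hc2]; exact lt_min hc1 hc1'
  have hc21 : c2 ≤ c1 := by rw [hc2]; exact min_le_left _ _
  have hc22 : c2 ≤ c1' := by rw [hc2]; exact min_le_right _ _
  obtain ⟨Cl, cl, hCl, hcl, h2⟩ := X2_low k A hA
  obtain ⟨Ql, hQl⟩ := u16_log cl Cl c2 (ε / 64) hcl (by linarith) hc20 (by positivity)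
  obtain ⟨CP, nP, hCP, hval⟩ := U16_val D a P hP hD ha
  obtain ⟨Sc, hSc⟩ : ∃ Sc : ℤ, Sc = ∑ i, ∑ j, |c i j| := ⟨_, rfl⟩
  have hSc0 : (0 : ℤ) ≤ Sc := by rw [hSc]; exact sum_nonneg fun i _ => sum_nonneg fun j _ => abs_nonneg _
  have hSc0r : (0 : ℝ) ≤ (Sc : ℝ) := by exact_mod_cast hSc0
  have hAr : (1 : ℝ) ≤ (A : ℝ) := by exact_mod_cast hA
  obtain ⟨Cz, hCz⟩ : ∃ Cz : ℝ, Cz = CP + A + A * Sc := ⟨_, rfl⟩
  have hASc : (0 : ℝ) ≤ A * Sc := mul_nonneg (by linarith) hSc0r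
  have hCz1 : 1 ≤ Cz := by rw [hCz]; linarith
  obtain ⟨Z12, h12⟩ := U12_wt D hD δ2 Cz (ε / 16) hδ20 hCz1 (by positivity)
  obtain ⟨η, hη⟩ : ∃ η : ℝ, η = c2 / (2 * C) := ⟨_, rfl⟩
  have hη0 : 0 < η := by rw [hη]; positivity
  have hZη : ∃ Zη : ℕ, ∀ Z : ℕ, Zη ≤ Z → 2 / ρ + 1 ≤ (Z : ℝ) ^ η := by
    have h1 := (tendsto_rpow_atTop hη0).comp (tendsto_natCast_atTop_atTop (R := ℝ))
    obtain ⟨N, hN⟩ := Filter.eventually_atTop.1 (h1.eventually_ge_atTop (2 / ρ + 1))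
    exact ⟨N, fun Z hZ => hN Z hZ⟩
  obtain ⟨Zη, hZη⟩ := hZη
  refine ⟨η, hη0, fun M0 => ?_⟩
  obtain ⟨N0, hN0⟩ : ∃ N0 : ℕ, N0 = M0 + Q13 + Q14 + Q10 + Ql + Z12 + Zη + ⌈4 * nP / θ⌉₊ + ⌈1 / ρ⌉₊ + ⌈4 / θ⌉₊ + 3 :=
    ⟨_, rfl⟩
  obtain ⟨M8, Q, hM8, hQ, h8b⟩ := h8 N0
  have hM81 : 1 ≤ M8 := by omega
  have hM8s : M8 ≤ M8 ^ 2 := Nat.le_self_pow (by norm_num) M8
  refine ⟨M8 ^ 2, by omega, by omega, ?_⟩
  intro Z hZ hZA B hBd β hβ z hz1 hz2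
  have hZM : M8 ≤ Z := hM8s.trans hZ
  have hZN : N0 ≤ Z := hM8.trans hZM
  have hZ3 : 3 ≤ Z := by omega
  have hQ3 : 3 ≤ Q := by omega
  have hZr : (3 : ℝ) ≤ Z := by exact_mod_cast hZ3
  have hQr : (3 : ℝ) ≤ Q := by exact_mod_cast hQ3
  have hZ0 : (0 : ℝ) < Z := by linarith
  have hQ0 : (0 : ℝ) < Q := by linarith
  have hlogQ : 0 < Real.log Q := Real.log_pos (by linarith)
  have hlogZ : 0 < Real.log Z := Real.log_pos (by linarith)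
  -- the range of lengths
  have hexp : (M8 ^ 2) ^ (A * (A + 2)) = M8 ^ (2 * A * (A + 2)) := by
    rw [← pow_mul]
    congr 1
    ring
  have hZup : Z ^ (A + 2) ≤ M8 ^ (2 * A * (A + 2)) := by
    rw [← hexp, pow_mul]
    exact Nat.pow_le_pow_left hZA _
  have hZup1 : Z ≤ M8 ^ (2 * A * (A + 2)) := (Nat.le_self_pow (by omega) Z).trans hZup
  have hLv : Lv A Q Z E0 := by
    intro Y hY1 hY2
    have hY3 : M8 ≤ Y := by
      have h1 : M8 ^ 2 ≤ Y ^ 2 := hZ.trans hY1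
      exact (Nat.pow_le_pow_iff_left (by norm_num)).1 h1
    have h1 := h8b Y hY3 (hY2.trans hZup)
    exact ⟨h1.2.2.1, h1.2.2.2⟩
  obtain ⟨hRg1, hRg2, -, -⟩ := h8b Z hZM hZup1
  have hRg1' : ∀ K' : ℝ, K' ≤ K → K' * Real.log Q ≤ Real.log Z := fun K' hK' =>
    (mul_le_mul_of_nonneg_right hK' hlogQ.le).trans hRg1
  have hRgK1 : Rg K1 C Q Z := ⟨hRg1' K1 (by linarith), hRg2⟩
  -- sizes
  have hceil1 : 4 * (nP : ℝ) / θ ≤ Z := by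
    refine (Nat.le_ceil _).trans ?_
    exact_mod_cast (by omega : ⌈4 * (nP : ℝ) / θ⌉₊ ≤ Z)
  have hceil2 : 1 / ρ ≤ Q := by
    refine (Nat.le_ceil _).trans ?_
    exact_mod_cast (by omega : ⌈1 / ρ⌉₊ ≤ Q)
  have hceil3 : 4 / θ ≤ Q := by
    refine (Nat.le_ceil _).trans ?_
    exact_mod_cast (by omega : ⌈4 / θ⌉₊ ≤ Q)
  have hceil3' : 4 / θ ≤ Z := by
    refine (Nat.le_ceil _).trans ?_
    exact_mod_cast (by omega : ⌈4 / θ⌉₊ ≤ Z)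
  have hQ1000 : (Q : ℝ) ^ 1000 ≤ Z := by
    rw [← Real.log_le_log_iff (by positivity) hZ0, Real.log_pow]
    have := hRg1' 1000 (by linarith)
    push_cast
    exact this
  have hQ800 : (Q : ℝ) ^ 800 ≤ ρ * Z := by
    have h1 : 1 ≤ ρ * Q := by
      rw [div_le_iff₀ hρp] at hceil2
      linarith
    have h2 : (Q : ℝ) ^ 800 * Q ≤ (Q : ℝ) ^ 1000 := by
      rw [← pow_succ]
      exact pow_le_pow_right₀ (by linarith) (by norm_num)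
    have h3 : (0 : ℝ) < (Q : ℝ) ^ 800 := by positivity
    calc (Q : ℝ) ^ 800 ≤ (Q : ℝ) ^ 800 * (ρ * Q) := le_mul_of_one_le_right h3.le h1
      _ = ρ * ((Q : ℝ) ^ 800 * Q) := by ring
      _ ≤ ρ * Z := mul_le_mul_of_nonneg_left (h2.trans hQ1000) hρp.le
  obtain ⟨X1, ja, jb, hXd, hX1, hX2, hX3, hjab, hja1, hja2, hjb1, hjb2, hjb3⟩ :=
    u16_cells Z Q ρ θ (by omega) hρp hρ2 (by linarith) hQ800
  -- the case where there is no parameter without fixed divisor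
  by_cases hex : ∃ t : Fin d → ℤ, NoFix (sys B P (hh c β t))
  swap
  · have h0 : ((tb 0 fun j => A * Z ^ e j + 1).filter fun t => (∀ i, 0 ≤ β i + lf c t i) ∧
        NoFix (sys B P (hh c β t)) ∧ ε * (Z * dens D z Z (sys B P (hh c β t))) <
        |(cnt (sys B P (hh c β t)) 1 Z : ℝ) - Z * dens D z Z (sys B P (hh c β t))|) = ∅ := by
      refine filter_eq_empty_iff.2 fun t _ h => hex ⟨t, h.2.1⟩
    rw [h0, card_empty, Nat.cast_zero]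
    positivity
  obtain ⟨t0, ht0⟩ := hex
  have hLin : Lin A B := ⟨hBd.deg, hBd.lc, u16_cop B hBd.deg P _ ht0⟩
  have hPol : Pol A P := by
    refine ⟨fun i => ?_, fun i => ?_, fun i => ?_⟩
    · rw [(hP i).1]; exact hD i
    · rw [(hP i).1]; exact (hDA i).1
    · rw [(hP i).2]; exact (hDA i).2
  have hθZ' : (1 - θ / 2) * (Z : ℝ) ≤ Z := by
    have : 0 ≤ θ / 2 * Z := by positivity
    linarith
  -- values of the linear coordinate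
  have hBv : ∀ n : ℕ, 1 ≤ n → (n : ℝ) ≤ (1 - θ / 2) * Z →
      δ2 * Z ≤ ((B.eval (n : ℤ) : ℤ) : ℝ) ∧ ((B.eval (n : ℤ) : ℤ) : ℝ) ≤ A * Z := by
    intro n hn1 hn2
    have hnZ : (n : ℝ) ≤ Z := hn2.trans hθZ'
    have hnZ' : n ≤ Z := by exact_mod_cast hnZ
    obtain ⟨h3, h4⟩ := u16_dec A Z B hBd n (by exact_mod_cast hnZ')
    have h3' : (Z : ℝ) - n ≤ ((B.eval (n : ℤ) : ℤ) : ℝ) := by exact_mod_cast h3
    have h4' : ((B.eval (n : ℤ) : ℤ) : ℝ) ≤ A * (Z + 1 - n) := by exact_mod_cast h4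
    have hn1r : (1 : ℝ) ≤ n := by exact_mod_cast hn1
    constructor
    · have : δ2 * Z ≤ θ / 2 * Z := mul_le_mul_of_nonneg_right hδθ hZ0.le
      linarith
    · refine h4'.trans (mul_le_mul_of_nonneg_left (by linarith) (by linarith))
  -- values of the polynomials
  have hPv : ∀ n : ℕ, θ / 4 * Z ≤ n → ∀ i, δ2 * (Z : ℝ) ^ D i ≤ (((P i).eval (n : ℤ) : ℤ) : ℝ) ∧
      (((P i).eval (n : ℤ) : ℤ) : ℝ) ≤ CP * (n : ℝ) ^ D i := by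
    intro n hn i
    have hnP : nP ≤ n := by
      have h1 : (nP : ℝ) ≤ n := by
        rw [div_le_iff₀ hθ0] at hceil1
        linarith
      exact_mod_cast h1
    obtain ⟨h3, h4⟩ := hval n hnP i
    refine ⟨?_, h4⟩
    have h5 : (θ / 4 * Z) ^ D i ≤ (n : ℝ) ^ D i := pow_le_pow_left₀ (by positivity) hn _
    rw [mul_pow] at h5
    have h6 : δ2 * (Z : ℝ) ^ D i ≤ (θ / 4) ^ D i / 2 * (Z : ℝ) ^ D i :=
      mul_le_mul_of_nonneg_right (hδD i) (by positivity)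
    linarith
  -- the union of the exceptional sets
  have hjZ : ∀ j ∈ Ico ja jb, θ / 4 * Z ≤ ((j * X1 : ℕ) : ℝ) ∧ (((j + 2) * X1 : ℕ) : ℝ) ≤ (1 - θ / 2) * Z := by
    intro j hj
    rw [mem_Ico] at hj
    constructor
    · have h1 : ((ja * X1 : ℕ) : ℝ) ≤ ((j * X1 : ℕ) : ℝ) := by exact_mod_cast Nat.mul_le_mul_right _ hj.1
      push_cast at h1 ⊢
      linarith
    · have h1 : (((j + 2) * X1 : ℕ) : ℝ) ≤ (((jb + 1) * X1 : ℕ) : ℝ) := by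
        exact_mod_cast Nat.mul_le_mul_right _ (by omega)
      linarith
  have hU := u16_union (tb 0 fun j => A * Z ^ e j + 1)
    (fun t => (∀ i, 0 ≤ β i + lf c t i) ∧ NoFix (sys B P (hh c β t)) ∧
      ε * (Z * dens D z Z (sys B P (hh c β t))) <
        |(cnt (sys B P (hh c β t)) 1 Z : ℝ) - Z * dens D z Z (sys B P (hh c β t))|)
    (fun t => (∀ i, 0 ≤ β i + lf c t i) ∧
      (Q : ℝ) ^ (-c1') < |SSf (pr z) (sys B P (hh c β t)) - SSf (pr Q) (sys B P (hh c β t))|)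
    (fun j t => (∀ i, 0 ≤ β i + lf c t i) ∧
      (∀ i, δ2 * (Z : ℝ) ^ D i ≤ (((P i).eval ((j * X1 : ℕ) : ℤ) + β i + lf c t i : ℤ) : ℝ)) ∧
      X1 * (((1 + E0) ^ (k + 1) - 1) * SSf (pr Q) (sys B P (hh c β t)) + (Q : ℝ) ^ (-c1)) <
        |wct (sys B P (hh c β t)) (j * X1 + X1) X1 - X1 * SSf (pr Q) (sys B P (hh c β t))|)
    ja jb ?_ ((Z : ℝ) ^ (∑ j, e j) * (Q : ℝ) ^ (-c1)) ((Z : ℝ) ^ (∑ j, e j) * (Q : ℝ) ^ (-c1')) ?_ ?_
  · -- conclusion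
    refine hU.trans ?_
    have hW : (0 : ℝ) < (Z : ℝ) ^ (∑ j, e j) := by positivity
    have h1 : (Q : ℝ) ^ (-c1) ≤ (Q : ℝ) ^ (-c2) := Real.rpow_le_rpow_of_exponent_le (by linarith) (by linarith)
    have h2 : (Q : ℝ) ^ (-c1') ≤ (Q : ℝ) ^ (-c2) := Real.rpow_le_rpow_of_exponent_le (by linarith) (by linarith)
    have h3 : (Q : ℝ) ^ (-c2) ≤ (Z : ℝ) ^ (-(2 * η)) := by
      rw [Real.rpow_def_of_pos hQ0, Real.rpow_def_of_pos hZ0]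
      refine Real.exp_le_exp.2 ?_
      have h4 : 2 * η * Real.log Z ≤ c2 * Real.log Q := by
        have e1 : 2 * η = c2 / C := by rw [hη]; field_simp
        rw [e1, div_mul_eq_mul_div, div_le_iff₀ (by linarith)]
        calc c2 * Real.log Z ≤ c2 * (C * Real.log Q) := mul_le_mul_of_nonneg_left hRg2 hc20.le
          _ = c2 * Real.log Q * C := by ring
      linarith
    have h4 : ((jb - ja : ℕ) : ℝ) ≤ 2 / ρ := by
      refine le_trans ?_ hjb3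
      exact_mod_cast Nat.sub_le _ _
    have h5 : 2 / ρ + 1 ≤ (Z : ℝ) ^ η := hZη Z (by omega)
    have h6 : (Z : ℝ) ^ η * (Z : ℝ) ^ (-(2 * η)) = (Z : ℝ) ^ (-η) := by
      rw [← Real.rpow_add hZ0]
      congr 1
      ring
    have hq : (0 : ℝ) ≤ (Q : ℝ) ^ (-c2) := by positivity
    calc ((jb - ja : ℕ) : ℝ) * ((Z : ℝ) ^ (∑ j, e j) * (Q : ℝ) ^ (-c1)) + (Z : ℝ) ^ (∑ j, e j) * (Q : ℝ) ^ (-c1')
        ≤ 2 / ρ * ((Z : ℝ) ^ (∑ j, e j) * (Q : ℝ) ^ (-c2)) + (Z : ℝ) ^ (∑ j, e j) * (Q : ℝ) ^ (-c2) := by gcongr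
      _ = (Z : ℝ) ^ (∑ j, e j) * ((2 / ρ + 1) * (Q : ℝ) ^ (-c2)) := by ring
      _ ≤ (Z : ℝ) ^ (∑ j, e j) * ((Z : ℝ) ^ η * (Z : ℝ) ^ (-(2 * η))) := by gcongr
      _ = (Z : ℝ) ^ ((∑ j, (e j : ℝ)) - η) := by
          rw [h6, sub_eq_add_neg, Real.rpow_add hZ0, ← Nat.cast_sum, Real.rpow_natCast]
  · -- one parameter
    rintro t ht ⟨hnn, hNF, hbad⟩
    by_contra hcon
    push Not at hcon
    obtain ⟨hc10, hc14⟩ := hcon
    have hSSlow := h2 B hLin P hPol (hh c β t) hNF Q (by omega) (pr Q) (Subset.refl _)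
    have hlq := hQl Q (by omega)
    obtain ⟨φ, hφ⟩ : ∃ φ, φ = sys B P (hh c β t) := ⟨_, rfl⟩
    rw [← hφ] at hc10 hSSlow hbad
    have hφ0 : ∀ n : ℤ, φ 0 n = B.eval n := by intro n; rw [hφ]; rfl
    have hφS : ∀ (i : Fin k) (n : ℤ), φ i.succ n = (P i).eval n + (β i + lf c t i) := by
      intro i n
      rw [hφ]
      show (P i).eval n + ((β i + lf c t i).toNat : ℤ) = _
      rw [Int.toNat_of_nonneg (hnn i)]
    have hSSp : 0 < SSf (pr Q) φ := lt_of_lt_of_le (by positivity) hSSlow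
    have hq2 : (Q : ℝ) ^ (-c2) ≤ ε / 64 * SSf (pr Q) φ :=
      hlq.trans (mul_le_mul_of_nonneg_left hSSlow (by positivity))
    have hq1 : (Q : ℝ) ^ (-c1) ≤ (Q : ℝ) ^ (-c2) := Real.rpow_le_rpow_of_exponent_le (by linarith) (by linarith)
    have hq1' : (Q : ℝ) ^ (-c1') ≤ (Q : ℝ) ^ (-c2) := Real.rpow_le_rpow_of_exponent_le (by linarith) (by linarith)
    have hmain := u16_t D hD φ Z Q X1 ja jb (SSf (pr Q) φ) (SSf (pr z) φ) ((Q : ℝ) ^ (-c1)) θ Cs C ε hSSp hε hε1 hθ0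
      (by omega) hCs hC (by omega) hRg2 (by rw [← hCb]; exact hθ24.le) (by
        rw [div_le_iff₀ hθ0] at hceil3'
        linarith) hjab hX1 hja1 hja2 hjb1 hjb2 (hq1.trans hq2) ?_ ?_ ?_ ?_
    · exact absurd hmain (not_le.2 hbad)
    · -- cells
      intro j hj
      obtain ⟨hj1, hj2⟩ := hjZ j hj
      have h3 := hc14 j hj hnn (by
        intro i
        obtain ⟨h4, -⟩ := hPv (j * X1) hj1 i
        have h5 : (0 : ℝ) ≤ ((β i + lf c t i : ℤ) : ℝ) := by exact_mod_cast hnn i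
        push_cast at h4 h5 ⊢
        linarith)
      rw [← hφ] at h3
      have e1 : j * X1 + X1 = (j + 1) * X1 := by ring
      rw [e1] at h3
      refine h3.trans ?_
      refine mul_le_mul_of_nonneg_left ?_ (by positivity)
      have : ((1 + E0) ^ (k + 1) - 1) * SSf (pr Q) φ ≤ ε / 64 * SSf (pr Q) φ :=
        mul_le_mul_of_nonneg_right hE0ε hSSp.le
      linarith
    · -- weights
      intro j hj
      obtain ⟨hj1, hj2⟩ := hjZ j hj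
      refine h12 Z (by omega) φ ((j + 1) * X1) X1 ?_
      intro n hn
      rw [mem_Ico] at hn
      have hn1 : j * X1 + X1 ≤ n := by
        have : (j + 1) * X1 = j * X1 + X1 := by ring
        omega
      have hn2 : n ≤ (j + 2) * X1 := by
        have : (j + 2) * X1 = (j + 1) * X1 + X1 := by ring
        omega
      have hn3 : (n : ℝ) ≤ (1 - θ / 2) * Z := le_trans (by exact_mod_cast hn2) hj2
      have hn4 : θ / 4 * Z ≤ n := by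
        refine hj1.trans ?_
        exact_mod_cast (by omega : j * X1 ≤ n)
      have hn5 : (n : ℝ) ≤ Z := hn3.trans hθZ'
      obtain ⟨h3, h4⟩ := hBv n (by omega) hn3
      have hACz : (A : ℝ) ≤ Cz := by
        rw [hCz]
        linarith
      refine ⟨⟨?_, ?_⟩, fun i => ⟨?_, ?_⟩⟩
      · rw [hφ0]; exact h3
      · rw [hφ0]
        exact h4.trans (mul_le_mul_of_nonneg_right hACz hZ0.le)
      · rw [hφS]
        obtain ⟨h5, -⟩ := hPv n hn4 i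
        have h6 : (0 : ℝ) ≤ ((β i + lf c t i : ℤ) : ℝ) := by exact_mod_cast hnn i
        push_cast at h5 h6 ⊢
        linarith
      · rw [hφS]
        obtain ⟨-, h5⟩ := hPv n hn4 i
        have h6 : (n : ℝ) ^ D i ≤ (Z : ℝ) ^ D i := pow_le_pow_left₀ (by positivity) hn5 _
        have h7 : lf c t i ≤ A * Sc * (Z : ℤ) ^ D i := by rw [hSc]; exact u16_lf c e D hB A Z t ht i
        have h8 : β i ≤ A * (Z : ℤ) ^ D i := (le_abs_self _).trans (hβ i)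
        have h7' : ((lf c t i : ℤ) : ℝ) ≤ A * Sc * (Z : ℝ) ^ D i := by exact_mod_cast h7
        have h8' : ((β i : ℤ) : ℝ) ≤ A * (Z : ℝ) ^ D i := by exact_mod_cast h8
        have h9 : CP * (n : ℝ) ^ D i ≤ CP * (Z : ℝ) ^ D i := mul_le_mul_of_nonneg_left h6 (by linarith)
        push_cast
        calc ((eval (n : ℤ) (P i) : ℤ) : ℝ) + ((β i : ℤ) + (lf c t i : ℤ)) ≤
              CP * (Z : ℝ) ^ D i + (A * (Z : ℝ) ^ D i + A * Sc * (Z : ℝ) ^ D i) := by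
              have := h5.trans h9
              linarith
          _ = Cz * (Z : ℝ) ^ D i := by rw [hCz]; ring
    · -- sieve
      intro n1 L hn1 hL
      have hL0 : (0 : ℝ) < L := lt_of_lt_of_le (by positivity) hL
      rw [hφ]
      refine h13 Q (by omega) B hLin P hPol (hh c β t) hNF n1 L hn1 ?_
      have h3 : Real.log (θ / 4 * Z) ≤ Real.log L := Real.log_le_log (by positivity) hL
      rw [Real.log_mul (by positivity) (by positivity)] at h3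
      have h4 : Real.log (4 / θ) ≤ Real.log Q := Real.log_le_log (by positivity) hceil3
      have h5 : Real.log (θ / 4) = -Real.log (4 / θ) := by
        rw [← Real.log_inv, inv_div]
      have h6 := hRg1' (Ks + 1) (by linarith)
      linarith
    · exact hc10 hnn |>.trans (hq1'.trans hq2)
  · -- U14
    intro j hj
    obtain ⟨hj1, hj2⟩ := hjZ j hj
    have h3 := h14c Q Z (by omega) hRgK1 hLv X1 (j * X1) hXd hX2 hX3 (by
      have h4 : ((j * X1 : ℕ) : ℝ) ≤ A * Z := by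
        have h5 : ((j * X1 : ℕ) : ℝ) ≤ (((j + 2) * X1 : ℕ) : ℝ) := by
          exact_mod_cast Nat.mul_le_mul_right _ (by omega)
        exact h5.trans ((hj2.trans hθZ').trans (le_mul_of_one_le_left hZ0.le hAr))
      exact_mod_cast h4) B hLin (by
      intro n hn
      rw [mem_Ico] at hn
      refine hBv n (by omega) ?_
      refine le_trans ?_ hj2
      have : (j + 2) * X1 = j * X1 + 2 * X1 := by ring
      exact_mod_cast (by omega : n ≤ (j + 2) * X1)) β hβ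
    exact h3
  · -- U10
    have h3 := h10c Q Z z (by omega) hRg2 (by
      rw [← Real.log_le_log_iff hQ0 (by positivity), Real.log_rpow hZ0]
      have h4 := hRg1' (1 / δ1) (by linarith)
      rw [one_div, inv_mul_le_iff₀ hδ1] at h4
      exact h4) hz1 hz2 B hLin β
    refine le_trans (le_of_eq ?_) h3
    congr 2

open Classical in
/-- **U16.** Proof. `δ1` from `U10_main` (replace it by `min δ1 1`). Given `A` (replace it by `A' ≥ A` with `A' ≥ 1, D_i, |a_i|`, everything is monotone in `A`), `ε` (`≤ 1`), `δ`.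
Constants, in this order: `E0 > 0` with `(1 + E0)^(k+1) - 1 ≤ ε/64`; `Cs, Ks` from `U13_sieve`, `K1` from `U14_main`, `K = K1 + Ks + 1/δ1 + 1000`; `U8_level` with `A8 = 2 A' (A' + 2)`, `E = E0`,
`K' = 2 K` gives `C = Cr`; `Cb = Cs (∏ D) (2 C)^(k+1)`; `θ = ε/(24 (Cb + 1))` (so `12 θ (Cb + 1) ≤ ε/2`); `δ2 = (θ/8)^A'/4`; `ρ0` from `U14_main` for `C, E0, δ2`, `ρ = min(ρ0, θ/8)`; then `c1` from `U14_main`
and `c1'` from `U10_main` (take the smaller). `M = M8^2` with `M8, Q` from `U8_level` (`M0` large): for `M ≤ Z ≤ M^A'`: `Rg K C Q Z` and `Lv A' Q Z E0`.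
`X1 = Q^800 ⌊ρ Z/Q^800⌋` (`ρ Z ≤ 2 X1`), `ja = ⌈θ Z/(4 X1)⌉`, `jb + 1 = ⌊(1 - θ/2) Z/X1⌋`, at most `2/ρ` values of `j`. If `B` is not primitive there is no `t` with `NoFix`; so `Lin A' B`.
Exceptional sets: `U14_main` with `n0 = j X1`, `ja ≤ j < jb` (on the cell `B ≥ θ Z/2 ≥ δ2 Z`, `P_i(n0) + β_i + ψ_i(t) ≥ P_i(n0) ≥ δ2 Z^(D_i)` by `U16_val`), and `U10_main`. Together at most
`(2/ρ + 1) Z^(∑ e) Q^(-c1) ≤ Z^(∑ e - η)`, `η = c1/(2C)` (`Q ≥ Z^(1/C)`).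
For the other `t`: `φ = sys B P (hh c β t)`, `SS = SSf (pr Q) φ ≥ c (1 + log Q)^(-C')` (`X2_low`), so `Q^(-c1) ≤ (ε/64) SS`. `U15_sum` with `Lg = (∏ D) (log Z)^(k+1)`, `E1 = ε/64`, `ε1 = ε/16` (`U12_wt`; values by
`U16_val`, `|β_i|, t_j` bounded), `ε/2` for `ε`; `hl`, `hr` from `U13_sieve` (`log Q ≥ log Z/C`; the intervals are longer than `θ Z/8 ≥ Q^Ks`). So `|cnt - Z SS/Lg| ≤ (ε/2) Z SS/Lg`;
`|SSf (pr z) φ - SS| ≤ (ε/64) SS`. -/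
theorem U16_core {k d : ℕ} (c : Fin k → Fin d → ℤ) (e : Fin d → ℕ) (D : Fin k → ℕ) (a : Fin k → ℤ)
    (hF : FGTU c D a) (hS : S4TU c e D a) (he : ∀ j, 1 ≤ e j) (hB : ∀ i j, c i j ≠ 0 → e j = D i)
    (hD : ∀ i, 1 ≤ D i) (ha : ∀ i, 0 < a i) (P : Fin k → ℤ[X]) (hP : HasD D a P) : ACoreP c e D P := by
  obtain ⟨δ1, hδ1, h10⟩ := U10_main c e D a hF he hD P hP
  refine ⟨δ1, hδ1, fun A ε δ hε hδ => ?_⟩
  obtain ⟨A', hA'⟩ : ∃ A' : ℕ, A' = A + 1 + ∑ i, (D i + (a i).natAbs) := ⟨_, rfl⟩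
  have hDA : ∀ i, D i ≤ A' ∧ (a i).natAbs ≤ A' := by
    intro i
    have h1 : D i + (a i).natAbs ≤ ∑ i, (D i + (a i).natAbs) :=
      single_le_sum (f := fun i => D i + (a i).natAbs) (fun _ _ => Nat.zero_le _) (mem_univ i)
    omega
  have hAA : A ≤ A' := by omega
  obtain ⟨η, hη, h1⟩ := u16_core1 c e D a hF hS he hB hD ha P hP δ1 hδ1 h10 A' (by omega) hDA (min ε 1) δ
    (lt_min hε one_pos) (min_le_right _ _) hδ
  refine ⟨η, hη, fun M0 => ?_⟩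
  obtain ⟨M, hM0, hM1, h2⟩ := h1 M0
  refine ⟨M, hM0, ?_⟩
  intro Z hZ hZA B hBd β hβ z hz1 hz2
  have h3 := h2 Z hZ (hZA.trans (Nat.pow_le_pow_right hM1 hAA)) B
    ⟨hBd.deg, hBd.neg, hBd.lc.trans hAA, hBd.pos, hBd.last⟩ β (fun i => (hβ i).trans (by
      have : (A : ℤ) ≤ A' := by exact_mod_cast hAA
      gcongr)) z hz1 hz2
  refine le_trans ?_ h3
  have hsub : ((tb 0 fun j => A * Z ^ e j + 1).filter fun t => (∀ i, 0 ≤ β i + lf c t i) ∧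
        NoFix (sys B P (hh c β t)) ∧ ε * (Z * dens D z Z (sys B P (hh c β t))) <
        |(cnt (sys B P (hh c β t)) 1 Z : ℝ) - Z * dens D z Z (sys B P (hh c β t))|) ⊆
      ((tb 0 fun j => A' * Z ^ e j + 1).filter fun t => (∀ i, 0 ≤ β i + lf c t i) ∧
        NoFix (sys B P (hh c β t)) ∧ min ε 1 * (Z * dens D z Z (sys B P (hh c β t))) <
        |(cnt (sys B P (hh c β t)) 1 Z : ℝ) - Z * dens D z Z (sys B P (hh c β t))|) := by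
    intro t ht
    rw [mem_filter] at ht ⊢
    obtain ⟨ht1, ht2, ht3, ht4⟩ := ht
    refine ⟨?_, ht2, ht3, ?_⟩
    · unfold tb at ht1 ⊢
      rw [Fintype.mem_piFinset] at ht1 ⊢
      intro j
      have h5 := mem_Ico.1 (ht1 j)
      rw [mem_Ico]
      refine ⟨h5.1, lt_of_lt_of_le h5.2 ?_⟩
      have h6 : A * Z ^ e j ≤ A' * Z ^ e j := Nat.mul_le_mul_right _ hAA
      have h7 : ((A * Z ^ e j + 1 : ℕ) : ℤ) ≤ ((A' * Z ^ e j + 1 : ℕ) : ℤ) := by exact_mod_cast Nat.add_le_add_right h6 1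
      linarith
    · obtain ⟨u, hu⟩ : ∃ u : ℝ, u = Z * dens D z Z (sys B P (hh c β t)) := ⟨_, rfl⟩
      rw [← hu] at ht4 ⊢
      rcases le_or_gt 0 u with hu0 | hu0
      · exact lt_of_le_of_lt (mul_le_mul_of_nonneg_right (min_le_left _ _) hu0) ht4
      · refine lt_of_lt_of_le (mul_neg_of_pos_of_neg (lt_min hε one_pos) hu0) (abs_nonneg _)
  exact_mod_cast card_le_card hsub

end Pool.Agent.H9P
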