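import Pool.Agent.Lib.H9P.U0
import Pool.Agent.Lib.HUP.R2

/-!
# ASYP, chunk U2 (M): `R2_main` with the geometry `GeoV`, uniformly in the polynomials
-/

open Finset Polynomial

namespace Pool.Agent.H9P

open Pool.Agent.Lib.H68T Pool.Agent.Lib.H18Q Pool.Agent.Lib.H59P Pool.Agent.Lib.H24P
open Pool.Agent.HUP

/-- **U2.** Copy of the proof of `R2_main` (`HUP/R2.lean`): `R2_cell` (unchanged) is uniform in `P`; `G2_P` and `Geo` are replaced by the fields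
`small`, `slow`, `dvd`, `pos`, `le`, `ge`, `dvdM` of `GeoV`. -/
theorem U2_main (k A E : ℕ) (hA : 1 ≤ A) (Cc cc : ℝ) (hC : FPar Cc cc) :
    ∃ c K : ℝ, 0 < c ∧ 1 ≤ K ∧ ∀ C : ℝ, ∃ Q0 : ℕ, ∀ P : Fin k → ℤ[X], Pol A P →
    ∀ (Q X X1 Y : ℕ) (M : Fin k → ℕ) (B : ℤ[X])
    (C0 : ℤ → Ch → ℂ) (mb : Ch → ℝ), Q0 ≤ Q → Rg K C Q X → GeoV Q X X1 P M → GeoB A X X1 Y B →
    Cf (Q ^ 100) Y C0 mb → ∀ (C' : Fin k → ℤ → Ch → ℂ) (mc : Fin k → Ch → ℝ),
    (∀ i, Cf Q (Ysc (M i)) (C' i) (mc i)) →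
    ∀ (ι : Type) (S : Finset ι) (g : ι → Fin k → ℕ) (h0 : Fin k → ℕ), Cl E Cc cc Q P M S g h0 →
    ∑ x ∈ S, ‖Rzb Q X1 P C' (fun n => ((lp (B.eval (n : ℤ)) : ℝ) : ℂ)) h0 (g x) -
      Rzb Q X1 P C' (fun n => ((Lk (Q ^ 100) (Y / (Q ^ 100) ^ 2) (B.eval (n : ℤ)) : ℝ) : ℂ)) h0 (g x)‖ ^ 2 ≤
      (X1 : ℝ) ^ 2 * S.card * (Q : ℝ) ^ (-c) := by
  classical
  obtain ⟨c, K, hc, hK, hcell⟩ := R2_cell k A E hA Cc cc hC
  refine ⟨c, K, hc, hK, fun C => ?_⟩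
  obtain ⟨Q0, hQ0⟩ := hcell C
  refine ⟨max Q0 1, ?_⟩
  intro P hP Q X X1 Y M B C0 mb hQ hRg hG hB hCf C' mc hCc ι S g h0 hCl
  have hQ0' : Q0 ≤ Q := (le_max_left _ _).trans hQ
  have hQ1 : 1 ≤ Q := (le_max_right _ _).trans hQ
  have hQ8 : 0 < Q ^ 8 := Nat.pow_pos hQ1
  set H : ℕ := X1 / Q ^ 8 with hH
  have hdX : Q ^ 8 ∣ X1 := (pow_dvd_pow Q (by norm_num)).trans hG.dvd
  have hXH : X1 = H * Q ^ 8 := (Nat.div_mul_cancel hdX).symm
  have hHpos : 0 < H := by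
    rcases Nat.eq_zero_or_pos H with h0 | h0
    · rw [h0, zero_mul] at hXH
      have := hG.pos
      omega
    · exact h0
  -- the difference
  set F : ι → ℕ → ℂ := fun x n => ((fB Q Y B n : ℝ) : ℂ) *
    ∏ i, SG Q (C' i ((P i).eval ((bs H n : ℕ) : ℤ) + (h0 i : ℤ))) ((P i).eval (n : ℤ) + g x i) with hF
  have hdiff : ∀ x : ι,
      Rzb Q X1 P C' (fun n => ((lp (B.eval (n : ℤ)) : ℝ) : ℂ)) h0 (g x) -
      Rzb Q X1 P C' (fun n => ((Lk (Q ^ 100) (Y / (Q ^ 100) ^ 2) (B.eval (n : ℤ)) : ℝ) : ℂ)) h0 (g x) =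
      ∑ n ∈ Ico X1 (2 * X1), F x n := by
    intro x
    unfold Rzb
    rw [← Finset.sum_sub_distrib]
    refine Finset.sum_congr rfl fun n _ => ?_
    rw [hF]
    simp only
    rw [← sub_mul]
    congr 1
    unfold fB
    push_cast
    ring
  rw [Finset.sum_congr rfl fun x _ => by rw [hdiff x]]
  -- one cell
  have hone : ∀ j < Q ^ 8, ∑ x ∈ S, ‖∑ n ∈ Ico (X1 + j * H) (X1 + j * H + H), F x n‖ ^ 2 ≤
      S.card * H ^ 2 * (Q : ℝ) ^ (-c) := by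
    intro j hj
    have hjH : (j + 1) * H ≤ X1 := by
      rw [hXH, mul_comm H]
      exact Nat.mul_le_mul_right H hj
    have hjH' : j * H + H ≤ X1 := by
      have : (j + 1) * H = j * H + H := by ring
      omega
    have haI : X1 + j * H ∈ Ico X1 (2 * X1) := by
      rw [mem_Ico]
      omega
    have hbsn : ∀ n ∈ Ico (X1 + j * H) (X1 + j * H + H), bs H n = X1 + j * H := by
      intro n hn
      have h1 := mem_Ico.1 hn
      have h2 : X1 + j * H = (Q ^ 8 + j) * H := by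
        conv_lhs => rw [hXH]
        ring
      rw [h2] at h1 ⊢
      exact z2_bs hHpos _ _ h1.1 h1.2
    set c' : Fin k → Ch → ℂ := fun i =>
      C' i ((P i).eval ((X1 + j * H : ℕ) : ℤ) + (h0 i : ℤ)) with hc'
    have hcell' := hQ0 Q X X1 Y B C0 mb hQ0' hRg hG.pos hG.le hG.ge hB hCf P hP c' ?_
      ι S g hCl.good (X1 + j * H) H (by omega) (by omega) hXH.le
    · refine (le_of_eq ?_).trans hcell'
      refine Finset.sum_congr rfl fun x _ => ?_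
      congr 2
      refine Finset.sum_congr rfl fun n hn => ?_
      rw [hF]
      simp only
      congr 1
      refine Finset.prod_congr rfl fun i _ => ?_
      rw [hc']
      simp only
      rw [hbsn n hn]
    · intro i
      have hx : h0 i ∈ Ico (M i) (2 * M i) := by
        have h1 := hCl.memb
        unfold cub at h1
        have h2 := mem_Ico.1 ((Fintype.mem_piFinset.1 h1) i)
        rw [mem_Ico]
        omega
      have hv := hG.small i (X1 + j * H) haI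
      have hd8 : 8 ∣ M i := (Dvd.intro _ rfl).trans (hG.dvdM i)
      have h5 := G2_val (M i) (h0 i) _ hd8 hv hx
      refine (Finset.sum_le_sum fun p hp => ?_).trans (hCc i).sum
      refine (hCc i).le _ h5.1 ?_ p hp
      have h6 : (0 : ℤ) ≤ Ysc (M i) := Nat.cast_nonneg _
      linarith [h5.2.1]
  -- all cells
  have h2X : 2 * X1 = X1 + Q ^ 8 * H := by
    have : Q ^ 8 * H = X1 := by rw [mul_comm]; exact hXH.symm
    omega
  calc ∑ x ∈ S, ‖∑ n ∈ Ico X1 (2 * X1), F x n‖ ^ 2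
      ≤ ∑ x ∈ S, ((Q ^ 8 : ℕ) : ℝ) * ∑ j ∈ range (Q ^ 8),
          ‖∑ n ∈ Ico (X1 + j * H) (X1 + j * H + H), F x n‖ ^ 2 := by
        refine Finset.sum_le_sum (fun x _ => ?_)
        rw [h2X, z2_cells]
        exact z2_cs _ _
    _ = ((Q ^ 8 : ℕ) : ℝ) * ∑ j ∈ range (Q ^ 8), ∑ x ∈ S,
          ‖∑ n ∈ Ico (X1 + j * H) (X1 + j * H + H), F x n‖ ^ 2 := by
        rw [← Finset.mul_sum, Finset.sum_comm]
    _ ≤ ((Q ^ 8 : ℕ) : ℝ) * ∑ j ∈ range (Q ^ 8), S.card * H ^ 2 * (Q : ℝ) ^ (-c) := by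
        refine mul_le_mul_of_nonneg_left ?_ (by positivity)
        exact Finset.sum_le_sum (fun j hj => hone j (mem_range.mp hj))
    _ = (X1 : ℝ) ^ 2 * S.card * (Q : ℝ) ^ (-c) := by
        rw [Finset.sum_const, card_range, nsmul_eq_mul]
        have h7 : (X1 : ℝ) = H * ((Q ^ 8 : ℕ) : ℝ) := by
          rw [← Nat.cast_mul]
          exact congrArg (Nat.cast : ℕ → ℝ) hXH
        rw [h7]
        ring

end Pool.Agent.H9P
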