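import Pool.Agent.Lib.H9P.U0
import Pool.Agent.Lib.H59P.A3
import Pool.Agent.Lib.H68T.PAGE2
import Pool.Agent.Lib.H68T.FINP

/-!
# ASYP, chunk U8 (M): arbitrarily large levels without exceptional zero
-/

open Finset Polynomial

namespace Pool.Agent.H9P

open Pool.Agent.Lib.H68T Pool.Agent.Lib.H18Q Pool.Agent.Lib.H59P Pool.Agent.Lib.H24P
open Pool.Agent.HUP

/-- A good level remains good for a smaller `Q` and a smaller constant: if `log N ≤ C log Q`, `Q ≤ N`, `0 < c`, `1 ≤ C`, then `Good c N → Good (c/C) Q` (unfold `Good`,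
`1 - (c/C)/log Q ≥ 1 - c/log N`). -/
theorem U8_mono (c C : ℝ) (hc : 0 < c) (hC : 1 ≤ C) (N Q : ℕ) (hQ : 2 ≤ Q) (hQN : Q ≤ N)
    (hl : Real.log N ≤ C * Real.log Q) (hN : Good c N) : Good (c / C) Q := by
  intro r _ ψ hr hp h1 h2 σ hσ hσ1
  refine hN r ψ (hr.trans hQN) hp h1 h2 σ (le_trans ?_ hσ) hσ1
  have hQ2 : (2 : ℝ) ≤ Q := by exact_mod_cast hQ
  have hQN' : (Q : ℝ) ≤ N := by exact_mod_cast hQN
  have hlQ : 0 < Real.log Q := Real.log_pos (by linarith)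
  have hlN : 0 < Real.log N := Real.log_pos (by linarith)
  have hC0 : 0 < C := by linarith
  have h3 : c / C / Real.log Q ≤ c / Real.log N := by
    rw [div_div]
    exact div_le_div_of_nonneg_left hc.le hlN hl
  linarith

/-- The integral part of the root of order `100`. -/
theorem u8_root (N : ℕ) : ∃ Q : ℕ, Q ^ 100 ≤ N ∧ N < (Q + 1) ^ 100 := by
  refine ⟨Nat.findGreatest (fun q => q ^ 100 ≤ N) N, ?_, ?_⟩
  · exact Nat.findGreatest_spec (P := fun q => q ^ 100 ≤ N) (Nat.zero_le N) (by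
      show 0 ^ 100 ≤ N
      rw [Nat.zero_pow (by norm_num)]
      exact Nat.zero_le N)
  · by_contra h
    have h1 := not_lt.1 h
    have h2 : Nat.findGreatest (fun q => q ^ 100 ≤ N) N + 1 ≤ N :=
      (Nat.le_self_pow (by norm_num) _).trans h1
    have h3 := Nat.le_findGreatest (P := fun q => q ^ 100 ≤ N) h2 h1
    omega

theorem u8_pow (Q N r : ℕ) (hQ : 2 ≤ Q) (hN : 0 < N) (h : N < (Q + 1) ^ r) :
    Real.log N ≤ 2 * r * Real.log Q := by
  have h2 : Q + 1 ≤ Q ^ 2 := by nlinarith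
  have h3 : (Q + 1) ^ r ≤ (Q ^ 2) ^ r := Nat.pow_le_pow_left h2 r
  have h4 : (N : ℝ) ≤ ((Q : ℝ) ^ 2) ^ r := by exact_mod_cast h.le.trans h3
  have hN0 : (0 : ℝ) < N := by exact_mod_cast hN
  have h5 := Real.log_le_log hN0 h4
  rw [Real.log_pow, Real.log_pow] at h5
  push_cast at h5
  linarith

/-- The bound for the errors may be enlarged. -/
theorem u8_mdl {Q X : ℕ} {η E E' : ℝ} {px : Ch} {th : ℤ → ℝ} (h : Mdl Q X η E px th) (hE : E ≤ E') :
    Mdl Q X η E' px th := by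
  refine ⟨h.eta_pos, h.eta_le, h.mem, h.real, h.cond, h.triv, h.nonneg, h.le, h.slow, ?_⟩
  obtain ⟨e, eb, b1, b2, b3⟩ := h.lev
  exact ⟨e, eb, b1, b2.trans (mul_le_mul_of_nonneg_left hE h.eta_pos.le), b3⟩

/-- **U8.** Proof. `c` from `good_levels` (`H68T/PAGE2.lean`). For a good `N` let `Q` be the largest integer with `Q^100 ≤ N`; `N < (Q+1)^100 ≤ Q^200`, so `log N ≤ 200 log Q ≤ 2 log Q^100`:
`Good (c/2) (Q^100)` and `Good (c/200) Q` (`U8_mono`). `mdl_good` (`H59P/A3.lean`) with the constants `c/2` and `c/200` gives `K1, C1, K2, C2`. Choose a natural number `kp` with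
`kp ≥ max` of `K1, K2, |K'|, 2` plus `1` and `C_i exp(-(kp/C_i)) ≤ E/2`. `M = Q^(100 kp)`, `Cr = 100 kp A`. For `M ≤ Y ≤ M^A`: `kp log(Q^100) ≤ log Y ≤ Cr log Q`; the regimes
`RegP K Q Y`, `RegP K (Q^100) Y` for `K ≤ kp` and `Q` large (`K ≤ log log Y`, `K log log Y ≤ log Q`; compare the proof of `N1_level` in `H9A/N1.lean`, `A3S` in `H9U/A3.lean`), and
`C exp(-(kp/C)) + Q^(-1/4) ≤ E` for `Q` large; the bound in `Mdl.lev` may be enlarged (`LevE` is monotone in `E`). `Q`, `M` are as large as we like. -/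
theorem U8_level (A : ℕ) (hA : 1 ≤ A) (E K' : ℝ) (hE : 0 < E) : ∃ Cr : ℝ, 1 ≤ Cr ∧
    ∀ M0 : ℕ, ∃ M Q : ℕ, M0 ≤ M ∧ M0 ≤ Q ∧ ∀ Y : ℕ, M ≤ Y → Y ≤ M ^ A →
      K' * Real.log Q ≤ Real.log Y ∧ Real.log Y ≤ Cr * Real.log Q ∧
      Mdl Q Y 1 E p0 (fun _ => 0) ∧ Mdl (Q ^ 100) Y 1 E p0 (fun _ => 0) := by
  obtain ⟨c, hc, hgl⟩ := good_levels
  obtain ⟨K, C, hK, hC, hgood⟩ := mdl_good (c / 200) (by positivity)
  obtain ⟨E1, hE1⟩ : ∃ E1 : ℝ, E1 = E / 2 := ⟨_, rfl⟩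
  have hE1p : 0 < E1 := by rw [hE1]; positivity
  obtain ⟨Kr, hKr⟩ : ∃ Kr : ℝ, Kr = |K'| + K + 1 := ⟨_, rfl⟩
  have haK := abs_nonneg K'
  have hleK := le_abs_self K'
  have hKr1 : 1 ≤ Kr := by rw [hKr]; linarith
  have hKrK : K ≤ Kr := by rw [hKr]; linarith
  have hKrK' : K' ≤ Kr := by rw [hKr]; linarith
  obtain ⟨kp, hkpr, hkpe⟩ : ∃ kp : ℕ, Kr ≤ (kp : ℝ) ∧ C * Real.exp (-((kp : ℝ) / C)) ≤ E1 := by
    refine ⟨⌈max Kr (C * (C / E1))⌉₊, (le_max_left _ _).trans (Nat.le_ceil _), ?_⟩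
    have h0 : max Kr (C * (C / E1)) ≤ (⌈max Kr (C * (C / E1))⌉₊ : ℝ) := Nat.le_ceil _
    obtain ⟨kp, hkp⟩ : ∃ kp : ℝ, kp = (⌈max Kr (C * (C / E1))⌉₊ : ℝ) := ⟨_, rfl⟩
    rw [← hkp] at h0 ⊢
    have hCp : 0 < C := by linarith
    have h1 : C / E1 ≤ kp / C := by
      rw [le_div_iff₀ hCp]
      calc C / E1 * C = C * (C / E1) := by ring
        _ ≤ kp := (le_max_right _ _).trans h0
    have h2 : C / E1 ≤ Real.exp (kp / C) := by
      have := Real.add_one_le_exp (kp / C)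
      linarith
    rw [Real.exp_neg, ← div_eq_mul_inv, div_le_iff₀ (Real.exp_pos _)]
    rw [div_le_iff₀ hE1p] at h2
    linarith
  have hkp1 : (1 : ℝ) ≤ kp := hKr1.trans hkpr
  have hkp1' : 1 ≤ kp := by exact_mod_cast hkp1
  have hA' : (1 : ℝ) ≤ A := by exact_mod_cast hA
  obtain ⟨Cr, hCr⟩ : ∃ Cr : ℝ, Cr = A * (100 * kp) := ⟨_, rfl⟩
  have hCr1 : 1 ≤ Cr := by
    rw [hCr]
    nlinarith
  have hlogCr : 0 ≤ Real.log Cr := Real.log_nonneg hCr1
  have hlogE : 0 ≤ Real.log (1 / E1 + 1) := Real.log_nonneg (by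
    have : 0 < 1 / E1 := by positivity
    linarith)
  refine ⟨Cr, hCr1, fun M0 => ?_⟩
  obtain ⟨L0, hL0⟩ := Filter.eventually_atTop.mp ((ev_log (2 * Kr) 1 one_pos).and
    (Filter.eventually_ge_atTop (Real.exp Kr + 2 * Kr * Real.log Cr + 4 * Real.log (1 / E1 + 1))))
  obtain ⟨R0, hR0⟩ : ∃ R0 : ℕ, R0 = max 2 (max M0 ⌈Real.exp (max L0 1)⌉₊) := ⟨_, rfl⟩
  obtain ⟨N, hN, hNg⟩ := hgl (R0 ^ 100)
  obtain ⟨Q, hQN, hNQ⟩ := u8_root N
  have hQR : R0 ≤ Q := by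
    have h1 : R0 ^ 100 < (Q + 1) ^ 100 := lt_of_le_of_lt hN hNQ
    have h2 := lt_of_pow_lt_pow_left₀ 100 (Nat.zero_le _) h1
    omega
  have hQ2 : 2 ≤ Q := by
    have : 2 ≤ R0 := by rw [hR0]; exact le_max_left _ _
    omega
  have hQM0 : M0 ≤ Q := by
    have : M0 ≤ R0 := by rw [hR0]; exact (le_max_left _ _).trans (le_max_right _ _)
    omega
  have hQe' : ⌈Real.exp (max L0 1)⌉₊ ≤ Q := by
    have : ⌈Real.exp (max L0 1)⌉₊ ≤ R0 := by rw [hR0]; exact (le_max_right _ _).trans (le_max_right _ _)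
    omega
  have hQe : Real.exp (max L0 1) ≤ (Q : ℝ) := (Nat.le_ceil _).trans (by exact_mod_cast hQe')
  have hQ0 : (0 : ℝ) < Q := lt_of_lt_of_le (Real.exp_pos _) hQe
  obtain ⟨q, hq⟩ : ∃ q, q = Real.log Q := ⟨_, rfl⟩
  have hqge : max L0 1 ≤ q := by
    rw [hq, Real.le_log_iff_exp_le hQ0]; exact hQe
  have hq1 : 1 ≤ q := (le_max_right _ _).trans hqge
  obtain ⟨e1, e2⟩ := hL0 q ((le_max_left _ _).trans hqge)
  rw [Real.rpow_one] at e1
  have p1 : 0 < Real.exp Kr := Real.exp_pos _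
  have p2 : 0 ≤ 2 * Kr * Real.log Cr := by positivity
  have hqa : Real.exp Kr ≤ q := by linarith
  have hqc : 2 * Kr * Real.log Cr ≤ q := by linarith
  have hqd : 4 * Real.log (1 / E1 + 1) ≤ q := by linarith
  have hQ1 : 1 ≤ Q := by omega
  have hMQ : Q ≤ Q ^ (100 * kp) := Nat.le_self_pow (by omega) Q
  -- the levels are good
  have hlN : Real.log N ≤ 200 * q := by
    have h1 := u8_pow Q N 100 hQ2 (lt_of_lt_of_le (Nat.pow_pos hQ1) hQN) hNQ
    rw [← hq] at h1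
    push_cast at h1
    linarith
  have hl100 : Real.log ((Q ^ 100 : ℕ) : ℝ) = 100 * q := by
    rw [Nat.cast_pow, Real.log_pow, ← hq]
    norm_num
  have hg1 : Good (c / 200) Q := by
    refine U8_mono c 200 hc (by norm_num) N Q hQ2 ((Nat.le_self_pow (by norm_num) Q).trans hQN) ?_ hNg
    rw [← hq]
    exact hlN
  have hg2 : Good (c / 200) (Q ^ 100) := by
    refine U8_mono c 200 hc (by norm_num) N (Q ^ 100) (hQ2.trans (Nat.le_self_pow (by norm_num) Q)) hQN ?_ hNg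
    rw [hl100]
    linarith
  refine ⟨Q ^ (100 * kp), Q, hQM0.trans hMQ, hQM0, fun Y hY1 hY2 => ?_⟩
  have hM0 : (0 : ℝ) < (Q : ℝ) ^ (100 * kp) := pow_pos hQ0 _
  have hY1' : (Q : ℝ) ^ (100 * kp) ≤ Y := by exact_mod_cast hY1
  have hY2' : (Y : ℝ) ≤ ((Q : ℝ) ^ (100 * kp)) ^ A := by exact_mod_cast hY2
  have hY0 : (0 : ℝ) < Y := lt_of_lt_of_le hM0 hY1'
  have g1 : 100 * (kp * q) ≤ Real.log Y := by
    have h3 := Real.log_le_log hM0 hY1'
    rw [Real.log_pow, ← hq] at h3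
    push_cast at h3
    linarith
  have g2 : Real.log Y ≤ Cr * q := by
    have h3 := Real.log_le_log hY0 hY2'
    rw [Real.log_pow, Real.log_pow, ← hq] at h3
    push_cast at h3
    rw [hCr]
    linarith
  have hkq : q ≤ kp * q := by
    have : 1 * q ≤ kp * q := mul_le_mul_of_nonneg_right hkp1 (by linarith)
    linarith
  have hKq : Kr * q ≤ kp * q := mul_le_mul_of_nonneg_right hkpr (by linarith)
  have hKq' : K' * q ≤ kp * q := mul_le_mul_of_nonneg_right (hKrK'.trans hkpr) (by linarith)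
  have g3 : q ≤ Real.log Y := by linarith
  have hlY : 0 < Real.log Y := by linarith
  have k0 : Kr ≤ Real.log (Real.log Y) := by
    rw [Real.le_log_iff_exp_le hlY]
    linarith
  have k3 : Kr * Real.log (Real.log Y) ≤ q := by
    have k1 : Real.log (Real.log Y) ≤ Real.log Cr + Real.log q := by
      have := Real.log_le_log hlY g2
      rwa [Real.log_mul (by linarith) (by linarith)] at this
    have k2 : Kr * Real.log (Real.log Y) ≤ Kr * (Real.log Cr + Real.log q) :=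
      mul_le_mul_of_nonneg_left k1 (by linarith)
    have k3 : Kr * (Real.log Cr + Real.log q) = (2 * Kr * Real.log Cr) / 2 + (2 * Kr * Real.log q) / 2 := by
      ring
    linarith
  have hreg1 : RegP Kr Q Y := by
    refine ⟨k0, ?_, ?_⟩
    · rw [← hq]
      exact k3
    · rw [← hq]
      linarith
  have hreg2 : RegP Kr (Q ^ 100) Y := by
    refine ⟨k0, ?_, ?_⟩
    · rw [hl100]
      linarith
    · rw [hl100]
      linarith
  have herr1 : (Q : ℝ) ^ (-(1 / 4) : ℝ) ≤ E1 := by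
    rw [Real.rpow_def_of_pos hQ0, ← hq]
    have g3 : Real.exp (q * -(1 / 4)) ≤ Real.exp (-Real.log (1 / E1 + 1)) :=
      Real.exp_le_exp.2 (by linarith)
    refine g3.trans ?_
    have g4 : 0 < 1 / E1 + 1 := by positivity
    rw [Real.exp_neg, Real.exp_log g4, inv_eq_one_div, div_le_iff₀ g4]
    have g5 : E1 * (1 / E1 + 1) = 1 + E1 := by field_simp
    linarith
  have herr2 : ((Q ^ 100 : ℕ) : ℝ) ^ (-(1 / 4) : ℝ) ≤ E1 := by
    refine le_trans ?_ herr1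
    refine Real.rpow_le_rpow_of_nonpos hQ0 ?_ (by norm_num)
    exact_mod_cast Nat.le_self_pow (by norm_num) Q
  have hm1 := hgood kp (hKrK.trans hkpr) Q Y (hreg1.mono (by linarith) hKrK) (by rw [← hq]; linarith) hg1
  have hm2 := hgood kp (hKrK.trans hkpr) (Q ^ 100) Y (hreg2.mono (by linarith) hKrK) (by rw [hl100]; linarith) hg2
  refine ⟨by rw [← hq]; linarith, by rw [← hq]; exact g2, u8_mdl hm1 ?_, u8_mdl hm2 ?_⟩
  · rw [hE1] at hkpe herr1
    linarith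
  · rw [hE1] at hkpe herr2
    linarith

end Pool.Agent.H9P
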