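import Pool.Agent.Lib.H9P.U0

/-!
# ASYP, second part: EVERY large `N`, exceptional proportion `(log N)^(-c)`. Definitions
-/

open Finset Polynomial

namespace Pool.Agent.H9P

open Pool.Agent.Lib.H68T Pool.Agent.Lib.H18Q Pool.Agent.Lib.H59P Pool.Agent.Lib.H24P
open Pool.Agent.HUP

noncomputable section

/-- Everything that is used of the level `Q` at the scale `Z`: coefficients of the projections for all lengths, and in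
every small box (`Cl`) the model is `X1` times the singular series truncated at `Q`, up to `X1 (ε SSf + Q^(-c1))`, for all but a
proportion `ϑ` of the parameters without fixed divisor. -/
structure Lvl (k A E : ℕ) (Cc cc : ℝ) (Q Z : ℕ) (ε c1 ϑ : ℝ) : Prop where
  cf : ∀ Y : ℕ, Z ≤ Y ^ 2 → Y ≤ Z ^ (A + 2) → ∃ (B : ℤ → Ch → ℂ) (mb : Ch → ℝ), Cf Q Y B mb
  cell : ∀ P : Fin k → ℤ[X], Pol A P → ∀ (X1 Y : ℕ) (M : Fin k → ℕ) (B : ℤ[X]), GeoV Q Z X1 P M →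
    GeoB A Z X1 Y B → Z ≤ Y ^ 2 → Y ≤ Z ^ (A + 2) → (∀ i, Z ≤ Ysc (M i) ^ 2 ∧ Ysc (M i) ≤ Z ^ (A + 2)) →
    ∀ (ι : Type) (S : Finset ι) (g : ι → Fin k → ℕ) (h0 : Fin k → ℕ), Cl E Cc cc Q P M S g h0 →
    open Classical in
    ((S.filter (fun x => NoFix (sys B P (g x)) ∧ X1 * (ε * SSf (pr Q) (sys B P (g x)) + (Q : ℝ) ^ (-c1)) <
      |Rw Q X1 P M (fun n => lp (B.eval (n : ℤ))) (g x) - X1 * SSf (pr Q) (sys B P (g x))|)).card : ℝ) ≤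
      S.card * ϑ

/-- The exceptional case of `L_levels` (`H24P/L.lean`): a real character `ψ` modulo `r` with the real zero `β`. -/
def LvX (A Q Z : ℕ) (E0 : ℝ) : Prop := ∃ (r : ℕ) (_ : NeZero r) (ψ : DirichletCharacter ℂ r) (β η : ℝ), r ^ 100 ≤ Q ∧
  ψ.IsPrimitive ∧ ψ ≠ 1 ∧ ψ ^ 2 = 1 ∧ β < 1 ∧ ψ.LFunction (β : ℂ) = 0 ∧ 1 - β ≤ 2 * η ∧
  ∀ Y : ℕ, Z ≤ Y ^ 2 → Y ≤ Z ^ (A + 2) →
    Mdl Q Y η E0 ⟨r, ψ⟩ (fun m => (m : ℝ) ^ (β - 1)) ∧ Mdl (Q ^ 100) Y η E0 ⟨r, ψ⟩ (fun m => (m : ℝ) ^ (β - 1))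

open Classical in
/-- **The core statement for every large `Z`**, exceptional proportion a power of `log Z`. -/
def ECoreP {k d : ℕ} (c : Fin k → Fin d → ℤ) (e : Fin d → ℕ) (D : Fin k → ℕ) (P : Fin k → ℤ[X]) : Prop :=
  ∃ δ1 : ℝ, 0 < δ1 ∧ ∀ A : ℕ, ∃ c0 : ℝ, 0 < c0 ∧ ∀ ε δ : ℝ, 0 < ε → 0 < δ → ∃ Z0 : ℕ,
    ∀ Z : ℕ, Z0 ≤ Z → ∀ B : ℤ[X], Dec A Z B → ∀ β : Fin k → ℤ, (∀ i, |β i| ≤ A * (Z : ℤ) ^ D i) →
    ∀ z : ℕ, (Z : ℝ) ^ δ ≤ z → (z : ℝ) ≤ (Z : ℝ) ^ δ1 →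
    (((tb 0 fun j => A * Z ^ e j + 1).filter fun t => (∀ i, 0 ≤ β i + lf c t i) ∧ NoFix (sys B P (hh c β t)) ∧
      ε * (Z * dens D z Z (sys B P (hh c β t))) <
        |(cnt (sys B P (hh c β t)) 1 Z : ℝ) - Z * dens D z Z (sys B P (hh c β t))|).card : ℝ) ≤
      (Z : ℝ) ^ (∑ j, (e j : ℝ)) * (Real.log Z) ^ (-c0)

end

end Pool.Agent.H9P
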