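import Pool.Agent.Lib.H9P.V9
import Pool.Agent.Lib.H9P.U14

/-!
# ASYP, chunk V14 (M): one cell of `n`, all parameters, from an abstract level
-/

open Finset Polynomial

namespace Pool.Agent.H9P

open Pool.Agent.Lib.H68T Pool.Agent.Lib.H18Q Pool.Agent.Lib.H59P Pool.Agent.Lib.H24P
open Pool.Agent.HUP

theorem v14_half {Q : ℕ} {c1 c3 : ℝ} (hQ0 : (0 : ℝ) < Q) (hQ1 : (1 : ℝ) ≤ Q) (h2 : 2 ≤ (Q : ℝ) ^ c3) (h : 2 * c3 ≤ c1) :
    (Q : ℝ) ^ (-c1) ≤ (Q : ℝ) ^ (-c3) / 2 := by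
  have g1 : (Q : ℝ) ^ (-c1) ≤ (Q : ℝ) ^ (-c3 + -c3) := Real.rpow_le_rpow_of_exponent_le hQ1 (by linarith)
  have g2 : (Q : ℝ) ^ (-c3 + -c3) = (Q : ℝ) ^ (-c3) * (Q : ℝ) ^ (-c3) := Real.rpow_add hQ0 _ _
  have g3 : (Q : ℝ) ^ (-c3) ≤ 1 / 2 := by
    rw [Real.rpow_neg hQ0.le, ← one_div]
    exact one_div_le_one_div_of_le (by norm_num) h2
  have g4 : 0 < (Q : ℝ) ^ (-c3) := Real.rpow_pos_of_pos hQ0 _
  nlinarith

open Classical in
/-- **V14** (copy of the proof of `U14_main` with `V9_box` in place of `U9_box`). -/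
theorem V14_main {k d : ℕ} (c : Fin k → Fin d → ℤ) (e : Fin d → ℕ) (D : Fin k → ℕ) (a : Fin k → ℤ)
    (hF : FGTU c D a) (hS : S4TU c e D a) (he : ∀ j, 1 ≤ e j) (hB : ∀ i j, c i j ≠ 0 → e j = D i)
    (hD : ∀ i, 1 ≤ D i) (P : Fin k → ℤ[X]) (hP : HasD D a P) (A : ℕ) (hA : 1 ≤ A)
    (hDA : ∀ i, D i ≤ A ∧ (a i).natAbs ≤ A) : ∃ (E : ℕ) (Cc cc K : ℝ), FPar Cc cc ∧ 1 ≤ K ∧ ∀ C c1 δ : ℝ, 0 < c1 → 0 < δ →
    ∃ (Cv ρ0 : ℝ), 1 ≤ Cv ∧ 0 < ρ0 ∧ ∀ ρ : ℝ, 0 < ρ → ρ ≤ ρ0 → ∃ c0 : ℝ, 0 < c0 ∧ ∃ Q0 : ℕ, ∀ Q Z : ℕ, Q0 ≤ Q → Rg K C Q Z →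
    ∀ ε ϑ : ℝ, 0 ≤ ϑ → Lvl k A E Cc cc Q Z ε c1 ϑ →
    ∀ X1 n0 : ℕ, Q ^ 800 ∣ X1 → ρ * Z ≤ 2 * X1 → X1 ≤ ρ * Z → n0 ≤ A * Z → ∀ B : ℤ[X], Lin A B →
    (∀ n ∈ Ico (n0 + X1) (n0 + 2 * X1), δ * Z ≤ ((B.eval (n : ℤ) : ℤ) : ℝ) ∧ ((B.eval (n : ℤ) : ℤ) : ℝ) ≤ A * Z) →
    ∀ β : Fin k → ℤ, (∀ i, |β i| ≤ A * (Z : ℤ) ^ D i) →
    (((tb 0 fun j => A * Z ^ e j + 1).filter fun t => (∀ i, 0 ≤ β i + lf c t i) ∧ NoFix (sys B P (hh c β t)) ∧
      (∀ i, δ * (Z : ℝ) ^ D i ≤ (((P i).eval (n0 : ℤ) + β i + lf c t i : ℤ) : ℝ)) ∧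
      X1 * (ε * SSf (pr Q) (sys B P (hh c β t)) + (Q : ℝ) ^ (-c0)) <
        |wct (sys B P (hh c β t)) (n0 + X1) X1 - X1 * SSf (pr Q) (sys B P (hh c β t))|).card : ℝ) ≤
      Cv * (Z : ℝ) ^ (∑ j, e j) * (ϑ + (Q : ℝ) ^ (-c0)) := by
  obtain ⟨Ef, Cf0, cf0, K9, hFP, hK9, h9⟩ := V9_box c e D a hF hS he hD A hA hDA
  obtain ⟨Cg, hCg, hgeo⟩ := U11_geo P A
  refine ⟨Ef, Cf0, cf0, K9 + 2000, hFP, by linarith, ?_⟩
  intro Cr c1 δ0 hc1 hδ0
  obtain ⟨τ, c2, hτ, hτ1, hc2, Q9, h9⟩ := h9 Cr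
  obtain ⟨c3, hc3, h31, h32⟩ : ∃ c3 : ℝ, 0 < c3 ∧ 2 * c3 ≤ c1 ∧ 2 * c3 ≤ c2 := by
    refine ⟨min c1 c2 / 2, by have := lt_min hc1 hc2; linarith, ?_, ?_⟩
    · have := min_le_left c1 c2
      linarith
    · have := min_le_right c1 c2
      linarith
  obtain ⟨δ, hδd⟩ : ∃ δ : ℝ, δ = min δ0 1 := ⟨_, rfl⟩
  have hδ : 0 < δ := by
    rw [hδd]
    exact lt_min hδ0 one_pos
  have hδ1 : δ ≤ 1 := by
    rw [hδd]
    exact min_le_right _ _
  have hδδ : δ ≤ δ0 := by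
    rw [hδd]
    exact min_le_left _ _
  have hev : ∀ i, ∃ Cp : ℕ, ∀ n0 Z : ℕ, 1 ≤ Z → n0 ≤ A * Z →
      |(P i).eval (n0 : ℤ)| ≤ Cp * (Z : ℤ) ^ (P i).natDegree := fun i => u14_eval (P i) A
  choose Cp hCp using hev
  obtain ⟨Ca, hCa⟩ : ∃ Ca, Ca = A + ∑ i, Cp i := ⟨_, rfl⟩
  obtain ⟨Cv, hCv, hcov⟩ := U14_cover c e D he hD hB Ca (by omega)
  have hAr : (1 : ℝ) ≤ A := by exact_mod_cast hA
  have hCgr : (1 : ℝ) ≤ Cg := by exact_mod_cast hCg
  have hCvr : (1 : ℝ) ≤ Cv := by exact_mod_cast hCv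
  refine ⟨Cv, min (δ / (4 * Cg)) (min (δ / A) (1 / 2)), hCvr, by positivity, ?_⟩
  intro ρ hρ hρ0
  have hρ1 : 4 * Cg * ρ ≤ δ := by
    have h1 := hρ0.trans (min_le_left _ _)
    rw [le_div_iff₀ (by positivity)] at h1
    linarith
  have hρ2 : A * ρ ≤ δ := by
    have h1 := hρ0.trans ((min_le_right _ _).trans (min_le_left _ _))
    rw [le_div_iff₀ (by positivity)] at h1
    linarith
  have hρ3 : ρ ≤ 1 / 2 := hρ0.trans ((min_le_right _ _).trans (min_le_right _ _))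
  obtain ⟨T, hT⟩ : ∃ T : ℝ, T = Cv / δ + 1 := ⟨_, rfl⟩
  have hT1 : 1 ≤ T := by
    rw [hT]
    have : (0 : ℝ) ≤ Cv / δ := by positivity
    linarith
  have hTδ : (Cv : ℝ) ≤ T * δ := by
    rw [hT, add_mul, div_mul_cancel₀ _ hδ.ne']
    linarith
  obtain ⟨Cc, hCc⟩ : ∃ Cc : ℕ, Cc = ∑ i, ∑ j, (c i j).natAbs := ⟨_, rfl⟩
  obtain ⟨b0, hb0⟩ : ∃ b0 : ℝ, b0 = min τ (min (1 / 8) c3) := ⟨_, rfl⟩
  have hb0p : 0 < b0 := by
    rw [hb0]
    exact lt_min hτ (lt_min (by norm_num) hc3)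
  have hb1 : b0 ≤ τ := by
    rw [hb0]
    exact min_le_left _ _
  have hb2 : b0 ≤ 1 / 8 := by
    rw [hb0]
    exact (min_le_right _ _).trans (min_le_left _ _)
  have hb3 : b0 ≤ c3 := by
    rw [hb0]
    exact (min_le_right _ _).trans (min_le_right _ _)
  obtain ⟨Q1, hQ1⟩ := u14_ev b0 hb0p (2 / ρ + Cv * (1 + 2 / ρ) ^ A + 2 * T + 2 * Cc / δ + 8 * Cv * T / δ +
    16 / δ ^ 2 + A + Cv + 2)
  refine ⟨c3, hc3, Q9 + Q1 + 2, ?_⟩
  intro Q Z hQ hRg ε ϑ hϑ hLv X1 n0 hX1d hX1l hX1u hn0 B hBL hBv β hβ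
  have hQ2 : 2 ≤ Q := by omega
  have hQr : (2 : ℝ) ≤ Q := by exact_mod_cast hQ2
  have hQ1r : (1 : ℝ) ≤ Q := by linarith
  have hQ0 : (0 : ℝ) < Q := by linarith
  have hΛ := hQ1 Q (by omega)
  have n1 : (0 : ℝ) ≤ 2 / ρ := by positivity
  have n2 : (0 : ℝ) ≤ Cv * (1 + 2 / ρ) ^ A := by positivity
  have n3 : (0 : ℝ) ≤ 2 * T := by positivity
  have n4 : (0 : ℝ) ≤ 2 * Cc / δ := by positivity
  have n5 : (0 : ℝ) ≤ 8 * Cv * T / δ := by positivity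
  have n6 : (0 : ℝ) ≤ 16 / δ ^ 2 := by positivity
  have hQbτ : (Q : ℝ) ^ b0 ≤ (Q : ℝ) ^ τ := Real.rpow_le_rpow_of_exponent_le hQ1r hb1
  have hQb8 : (Q : ℝ) ^ b0 ≤ (Q : ℝ) ^ (1 / 8 : ℝ) := Real.rpow_le_rpow_of_exponent_le hQ1r hb2
  have hQbc : (Q : ℝ) ^ b0 ≤ (Q : ℝ) ^ c3 := Real.rpow_le_rpow_of_exponent_le hQ1r hb3
  have hAr0 : (0 : ℝ) ≤ A := by linarith
  have hQc3 : 2 ≤ (Q : ℝ) ^ c3 := by linarith
  have hQbQ : (Q : ℝ) ^ b0 ≤ Q := by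
    calc (Q : ℝ) ^ b0 ≤ (Q : ℝ) ^ (1 : ℝ) := Real.rpow_le_rpow_of_exponent_le hQ1r (by linarith)
      _ = Q := Real.rpow_one _
  have hQ12 : (Q : ℝ) ^ 12 ≤ Z := u14_rg (by linarith) hQ2 hRg
  have hQZ : (Q : ℝ) ≤ Z := by
    refine le_trans ?_ hQ12
    calc (Q : ℝ) = (Q : ℝ) ^ 1 := (pow_one _).symm
      _ ≤ (Q : ℝ) ^ 12 := pow_le_pow_right₀ hQ1r (by norm_num)
  have hZr : (1 : ℝ) ≤ Z := by linarith
  have hZ0 : (0 : ℝ) < Z := by linarith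
  have hZ1 : 1 ≤ Z := by exact_mod_cast hZr
  have hX1p : 0 < X1 := by
    have h1 : (0 : ℝ) < 2 * X1 := lt_of_lt_of_le (by positivity) hX1l
    have h2 : (0 : ℝ) < X1 := by linarith
    exact_mod_cast h2
  have hX1r : (0 : ℝ) < X1 := by exact_mod_cast hX1p
  have hZX : (Z : ℝ) ≤ (2 / ρ) * X1 := by
    rw [div_mul_eq_mul_div, le_div_iff₀ hρ]
    linarith
  have h2X1 : 2 * X1 ≤ Z := by
    have h1 : 2 * (X1 : ℝ) ≤ Z := by nlinarith
    exact_mod_cast h1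
  -- the translated data
  obtain ⟨β', hβ'⟩ : ∃ β' : Fin k → ℤ, β' = fun i => β i + (P i).eval (n0 : ℤ) := ⟨_, rfl⟩
  have hβ'b : ∀ i, |β' i| ≤ Ca * (Z : ℤ) ^ D i := by
    intro i
    rw [hβ']
    refine (abs_add_le _ _).trans ?_
    have h1 := hCp i n0 Z hZ1 hn0
    rw [(hP i).1] at h1
    have h2 := hβ i
    have h3 : ((Cp i : ℕ) : ℤ) ≤ ((∑ i, Cp i : ℕ) : ℤ) := by
      exact_mod_cast Finset.single_le_sum (f := Cp) (fun _ _ => Nat.zero_le _) (mem_univ i)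
    have h4 : ((Cp i : ℕ) : ℤ) * (Z : ℤ) ^ D i ≤ ((∑ i, Cp i : ℕ) : ℤ) * (Z : ℤ) ^ D i :=
      mul_le_mul_of_nonneg_right h3 (by positivity)
    calc |β i| + |(P i).eval (n0 : ℤ)| ≤ A * (Z : ℤ) ^ D i + ((∑ i, Cp i : ℕ) : ℤ) * (Z : ℤ) ^ D i := by linarith
      _ = Ca * (Z : ℤ) ^ D i := by
        rw [hCa]
        push_cast
        ring
  have hHD := U11_hasD D a P hP hD n0
  have hBv' : ∀ n ∈ Ico (n0 + X1) (n0 + 2 * X1), δ * Z ≤ ((B.eval (n : ℤ) : ℤ) : ℝ) ∧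
      ((B.eval (n : ℤ) : ℤ) : ℝ) ≤ A * Z := by
    intro n hn
    obtain ⟨h1, h2⟩ := hBv n hn
    exact ⟨(mul_le_mul_of_nonneg_right hδδ hZ0.le).trans h1, h2⟩
  have hAX : (A : ℝ) * X1 ≤ δ * Z := by
    calc (A : ℝ) * X1 ≤ A * (ρ * Z) := mul_le_mul_of_nonneg_left hX1u (by positivity)
      _ = (A * ρ) * Z := by ring
      _ ≤ δ * Z := mul_le_mul_of_nonneg_right hρ2 hZ0.le
  obtain ⟨Y, hYB, hY1, hY2⟩ := U11_geoB A hA δ hδ Z X1 n0 hX1p hAX B hBL hBv'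
  have hδZ : 16 / δ ^ 2 ≤ Z := by
    have hA0 : (0 : ℝ) ≤ A := by linarith
    linarith
  have hδ2 : 16 ≤ Z * δ ^ 2 := by
    rw [div_le_iff₀ (by positivity)] at hδZ
    exact hδZ
  have hYa : Z ≤ Y ^ 2 := by
    have h1 : (δ * Z) ^ 2 ≤ (Y : ℝ) ^ 2 := pow_le_pow_left₀ (by positivity) hY1 2
    have h2 : (Z : ℝ) ≤ (δ * Z) ^ 2 := by
      have h3 : (δ * Z) ^ 2 = Z * (Z * δ ^ 2) := by ring
      rw [h3]
      have h4 : (Z : ℝ) * 16 ≤ Z * (Z * δ ^ 2) := mul_le_mul_of_nonneg_left hδ2 hZ0.le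
      linarith
    have h3 : (Z : ℝ) ≤ (Y : ℝ) ^ 2 := h2.trans h1
    exact_mod_cast h3
  have hYb : Y ≤ Z ^ (A + 2) := by
    have hAZ : (A : ℝ) ≤ Z := by linarith
    have h1 : (Y : ℝ) ≤ (Z : ℝ) ^ (A + 2) := by
      calc (Y : ℝ) ≤ A * Z := by exact_mod_cast hY2
        _ ≤ Z * Z := mul_le_mul_of_nonneg_right hAZ hZ0.le
        _ = (Z : ℝ) ^ 2 := by ring
        _ ≤ (Z : ℝ) ^ (A + 2) := pow_le_pow_right₀ hZr (by omega)
    exact_mod_cast h1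
  have hcov' := hcov Z (8 * Q ^ 10) T δ (ϑ + (Q : ℝ) ^ (-c2))
    (by have := Nat.one_le_pow 10 Q (by omega); omega) hδ hδ1 hTδ (add_nonneg hϑ (by positivity))
    (by
      push_cast
      have h1 : 8 * Cv * T / δ ≤ Q := by
        have hA0 : (0 : ℝ) ≤ A := by linarith
        linarith
      rw [div_le_iff₀ hδ] at h1
      have h2 : (Q : ℝ) * (Q : ℝ) ^ 10 ≤ Z := by
        refine le_trans ?_ hQ12
        calc (Q : ℝ) * (Q : ℝ) ^ 10 = (Q : ℝ) ^ 11 := by ring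
          _ ≤ (Q : ℝ) ^ 12 := pow_le_pow_right₀ hQ1r (by norm_num)
      calc (Cv : ℝ) * T * (8 * (Q : ℝ) ^ 10) = (8 * Cv * T) * (Q : ℝ) ^ 10 := by ring
        _ ≤ (Q * δ) * (Q : ℝ) ^ 10 := mul_le_mul_of_nonneg_right h1 (by positivity)
        _ = (Q * (Q : ℝ) ^ 10) * δ := by ring
        _ ≤ Z * δ := mul_le_mul_of_nonneg_right h2 hδ.le)
    β' hβ'b
    (fun t => (∀ i, 0 ≤ β i + lf c t i) ∧ NoFix (sys B P (hh c β t)) ∧
      X1 * (ε * SSf (pr Q) (sys B P (hh c β t)) + (Q : ℝ) ^ (-c3)) <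
        |wct (sys B P (hh c β t)) (n0 + X1) X1 - X1 * SSf (pr Q) (sys B P (hh c β t))|)
    (fun M b s hM hs h1 h2 h3 h4 h5 => by
      have hMr : ∀ i, (M i : ℝ) ≤ (Q : ℝ) ^ b0 * (X1 : ℝ) ^ D i := by
        intro i
        have h6 : (Z : ℝ) ^ D i ≤ ((2 / ρ) * X1) ^ D i := pow_le_pow_left₀ hZ0.le hZX _
        have h7 : (2 / ρ) ^ D i ≤ (1 + 2 / ρ) ^ A := by
          calc (2 / ρ) ^ D i ≤ (1 + 2 / ρ) ^ D i := pow_le_pow_left₀ n1 (by linarith) _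
            _ ≤ (1 + 2 / ρ) ^ A := pow_le_pow_right₀ (by linarith) (hDA i).1
        calc (M i : ℝ) ≤ Cv * (Z : ℝ) ^ D i := h2 i
          _ ≤ Cv * ((2 / ρ) * X1) ^ D i := mul_le_mul_of_nonneg_left h6 (by positivity)
          _ = (Cv * (2 / ρ) ^ D i) * (X1 : ℝ) ^ D i := by rw [mul_pow]; ring
          _ ≤ (Cv * (1 + 2 / ρ) ^ A) * (X1 : ℝ) ^ D i := by
            apply mul_le_mul_of_nonneg_right _ (by positivity)
            exact mul_le_mul_of_nonneg_left h7 (by positivity)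
          _ ≤ (Q : ℝ) ^ b0 * (X1 : ℝ) ^ D i := by
            apply mul_le_mul_of_nonneg_right _ (by positivity)
            linarith
      have hM8 : ∀ i, 8 ∣ M i := fun i => (Dvd.intro _ rfl).trans (hM i)
      have hX1Z : X1 ≤ Z := by omega
      have hZXQ : Z ≤ X1 * Q := by
        have h6 : (Z : ℝ) ≤ X1 * Q := by
          refine hZX.trans ?_
          rw [mul_comm]
          exact mul_le_mul_of_nonneg_left (by linarith) hX1r.le
        exact_mod_cast h6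
      have hGeoU : GeoU A Q Z X1 (fun i => shf n0 (P i)) M := by
        refine hgeo Q Z Z X1 n0 M hZ1 hn0 h2X1 hX1d hX1p hX1Z hZXQ (fun i => ?_) (fun i => ?_) (fun i => ?_)
          (fun i => ?_)
        · refine Dvd.dvd.trans ?_ (hM i)
          exact Nat.mul_dvd_mul_left 8 (pow_dvd_pow Q (by norm_num))
        · rw [(hP i).1]
          have h6 : (Cg : ℝ) * X1 * (Z : ℝ) ^ D i ≤ Z * M i := by
            have h7 : (Cg : ℝ) * X1 ≤ Cg * (ρ * Z) := mul_le_mul_of_nonneg_left hX1u (by positivity)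
            have h8 : (Cg : ℝ) * (ρ * Z) ≤ (δ / 2) * Z := by nlinarith
            calc (Cg : ℝ) * X1 * (Z : ℝ) ^ D i ≤ ((δ / 2) * Z) * (Z : ℝ) ^ D i :=
                  mul_le_mul_of_nonneg_right (h7.trans h8) (by positivity)
              _ = Z * (δ * (Z : ℝ) ^ D i / 2) := by ring
              _ ≤ Z * M i := mul_le_mul_of_nonneg_left (by linarith [h1 i]) hZ0.le
          exact_mod_cast h6
        · rw [(hP i).1, mul_comm]
          exact (hMr i).trans (mul_le_mul_of_nonneg_right hQb8 (by positivity))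
        · rw [(hP i).1]
          exact hD i
      have hcell := h9 (fun i => shf n0 (P i)) hHD Q Z X1 Y M (B.comp (X + C (n0 : ℤ))) b s β' (by omega)
        ⟨by
          have hlogQ : 0 ≤ Real.log Q := Real.log_nonneg hQ1r
          have := hRg.1
          nlinarith, hRg.2⟩ hGeoU hYB
        (by
          refine hZX.trans ?_
          rw [mul_comm]
          exact mul_le_mul_of_nonneg_left (by linarith) hX1r.le)
        (fun i => by
          rw [(hHD i).1, mul_comm]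
          exact (hMr i).trans (mul_le_mul_of_nonneg_right hQbτ (by positivity)))
        (fun j => (h3 j).trans (mul_le_mul_of_nonneg_right (by linarith) (by positivity)))
        (fun j => (h4 j).trans (le_mul_of_one_le_left (by positivity) (by
          exact Real.one_le_rpow hQ1r hτ.le)))
        (fun j => (Dvd.intro_left _ rfl).trans (hs j))
        (fun i => by
          have h6 : ∀ j ∈ (univ : Finset (Fin d)), ((|c i j| * (s j : ℤ) : ℤ) : ℝ) ≤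
              ((c i j).natAbs : ℝ) * (Z : ℝ) ^ D i := by
            intro j _
            push_cast
            rw [Nat.cast_natAbs, Int.cast_abs]
            by_cases hc : c i j = 0
            · rw [hc]
              simp
            · have h7 := h4 j
              rw [hB i j hc] at h7
              exact mul_le_mul_of_nonneg_left h7 (abs_nonneg _)
          have h7 : ((∑ j, |c i j| * (s j : ℤ) : ℤ) : ℝ) ≤ ((Q : ℤ) * (M i : ℤ) : ℤ) := by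
            rw [Int.cast_sum]
            refine (Finset.sum_le_sum h6).trans ?_
            rw [← Finset.sum_mul]
            have h8 : ∑ j, ((c i j).natAbs : ℝ) ≤ Cc := by
              have h9 : ∑ j, (c i j).natAbs ≤ Cc := by
                rw [hCc]
                exact Finset.single_le_sum (f := fun i => ∑ j, (c i j).natAbs) (fun _ _ => Nat.zero_le _)
                  (mem_univ i)
              exact_mod_cast h9
            have h9 : 2 * Cc / δ ≤ Q := by linarith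
            rw [div_le_iff₀ hδ] at h9
            push_cast
            calc (∑ j, ((c i j).natAbs : ℝ)) * (Z : ℝ) ^ D i ≤ Cc * (Z : ℝ) ^ D i :=
                  mul_le_mul_of_nonneg_right h8 (by positivity)
              _ = (2 * Cc) * (Z : ℝ) ^ D i / 2 := by ring
              _ ≤ (Q * δ) * (Z : ℝ) ^ D i / 2 := by
                apply div_le_div_of_nonneg_right _ (by norm_num)
                exact mul_le_mul_of_nonneg_right h9 (by positivity)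
              _ = Q * (δ * (Z : ℝ) ^ D i / 2) := by ring
              _ ≤ Q * M i := mul_le_mul_of_nonneg_left (by linarith [h1 i]) hQ0.le
          exact_mod_cast h7)
        hYa hYb
        (fun i => u14_ysc (A := A) hδ (hM8 i) (hD i) (hDA i).1 hZ1 (h1 i) (h2 i) hδZ (by linarith))
        h5 ε c1 ϑ hLv
      refine le_trans (Nat.cast_le.2 (Finset.card_le_card ?_)) hcell
      intro t ht
      rw [mem_filter] at ht ⊢
      obtain ⟨ht1, ht2, htN, ht3⟩ := ht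
      refine ⟨ht1, ?_⟩
      have h6 : ∀ i, 0 ≤ (P i).eval (n0 : ℤ) + β i + lf c t i := by
        intro i
        have h7 := (h5 t ht1 i).1
        rw [hβ'] at h7
        have h8 : (0 : ℤ) ≤ M i := by positivity
        have h9 : (P i).eval (n0 : ℤ) + β i + lf c t i = β i + (P i).eval (n0 : ℤ) + lf c t i := by ring
        rw [h9]
        simp only at h7
        linarith
      have h7 := U11_sys c B P n0 β t ht2 h6
      rw [← hβ'] at h7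
      have h8 : RPh X1 (B.comp (X + C (n0 : ℤ))) (fun i => shf n0 (P i)) (hh c β' t) =
          wct (sys B P (hh c β t)) (n0 + X1) X1 := by
        rw [U11_wct, h7, U11_wct_add]
      have h9 : SSf (pr Q) (sys (B.comp (X + C (n0 : ℤ))) (fun i => shf n0 (P i)) (hh c β' t)) =
          SSf (pr Q) (sys B P (hh c β t)) := by
        rw [h7]
        exact U11_SS (sys B P (hh c β t)) (P2_sys B P (hh c β t)) (pr Q) (n0 : ℤ)
      rw [h8, h9]
      refine ⟨?_, ?_⟩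
      · rw [h7]
        intro l hl
        obtain ⟨n, hn⟩ := htN l hl
        refine ⟨n - n0, fun i => ?_⟩
        simp only [add_sub_cancel]
        exact hn i
      · refine lt_of_le_of_lt ?_ ht3
        apply mul_le_mul_of_nonneg_left _ hX1r.le
        have h10 := v14_half hQ0 hQ1r hQc3 h31
        have h11 := v14_half hQ0 hQ1r hQc3 h32
        linarith)
  refine le_trans (Nat.cast_le.2 (Finset.card_le_card ?_)) (hcov'.trans ?_)
  · intro t ht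
    rw [mem_filter] at ht ⊢
    obtain ⟨ht1, ht2, htN, ht3, ht4⟩ := ht
    refine ⟨?_, fun i => ?_, ht2, htN, ht4⟩
    · unfold tb at ht1 ⊢
      rw [Fintype.mem_piFinset] at ht1 ⊢
      intro j
      have h2 := ht1 j
      rw [mem_Ico] at h2 ⊢
      refine ⟨h2.1, h2.2.trans_le ?_⟩
      have h3 : A * Z ^ e j + 1 ≤ Ca * Z ^ e j + 1 := by
        have : A ≤ Ca := by omega
        have := Nat.mul_le_mul_right (Z ^ e j) this
        omega
      have h4 : ((A * Z ^ e j + 1 : ℕ) : ℤ) ≤ ((Ca * Z ^ e j + 1 : ℕ) : ℤ) := by exact_mod_cast h3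
      linarith
    · have h3 := ht3 i
      rw [hβ']
      have h4 : β i + (P i).eval (n0 : ℤ) + lf c t i = (P i).eval (n0 : ℤ) + β i + lf c t i := by ring
      simp only
      rw [h4]
      exact (mul_le_mul_of_nonneg_right hδδ (by positivity)).trans h3
  · have h1 : (Q : ℝ) ^ (-c2) ≤ (Q : ℝ) ^ (-c3) := Real.rpow_le_rpow_of_exponent_le hQ1r (by linarith)
    calc (Cv : ℝ) * (ϑ + (Q : ℝ) ^ (-c2)) * (Z : ℝ) ^ (∑ j, e j)
        = Cv * (Z : ℝ) ^ (∑ j, e j) * (ϑ + (Q : ℝ) ^ (-c2)) := by ring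
      _ ≤ Cv * (Z : ℝ) ^ (∑ j, e j) * (ϑ + (Q : ℝ) ^ (-c3)) :=
        mul_le_mul_of_nonneg_left (by linarith) (by positivity)

end Pool.Agent.H9P
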