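import Pool.Agent.Lib.H9P.E3
import Pool.Agent.Lib.H9P.V14
import Pool.Agent.Lib.H9P.U16

/-!
# ASYP, chunk V16 (M): the core theorem for every large `Z`
-/

open Finset Polynomial

namespace Pool.Agent.H9P

open Pool.Agent.Lib.H68T Pool.Agent.Lib.H18Q Pool.Agent.Lib.H59P Pool.Agent.Lib.H24P
open Pool.Agent.HUP

/-- The cells. -/
theorem v16_num (Qm Z : ℕ) (ρ θ : ℝ) (hρ : 0 < ρ) (hρθ : ρ ≤ θ / 8) (hθ : θ ≤ 1 / 4) (hQ : 0 < Qm)
    (hZ : 2 * (Qm : ℝ) ≤ ρ * Z) :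
    ∃ X1 ja jb : ℕ, Qm ∣ X1 ∧ 0 < X1 ∧ ρ * Z ≤ 2 * X1 ∧ (X1 : ℝ) ≤ ρ * Z ∧ ja ≤ jb ∧
      (((ja + 1) * X1 : ℕ) : ℝ) ≤ θ * Z ∧ (1 - θ) * Z ≤ ((jb + 1) * X1 : ℕ) ∧
      (((jb + 1) * X1 : ℕ) : ℝ) ≤ (1 - θ / 2) * Z ∧ θ / 4 * Z ≤ ((ja * X1 : ℕ) : ℝ) ∧ (jb : ℝ) ≤ 2 / ρ := by
  have hQr : (0 : ℝ) < Qm := by exact_mod_cast hQ
  have hZr : (0 : ℝ) < Z := by
    rcases Nat.eq_zero_or_pos Z with h | h
    · rw [h, Nat.cast_zero, mul_zero] at hZ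
      linarith
    · exact_mod_cast h
  obtain ⟨m, hm⟩ : ∃ m, m = ⌊ρ * Z / Qm⌋₊ := ⟨_, rfl⟩
  have hm1 : (m : ℝ) ≤ ρ * Z / Qm := by rw [hm]; exact Nat.floor_le (by positivity)
  have hm2 : ρ * Z / Qm < m + 1 := by rw [hm]; exact Nat.lt_floor_add_one _
  have hm3 : (2 : ℝ) ≤ ρ * Z / Qm := by rw [le_div_iff₀ hQr]; linarith
  have hm4 : (m : ℝ) * Qm ≤ ρ * Z := by rwa [le_div_iff₀ hQr] at hm1
  have hm5 : ρ * Z < (m + 1) * Qm := by rwa [div_lt_iff₀ hQr] at hm2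
  have hm6 : (1 : ℝ) < m := by linarith
  have hm7 : 0 < m := by exact_mod_cast (by linarith : (0 : ℝ) < m)
  obtain ⟨X1, hX1⟩ : ∃ X1, X1 = Qm * m := ⟨_, rfl⟩
  have hX1r : (X1 : ℝ) = Qm * m := by rw [hX1]; push_cast; ring
  have hX1p : 0 < X1 := by rw [hX1]; positivity
  have hX1q : (0 : ℝ) < X1 := by exact_mod_cast hX1p
  have hlo : ρ * Z ≤ 2 * X1 := by rw [hX1r]; nlinarith
  have hhi : (X1 : ℝ) ≤ ρ * Z := by rw [hX1r]; linarith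
  have hρZ : ρ * Z ≤ θ / 8 * Z := mul_le_mul_of_nonneg_right hρθ hZr.le
  obtain ⟨ja, hja⟩ : ∃ ja, ja = ⌈θ * Z / (4 * X1)⌉₊ := ⟨_, rfl⟩
  have hja1 : θ * Z / (4 * X1) ≤ ja := by rw [hja]; exact Nat.le_ceil _
  have hθ0 : 0 < θ := by linarith
  have hja2 : (ja : ℝ) < θ * Z / (4 * X1) + 1 := by rw [hja]; exact Nat.ceil_lt_add_one (by positivity)
  have hja3 : θ / 4 * Z ≤ ja * X1 := by
    rw [div_le_iff₀ (by positivity)] at hja1
    linarith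
  have hja4 : (ja : ℝ) * X1 ≤ θ / 4 * Z + X1 := by
    have h : ((ja : ℝ) - 1) * (4 * X1) < θ * Z := by
      rw [← lt_div_iff₀ (by positivity)]
      linarith
    linarith
  obtain ⟨jc, hjc⟩ : ∃ jc, jc = ⌊(1 - θ / 2) * Z / X1⌋₊ := ⟨_, rfl⟩
  have hjc1 : (jc : ℝ) * X1 ≤ (1 - θ / 2) * Z := by
    have h : (jc : ℝ) ≤ (1 - θ / 2) * Z / X1 := by
      rw [hjc]
      refine Nat.floor_le ?_
      apply div_nonneg (mul_nonneg (by linarith) hZr.le) hX1q.le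
    rwa [le_div_iff₀ hX1q] at h
  have hjc2 : (1 - θ / 2) * Z < (jc + 1) * X1 := by
    have h : (1 - θ / 2) * Z / X1 < jc + 1 := by rw [hjc]; exact Nat.lt_floor_add_one _
    rwa [div_lt_iff₀ hX1q] at h
  have hjc3 : ja + 1 ≤ jc := by
    have h1 : ((ja : ℝ) + 1) * X1 < (jc + 1) * X1 := by nlinarith
    have h2 : (ja : ℝ) + 1 < jc + 1 := lt_of_mul_lt_mul_right h1 hX1q.le
    have h3 : ja + 1 < jc + 1 := by exact_mod_cast h2
    omega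
  obtain ⟨jb, rfl⟩ : ∃ jb, jc = jb + 1 := ⟨jc - 1, by omega⟩
  push_cast at hjc1 hjc2
  refine ⟨X1, ja, jb, ⟨m, hX1⟩, hX1p, hlo, hhi, by omega, ?_, ?_, ?_, ?_, ?_⟩
  · push_cast
    nlinarith
  · push_cast
    nlinarith
  · push_cast
    linarith
  · push_cast
    linarith
  · rw [le_div_iff₀ hρ]
    have h1 : ((jb : ℝ) + 1) * X1 ≤ Z := by nlinarith
    have h2 : (jb : ℝ) * (ρ * Z) ≤ jb * (2 * X1) := mul_le_mul_of_nonneg_left hlo (Nat.cast_nonneg _)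
    have h3 : (jb : ℝ) * ρ * Z ≤ 2 * Z := by nlinarith
    exact le_of_mul_le_mul_right h3 hZr

/-- The linear coordinate. -/
theorem v16_eval {A Z : ℕ} {B : ℤ[X]} (hB : Dec A Z B) (n : ℕ) (hn : n ≤ Z) :
    (Z : ℤ) - n + 1 ≤ B.eval (n : ℤ) ∧ B.eval (n : ℤ) ≤ A * ((Z : ℤ) + 1 - n) := by
  have hev : ∀ x : ℤ, B.eval x = B.coeff 0 + B.coeff 1 * x := by
    intro x
    rw [eval_eq_sum_range, hB.deg, sum_range_succ, sum_range_one]
    ring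
  have hlc : B.leadingCoeff = B.coeff 1 := by rw [leadingCoeff, hB.deg]
  have h1 := hB.neg
  have h2 := hB.pos
  have h3 := hB.last
  have h4 := hB.lc
  rw [hlc] at h1 h4
  rw [hev] at h2 h3 ⊢
  have h5 : -B.coeff 1 ≤ A := by
    have : (B.coeff 1).natAbs = -B.coeff 1 := by omega
    omega
  have h6 : (0 : ℤ) ≤ (Z : ℤ) - n := by
    have : (n : ℤ) ≤ Z := by exact_mod_cast hn
    linarith
  constructor
  · nlinarith
  · nlinarith

/-- No fixed prime divisor: the linear coordinate is primitive. -/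
theorem v16_lin {k A Z : ℕ} {B : ℤ[X]} (hB : Dec A Z B) {P : Fin k → ℤ[X]} {h : Fin k → ℕ} (hN : NoFix (sys B P h)) :
    Lin A B := by
  refine ⟨hB.deg, hB.lc, ?_⟩
  rw [Int.isCoprime_iff_gcd_eq_one]
  by_contra hg
  obtain ⟨l, hl, hd⟩ := Nat.exists_prime_and_dvd hg
  obtain ⟨n, hn⟩ := hN l hl
  have h0 := hn 0
  apply h0
  show (l : ℤ) ∣ B.eval n
  rw [eval_eq_sum_range, hB.deg, sum_range_succ, sum_range_one]
  have h1 : (l : ℤ) ∣ B.coeff 0 := (Int.natCast_dvd_natCast.2 hd).trans (Int.gcd_dvd_left _ _)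
  have h2 : (l : ℤ) ∣ B.coeff 1 := (Int.natCast_dvd_natCast.2 hd).trans (Int.gcd_dvd_right _ _)
  exact dvd_add (h1.mul_right _) (h2.mul_right _)

/-- Everything that is used for one parameter `t`. -/
theorem v16_one {k : ℕ} (D : Fin k → ℕ) (φ : Fin (k + 1) → ℤ → ℤ) (Q Z X1 ja jb z : ℕ) (ε θ θ1 C Cs Ks ε1 : ℝ)
    (hε : 0 < ε) (hε1 : ε ≤ 1) (hθ : 0 < θ) (hC : 1 ≤ C) (hCs : 1 ≤ Cs) (hD : ∀ i, 1 ≤ D i)
    (hQ : 1 < Real.log Q) (hZQ : Real.log Z ≤ C * Real.log Q) (hQZ : Real.log Q ≤ Real.log Z)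
    (hCb : 12 * θ * (Cs * ((∏ i, (D i : ℝ)) * C ^ (k + 1)) + 1) ≤ ε / 2) (hSS : 0 < SSf (pr Q) φ)
    (h4 : 1 ≤ θ * Z) (hj : ja ≤ jb) (hX1 : 0 < X1)
    (ha : ((ja + 1) * X1 : ℕ) ≤ θ * Z) (hb : (1 - θ) * Z ≤ ((jb + 1) * X1 : ℕ)) (hb' : (jb + 1) * X1 ≤ Z)
    (hθ1 : θ1 ≤ ε / 64 * SSf (pr Q) φ) (hε2 : 0 ≤ ε1) (hε3 : 16 * ε1 ≤ ε)
    (hcell : ∀ j ∈ Ico ja jb, |wct φ ((j + 1) * X1) X1 - X1 * SSf (pr Q) φ| ≤ X1 * (ε / 64 * SSf (pr Q) φ + θ1))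
    (hcnt : ∀ j ∈ Ico ja jb, |(cnt φ ((j + 1) * X1) X1 : ℝ) * ((∏ i, (D i : ℝ)) * (Real.log Z) ^ (k + 1)) -
      wct φ ((j + 1) * X1) X1| ≤ ε1 * wct φ ((j + 1) * X1) X1)
    (hsv : ∀ n1 L : ℕ, 1 ≤ n1 → Ks * Real.log Q ≤ Real.log L →
      (cnt φ n1 L : ℝ) ≤ Cs * L * SSf (pr Q) φ / (Real.log Q) ^ (k + 1))
    (hs1 : Ks * Real.log Q ≤ Real.log ((ja + 1) * X1 - 1 : ℕ))
    (hs2 : Ks * Real.log Q ≤ Real.log (Z + 1 - (jb + 1) * X1 : ℕ))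
    (hz : |SSf (pr z) φ - SSf (pr Q) φ| ≤ ε / 64 * SSf (pr Q) φ) :
    |(cnt φ 1 Z : ℝ) - Z * dens D z Z φ| ≤ ε * (Z * dens D z Z φ) := by
  have hP0 : 0 < ∏ i, (D i : ℝ) := by
    refine prod_pos fun i _ => ?_
    exact_mod_cast hD i
  have hlZ : 0 < Real.log Z := by linarith
  set SS := SSf (pr Q) φ with hSSd
  set Lg : ℝ := (∏ i, (D i : ℝ)) * (Real.log Z) ^ (k + 1) with hLg
  have hLg0 : 0 < Lg := by positivity
  set Cb : ℝ := Cs * ((∏ i, (D i : ℝ)) * C ^ (k + 1)) with hCbd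
  have hCb0 : 0 ≤ Cb := by positivity
  have hC0 : 0 < C := by linarith
  have hlQ : 0 < Real.log Q := by linarith
  have hsv' : ∀ n1 L L' : ℕ, 1 ≤ n1 → Ks * Real.log Q ≤ Real.log L → L ≤ L' →
      (cnt φ n1 L : ℝ) * Lg ≤ Cb * L' * SS := by
    intro n1 L L' h1 h2 h3
    have h5 := hsv n1 L h1 h2
    have h6 : (Real.log Z) ^ (k + 1) ≤ C ^ (k + 1) * (Real.log Q) ^ (k + 1) := by
      rw [← mul_pow]
      exact pow_le_pow_left₀ hlZ.le hZQ _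
    have h7 : (L : ℝ) ≤ L' := by exact_mod_cast h3
    calc (cnt φ n1 L : ℝ) * Lg ≤ (Cs * L * SS / (Real.log Q) ^ (k + 1)) * ((∏ i, (D i : ℝ)) *
          (C ^ (k + 1) * (Real.log Q) ^ (k + 1))) := by
          refine mul_le_mul h5 (mul_le_mul_of_nonneg_left h6 hP0.le) hLg0.le ?_
          positivity
      _ = Cb * L * SS := by
          rw [hCbd]
          field_simp
      _ ≤ Cb * L' * SS := by
          refine mul_le_mul_of_nonneg_right (mul_le_mul_of_nonneg_left h7 hCb0) hSS.le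
  have hmain := U15_sum φ Z X1 ja jb SS Lg (ε / 64) θ1 ε1 θ Cb (ε / 2) hSS hLg0 (by positivity) hε2 (by positivity)
    (by linarith) (by linarith) (by linarith) hθ hCb0 hCb h4 hj hX1 ha hb hb' hθ1 hcell hcnt
    (hsv' 1 _ _ (le_refl _) hs1 (Nat.sub_le _ _))
    (hsv' _ _ _ (Nat.mul_pos (Nat.succ_pos _) hX1) hs2 (le_refl _))
  have hZ0 : (0 : ℝ) < Z := by
    rcases Nat.eq_zero_or_pos Z with h | h
    · rw [h, Nat.cast_zero, mul_zero] at h4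
      linarith
    · exact_mod_cast h
  unfold dens
  rw [← hLg]
  set S' := SSf (pr z) φ with hS'
  obtain ⟨hz1, hz2⟩ := abs_le.1 hz
  have e1 : |(Z : ℝ) * (SS / Lg) - Z * (S' / Lg)| ≤ ε / 64 * (Z * (SS / Lg)) := by
    have : (Z : ℝ) * (SS / Lg) - Z * (S' / Lg) = -((Z / Lg) * (S' - SS)) := by field_simp; ring
    rw [this, abs_neg, abs_mul, abs_of_pos (div_pos hZ0 hLg0)]
    calc (Z : ℝ) / Lg * |S' - SS| ≤ Z / Lg * (ε / 64 * SS) :=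
          mul_le_mul_of_nonneg_left hz (div_pos hZ0 hLg0).le
      _ = ε / 64 * (Z * (SS / Lg)) := by field_simp
  have e2 : (1 - ε / 64) * (Z * (SS / Lg)) ≤ Z * (S' / Lg) := by
    have := (abs_le.1 e1).2
    linarith
  have e3 : 0 < (Z : ℝ) * (SS / Lg) := by positivity
  calc |(cnt φ 1 Z : ℝ) - Z * (S' / Lg)| ≤ |(cnt φ 1 Z : ℝ) - Z * (SS / Lg)| + |(Z : ℝ) * (SS / Lg) - Z * (S' / Lg)| :=
        abs_sub_le _ _ _
    _ ≤ ε / 2 * (Z * (SS / Lg)) + ε / 64 * (Z * (SS / Lg)) := add_le_add hmain e1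
    _ ≤ ε * ((1 - ε / 64) * (Z * (SS / Lg))) := by
        have : ε / 2 + ε / 64 ≤ ε * (1 - ε / 64) := by nlinarith
        nlinarith
    _ ≤ ε * (Z * (S' / Lg)) := mul_le_mul_of_nonneg_left e2 hε.le

/-- Logarithms are small. -/
theorem v16_lg (b : ℝ) (hb : 0 < b) : ∃ Q0 : ℕ, ∀ Q : ℕ, Q0 ≤ Q → 1 + Real.log Q ≤ (Q : ℝ) ^ b := by
  have h1 : ∀ᶠ x : ℝ in Filter.atTop, Real.log x ≤ 1 / 2 * x ^ b := by
    have h := (isLittleO_log_rpow_atTop hb).bound (by norm_num : (0 : ℝ) < 1 / 2)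
    filter_upwards [h, Filter.eventually_ge_atTop 0] with x hx hx0
    rw [Real.norm_eq_abs, Real.norm_eq_abs, abs_of_nonneg (Real.rpow_nonneg hx0 b)] at hx
    exact (le_abs_self _).trans hx
  have h2 : ∀ᶠ x : ℝ in Filter.atTop, 2 ≤ x ^ b := (tendsto_rpow_atTop hb).eventually_ge_atTop 2
  have h3 : ∀ᶠ Q : ℕ in Filter.atTop, 1 + Real.log Q ≤ (Q : ℝ) ^ b := by
    filter_upwards [tendsto_natCast_atTop_atTop.eventually h1, tendsto_natCast_atTop_atTop.eventually h2] with Q h4 h5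
    linarith
  exact Filter.eventually_atTop.1 h3

theorem v16_lgev (K : ℝ) : ∃ Q0 : ℕ, ∀ Q : ℕ, Q0 ≤ Q → K ≤ Real.log Q := by
  have h1 : Filter.Tendsto (fun Q : ℕ => Real.log (Q : ℝ)) Filter.atTop Filter.atTop :=
    Real.tendsto_log_atTop.comp tendsto_natCast_atTop_atTop
  exact Filter.eventually_atTop.1 (h1.eventually_ge_atTop K)

theorem v16_asy1 (c K C : ℝ) (hc : 0 < c) (hK : 0 < K) (hC : 1 ≤ C) : ∃ Q0 : ℕ, ∀ Q : ℕ, Q0 ≤ Q →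
    (Q : ℝ) ^ (-c) ≤ K * (1 + Real.log Q) ^ (-C) := by
  have hC0 : 0 < C := by linarith
  obtain ⟨Q1, h1⟩ := v16_lg (c / 2 / C) (by positivity)
  obtain ⟨Q2, h2⟩ := u14_ev (c / 2) (by positivity) (1 / K)
  refine ⟨Q1 + Q2 + 1, fun Q hQ => ?_⟩
  have hQ0 : (0 : ℝ) < Q := by exact_mod_cast (by omega : 0 < Q)
  have hQ1 : (1 : ℝ) ≤ Q := by exact_mod_cast (by omega : 1 ≤ Q)
  have hl : 0 ≤ Real.log Q := Real.log_nonneg hQ1
  have h3 := h1 Q (by omega)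
  have h4 := h2 Q (by omega)
  have h5 : (1 + Real.log Q) ^ C ≤ (Q : ℝ) ^ (c / 2) := by
    calc (1 + Real.log Q) ^ C ≤ ((Q : ℝ) ^ (c / 2 / C)) ^ C := Real.rpow_le_rpow (by linarith) h3 hC0.le
      _ = (Q : ℝ) ^ (c / 2) := by
        rw [← Real.rpow_mul hQ0.le]
        congr 1
        field_simp
  have h6 : 0 < (1 + Real.log Q) ^ C := Real.rpow_pos_of_pos (by linarith) C
  have h7 : 0 < (Q : ℝ) ^ (c / 2) := Real.rpow_pos_of_pos hQ0 _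
  rw [Real.rpow_neg hQ0.le, Real.rpow_neg (by linarith)]
  have h8 : (Q : ℝ) ^ c = (Q : ℝ) ^ (c / 2) * (Q : ℝ) ^ (c / 2) := by
    rw [← Real.rpow_add hQ0]
    congr 1
    ring
  rw [h8, mul_inv]
  have h9 : ((Q : ℝ) ^ (c / 2))⁻¹ ≤ K := by
    rw [inv_le_comm₀ h7 hK, ← one_div]
    exact h4
  exact mul_le_mul h9 (inv_anti₀ h6 h5) (by positivity) hK.le

theorem v16_asy2 (a c2 c3 c4 C : ℝ) (ha : 0 ≤ a) (hc2 : 0 < c2) (hc3 : 0 < c3) (hc4 : 0 < c4) (hC : 1 ≤ C) :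
    ∃ Q0 : ℕ, ∀ Q Z : ℕ, Q0 ≤ Q → 0 < Real.log Z → Real.log Z ≤ C * Real.log Q →
    a * ((Real.log Q) ^ (-c2) + (Q : ℝ) ^ (-c3)) + (Q : ℝ) ^ (-c4) ≤ (Real.log Z) ^ (-(c2 / 2)) := by
  have key : ∀ c : ℝ, 0 < c → ∃ Q0 : ℕ, ∀ Q : ℕ, Q0 ≤ Q → (Q : ℝ) ^ (-c) ≤ (Real.log Q) ^ (-c2) := by
    intro c hc
    obtain ⟨Q1, h1⟩ := v16_lg (c / c2) (by positivity)
    obtain ⟨Q2, h2⟩ := v16_lgev 1
    refine ⟨Q1 + Q2 + 1, fun Q hQ => ?_⟩
    have hQ0 : (0 : ℝ) < Q := by exact_mod_cast (by omega : 0 < Q)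
    have h3 := h1 Q (by omega)
    have h4 := h2 Q (by omega)
    have hl : 0 < Real.log Q := by linarith
    rw [Real.rpow_neg hQ0.le, Real.rpow_neg hl.le]
    refine inv_anti₀ (Real.rpow_pos_of_pos hl _) ?_
    calc (Real.log Q) ^ c2 ≤ ((Q : ℝ) ^ (c / c2)) ^ c2 := Real.rpow_le_rpow hl.le (by linarith) hc2.le
      _ = (Q : ℝ) ^ c := by
        rw [← Real.rpow_mul hQ0.le]
        congr 1
        field_simp
  obtain ⟨Q3, h3⟩ := key c3 hc3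
  obtain ⟨Q4, h4⟩ := key c4 hc4
  have hC0 : 0 < C := by linarith
  have ht : Filter.Tendsto (fun Q : ℕ => (Real.log (Q : ℝ)) ^ (c2 / 2)) Filter.atTop Filter.atTop :=
    (tendsto_rpow_atTop (by positivity)).comp (Real.tendsto_log_atTop.comp tendsto_natCast_atTop_atTop)
  obtain ⟨Q5, h5⟩ := Filter.eventually_atTop.1 (ht.eventually_ge_atTop ((2 * a + 1) * C ^ (c2 / 2)))
  obtain ⟨Q6, h6⟩ := v16_lgev 1
  refine ⟨Q3 + Q4 + Q5 + Q6 + 1, fun Q Z hQ hZ hZQ => ?_⟩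
  have g3 := h3 Q (by omega)
  have g4 := h4 Q (by omega)
  have g5 : (2 * a + 1) * C ^ (c2 / 2) ≤ (Real.log (Q : ℝ)) ^ (c2 / 2) := h5 Q (by omega)
  have g6 := h6 Q (by omega)
  have hl : 0 < Real.log Q := by linarith
  have hp : 0 < (Real.log Q) ^ (c2 / 2) := Real.rpow_pos_of_pos hl _
  have hCp : 0 < C ^ (c2 / 2) := Real.rpow_pos_of_pos hC0 _
  have h7 : a * ((Real.log Q) ^ (-c2) + (Q : ℝ) ^ (-c3)) + (Q : ℝ) ^ (-c4) ≤ (2 * a + 1) * (Real.log Q) ^ (-c2) := by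
    have := mul_le_mul_of_nonneg_left g3 ha
    linarith
  have h8 : (Real.log Q) ^ (-c2) = ((Real.log Q) ^ (c2 / 2))⁻¹ * ((Real.log Q) ^ (c2 / 2))⁻¹ := by
    rw [← Real.rpow_neg hl.le, ← Real.rpow_add hl]
    congr 1
    ring
  have h9 : (2 * a + 1) * ((Real.log Q) ^ (c2 / 2))⁻¹ ≤ (C ^ (c2 / 2))⁻¹ := by
    rw [← div_eq_mul_inv, div_le_iff₀ hp, ← div_eq_inv_mul, le_div_iff₀ hCp]
    exact g5
  calc a * ((Real.log Q) ^ (-c2) + (Q : ℝ) ^ (-c3)) + (Q : ℝ) ^ (-c4) ≤ (2 * a + 1) * (Real.log Q) ^ (-c2) := h7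
    _ = (2 * a + 1) * ((Real.log Q) ^ (c2 / 2))⁻¹ * ((Real.log Q) ^ (c2 / 2))⁻¹ := by rw [h8]; ring
    _ ≤ (C ^ (c2 / 2))⁻¹ * ((Real.log Q) ^ (c2 / 2))⁻¹ := mul_le_mul_of_nonneg_right h9 (by positivity)
    _ = (C * Real.log Q) ^ (-(c2 / 2)) := by
      rw [Real.rpow_neg (by positivity), Real.mul_rpow hC0.le hl.le, mul_inv]
    _ ≤ (Real.log Z) ^ (-(c2 / 2)) := by
      rw [Real.rpow_neg (by positivity), Real.rpow_neg hZ.le]
      exact inv_anti₀ (Real.rpow_pos_of_pos hZ _) (Real.rpow_le_rpow hZ.le hZQ (by positivity))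

/-- Values of the coordinates. -/
theorem v16_vals {k d : ℕ} (c : Fin k → Fin d → ℤ) (e : Fin d → ℕ) (D : Fin k → ℕ) (a : Fin k → ℤ)
    (hB : ∀ i j, c i j ≠ 0 → e j = D i) (hD : ∀ i, 1 ≤ D i) (ha : ∀ i, 0 < a i) (P : Fin k → ℤ[X])
    (hP : HasD D a P) (A : ℕ) (hA : ∀ i, D i ≤ A) (δ : ℝ) (hδ : 0 < δ) (hδ1 : δ ≤ 1) :
    ∃ (Cz : ℝ) (Z0 : ℕ), 1 ≤ Cz ∧ ∀ Z n : ℕ, Z0 ≤ Z → δ * Z ≤ n → n ≤ Z →
    (∀ i, δ ^ A / 2 * (Z : ℝ) ^ D i ≤ (((P i).eval (n : ℤ) : ℤ) : ℝ)) ∧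
    ∀ β : Fin k → ℤ, (∀ i, |β i| ≤ A * (Z : ℤ) ^ D i) → ∀ t ∈ tb 0 (fun j => A * Z ^ e j + 1), ∀ i,
      (((P i).eval (n : ℤ) : ℤ) : ℝ) + ((β i + lf c t i : ℤ) : ℝ) ≤ Cz * (Z : ℝ) ^ D i := by
  obtain ⟨C, n0, hC, hv⟩ := U16_val D a P hP hD ha
  obtain ⟨S, hS⟩ : ∃ S : ℕ, S = ∑ i, ∑ j, (c i j).natAbs := ⟨_, rfl⟩
  obtain ⟨Z1, hZ1⟩ : ∃ Z1 : ℕ, Z1 = ⌈(n0 : ℝ) / δ⌉₊ := ⟨_, rfl⟩
  have h0 : (0 : ℝ) ≤ (S : ℝ) * A := by positivity
  have h0' : (0 : ℝ) ≤ (A : ℝ) := by positivity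
  refine ⟨C + A + S * A, Z1 + 1, by linarith, fun Z n hZ h1 h2 => ?_⟩
  have hZr : (n0 : ℝ) / δ ≤ Z := by
    have h3 : (n0 : ℝ) / δ ≤ Z1 := by rw [hZ1]; exact Nat.le_ceil _
    have h4 : (Z1 : ℝ) ≤ Z := by exact_mod_cast (by omega : Z1 ≤ Z)
    linarith
  have hZ0 : (0 : ℝ) < Z := by exact_mod_cast (by omega : 0 < Z)
  have hn : n0 ≤ n := by
    rw [div_le_iff₀ hδ] at hZr
    have : (n0 : ℝ) ≤ n := by linarith
    exact_mod_cast this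
  have hnZ : (n : ℝ) ≤ Z := by exact_mod_cast h2
  constructor
  · intro i
    have h3 := (hv n hn i).1
    have h4 : (δ * Z) ^ D i ≤ (n : ℝ) ^ D i := pow_le_pow_left₀ (by positivity) h1 _
    rw [mul_pow] at h4
    have h5 : δ ^ A ≤ δ ^ D i := pow_le_pow_of_le_one hδ.le hδ1 (hA i)
    have h6 : δ ^ A * (Z : ℝ) ^ D i ≤ δ ^ D i * (Z : ℝ) ^ D i := mul_le_mul_of_nonneg_right h5 (by positivity)
    linarith
  · intro β hβ t ht i
    have h3 := (hv n hn i).2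
    have h4 : (n : ℝ) ^ D i ≤ (Z : ℝ) ^ D i := pow_le_pow_left₀ (Nat.cast_nonneg _) hnZ _
    have h5 : C * (n : ℝ) ^ D i ≤ C * (Z : ℝ) ^ D i := mul_le_mul_of_nonneg_left h4 (by linarith)
    have h6 : ((β i : ℤ) : ℝ) ≤ A * (Z : ℝ) ^ D i := by
      have := (le_abs_self (β i)).trans (hβ i)
      exact_mod_cast this
    have h7 : lf c t i ≤ S * (A * (Z : ℤ) ^ D i) := by
      unfold lf
      have h8 : ∀ j, c i j * t j ≤ (c i j).natAbs * (A * (Z : ℤ) ^ D i) := by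
        intro j
        by_cases hc : c i j = 0
        · rw [hc]
          simp
        · have h9 := hB i j hc
          have h10 : t j ∈ Ico (0 : ℤ) (0 + ((A * Z ^ e j + 1 : ℕ) : ℤ)) := by
            have := (Fintype.mem_piFinset.1 ht) j
            simpa using this
          rw [mem_Ico] at h10
          obtain ⟨h11, h12⟩ := h10
          push_cast at h12
          rw [← h9]
          calc c i j * t j ≤ |c i j| * t j := mul_le_mul_of_nonneg_right (le_abs_self _) h11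
            _ ≤ |c i j| * (A * (Z : ℤ) ^ e j) := mul_le_mul_of_nonneg_left (by linarith) (abs_nonneg _)
            _ = (c i j).natAbs * (A * (Z : ℤ) ^ e j) := by rw [Int.natCast_natAbs]
      calc ∑ j, c i j * t j ≤ ∑ j, (c i j).natAbs * (A * (Z : ℤ) ^ D i) := sum_le_sum fun j _ => h8 j
        _ = ((∑ j, (c i j).natAbs : ℕ) : ℤ) * (A * (Z : ℤ) ^ D i) := by rw [← sum_mul]; push_cast; ring
        _ ≤ S * (A * (Z : ℤ) ^ D i) := by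
          refine mul_le_mul_of_nonneg_right ?_ (by positivity)
          rw [hS]
          have := single_le_sum (f := fun i => ∑ j, (c i j).natAbs) (fun _ _ => Nat.zero_le _) (mem_univ i)
          exact_mod_cast this
    have h8 : ((lf c t i : ℤ) : ℝ) ≤ S * (A * (Z : ℝ) ^ D i) := by exact_mod_cast h7
    push_cast
    linarith

theorem v16_siv {Q Z : ℕ} {Ks r x : ℝ} (hr : 0 < r) (hQ : 1 ≤ r * Q) (hZ : (Ks + 1) * Real.log Q ≤ Real.log Z)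
    (hZ0 : 0 < Z) (hx : r * Z ≤ x) : Ks * Real.log Q ≤ Real.log x := by
  have hZr : (0 : ℝ) < Z := by exact_mod_cast hZ0
  have hQ0 : (0 : ℝ) < Q := by
    rcases Nat.eq_zero_or_pos Q with h | h
    · rw [h, Nat.cast_zero, mul_zero] at hQ
      linarith
    · exact_mod_cast h
  have h1 : 0 ≤ Real.log r + Real.log Q := by
    rw [← Real.log_mul hr.ne' hQ0.ne']
    exact Real.log_nonneg hQ
  have h2 : Real.log r + Real.log Z ≤ Real.log x := by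
    rw [← Real.log_mul hr.ne' hZr.ne']
    exact Real.log_le_log (by positivity) hx
  linarith

theorem v16_tb {d : ℕ} (e : Fin d → ℕ) {A A' Z : ℕ} (h : A ≤ A') :
    tb 0 (fun j => A * Z ^ e j + 1) ⊆ tb 0 (fun j => A' * Z ^ e j + 1) := by
  intro t ht
  refine Fintype.mem_piFinset.2 fun j => ?_
  have h1 := Fintype.mem_piFinset.1 ht j
  rw [mem_Ico] at h1 ⊢
  refine ⟨h1.1, h1.2.trans_le ?_⟩
  have h2 : A * Z ^ e j ≤ A' * Z ^ e j := Nat.mul_le_mul_right _ h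
  have h3 : ((A * Z ^ e j + 1 : ℕ) : ℤ) ≤ ((A' * Z ^ e j + 1 : ℕ) : ℤ) := by exact_mod_cast (by omega)
  linarith

/-- **V16** (variant of `U16_core`, whose proof should be copied). Proof. `δ1` from `U10_main`. Given `A`: replace it by `A' ≥ A, 1, D_i, |a_i|`. `V14_main` (for `A'`) gives `E, Cc, cc, K1`; `U13_sieve` gives `Cs, Ks`; `K' = K1 + Ks + 1/δ1 + 1000`;
`E3_all` for `k, A', E, Cc, cc, K'` gives `c1, c2`; `c0 = c2/2` (it depends only on `A` and the data). Given `ε` (`≤ 1`), `δ`: `E3_all` with `ε/64` gives `C`; then the constants `Cb, θ, δ2` as in `U16_core`, `V14_main` with `C, c1, δ2`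
gives `Cv, ρ0`; `ρ = min(ρ0, θ/8)`, `c0'`, `Q0`. For `Z` large: `Q` from `E3_all` (`Lvl` with `ε/64`, `c1`, `ϑ = (log Q)^(-c2)`). Cells, series (`U10_main`), sieve and sum (`U15_sum` with `E1 = ε/64`, `θ1 = Q^(-c0')`) exactly as in
`U16_core`. The exceptional set has at most `(2/ρ) Cv Z^(∑ e) ((log Q)^(-c2) + Q^(-c0')) + Z^(∑ e) Q^(-c1') ≤ Z^(∑ e) (log Z)^(-c0)` elements for `Z` large (`log Q ≥ log Z/C`). -/
theorem V16_core {k d : ℕ} (c : Fin k → Fin d → ℤ) (e : Fin d → ℕ) (D : Fin k → ℕ) (a : Fin k → ℤ)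
    (hF : FGTU c D a) (hS : S4TU c e D a) (he : ∀ j, 1 ≤ e j) (hB : ∀ i j, c i j ≠ 0 → e j = D i)
    (hD : ∀ i, 1 ≤ D i) (ha : ∀ i, 0 < a i) (P : Fin k → ℤ[X]) (hP : HasD D a P) : ECoreP c e D P := by
  classical
  obtain ⟨δ1, hδ1, h10⟩ := U10_main c e D a hF he hD P hP
  refine ⟨δ1, hδ1, fun A => ?_⟩
  obtain ⟨A', hA'⟩ : ∃ A' : ℕ, A' = A + ∑ i, D i + ∑ i, (a i).natAbs + 1 := ⟨_, rfl⟩
  have hA1 : 1 ≤ A' := by omega
  have hAA : A ≤ A' := by omega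
  have hA1r : (1 : ℝ) ≤ A' := by exact_mod_cast hA1
  have hAAr : (A : ℝ) ≤ A' := by exact_mod_cast hAA
  have hDA : ∀ i, D i ≤ A' ∧ (a i).natAbs ≤ A' := by
    intro i
    have h1 : D i ≤ ∑ i, D i := single_le_sum (f := fun i => D i) (fun _ _ => Nat.zero_le _) (mem_univ i)
    have h2 : (a i).natAbs ≤ ∑ i, (a i).natAbs :=
      single_le_sum (f := fun i => (a i).natAbs) (fun _ _ => Nat.zero_le _) (mem_univ i)
    omega
  have hPol : Pol A' P := ⟨fun i => by rw [(hP i).1]; exact hD i, fun i => by rw [(hP i).1]; exact (hDA i).1,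
    fun i => by rw [(hP i).2]; exact (hDA i).2⟩
  obtain ⟨E, Cc, cc, K1, hpar, hK1, h14⟩ := V14_main c e D a hF hS he hB hD P hP A' hA1 hDA
  obtain ⟨Cs, Ks, hCs, hKs, Q13, h13⟩ := U13_sieve k A' hA1
  have hδ1i : 0 < 1 / δ1 := by positivity
  obtain ⟨K', hK'⟩ : ∃ K' : ℝ, K' = K1 + Ks + 1 / δ1 + 1000 := ⟨_, rfl⟩
  obtain ⟨c1, c2, hc1, hc2, hE3⟩ := E3_all k A' E hA1 Cc cc hpar K' (by linarith)
  refine ⟨c2 / 2, by positivity, fun ε0 δ hε0 hδ => ?_⟩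
  obtain ⟨ε, hε⟩ : ∃ ε : ℝ, ε = min ε0 1 := ⟨_, rfl⟩
  have hεp : 0 < ε := by rw [hε]; exact lt_min hε0 one_pos
  have hε1 : ε ≤ 1 := by rw [hε]; exact min_le_right _ _
  have hεε : ε ≤ ε0 := by rw [hε]; exact min_le_left _ _
  obtain ⟨C, hC, hE4⟩ := hE3 (ε / 64) (by positivity)
  have hP0 : 0 < ∏ i, (D i : ℝ) := by
    refine prod_pos fun i _ => ?_
    exact_mod_cast hD i
  obtain ⟨Cb, hCb⟩ : ∃ Cb : ℝ, Cb = Cs * ((∏ i, (D i : ℝ)) * C ^ (k + 1)) := ⟨_, rfl⟩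
  have hCb0 : 0 ≤ Cb := by rw [hCb]; positivity
  obtain ⟨θ, hθd⟩ : ∃ θ : ℝ, θ = ε / (24 * (Cb + 1)) := ⟨_, rfl⟩
  have hθ0 : 0 < θ := by rw [hθd]; positivity
  have hθC : 12 * θ * (Cb + 1) ≤ ε / 2 := by
    rw [hθd]
    apply le_of_eq
    field_simp
    ring
  have hθ1 : θ ≤ 1 / 4 := by
    rw [hθd, div_le_iff₀ (by positivity)]
    linarith
  obtain ⟨δ2, hδ2⟩ : ∃ δ2 : ℝ, δ2 = (θ / 4) ^ A' / 2 := ⟨_, rfl⟩
  have hδ20 : 0 < δ2 := by rw [hδ2]; positivity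
  have hδ2θ : δ2 ≤ θ / 2 := by
    rw [hδ2]
    have h1 : (θ / 4) ^ A' ≤ (θ / 4) ^ 1 := pow_le_pow_of_le_one (by positivity) (by linarith) hA1
    rw [pow_one] at h1
    linarith
  obtain ⟨Cz, Zv, hCz, hv⟩ := v16_vals c e D a hB hD ha P hP A' (fun i => (hDA i).1) (θ / 4) (by positivity)
    (by linarith)
  obtain ⟨Z12, h12⟩ := U12_wt D hD δ2 (Cz + A') (ε / 16) hδ20 (by linarith) (by positivity)
  obtain ⟨Cv, ρ0, hCv, hρ0, h14'⟩ := h14 C c1 δ2 hc1 hδ20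
  obtain ⟨ρ, hρd⟩ : ∃ ρ : ℝ, ρ = min ρ0 (θ / 8) := ⟨_, rfl⟩
  have hρ : 0 < ρ := by rw [hρd]; exact lt_min hρ0 (by positivity)
  have hρρ : ρ ≤ ρ0 := by rw [hρd]; exact min_le_left _ _
  have hρθ : ρ ≤ θ / 8 := by rw [hρd]; exact min_le_right _ _
  obtain ⟨c3, hc3, Q14, h14''⟩ := h14' ρ hρ hρρ
  obtain ⟨c4, hc4, Q10, h10'⟩ := h10 A' C δ hA1 hδ
  obtain ⟨CX, cX, hCX, hcX, hX2⟩ := X2_low k A' hA1
  obtain ⟨Qa, ha1⟩ := v16_asy1 c3 (ε / 64 * cX) CX hc3 (by positivity) hCX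
  obtain ⟨Qb, hb1⟩ := v16_asy1 c4 (ε / 64 * cX) CX hc4 (by positivity) hCX
  obtain ⟨Qc, hc1'⟩ := v16_asy2 (2 / ρ * Cv) c2 c3 c4 C (by positivity) hc2 hc3 hc4 hC
  obtain ⟨Qd, hd⟩ := v16_lgev 2
  obtain ⟨Qe, he1⟩ : ∃ Qe : ℕ, Qe = ⌈8 / ρ⌉₊ := ⟨_, rfl⟩
  obtain ⟨Z0, hZ0⟩ := hE4 (Q13 + Q14 + Q10 + Qa + Qb + Qc + Qd + Qe + 2)
  refine ⟨Z0 + Zv + Z12 + 1, fun Z hZ B hBd β hβ z hz1 hz2 => ?_⟩
  obtain ⟨Q, hQ, hRg, hLvl⟩ := hZ0 Z (by omega)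
  obtain ⟨hRg1, hRg2⟩ := hRg
  have hQ2 : 2 ≤ Q := by omega
  have hQr : (2 : ℝ) ≤ Q := by exact_mod_cast hQ2
  have hlQ : 2 ≤ Real.log Q := hd Q (by omega)
  have hKl : K1 * Real.log Q + Ks * Real.log Q + 1 / δ1 * Real.log Q + 1000 * Real.log Q ≤ Real.log Z := by
    have : K' * Real.log Q = K1 * Real.log Q + Ks * Real.log Q + 1 / δ1 * Real.log Q + 1000 * Real.log Q := by
      rw [hK']; ring
    linarith
  have hlQ0 : 0 < Real.log Q := by linarith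
  have hK1l : 0 < K1 * Real.log Q := by positivity
  have hKsl : 0 < Ks * Real.log Q := by positivity
  have hδl : 0 < 1 / δ1 * Real.log Q := by positivity
  have hlZ : 0 < Real.log Z := by linarith
  have hZp : 0 < Z := by
    rcases Nat.eq_zero_or_pos Z with h | h
    · rw [h, Nat.cast_zero, Real.log_zero] at hlZ
      exact absurd hlZ (lt_irrefl _)
    · exact h
  have hZr : (0 : ℝ) < Z := by exact_mod_cast hZp
  have hQρ : 8 ≤ ρ * Q := by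
    have h1 : 8 / ρ ≤ Qe := by rw [he1]; exact Nat.le_ceil _
    have h2 : (Qe : ℝ) ≤ Q := by exact_mod_cast (by omega : Qe ≤ Q)
    have h3 : 8 / ρ ≤ Q := h1.trans h2
    rw [div_le_iff₀ hρ] at h3
    linarith
  have hZQ : (Q : ℝ) ^ 801 ≤ Z := by
    rw [← Real.log_le_log_iff (by positivity) hZr, Real.log_pow]
    push_cast
    linarith
  have hZbig : 2 * ((Q ^ 800 : ℕ) : ℝ) ≤ ρ * Z := by
    push_cast
    calc 2 * (Q : ℝ) ^ 800 ≤ (ρ * Q) * (Q : ℝ) ^ 800 := mul_le_mul_of_nonneg_right (by linarith) (by positivity)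
      _ = ρ * (Q : ℝ) ^ 801 := by ring
      _ ≤ ρ * Z := mul_le_mul_of_nonneg_left hZQ hρ.le
  have hρ1 : ρ ≤ 1 := by linarith
  have hρZ : 8 ≤ ρ * Z := by
    have h1 : (Q : ℝ) ≤ Z := by
      refine le_trans ?_ hZQ
      calc (Q : ℝ) = (Q : ℝ) ^ 1 := (pow_one _).symm
        _ ≤ (Q : ℝ) ^ 801 := pow_le_pow_right₀ (by linarith) (by norm_num)
    exact hQρ.trans (mul_le_mul_of_nonneg_left h1 hρ.le)
  have hQδ : (Q : ℝ) ≤ (Z : ℝ) ^ δ1 := by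
    rw [← Real.log_le_log_iff (by positivity) (by positivity), Real.log_rpow hZr]
    have h1 : 1 / δ1 * Real.log Q ≤ Real.log Z := by linarith
    rw [div_mul_eq_mul_div, one_mul, div_le_iff₀ hδ1] at h1
    linarith
  have hθZ : 0 < θ * Z := by positivity
  have hρθZ : ρ * Z ≤ θ / 8 * Z := mul_le_mul_of_nonneg_right hρθ hZr.le
  have hρθQ : ρ * Q ≤ θ / 8 * Q := mul_le_mul_of_nonneg_right hρθ (by linarith)
  -- the set of bad parameters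
  set F := ((tb 0 fun j => A * Z ^ e j + 1).filter fun t => (∀ i, 0 ≤ β i + lf c t i) ∧ NoFix (sys B P (hh c β t)) ∧
      ε0 * (Z * dens D z Z (sys B P (hh c β t))) <
        |(cnt (sys B P (hh c β t)) 1 Z : ℝ) - Z * dens D z Z (sys B P (hh c β t))|) with hFd
  rcases F.eq_empty_or_nonempty with hF0 | ⟨t0, ht0⟩
  · rw [hF0, card_empty, Nat.cast_zero]
    positivity
  have hLin : Lin A' B := by
    have h1 := (mem_filter.1 ht0).2.2.1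
    exact u10_lin hAA (v16_lin hBd h1)
  obtain ⟨X1, ja, jb, hX1d, hX1, hX1a, hX1b, hj, hja, hjb, hjb', hja', hjn⟩ :=
    v16_num (Q ^ 800) Z ρ θ hρ hρθ hθ1 (by positivity) hZbig
  have hβ' : ∀ i, |β i| ≤ A' * (Z : ℤ) ^ D i := by
    intro i
    refine (hβ i).trans (mul_le_mul_of_nonneg_right ?_ (by positivity))
    exact_mod_cast hAA
  -- positions of the cells
  have hpos : ∀ j ∈ Ico ja jb, ∀ n : ℕ, j * X1 ≤ n → n < (j + 2) * X1 →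
      θ / 4 * Z ≤ n ∧ (n : ℝ) ≤ (1 - θ / 2) * Z ∧ 1 ≤ n ∧ n ≤ Z := by
    intro j hjm n h1 h2
    rw [mem_Ico] at hjm
    have h3 : ja * X1 ≤ n := (Nat.mul_le_mul_right _ hjm.1).trans h1
    have h4 : n ≤ (jb + 1) * X1 := h2.le.trans (Nat.mul_le_mul_right _ (by omega))
    have h5 : ((ja * X1 : ℕ) : ℝ) ≤ n := by exact_mod_cast h3
    have h6 : (n : ℝ) ≤ (((jb + 1) * X1 : ℕ) : ℝ) := by exact_mod_cast h4
    have h7 : 0 < θ / 4 * Z := by positivity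
    have h8 : (0 : ℝ) < n := by linarith
    have h9 : (n : ℝ) ≤ Z := by linarith
    refine ⟨by linarith, by linarith, ?_, by exact_mod_cast h9⟩
    exact_mod_cast h8
  have hBv : ∀ j ∈ Ico ja jb, ∀ n : ℕ, j * X1 ≤ n → n < (j + 2) * X1 →
      δ2 * Z ≤ ((B.eval (n : ℤ) : ℤ) : ℝ) ∧ ((B.eval (n : ℤ) : ℤ) : ℝ) ≤ A' * Z := by
    intro j hjm n h1 h2
    obtain ⟨h3, h4, h5, h6⟩ := hpos j hjm n h1 h2
    obtain ⟨h7, h8⟩ := v16_eval hBd n h6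
    have h9 : (((Z : ℤ) - n + 1 : ℤ) : ℝ) ≤ ((B.eval (n : ℤ) : ℤ) : ℝ) := by exact_mod_cast h7
    have h10 : ((B.eval (n : ℤ) : ℤ) : ℝ) ≤ ((A * ((Z : ℤ) + 1 - n) : ℤ) : ℝ) := by exact_mod_cast h8
    push_cast at h9 h10
    have h11 : (1 : ℝ) ≤ n := by exact_mod_cast h5
    have h12 : δ2 * Z ≤ θ / 2 * Z := mul_le_mul_of_nonneg_right hδ2θ hZr.le
    refine ⟨by linarith, h10.trans ?_⟩
    have h13 : (Z : ℝ) + 1 - n ≤ Z := by linarith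
    calc (A : ℝ) * ((Z : ℝ) + 1 - n) ≤ A * Z := mul_le_mul_of_nonneg_left h13 (Nat.cast_nonneg _)
      _ ≤ A' * Z := mul_le_mul_of_nonneg_right hAAr hZr.le
  set Ej : ℕ → Finset (Fin d → ℤ) := fun j => ((tb 0 fun j => A' * Z ^ e j + 1).filter fun t =>
      (∀ i, 0 ≤ β i + lf c t i) ∧ NoFix (sys B P (hh c β t)) ∧
      (∀ i, δ2 * (Z : ℝ) ^ D i ≤ (((P i).eval ((j * X1 : ℕ) : ℤ) + β i + lf c t i : ℤ) : ℝ)) ∧
      X1 * (ε / 64 * SSf (pr Q) (sys B P (hh c β t)) + (Q : ℝ) ^ (-c3)) <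
        |wct (sys B P (hh c β t)) (j * X1 + X1) X1 - X1 * SSf (pr Q) (sys B P (hh c β t))|) with hEj
  have hEjc : ∀ j ∈ Ico ja jb, ((Ej j).card : ℝ) ≤
      Cv * (Z : ℝ) ^ (∑ j, e j) * ((Real.log Q) ^ (-c2) + (Q : ℝ) ^ (-c3)) := by
    intro j hjm
    have hn0 : j * X1 ≤ A' * Z := by
      have h1 := (hpos j hjm (j * X1) (le_refl _) (Nat.mul_lt_mul_of_pos_right (by omega) hX1)).2.2.2
      exact h1.trans (Nat.le_mul_of_pos_left _ hA1)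
    have h1 := h14'' Q Z (by omega) ⟨by linarith, hRg2⟩ (ε / 64) ((Real.log Q) ^ (-c2)) (by positivity) hLvl X1 (j * X1)
      hX1d hX1a hX1b hn0 B hLin (by
        intro n hn
        rw [mem_Ico] at hn
        have e2 : (j + 2) * X1 = j * X1 + 2 * X1 := by ring
        exact hBv j hjm n (by omega) (by omega)) β hβ'
    refine le_trans ?_ h1
    exact Nat.cast_le.2 (card_le_card fun t ht => mem_filter.2 (mem_filter.1 ht))
  set G := ((tb 0 fun j => A' * Z ^ e j + 1).filter fun t => (∀ i, 0 ≤ β i + lf c t i) ∧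
      (Q : ℝ) ^ (-c4) < |SSf (pr z) (sys B P (hh c β t)) - SSf (pr Q) (sys B P (hh c β t))|) with hG
  have hGc : (G.card : ℝ) ≤ (Z : ℝ) ^ (∑ j, e j) * (Q : ℝ) ^ (-c4) := by
    refine le_trans ?_ (h10' Q Z z (by omega) hRg2 hQδ hz1 hz2 B hLin β)
    exact Nat.cast_le.2 (card_le_card fun t ht => mem_filter.2 (mem_filter.1 ht))
  have hsub : F ⊆ (Ico ja jb).biUnion Ej ∪ G := by
    intro t ht
    obtain ⟨ht1, ht2, ht3, ht4⟩ := mem_filter.1 ht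
    have ht1' := v16_tb e hAA ht1
    by_contra hn
    rw [mem_union, mem_biUnion, not_or] at hn
    obtain ⟨hn1, hn2⟩ := hn
    have hn1' : ∀ j ∈ Ico ja jb, t ∉ Ej j := fun j hj hjt => hn1 ⟨j, hj, hjt⟩
    set φ := sys B P (hh c β t) with hφ
    have hX2' := hX2 B hLin P hPol (hh c β t) ht3 Q hQ2 (pr Q) (Finset.Subset.refl _)
    rw [← hφ] at hX2'
    have hlp : 0 < (1 + Real.log Q) ^ (-CX) := Real.rpow_pos_of_pos (by linarith) _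
    have hSS : 0 < SSf (pr Q) φ := lt_of_lt_of_le (by positivity) hX2'
    have hSSb : ε / 64 * cX * (1 + Real.log Q) ^ (-CX) ≤ ε / 64 * SSf (pr Q) φ := by
      have := mul_le_mul_of_nonneg_left hX2' (by positivity : 0 ≤ ε / 64)
      linarith
    have hθ1' : (Q : ℝ) ^ (-c3) ≤ ε / 64 * SSf (pr Q) φ := (ha1 Q (by omega)).trans hSSb
    have hz' : |SSf (pr z) φ - SSf (pr Q) φ| ≤ ε / 64 * SSf (pr Q) φ := by
      refine le_trans ?_ ((hb1 Q (by omega)).trans hSSb)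
      by_contra h
      exact hn2 (mem_filter.2 ⟨ht1', ht2, not_le.1 h⟩)
    have hPv : ∀ j ∈ Ico ja jb, ∀ n : ℕ, j * X1 ≤ n → n < (j + 2) * X1 → ∀ i,
        δ2 * (Z : ℝ) ^ D i ≤ (((P i).eval (n : ℤ) : ℤ) : ℝ) ∧
        (((P i).eval (n : ℤ) : ℤ) : ℝ) + ((β i + lf c t i : ℤ) : ℝ) ≤ Cz * (Z : ℝ) ^ D i := by
      intro j hjm n h1 h2 i
      obtain ⟨h3, h4, h5, h6⟩ := hpos j hjm n h1 h2
      obtain ⟨h7, h8⟩ := hv Z n (by omega) h3 h6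
      refine ⟨?_, h8 β hβ' t ht1' i⟩
      rw [hδ2]
      exact h7 i
    have hcast : ∀ i, ((β i + lf c t i : ℤ) : ℝ) ≥ 0 := by
      intro i
      have := ht2 i
      exact_mod_cast this
    have hone := v16_one D φ Q Z X1 ja jb z ε θ ((Q : ℝ) ^ (-c3)) C Cs Ks (ε / 16) hεp hε1 hθ0 hC hCs hD (by linarith)
      hRg2 (by linarith) (by rw [← hCb]; exact hθC) hSS (by linarith) hj hX1 hja hjb (by
        have h1 : (((jb + 1) * X1 : ℕ) : ℝ) ≤ Z := by linarith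
        exact_mod_cast h1) hθ1' (by positivity) (by linarith)
      (by
        intro j hjm
        have h1 := hn1' j hjm
        by_contra h2
        apply h1
        refine mem_filter.2 ⟨ht1', ht2, ht3, ?_, ?_⟩
        · intro i
          have h3 := (hPv j hjm (j * X1) (le_refl _) (Nat.mul_lt_mul_of_pos_right (by omega) hX1) i).1
          have h4 := hcast i
          push_cast at h3 h4 ⊢
          linarith
        · rw [← hφ, show j * X1 + X1 = (j + 1) * X1 by ring]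
          exact not_le.1 h2)
      (by
        intro j hjm
        refine h12 Z (by omega) φ ((j + 1) * X1) X1 fun n hn => ?_
        rw [mem_Ico] at hn
        have e1 : (j + 1) * X1 = j * X1 + X1 := by ring
        have e2 : (j + 2) * X1 = j * X1 + 2 * X1 := by ring
        have h1 : j * X1 ≤ n := by omega
        have h2 : n < (j + 2) * X1 := by omega
        constructor
        · obtain ⟨h3, h4⟩ := hBv j hjm n h1 h2
          refine ⟨h3, h4.trans ?_⟩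
          exact mul_le_mul_of_nonneg_right (by linarith) hZr.le
        · intro i
          obtain ⟨h3, h4⟩ := hPv j hjm n h1 h2 i
          have h5 : φ i.succ (n : ℤ) = (P i).eval (n : ℤ) + (β i + lf c t i) := by
            show (P i).eval (n : ℤ) + ((β i + lf c t i).toNat : ℤ) = _
            rw [Int.toNat_of_nonneg (ht2 i)]
          rw [h5]
          have h6 := hcast i
          have h7 : (0 : ℝ) ≤ A' * (Z : ℝ) ^ D i := by positivity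
          push_cast at h3 h4 h6 ⊢
          constructor
          · linarith
          · linarith)
      (by
        intro n1 L h1 h2
        exact h13 Q (by omega) B hLin P hPol (hh c β t) ht3 n1 L h1 h2)
      (by
        refine v16_siv (r := ρ / 4) (by positivity) (by linarith) (by linarith) hZp ?_
        have h1 : X1 ≤ (ja + 1) * X1 := Nat.le_mul_of_pos_left _ (Nat.succ_pos _)
        have h2 : (X1 : ℝ) - 1 ≤ (((ja + 1) * X1 - 1 : ℕ) : ℝ) := by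
          have h3 : X1 - 1 ≤ (ja + 1) * X1 - 1 := by omega
          have h4 : ((X1 - 1 : ℕ) : ℝ) ≤ (((ja + 1) * X1 - 1 : ℕ) : ℝ) := by exact_mod_cast h3
          rwa [Nat.cast_sub hX1, Nat.cast_one] at h4
        linarith)
      (by
        refine v16_siv (r := θ / 2) (by positivity) (by linarith) (by linarith) hZp ?_
        have h1 : (((jb + 1) * X1 : ℕ) : ℝ) ≤ Z := by linarith
        have h2 : (jb + 1) * X1 ≤ Z := by exact_mod_cast h1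
        rw [Nat.cast_sub (by omega)]
        push_cast at hjb' ⊢
        linarith)
      hz'
    have hd0 : 0 ≤ (Z : ℝ) * dens D z Z φ := by
      unfold dens
      have h1 := (abs_le.1 hz').1
      have h3 : ε / 64 * SSf (pr Q) φ ≤ SSf (pr Q) φ := mul_le_of_le_one_left hSS.le (by linarith)
      have h2 : 0 ≤ SSf (pr z) φ := by linarith
      positivity
    exact absurd (hone.trans (mul_le_mul_of_nonneg_right hεε hd0)) (not_le.2 ht4)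
  have hcard : (F.card : ℝ) ≤ ∑ j ∈ Ico ja jb, ((Ej j).card : ℝ) + (G.card : ℝ) := by
    have h1 : F.card ≤ ∑ j ∈ Ico ja jb, (Ej j).card + G.card :=
      (card_le_card hsub).trans ((card_union_le _ _).trans (Nat.add_le_add_right card_biUnion_le _))
    exact_mod_cast h1
  have hZe : (Z : ℝ) ^ (∑ j, (e j : ℝ)) = (Z : ℝ) ^ (∑ j, e j) := by
    rw [← Real.rpow_natCast]
    push_cast
    rfl
  rw [hZe]
  have hZe0 : 0 < (Z : ℝ) ^ (∑ j, e j) := by positivity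
  have hfin := hc1' Q Z (by omega) hlZ hRg2
  have hX0 : 0 ≤ (Real.log Q) ^ (-c2) + (Q : ℝ) ^ (-c3) := by positivity
  have hjd : (((Ico ja jb).card : ℕ) : ℝ) ≤ 2 / ρ := by
    rw [Nat.card_Ico]
    have h1 : ((jb - ja : ℕ) : ℝ) ≤ jb := by exact_mod_cast Nat.sub_le _ _
    linarith
  calc (F.card : ℝ) ≤ ∑ j ∈ Ico ja jb, ((Ej j).card : ℝ) + (G.card : ℝ) := hcard
    _ ≤ ∑ _j ∈ Ico ja jb, Cv * (Z : ℝ) ^ (∑ j, e j) * ((Real.log Q) ^ (-c2) + (Q : ℝ) ^ (-c3)) +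
        (Z : ℝ) ^ (∑ j, e j) * (Q : ℝ) ^ (-c4) := add_le_add (sum_le_sum hEjc) hGc
    _ = ((Ico ja jb).card : ℝ) * (Cv * (Z : ℝ) ^ (∑ j, e j) * ((Real.log Q) ^ (-c2) + (Q : ℝ) ^ (-c3))) +
        (Z : ℝ) ^ (∑ j, e j) * (Q : ℝ) ^ (-c4) := by rw [sum_const, nsmul_eq_mul]
    _ ≤ (2 / ρ) * (Cv * (Z : ℝ) ^ (∑ j, e j) * ((Real.log Q) ^ (-c2) + (Q : ℝ) ^ (-c3))) +
        (Z : ℝ) ^ (∑ j, e j) * (Q : ℝ) ^ (-c4) := by
        have h1 : 0 ≤ Cv * (Z : ℝ) ^ (∑ j, e j) * ((Real.log Q) ^ (-c2) + (Q : ℝ) ^ (-c3)) := by positivity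
        have h2 := mul_le_mul_of_nonneg_right hjd h1
        linarith
    _ = (Z : ℝ) ^ (∑ j, e j) * (2 / ρ * Cv * ((Real.log Q) ^ (-c2) + (Q : ℝ) ^ (-c3)) + (Q : ℝ) ^ (-c4)) := by ring
    _ ≤ (Z : ℝ) ^ (∑ j, e j) * (Real.log Z) ^ (-(c2 / 2)) := mul_le_mul_of_nonneg_left hfin hZe0.le

end Pool.Agent.H9P
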