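import Pool.Agent.Lib.H9P.V0
import Pool.Agent.Lib.H9P.U17

/-!
# ASYP, chunk V17 (S/M): every large `N`, in terms of the problem
-/

open Finset Polynomial

namespace Pool.Agent.H9P

open Pool.Agent.Lib.H68T Pool.Agent.Lib.H18Q Pool.Agent.Lib.H59P Pool.Agent.Lib.H24P
open Pool.Agent.HUP
open Pool.Agent.Lib.H59 (argSet argCount Admissible primeCount omegaN seriesTrunc)

/-- comparison of the bounds for `Z` and `N` -/
theorem v17_log (γ : ℕ) (hγ : 1 ≤ γ) (s q : ℝ) (hs : 0 ≤ s) (hq : 0 < q) :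
    ∃ N1 : ℕ, ∀ N Z : ℕ, N1 ≤ N → (N : ℝ) ≤ 2 * γ * Z → (Z : ℝ) ≤ 2 * N →
      (Z : ℝ) ^ s * (Real.log Z) ^ (-q) ≤ (N : ℝ) ^ s * (Real.log N) ^ (-(q / 2)) := by
  have hγr : (1 : ℝ) ≤ γ := by exact_mod_cast hγ
  have ht1 : Filter.Tendsto (fun N : ℕ => Real.log (N : ℝ)) Filter.atTop Filter.atTop :=
    Real.tendsto_log_atTop.comp tendsto_natCast_atTop_atTop
  have ht2 : Filter.Tendsto (fun N : ℕ => (Real.log (N : ℝ)) ^ (q / 2)) Filter.atTop Filter.atTop :=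
    (tendsto_rpow_atTop (by linarith)).comp ht1
  obtain ⟨N1, hN1⟩ := Filter.eventually_atTop.1 ((ht2.eventually_ge_atTop ((2 : ℝ) ^ (s + q))).and
    ((ht1.eventually_ge_atTop (2 * Real.log (2 * γ))).and ((ht1.eventually_ge_atTop 1).and (Filter.eventually_ge_atTop 1))))
  refine ⟨N1, fun N Z hN h1 h2 => ?_⟩
  obtain ⟨a1, a2, a3, a4⟩ := hN1 N hN
  have hN0 : (0 : ℝ) < N := by exact_mod_cast a4
  have hZ0 : (0 : ℝ) < Z := by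
    by_contra hc
    push Not at hc
    have h3 : (2 * γ : ℝ) * Z ≤ 0 := mul_nonpos_of_nonneg_of_nonpos (by positivity) hc
    linarith
  obtain ⟨L, hL⟩ : ∃ L, L = Real.log (N : ℝ) := ⟨_, rfl⟩
  rw [← hL] at a1 a2 a3 ⊢
  have hlog : L / 2 ≤ Real.log Z := by
    have h3 : Real.log N ≤ Real.log (2 * γ * Z) := Real.log_le_log hN0 h1
    rw [Real.log_mul (by positivity) hZ0.ne', ← hL] at h3
    linarith
  have b1 : (Real.log Z) ^ (-q) ≤ (2 : ℝ) ^ q * L ^ (-q) := by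
    have h3 := Real.rpow_le_rpow_of_nonpos (z := -q) (by linarith : 0 < L / 2) hlog (by linarith)
    refine h3.trans (le_of_eq ?_)
    rw [Real.div_rpow (by linarith) (by norm_num), Real.rpow_neg (by norm_num : (0 : ℝ) ≤ 2), div_inv_eq_mul, mul_comm]
  have b2 : (Z : ℝ) ^ s ≤ (2 : ℝ) ^ s * (N : ℝ) ^ s := by
    rw [← Real.mul_rpow (by norm_num) hN0.le]
    exact Real.rpow_le_rpow hZ0.le h2 hs
  have hL0 : 0 < L := by linarith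
  calc (Z : ℝ) ^ s * (Real.log Z) ^ (-q) ≤ ((2 : ℝ) ^ s * (N : ℝ) ^ s) * ((2 : ℝ) ^ q * L ^ (-q)) :=
        mul_le_mul b2 b1 (Real.rpow_nonneg (by linarith) _) (by positivity)
    _ = (N : ℝ) ^ s * ((2 : ℝ) ^ (s + q) * L ^ (-q)) := by
        rw [Real.rpow_add (by norm_num : (0 : ℝ) < 2)]
        ring
    _ ≤ (N : ℝ) ^ s * (L ^ (q / 2) * L ^ (-q)) := by
        refine mul_le_mul_of_nonneg_left (mul_le_mul_of_nonneg_right a1 (Real.rpow_nonneg hL0.le _)) (by positivity)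
    _ = (N : ℝ) ^ s * L ^ (-(q / 2)) := by
        rw [← Real.rpow_add hL0]
        congr 2
        ring

open Classical in
/-- **V17** (variant of `U17_main`, same proof). -/
theorem V17_main {g d : ℕ} (G : ℤ[X]) (hG : G.natDegree = 1) (hG0 : 0 < G.leadingCoeff) (P : Fin g → ℤ[X])
    (D : Fin g → ℕ) (a : Fin g → ℤ) (hP : HasD D a P) (hD : ∀ i, 1 ≤ D i) (c : Fin g → Fin d → ℤ) (e : Fin d → ℕ)
    (he : ∀ j, 1 ≤ e j) (hA : ECoreP c e D P) :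
    ∃ δ1 : ℝ, 0 < δ1 ∧ ∀ Cb : ℝ, ∃ c0 : ℝ, 0 < c0 ∧ ∀ ε δ : ℝ, 0 < ε → 0 < δ → ∃ N0 : ℕ, ∀ N : ℕ, N0 ≤ N →
      ∀ b : Fin g → ℤ, (∀ i, |(b i : ℝ)| ≤ Cb * (N : ℝ) ^ D i) →
      ∀ z : ℕ, (N : ℝ) ^ δ ≤ z → (z : ℝ) ≤ (N : ℝ) ^ δ1 →
      (((tb 0 fun j => N ^ e j + 1).filter fun t => (∀ i, 0 ≤ b i + lf c t i) ∧ FailsP ε (famP P c b t) G N z).card : ℝ) ≤
        (N : ℝ) ^ (∑ j, (e j : ℝ)) * (Real.log N) ^ (-c0) := by
  classical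
  obtain ⟨δ1, hδ1, hcore⟩ := hA
  refine ⟨δ1 / 2, by linarith, fun Cb => ?_⟩
  obtain ⟨γ, hγ⟩ : ∃ γ : ℕ, γ = G.leadingCoeff.natAbs := ⟨_, rfl⟩
  have hγ1 : 1 ≤ γ := by omega
  have hγr : (1 : ℝ) ≤ γ := by exact_mod_cast hγ1
  obtain ⟨K, hK⟩ : ∃ K : ℕ, K = ⌈|Cb|⌉₊ := ⟨_, rfl⟩
  have hKb : |Cb| ≤ K := by rw [hK]; exact Nat.le_ceil _
  obtain ⟨A1, hA1⟩ : ∃ A1 : ℕ, A1 = γ + ∑ i, K * (2 * γ) ^ D i + ∑ j, (2 * γ) ^ e j := ⟨_, rfl⟩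
  have hA1b : γ ≤ A1 := by
    rw [hA1]
    have h1 : 0 ≤ ∑ i, K * (2 * γ) ^ D i := Nat.zero_le _
    have h2 : 0 ≤ ∑ j, (2 * γ) ^ e j := Nat.zero_le _
    omega
  have hA1c : ∀ i, K * (2 * γ) ^ D i ≤ A1 := by
    intro i
    have h1 : K * (2 * γ) ^ D i ≤ ∑ i, K * (2 * γ) ^ D i :=
      single_le_sum (f := fun i => K * (2 * γ) ^ D i) (fun _ _ => Nat.zero_le _) (mem_univ i)
    rw [hA1]
    omega
  have hA1d : ∀ j, (2 * γ) ^ e j ≤ A1 := by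
    intro j
    have h1 : (2 * γ) ^ e j ≤ ∑ j, (2 * γ) ^ e j :=
      single_le_sum (f := fun j => (2 * γ) ^ e j) (fun _ _ => Nat.zero_le _) (mem_univ j)
    rw [hA1]
    omega
  obtain ⟨q, hq, hq'⟩ := hcore A1
  refine ⟨q / 2, by linarith, fun ε δ hε hδ => ?_⟩
  obtain ⟨Z0, hZ0⟩ := hq' ε (δ / 2) hε (by linarith)
  obtain ⟨N0, hN0⟩ := U17_dec G hG hG0
  obtain ⟨N1, hN1⟩ := u17_large γ hγ1 (G.coeff 0 : ℝ) δ δ1 1 (∑ j, (e j : ℝ)) hδ hδ1 one_pos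
  obtain ⟨N2, hN2⟩ := v17_log γ hγ1 (∑ j, (e j : ℝ)) q (sum_nonneg fun j _ => Nat.cast_nonneg _) hq
  refine ⟨N0 + N1 + N2 + 2 * γ * Z0, fun N hN b hb z hz1 hz2 => ?_⟩
  have hNa : N0 ≤ N := by omega
  have hNb : N1 ≤ N := by omega
  have hNc : N2 ≤ N := by omega
  have hNd : 2 * γ * Z0 ≤ N := by omega
  obtain ⟨q1, q2, q3⟩ := hN0 N hNa
  rw [← hγ] at q1 q3
  obtain ⟨Z, hZ⟩ : ∃ Z : ℕ, Z = argCount G N := ⟨_, rfl⟩
  rw [← hZ] at q1 q2 q3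
  obtain ⟨r1, r2, r3, r4, -⟩ := hN1 N Z z hNb q3
  have r3' := r3 hz1
  have r4' := r4 hz2
  have r1' : N ≤ 2 * γ * Z := by exact_mod_cast r1
  have hZM : Z0 ≤ Z := by
    have h1 : (2 * γ) * Z0 ≤ (2 * γ) * Z := le_trans hNd r1'
    exact Nat.le_of_mul_le_mul_left h1 (by omega)
  have hdec : Dec A1 Z (C (N : ℤ) - G) := ⟨q1.deg, q1.neg, q1.lc.trans hA1b, q1.pos, q1.last⟩
  have hbb : ∀ i, |b i| ≤ A1 * (Z : ℤ) ^ D i := by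
    intro i
    have h1 : (|b i| : ℝ) ≤ A1 * (Z : ℝ) ^ D i := by
      calc (|b i| : ℝ) ≤ Cb * (N : ℝ) ^ D i := hb i
        _ ≤ K * (2 * γ * Z : ℝ) ^ D i := by
            gcongr
            exact (le_abs_self _).trans hKb
        _ = (K * (2 * γ : ℝ) ^ D i) * (Z : ℝ) ^ D i := by rw [mul_pow]; ring
        _ ≤ A1 * (Z : ℝ) ^ D i := by
            gcongr
            exact_mod_cast hA1c i
    exact_mod_cast h1
  refine le_trans ?_ (le_trans (hZ0 Z hZM (C (N : ℤ) - G) hdec b hbb (z - 1) r3' r4') (hN2 N Z hNc r1 r2))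
  refine Nat.cast_le.2 (card_le_card ?_)
  intro t ht
  rw [mem_filter] at ht ⊢
  obtain ⟨t1, t2, t3, t4⟩ := ht
  refine ⟨?_, t2, U17_noFix G P c b t N t2 t3, ?_⟩
  · unfold tb at t1 ⊢
    rw [Fintype.mem_piFinset] at t1 ⊢
    intro j
    have h1 := t1 j
    rw [mem_Ico] at h1 ⊢
    have h2 : N ^ e j ≤ A1 * Z ^ e j := by
      calc N ^ e j ≤ (2 * γ * Z) ^ e j := Nat.pow_le_pow_left r1' _
        _ = (2 * γ) ^ e j * Z ^ e j := by rw [mul_pow]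
        _ ≤ A1 * Z ^ e j := Nat.mul_le_mul_right _ (hA1d j)
    have h3 : ((N ^ e j + 1 : ℕ) : ℤ) ≤ ((A1 * Z ^ e j + 1 : ℕ) : ℤ) := by exact_mod_cast Nat.succ_le_succ h2
    refine ⟨h1.1, lt_of_lt_of_le h1.2 ?_⟩
    simp only [Pi.zero_apply, zero_add]
    exact h3
  · rw [u17_main_term G hG P D a hP c b t N z t2, U17_cnt G P c b t N t2 (by rw [← hZ]; exact q2), ← hZ] at t4
    exact t4

end Pool.Agent.H9P
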