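import Pool.Agent.Lib.H9P.V0
import Pool.Agent.Lib.H9P.U9

/-!
# ASYP, chunk V9 (M): one box of parameters from an abstract level
-/

open Finset Polynomial

namespace Pool.Agent.H9P

open Pool.Agent.Lib.H68T Pool.Agent.Lib.H18Q Pool.Agent.Lib.H59P Pool.Agent.Lib.H24P
open Pool.Agent.HUP

/-- The weights are bounded. -/
theorem v9_lp (A : ℕ) (C : ℝ) (Q X X1 Y : ℕ) (B : ℤ[X]) (hQ : 3 * A + 3 ≤ Q) (hRg : Rg 1001 C Q X) (hX1 : 0 < X1)
    (hX1X : X1 ≤ X) (hG : GeoB A X X1 Y B) : ∀ n ∈ Ico X1 (2 * X1), |lp (B.eval (n : ℤ))| ≤ (Real.log X) ^ 2 := by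
  have hQ3 : 3 ≤ Q := by omega
  have hQA : 3 * A ≤ Q := by omega
  have hlogQ : 1 ≤ Real.log Q := G1_log1 hQ3
  have hlogX : 1001 * Real.log Q ≤ Real.log X := hRg.1
  obtain ⟨l, hl⟩ : ∃ l : ℝ, l = Real.log X := ⟨_, rfl⟩
  rw [← hl] at hlogX ⊢
  have hl1 : 1001 ≤ l := by linarith
  have hXpos : 0 < X := lt_of_lt_of_le hX1 hX1X
  have hXr : (0 : ℝ) < X := by exact_mod_cast hXpos
  have hAX : Real.log (3 * (A : ℝ) * X) ≤ 2 * l := by
    rcases Nat.eq_zero_or_pos A with hA | hA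
    · rw [hA]
      simp only [Nat.cast_zero, mul_zero, zero_mul, Real.log_zero]
      linarith
    have hA' : (0 : ℝ) < A := by exact_mod_cast hA
    rw [Real.log_mul (by positivity) hXr.ne', ← hl]
    have h1 : Real.log (3 * (A : ℝ)) ≤ Real.log Q := by
      refine Real.log_le_log (by positivity) ?_
      exact_mod_cast hQA
    linarith
  intro n hn
  have hlp : |lp (B.eval (n : ℤ))| ≤ 2 * l := by
    have h1 := hG.lo n hn
    have h2 := hG.hi n hn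
    unfold Pool.Agent.Lib.H68T.lp
    split_ifs with hp
    · have h3 : 2 ≤ (B.eval (n : ℤ)).toNat := hp.two_le
      have h4 : (2 : ℤ) ≤ B.eval (n : ℤ) := by omega
      have h5 : (2 : ℝ) ≤ ((B.eval (n : ℤ) : ℤ) : ℝ) := by exact_mod_cast h4
      rw [abs_of_nonneg (Real.log_nonneg (by linarith))]
      refine le_trans (Real.log_le_log (by linarith) ?_) hAX
      have h6 : B.eval (n : ℤ) ≤ ((3 * A * X : ℕ) : ℤ) := by
        have h7 : 3 * Y ≤ 3 * A * X := by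
          have := hG.Yhi
          calc 3 * Y ≤ 3 * (A * X) := Nat.mul_le_mul_left 3 this
            _ = 3 * A * X := by ring
        have h8 : ((3 * Y : ℕ) : ℤ) ≤ ((3 * A * X : ℕ) : ℤ) := by exact_mod_cast h7
        push_cast at h8 ⊢
        linarith
      calc ((B.eval (n : ℤ) : ℤ) : ℝ) ≤ (((3 * A * X : ℕ) : ℤ) : ℝ) := by exact_mod_cast h6
        _ = 3 * (A : ℝ) * X := by push_cast; ring
    · rw [abs_zero]
      linarith
  refine hlp.trans ?_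
  nlinarith

open Classical in
/-- **V9** (copy of the proof of `U9_box`, with `Lvl.cell` in place of `U9_cell` and `Lvl.cf` in place of `CF0`). `E, Cc, cc` are those of `FGTU`. -/
theorem V9_box {k d : ℕ} (c : Fin k → Fin d → ℤ) (e : Fin d → ℕ) (D : Fin k → ℕ) (a : Fin k → ℤ)
    (hF : FGTU c D a) (hS : S4TU c e D a) (he : ∀ j, 1 ≤ e j) (hD : ∀ i, 1 ≤ D i) (A : ℕ) (hA : 1 ≤ A)
    (hDA : ∀ i, D i ≤ A ∧ (a i).natAbs ≤ A) : ∃ (E : ℕ) (Cc cc K : ℝ), FPar Cc cc ∧ 1 ≤ K ∧ ∀ C : ℝ,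
    ∃ τ c0 : ℝ, 0 < τ ∧ τ ≤ 1 / 10 ∧ 0 < c0 ∧ ∃ Q0 : ℕ, ∀ P : Fin k → ℤ[X], HasD D a P →
    ∀ (Q X X1 Y : ℕ) (M : Fin k → ℕ) (B : ℤ[X]) (b : Fin d → ℤ) (s : Fin d → ℕ) (β : Fin k → ℤ), Q0 ≤ Q →
    Rg K C Q X → GeoU A Q X X1 P M → GeoB A X X1 Y B → (X : ℝ) ≤ X1 * (Q : ℝ) ^ τ →
    (∀ i, (M i : ℝ) ≤ (X1 : ℝ) ^ (P i).natDegree * (Q : ℝ) ^ τ) →
    (∀ j, (X : ℝ) ^ e j ≤ (Q : ℝ) ^ τ * s j) → (∀ j, (s j : ℝ) ≤ (Q : ℝ) ^ τ * (X : ℝ) ^ e j) →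
    (∀ j, Q ^ 10 ∣ s j) → (∀ i, ∑ j, |c i j| * (s j : ℤ) ≤ Q * (M i : ℤ)) →
    X ≤ Y ^ 2 → Y ≤ X ^ (A + 2) → (∀ i, X ≤ Ysc (M i) ^ 2 ∧ Ysc (M i) ≤ X ^ (A + 2)) →
    (∀ t ∈ tb b s, ∀ i, 151 * (M i : ℤ) ≤ 100 * (β i + lf c t i) ∧ 100 * (β i + lf c t i) < 168 * (M i : ℤ)) →
    ∀ ε c1 ϑ : ℝ, Lvl k A E Cc cc Q X ε c1 ϑ →
    (((tb b s).filter (fun t => NoFix (sys B P (hh c β t)) ∧
      X1 * (ε * SSf (pr Q) (sys B P (hh c β t)) + (Q : ℝ) ^ (-c1) + (Q : ℝ) ^ (-c0)) <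
      |RPh X1 B P (hh c β t) - X1 * SSf (pr Q) (sys B P (hh c β t))|)).card : ℝ) ≤
      (tb b s).card * (ϑ + (Q : ℝ) ^ (-c0)) := by
  obtain ⟨E, Cc, cc, hFP, hFG⟩ := hF
  obtain ⟨K2, hK2, hS4⟩ := hS A (fun i => (hDA i).1)
  obtain ⟨K0, hK0⟩ : ∃ K0 : ℝ, K0 = K2 + 1001 + 20 + 2 * E := ⟨_, rfl⟩
  have hEn : (0 : ℝ) ≤ E := Nat.cast_nonneg _
  have hK0b : K2 ≤ K0 := by rw [hK0]; linarith
  have hK0d : 1001 ≤ K0 := by rw [hK0]; linarith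
  have hK0g : 2 * (E : ℝ) + 20 ≤ K0 := by rw [hK0]; linarith
  refine ⟨E, Cc, cc, K0, hFP, by linarith, fun C => ?_⟩
  obtain ⟨τ1, c0, hτ1, hτ11, hc0, Q2, hS4'⟩ := hS4 C
  obtain ⟨τ, hτd⟩ : ∃ τ : ℝ, τ = min τ1 (1 / 10) := ⟨_, rfl⟩
  have hτ0 : 0 < τ := by rw [hτd]; exact lt_min hτ1 (by norm_num)
  have hττ1 : τ ≤ τ1 := by rw [hτd]; exact min_le_left _ _
  have hτ10 : τ ≤ 1 / 10 := by rw [hτd]; exact min_le_right _ _
  refine ⟨τ, c0 / 4, hτ0, hτ10, by linarith, Q2 + 3 * A + 3, ?_⟩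
  intro P hPD Q X X1 Y M B b s β hQ hRg hG hGB hXτ hMτ hs1 hs2 hs10 hcs hY1 hY2 hM hrange ε c1 ϑ hL
  have hP : Pol A P := ⟨fun i => by rw [(hPD i).1]; exact hD i, fun i => by rw [(hPD i).1]; exact (hDA i).1,
    fun i => by rw [(hPD i).2]; exact (hDA i).2⟩
  have hV : GeoV Q X X1 P M := U1_geo A Q X X1 P M hP hG
  have hQ0 : 0 < Q := by omega
  have hQr : (0 : ℝ) < Q := by exact_mod_cast hQ0
  have hQ1r : (1 : ℝ) ≤ Q := by exact_mod_cast hQ0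
  have hlQ : 0 ≤ Real.log Q := Real.log_natCast_nonneg Q
  have hX0 : 0 < X := lt_of_lt_of_le hG.pos hG.le
  have hXr : (0 : ℝ) < X := by exact_mod_cast hX0
  have hX1' : (1 : ℝ) ≤ X := by exact_mod_cast hX0
  have hRgb : Rg K2 C Q X := ⟨(mul_le_mul_of_nonneg_right hK0b hlQ).trans hRg.1, hRg.2⟩
  have hRgd : Rg 1001 C Q X := ⟨(mul_le_mul_of_nonneg_right hK0d hlQ).trans hRg.1, hRg.2⟩
  have hQE : Q ^ (2 * E + 20) ≤ X := by
    have h1 : Real.log ((Q : ℝ) ^ (2 * E + 20)) ≤ Real.log X := by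
      rw [Real.log_pow]
      push_cast
      exact (mul_le_mul_of_nonneg_right hK0g hlQ).trans hRg.1
    have h2 : (Q : ℝ) ^ (2 * E + 20) ≤ X := (Real.log_le_log_iff (by positivity) hXr).mp h1
    exact_mod_cast h2
  have hQτ : (Q : ℝ) ^ τ ≤ Q := by
    calc (Q : ℝ) ^ τ ≤ (Q : ℝ) ^ (1 : ℝ) := Real.rpow_le_rpow_of_exponent_le hQ1r (by linarith)
      _ = Q := Real.rpow_one _
  have hQττ : (Q : ℝ) ^ τ ≤ (Q : ℝ) ^ τ1 := Real.rpow_le_rpow_of_exponent_le hQ1r hττ1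
  -- the sub-boxes
  choose s' hs' using hs10
  have hs'E : ∀ j, (Q ^ 2) ^ E ≤ s' j := by
    intro j
    have h1 : (X : ℝ) ≤ Q * s j := by
      calc (X : ℝ) ≤ (X : ℝ) ^ e j := le_self_pow₀ hX1' (by have := he j; omega)
        _ ≤ (Q : ℝ) ^ τ * s j := hs1 j
        _ ≤ Q * s j := mul_le_mul_of_nonneg_right hQτ (Nat.cast_nonneg _)
    have h2 : X ≤ Q * s j := by exact_mod_cast h1
    rw [hs' j] at h2
    have h3 : Q * (Q ^ 10 * s' j) ≤ Q ^ 20 * s' j := by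
      calc Q * (Q ^ 10 * s' j) = Q ^ 11 * s' j := by ring
        _ ≤ Q ^ 20 * s' j := Nat.mul_le_mul_right _ (Nat.pow_le_pow_right hQ0 (by norm_num))
    have h4 : Q ^ 20 * (Q ^ 2) ^ E ≤ Q ^ 20 * s' j := by
      refine le_trans (le_of_eq ?_) (hQE.trans (h2.trans h3))
      rw [← pow_mul, ← pow_add]
      congr 1
      omega
    exact Nat.le_of_mul_le_mul_left h4 (by positivity)
  have hclose : ∀ i, (Q : ℤ) ^ 8 * ∑ j, |c i j| * (s' j : ℤ) ≤ M i := by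
    intro i
    have h1 : ∑ j, |c i j| * (s j : ℤ) = (Q : ℤ) ^ 10 * ∑ j, |c i j| * (s' j : ℤ) := by
      rw [mul_sum]
      refine sum_congr rfl fun j _ => ?_
      rw [hs' j]
      push_cast
      ring
    have h2 := hcs i
    rw [h1] at h2
    have hSn : (0 : ℤ) ≤ ∑ j, |c i j| * (s' j : ℤ) :=
      sum_nonneg fun j _ => mul_nonneg (abs_nonneg _) (Nat.cast_nonneg _)
    have hQz : (0 : ℤ) < Q := by exact_mod_cast hQ0
    have h3 : (Q : ℤ) * ((Q : ℤ) ^ 9 * ∑ j, |c i j| * (s' j : ℤ)) ≤ Q * M i := by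
      refine le_trans (le_of_eq ?_) h2
      ring
    have h4 : (Q : ℤ) ^ 9 * ∑ j, |c i j| * (s' j : ℤ) ≤ M i := le_of_mul_le_mul_left h3 hQz
    refine le_trans (mul_le_mul_of_nonneg_right ?_ hSn) h4
    have h5 : Q ^ 8 ≤ Q ^ 9 := Nat.pow_le_pow_right hQ0 (by norm_num)
    exact_mod_cast h5
  obtain ⟨Bd, hBd⟩ : ∃ Bd : (Fin d → ℤ) → Prop, ∀ t, Bd t ↔ (NoFix (sys B P (hh c β t)) ∧
      X1 * (ε * SSf (pr Q) (sys B P (hh c β t)) + (Q : ℝ) ^ (-c1)) <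
      |Rw Q X1 P M (fun n => lp (B.eval (n : ℤ))) (hh c β t) - X1 * SSf (pr Q) (sys B P (hh c β t))|) :=
    ⟨_, fun _ => Iff.rfl⟩
  have hboxes : ∀ b' : Fin d → ℤ, tb b' s' ⊆ tb b s → (((tb b' s').filter Bd).card : ℝ) ≤
      (tb b' s').card * ϑ := by
    intro b' hb'
    rcases (tb b' s').eq_empty_or_nonempty with hem | ⟨t0, ht0⟩
    · rw [hem]; simp
    have hCl : Cl E Cc cc Q P M (tb b' s') (hh c β) (hh c β t0) := by
      refine ⟨hFG P hPD (Q ^ 2) b' s' β (Nat.one_le_pow _ _ hQ0) hs'E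
        (fun t ht => (u9_mem c β M t (hrange t (hb' ht))).2.1),
        fun t ht => (u9_mem c β M t (hrange t (hb' ht))).1, (u9_mem c β M t0 (hrange t0 (hb' ht0))).1, ?_⟩
      intro t ht i
      have h1 := (u9_mem c β M t (hrange t (hb' ht))).2.2 i
      have h2 := (u9_mem c β M t0 (hrange t0 (hb' ht0))).2.2 i
      rw [h1, h2]
      have h3 := R18_var c b' s' i t t0 ht ht0
      have h5 : β i + lf c t i - (β i + lf c t0 i) = lf c t i - lf c t0 i := by ring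
      rw [h5]
      exact (mul_le_mul_of_nonneg_left h3 (by positivity)).trans (hclose i)
    have h1 := hL.cell P hP X1 Y M B hV hGB hY1 hY2 hM (Fin d → ℤ) (tb b' s') (hh c β) (hh c β t0) hCl
    refine le_trans (le_of_eq ?_) h1
    congr 2
    exact filter_congr fun t _ => hBd t
  have hsplit := R18_split b s s' (Q ^ 10) hs' Bd ϑ hboxes
  -- the mean square over the box
  have hcfM : ∀ i, ∃ (B' : ℤ → Ch → ℂ) (mb : Ch → ℝ), Cf Q (Ysc (M i)) B' mb :=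
    fun i => hL.cf (Ysc (M i)) (hM i).1 (hM i).2
  have hwb : ∀ n ∈ Ico X1 (2 * X1), |lp (B.eval (n : ℤ))| ≤ (Real.log X) ^ 2 :=
    v9_lp A C Q X X1 Y B (by omega) hRgd hG.pos hG.le hGB
  have hms := hS4' P hPD Q X X1 M b s β (by omega) hRgb hG
    (hXτ.trans (mul_le_mul_of_nonneg_left hQττ (Nat.cast_nonneg _)))
    (fun i => (hMτ i).trans (mul_le_mul_of_nonneg_left hQττ (by positivity)))
    (fun j => (hs1 j).trans (mul_le_mul_of_nonneg_right hQττ (Nat.cast_nonneg _)))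
    (fun j => (hs2 j).trans (mul_le_mul_of_nonneg_right hQττ (by positivity)))
    hcfM hrange (fun n => lp (B.eval (n : ℤ))) hwb
  have hms' : ∑ t ∈ tb b s, |RPh X1 B P (hh c β t) - Rw Q X1 P M (fun n => lp (B.eval (n : ℤ))) (hh c β t)| ^ 2 ≤
      (X1 : ℝ) ^ 2 * (tb b s).card * (Q : ℝ) ^ (-c0) := by
    refine le_trans (le_of_eq ?_) hms
    refine sum_congr rfl fun t _ => ?_
    rw [sq_abs]
    rfl
  have hch := u9_cheb (tb b s) (fun t => |RPh X1 B P (hh c β t) -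
    Rw Q X1 P M (fun n => lp (B.eval (n : ℤ))) (hh c β t)|) X1 Q hG.pos hQ0 c0 (fun _ => abs_nonneg _) hms'
  -- the conclusion
  have hsub : (tb b s).filter (fun t => NoFix (sys B P (hh c β t)) ∧
      X1 * (ε * SSf (pr Q) (sys B P (hh c β t)) + (Q : ℝ) ^ (-c1) + (Q : ℝ) ^ (-(c0 / 4))) <
      |RPh X1 B P (hh c β t) - X1 * SSf (pr Q) (sys B P (hh c β t))|) ⊆
      (tb b s).filter Bd ∪ (tb b s).filter (fun t => (X1 : ℝ) * (Q : ℝ) ^ (-(c0 / 4)) <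
        |RPh X1 B P (hh c β t) - Rw Q X1 P M (fun n => lp (B.eval (n : ℤ))) (hh c β t)|) := by
    intro t ht
    rw [mem_filter] at ht
    obtain ⟨ht1, htn, ht2⟩ := ht
    rw [mem_union, mem_filter, mem_filter]
    by_contra hcon
    push Not at hcon
    have h1 := hcon.2 ht1
    have h2 : |Rw Q X1 P M (fun n => lp (B.eval (n : ℤ))) (hh c β t) - X1 * SSf (pr Q) (sys B P (hh c β t))| ≤
        X1 * (ε * SSf (pr Q) (sys B P (hh c β t)) + (Q : ℝ) ^ (-c1)) := by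
      by_contra h
      push Not at h
      exact hcon.1 ht1 ((hBd t).2 ⟨htn, h⟩)
    have h4 := abs_sub_le (RPh X1 B P (hh c β t)) (Rw Q X1 P M (fun n => lp (B.eval (n : ℤ))) (hh c β t))
      (X1 * SSf (pr Q) (sys B P (hh c β t)))
    have h6 : (X1 : ℝ) * (ε * SSf (pr Q) (sys B P (hh c β t)) + (Q : ℝ) ^ (-c1) + (Q : ℝ) ^ (-(c0 / 4))) =
      X1 * (ε * SSf (pr Q) (sys B P (hh c β t)) + (Q : ℝ) ^ (-c1)) + X1 * (Q : ℝ) ^ (-(c0 / 4)) := by ring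
    rw [h6] at ht2
    linarith
  have hcard := (card_le_card hsub).trans (card_union_le _ _)
  have hcard' : (((tb b s).filter (fun t => NoFix (sys B P (hh c β t)) ∧
      X1 * (ε * SSf (pr Q) (sys B P (hh c β t)) + (Q : ℝ) ^ (-c1) + (Q : ℝ) ^ (-(c0 / 4))) <
      |RPh X1 B P (hh c β t) - X1 * SSf (pr Q) (sys B P (hh c β t))|)).card : ℝ) ≤
      (((tb b s).filter Bd).card : ℝ) + (((tb b s).filter (fun t => (X1 : ℝ) * (Q : ℝ) ^ (-(c0 / 4)) <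
        |RPh X1 B P (hh c β t) - Rw Q X1 P M (fun n => lp (B.eval (n : ℤ))) (hh c β t)|)).card : ℝ) := by
    exact_mod_cast hcard
  have h3 : (Q : ℝ) ^ (-(c0 / 2)) ≤ (Q : ℝ) ^ (-(c0 / 4)) := Real.rpow_le_rpow_of_exponent_le hQ1r (by linarith)
  have h4 := mul_le_mul_of_nonneg_left h3 (Nat.cast_nonneg (tb b s).card : (0 : ℝ) ≤ (tb b s).card)
  rw [mul_add]
  linarith

end Pool.Agent.H9P
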