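import Pool.Agent.Lib.H9P.W1
import Pool.Agent.Lib.H59.SchinzelUpper

/-!
# ASYP, W3: one exceptional set for all levels of the singular series at once
-/

open Finset Polynomial

namespace Pool.Agent.H9P

open Pool.Agent.HUP
open Pool.Agent.Lib.H59

/-- the polynomials of an admissible system are primitive -/
theorem w3_prim {g : ℕ} {F : Fin g → ℤ[X]} {G : ℤ[X]} {N : ℕ} (hadm : Admissible F G N) (i : Fin g) : (F i).IsPrimitive := by
  intro r hr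
  by_contra hu
  have h1 : r.natAbs ≠ 1 := fun h => hu (Int.isUnit_iff_natAbs_eq.2 h)
  obtain ⟨p, hp, hpr⟩ := Nat.exists_prime_and_dvd h1
  refine hadm.2 p hp fun n => ?_
  have h2 : (p : ℤ) ∣ r := Int.natCast_dvd.2 hpr
  obtain ⟨Q, hQ⟩ := hr
  have h3 : (F i).eval n = r * Q.eval n := by
    rw [hQ, eval_mul, eval_C]
  have h4 : (p : ℤ) ∣ (F i).eval n := by
    rw [h3]
    exact h2.mul_right _
  rw [eval_mul, eval_prod]
  exact Dvd.dvd.mul_right (h4.trans (Finset.dvd_prod_of_mem (fun i => (F i).eval n) (Finset.mem_univ i))) _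

/-- few roots -/
theorem w3_omega {g : ℕ} {F : Fin g → ℤ[X]} {G : ℤ[X]} {N : ℕ} (hG : G.natDegree = 1) (hadm : Admissible F G N) (D : ℕ)
    (hD : ∑ i, (F i).natDegree + 1 ≤ D) {p : ℕ} (hp : p.Prime) : omegaN F G N p ≤ D := by
  refine (omegaN_le_sum F G N hp).trans (le_trans (Nat.add_le_add (sum_le_sum fun i _ => ?_) ?_) hD)
  · exact rootCount_le_natDegree (w3_prim hadm i) hp
  · have h1 : (C (N : ℤ) - G).natDegree = 1 := by rw [natDegree_C_sub', hG]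
    rw [← h1]
    exact rootCount_le_natDegree (hadm.1.isPrimitive (by omega)) hp

/-- the series is positive -/
theorem w3_pos {g : ℕ} {F : Fin g → ℤ[X]} {G : ℤ[X]} {N : ℕ} (hadm : Admissible F G N) (z : ℕ) : 0 < seriesTrunc F G N z := by
  unfold seriesTrunc
  refine Finset.prod_pos fun p hp => ?_
  have hp' := Nat.prime_of_mem_primesBelow hp
  have h1 : (omegaN F G N p : ℝ) < p := by exact_mod_cast omegaN_lt hadm hp'
  have h2 : (1 : ℝ) < p := by exact_mod_cast hp'.one_lt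
  have h3 : (0 : ℝ) < 1 - (omegaN F G N p : ℝ) / p := by
    rw [sub_pos, div_lt_one (by linarith)]
    exact h1
  have h4 : (0 : ℝ) < 1 - 1 / (p : ℝ) := by
    rw [sub_pos, div_lt_one (by linarith)]
    exact h2
  positivity

/-- the series at near levels -/
theorem w3_near {g : ℕ} {F : Fin g → ℤ[X]} {G : ℤ[X]} {N : ℕ} (hG : G.natDegree = 1) (hadm : Admissible F G N) (D : ℕ)
    (hD : ∑ i, (F i).natDegree + 1 ≤ D) (ε : ℝ) (hε : 0 < ε) (hε1 : ε ≤ 1) (z' z : ℕ) (hz : z' ≤ z)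
    (hm : ((D : ℝ) + 2 * (g + 1)) * ((z : ℝ) - z') ≤ ε * z') (hz1 : (D : ℝ) + 2 * (g + 1) ≤ z') :
    |seriesTrunc F G N z - seriesTrunc F G N z'| ≤ ε * seriesTrunc F G N z' := by
  classical
  have hz0 : (0 : ℝ) < z' := by
    have : (0 : ℝ) ≤ (D : ℝ) := Nat.cast_nonneg _
    have : (0 : ℝ) ≤ (g : ℝ) := Nat.cast_nonneg _
    linarith
  set B : Finset ℕ := (Nat.primesBelow z) \ (Nat.primesBelow z') with hB
  have hsub : Nat.primesBelow z' ⊆ Nat.primesBelow z := by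
    intro p hp
    rw [Nat.mem_primesBelow] at hp ⊢
    exact ⟨by omega, hp.2⟩
  set f : ℕ → ℝ := fun p => (1 - (omegaN F G N p : ℝ) / p) * ((1 - 1 / (p : ℝ)) ^ (g + 1))⁻¹ with hf
  have hprod : seriesTrunc F G N z = (∏ p ∈ B, f p) * seriesTrunc F G N z' := by
    unfold seriesTrunc
    rw [hB, Finset.prod_sdiff hsub]
  have hBz : ∀ p ∈ B, z' ≤ p ∧ p < z ∧ p.Prime := by
    intro p hp
    rw [hB, mem_sdiff, Nat.mem_primesBelow, Nat.mem_primesBelow] at hp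
    refine ⟨?_, hp.1.1, hp.1.2⟩
    by_contra hcon
    exact hp.2 ⟨by omega, hp.1.2⟩
  have hcard : (B.card : ℝ) ≤ (z : ℝ) - z' := by
    have h1 : B ⊆ Finset.Ico z' z := by
      intro p hp
      obtain ⟨h1, h2, -⟩ := hBz p hp
      rw [mem_Ico]
      exact ⟨h1, h2⟩
    have h2 := Finset.card_le_card h1
    rw [Nat.card_Ico] at h2
    have h3 : (B.card : ℝ) ≤ ((z - z' : ℕ) : ℝ) := by exact_mod_cast h2
    rwa [Nat.cast_sub hz] at h3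
  have hD0 : (0 : ℝ) ≤ D := Nat.cast_nonneg _
  have hg0 : (0 : ℝ) ≤ g := Nat.cast_nonneg _
  -- bounds of the factors
  have hlow : ∀ p ∈ B, 1 + -((D : ℝ) / z') ≤ f p := by
    intro p hp
    obtain ⟨h1, h2, h3⟩ := hBz p hp
    have hp1 : (1 : ℝ) < p := by exact_mod_cast h3.one_lt
    have hpz : (z' : ℝ) ≤ p := by exact_mod_cast h1
    have h4 : (omegaN F G N p : ℝ) ≤ D := by exact_mod_cast w3_omega hG hadm D hD h3
    have h5 : (omegaN F G N p : ℝ) / p ≤ D / z' := div_le_div₀ hD0 h4 hz0 hpz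
    have h6 : (0 : ℝ) < 1 - 1 / (p : ℝ) := by
      rw [sub_pos, div_lt_one (by linarith)]
      exact hp1
    have h7 : (1 - 1 / (p : ℝ)) ^ (g + 1) ≤ 1 := pow_le_one₀ h6.le (by
      have : (0 : ℝ) ≤ 1 / (p : ℝ) := by positivity
      linarith)
    have h8 : (1 : ℝ) ≤ ((1 - 1 / (p : ℝ)) ^ (g + 1))⁻¹ := (one_le_inv₀ (pow_pos h6 _)).2 h7
    have h9 : (0 : ℝ) ≤ 1 - (omegaN F G N p : ℝ) / p := by
      rw [sub_nonneg, div_le_one (by linarith)]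
      exact_mod_cast (omegaN_lt hadm h3).le
    calc 1 + -((D : ℝ) / z') ≤ (1 - (omegaN F G N p : ℝ) / p) * 1 := by linarith
      _ ≤ f p := mul_le_mul_of_nonneg_left h8 h9
  have hup : ∀ p ∈ B, f p ≤ ((1 + -(1 / (z' : ℝ))) ^ (g + 1))⁻¹ := by
    intro p hp
    obtain ⟨h1, h2, h3⟩ := hBz p hp
    have hp1 : (1 : ℝ) < p := by exact_mod_cast h3.one_lt
    have hpz : (z' : ℝ) ≤ p := by exact_mod_cast h1
    have hz2 : (1 : ℝ) < z' := by linarith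
    have h5 : 1 / (p : ℝ) ≤ 1 / (z' : ℝ) := one_div_le_one_div_of_le hz0 hpz
    have h6 : (0 : ℝ) < 1 + -(1 / (z' : ℝ)) := by
      have : 1 / (z' : ℝ) < 1 := by
        rw [div_lt_one hz0]
        exact hz2
      linarith
    have h7 : (1 + -(1 / (z' : ℝ))) ^ (g + 1) ≤ (1 - 1 / (p : ℝ)) ^ (g + 1) := pow_le_pow_left₀ h6.le (by linarith) _
    have h8 : ((1 - 1 / (p : ℝ)) ^ (g + 1))⁻¹ ≤ ((1 + -(1 / (z' : ℝ))) ^ (g + 1))⁻¹ :=
      inv_anti₀ (pow_pos h6 _) h7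
    have h9 : (1 - (omegaN F G N p : ℝ) / p) ≤ 1 := by
      have : (0 : ℝ) ≤ (omegaN F G N p : ℝ) / p := by positivity
      linarith
    have h10 : (0 : ℝ) ≤ ((1 - 1 / (p : ℝ)) ^ (g + 1))⁻¹ := by
      have : (0 : ℝ) ≤ 1 - 1 / (p : ℝ) := by
        have : 1 / (p : ℝ) ≤ 1 := by
          rw [div_le_one (by linarith)]
          exact hp1.le
        linarith
      positivity
    calc f p ≤ 1 * ((1 - 1 / (p : ℝ)) ^ (g + 1))⁻¹ := mul_le_mul_of_nonneg_right h9 h10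
      _ = ((1 - 1 / (p : ℝ)) ^ (g + 1))⁻¹ := one_mul _
      _ ≤ _ := h8
  obtain ⟨m, hm'⟩ : ∃ m : ℕ, m = B.card := ⟨_, rfl⟩
  have hmz : ((D : ℝ) + 2 * (g + 1)) * m ≤ ε * z' := by
    rw [hm']
    refine le_trans (mul_le_mul_of_nonneg_left hcard (by positivity)) hm
  have hDz : (D : ℝ) / z' ≤ 1 := by
    rw [div_le_one hz0]
    linarith
  have hT1 : 1 - ε ≤ ∏ p ∈ B, f p := by
    have h1 : (1 + -((D : ℝ) / z')) ^ m ≤ ∏ p ∈ B, f p := by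
      rw [hm', ← Finset.prod_const]
      exact Finset.prod_le_prod (fun p _ => by linarith) hlow
    have h2 := one_add_mul_le_pow (show (-2 : ℝ) ≤ -((D : ℝ) / z') by linarith) m
    have h3 : (m : ℝ) * ((D : ℝ) / z') ≤ ε := by
      rw [mul_div_assoc', div_le_iff₀ hz0]
      have : 0 ≤ (2 * ((g : ℝ) + 1)) * m := by positivity
      linarith
    have h4 : (1 : ℝ) + m * -((D : ℝ) / z') = 1 - m * ((D : ℝ) / z') := by ring
    rw [h4] at h2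
    linarith
  have hT2 : ∏ p ∈ B, f p ≤ 1 + ε := by
    have hz2 : (1 : ℝ) < z' := by linarith
    have hiz : 1 / (z' : ℝ) < 1 := by
      rw [div_lt_one hz0]
      exact hz2
    have h1 : ∏ p ∈ B, f p ≤ (((1 + -(1 / (z' : ℝ))) ^ (g + 1))⁻¹) ^ m := by
      rw [hm', ← Finset.prod_const]
      refine Finset.prod_le_prod (fun p hp => ?_) hup
      have := hlow p hp
      linarith
    have h2 : (((1 + -(1 / (z' : ℝ))) ^ (g + 1))⁻¹) ^ m = ((1 + -(1 / (z' : ℝ))) ^ ((g + 1) * m))⁻¹ := by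
      rw [inv_pow, ← pow_mul]
    have h3 := one_add_mul_le_pow (show (-2 : ℝ) ≤ -(1 / (z' : ℝ)) by linarith) ((g + 1) * m)
    have h4 : (((g + 1) * m : ℕ) : ℝ) * (1 / (z' : ℝ)) ≤ ε / 2 := by
      rw [mul_one_div, div_le_iff₀ hz0]
      push_cast
      have : 0 ≤ (D : ℝ) * m := by positivity
      nlinarith
    have h5 : (1 : ℝ) + (((g + 1) * m : ℕ) : ℝ) * -(1 / (z' : ℝ)) = 1 - (((g + 1) * m : ℕ) : ℝ) * (1 / (z' : ℝ)) := by ring
    rw [h5] at h3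
    have h6 : 1 - ε / 2 ≤ (1 + -(1 / (z' : ℝ))) ^ ((g + 1) * m) := by linarith
    have h7 : (0 : ℝ) < 1 - ε / 2 := by linarith
    rw [h2] at h1
    refine h1.trans ((inv_anti₀ h7 h6).trans ?_)
    rw [inv_le_iff_one_le_mul₀ h7]
    nlinarith
  have hS := w3_pos hadm z'
  rw [hprod]
  have e1 : (∏ p ∈ B, f p) * seriesTrunc F G N z' - seriesTrunc F G N z' =
      ((∏ p ∈ B, f p) - 1) * seriesTrunc F G N z' := by ring
  rw [e1, abs_mul, abs_of_pos hS]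
  refine mul_le_mul_of_nonneg_right ?_ hS.le
  rw [abs_le]
  constructor <;> linarith

/-- the last step of `W3_unif` -/
theorem w3_fin (q u v ε ε' : ℝ) (hu : 0 ≤ u) (hε : 0 < ε) (h1 : ε' ≤ 1 / 4) (h2 : ε' ≤ ε / 4)
    (c1 : -(ε' * u) ≤ q - u) (c2 : q - u ≤ ε' * u) (k1 : v - u ≤ ε' * u) (k2 : -(ε' * u) ≤ v - u)
    (t : ε * v < |q - v|) : False := by
  have h3 : ε' * u ≤ 1 / 4 * u := mul_le_mul_of_nonneg_right h1 hu
  have h4 : ε' * u ≤ ε / 4 * u := mul_le_mul_of_nonneg_right h2 hu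
  have h5 : 3 / 4 * u ≤ v := by linarith
  have h6 : ε * (3 / 4 * u) ≤ ε * v := mul_le_mul_of_nonneg_left h5 hε.le
  have h7 : 0 ≤ ε * u := mul_nonneg hε.le hu
  refine absurd t (not_lt.2 (abs_le.2 ⟨?_, ?_⟩))
  · linarith
  · linarith

/-- the grid `⌊β^j⌋` -/
theorem w3_grid (β δ δ1 η : ℝ) (hβ : 1 < β) (hβ2 : β ≤ 2) (hδ : 0 < δ) (hδ1 : 0 < δ1) (hη : 0 < η) :
    ∃ Z0 : ℕ, 1 ≤ Z0 ∧ ∀ Z : ℕ, Z0 ≤ Z → ∃ J : ℕ, ((J : ℝ) ≤ (Z : ℝ) ^ η) ∧
      ∀ z : ℕ, (Z : ℝ) ^ δ ≤ z → (z : ℝ) ≤ (Z : ℝ) ^ δ1 → ∃ j < J, ⌊β ^ j⌋₊ ≤ z ∧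
        (Z : ℝ) ^ (δ / 2) ≤ ⌊β ^ j⌋₊ ∧ ((⌊β ^ j⌋₊ : ℕ) : ℝ) ≤ (Z : ℝ) ^ δ1 ∧ (z : ℝ) ≤ β * ⌊β ^ j⌋₊ + 2 := by
  have hlβ : 0 < Real.log β := Real.log_pos hβ
  have ht1 : Filter.Tendsto (fun N : ℕ => (N : ℝ) ^ (δ / 2)) Filter.atTop Filter.atTop :=
    (tendsto_rpow_atTop (by linarith)).comp tendsto_natCast_atTop_atTop
  have ht2 : Filter.Tendsto (fun N : ℕ => (N : ℝ) ^ η) Filter.atTop Filter.atTop :=
    (tendsto_rpow_atTop hη).comp tendsto_natCast_atTop_atTop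
  have ho : ∀ᶠ N : ℕ in Filter.atTop, Real.log N ≤ (Real.log β / (4 * δ1)) * (N : ℝ) ^ η := by
    have h1 := (isLittleO_log_rpow_atTop hη).bound (show (0 : ℝ) < Real.log β / (4 * δ1) by positivity)
    have h2 := tendsto_natCast_atTop_atTop.eventually (h1.and (Filter.eventually_ge_atTop (1 : ℝ)))
    filter_upwards [h2] with N hN
    obtain ⟨h3, h4⟩ := hN
    rw [Real.norm_eq_abs, Real.norm_eq_abs, abs_of_nonneg (Real.log_nonneg h4), abs_of_nonneg (by positivity)] at h3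
    exact h3
  obtain ⟨Z0, hZ0⟩ := Filter.eventually_atTop.1 (((ht1.eventually_ge_atTop (4 : ℝ)).and (ht2.eventually_ge_atTop (4 : ℝ))).and ho)
  refine ⟨Z0 + 1, by omega, fun Z hZ => ?_⟩
  obtain ⟨⟨a1, a2⟩, a3⟩ := hZ0 Z (by omega)
  have hZr : (1 : ℝ) ≤ Z := by exact_mod_cast (by omega : 1 ≤ Z)
  have hlZ : 0 ≤ Real.log Z := Real.log_nonneg hZr
  refine ⟨⌊δ1 * Real.log Z / Real.log β⌋₊ + 1, ?_, fun z hz1 hz2 => ?_⟩
  · push_cast
    have h1 : ((⌊δ1 * Real.log Z / Real.log β⌋₊ : ℕ) : ℝ) ≤ δ1 * Real.log Z / Real.log β := Nat.floor_le (by positivity)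
    have h2 : δ1 * Real.log Z / Real.log β ≤ (Z : ℝ) ^ η / 4 := by
      rw [div_le_iff₀ hlβ]
      have h3 := mul_le_mul_of_nonneg_left a3 hδ1.le
      have h4 : δ1 * (Real.log β / (4 * δ1) * (Z : ℝ) ^ η) = (Z : ℝ) ^ η / 4 * Real.log β := by
        field_simp
      rwa [h4] at h3
    linarith
  · have e1 : (Z : ℝ) ^ δ = (Z : ℝ) ^ (δ / 2) * (Z : ℝ) ^ (δ / 2) := by
      rw [← Real.rpow_add (by linarith)]
      congr 1
      ring
    have hz3 : (1 : ℝ) ≤ z := by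
      have : (1 : ℝ) ≤ (Z : ℝ) ^ (δ / 2) * (Z : ℝ) ^ (δ / 2) := by nlinarith
      linarith
    obtain ⟨j, hj1, hj2⟩ := exists_nat_pow_near hz3 hβ
    have hp1 : (1 : ℝ) ≤ β ^ j := one_le_pow₀ hβ.le
    have hfl : ((⌊β ^ j⌋₊ : ℕ) : ℝ) ≤ β ^ j := Nat.floor_le (by linarith)
    have hfl2 : β ^ j < (⌊β ^ j⌋₊ : ℕ) + 1 := Nat.lt_floor_add_one _
    have hup : (z : ℝ) ≤ β * ⌊β ^ j⌋₊ + 2 := by
      have h1 : β ^ (j + 1) = β * β ^ j := by rw [pow_succ, mul_comm]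
      rw [h1] at hj2
      nlinarith
    refine ⟨j, ?_, ?_, ?_, ?_, hup⟩
    · rw [Nat.lt_succ_iff]
      refine Nat.le_floor ?_
      rw [le_div_iff₀ hlβ]
      have h1 : β ^ j ≤ (Z : ℝ) ^ δ1 := hj1.trans hz2
      have h2 := Real.log_le_log (by linarith) h1
      rw [Real.log_pow, Real.log_rpow (by linarith)] at h2
      exact h2
    · exact_mod_cast hfl.trans hj1
    · rw [e1] at hz1
      nlinarith
    · exact hfl.trans (hj1.trans hz2)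

open Classical in
/-- **W3.** Arbitrarily large scales, power-saving exceptional set, all levels of the series at once. -/
theorem W3_unif {g d : ℕ} (G : ℤ[X]) (hG : G.natDegree = 1) (hG0 : 0 < G.leadingCoeff) (P : Fin g → ℤ[X])
    (D : Fin g → ℕ) (a : Fin g → ℤ) (hP : HasD D a P) (c : Fin g → Fin d → ℤ) (e : Fin d → ℕ)
    (hB : ∀ i j, c i j ≠ 0 → e j = D i) (hA : ACoreP c e D P) :
    ∃ δ1 : ℝ, 0 < δ1 ∧ ∀ (A : ℕ) (ε δ : ℝ), 0 < ε → 0 < δ → ∃ η : ℝ, 0 < η ∧ ∀ M0 : ℕ, ∃ M : ℕ, M0 ≤ M ∧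
      ∀ N : ℕ, M ≤ N → N ≤ M ^ A → ∀ b : Fin g → ℤ, (∀ i, |b i| ≤ A * (argCount G N : ℤ) ^ D i) →
      (((BoxT A (argCount G N) e).filter fun t => (∀ i, 0 ≤ b i + lf c t i) ∧
        ∃ z : ℕ, (argCount G N : ℝ) ^ δ ≤ z ∧ (z : ℝ) ≤ (argCount G N : ℝ) ^ δ1 ∧ FailsP ε (famP P c b t) G N z).card : ℝ) ≤
        (argCount G N : ℝ) ^ ((∑ j, (e j : ℝ)) - η) := by
  obtain ⟨δ1, hδ1, hW⟩ := W1_pow G hG hG0 P D a hP c e hB hA
  refine ⟨δ1, hδ1, fun A ε δ hε hδ => ?_⟩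
  obtain ⟨ε', hε'⟩ : ∃ ε' : ℝ, ε' = min ε 1 / 4 := ⟨_, rfl⟩
  have hε0 : 0 < ε' := by
    rw [hε']
    have := lt_min hε one_pos
    linarith
  have hε1 : ε' ≤ 1 / 4 := by
    rw [hε']
    have := min_le_right ε 1
    linarith
  have hε2 : ε' ≤ ε / 4 := by
    rw [hε']
    have := min_le_left ε 1
    linarith
  obtain ⟨η, hη, hη'⟩ := hW A ε' (δ / 2) hε0 (by linarith)
  obtain ⟨DD, hDD⟩ : ∃ DD : ℕ, DD = ∑ i, (P i).natDegree + 1 := ⟨_, rfl⟩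
  obtain ⟨E, hE⟩ : ∃ E : ℝ, E = (DD : ℝ) + 2 * (g + 1) := ⟨_, rfl⟩
  have hE1 : 1 ≤ E := by
    rw [hE]
    have h1 : (0 : ℝ) ≤ DD := Nat.cast_nonneg _
    have h2 : (0 : ℝ) ≤ g := Nat.cast_nonneg _
    linarith
  obtain ⟨κ, hκ⟩ : ∃ κ : ℝ, κ = ε' / (2 * E) := ⟨_, rfl⟩
  have hκ0 : 0 < κ := by
    rw [hκ]
    positivity
  have hκ1 : κ ≤ 1 := by
    rw [hκ, div_le_one (by positivity)]
    linarith
  have hEκ : E * κ = ε' / 2 := by
    rw [hκ]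
    field_simp
  obtain ⟨Z0, hZ01, hgrid⟩ := w3_grid (1 + κ) δ δ1 (η / 2) (by linarith) (by linarith) hδ hδ1 (by linarith)
  obtain ⟨Z1, hZ1⟩ := Filter.eventually_atTop.1
    (((tendsto_rpow_atTop (show (0 : ℝ) < δ / 2 by linarith)).comp tendsto_natCast_atTop_atTop).eventually_ge_atTop
      (E + 4 * E / ε'))
  obtain ⟨γ, hγ⟩ : ∃ γ : ℕ, γ = G.leadingCoeff.natAbs := ⟨_, rfl⟩
  have hγ1 : 1 ≤ γ := by omega
  obtain ⟨N0, hN0⟩ := U17_dec G hG hG0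
  obtain ⟨N1, hN1⟩ := u17_large γ hγ1 (G.coeff 0 : ℝ) 1 1 1 1 one_pos one_pos one_pos
  refine ⟨η / 2, by linarith, fun M0 => ?_⟩
  obtain ⟨M, hM, hM'⟩ := hη' (M0 + N0 + N1 + 2 * γ * (Z0 + Z1) + 1)
  refine ⟨M, by omega, fun N hNl hNu b hb => ?_⟩
  obtain ⟨q1, q2, q3⟩ := hN0 N (by omega)
  rw [← hγ] at q3
  obtain ⟨p1, p2, -, -, -⟩ := hN1 N (argCount G N) 0 (by omega) q3
  have hmain := hM' N hNl hNu b hb
  obtain ⟨Z, hZ⟩ : ∃ Z : ℕ, Z = argCount G N := ⟨_, rfl⟩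
  rw [← hZ] at hmain p1 p2 ⊢
  have hNZ : N ≤ 2 * γ * Z := by exact_mod_cast p1
  have hZZ : Z0 + Z1 ≤ Z := by
    have h1 : 2 * γ * (Z0 + Z1) ≤ 2 * γ * Z := by omega
    exact Nat.le_of_mul_le_mul_left h1 (by omega)
  have hZr : (1 : ℝ) ≤ Z := by exact_mod_cast (by omega : 1 ≤ Z)
  obtain ⟨J, hJ, hJ'⟩ := hgrid Z (by omega)
  have hbig : E + 4 * E / ε' ≤ (Z : ℝ) ^ (δ / 2) := hZ1 Z (by omega)
  -- the sets of the grid points
  set S : ℕ → Finset (Fin d → ℤ) := fun j =>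
    if (Z : ℝ) ^ (δ / 2) ≤ ⌊(1 + κ) ^ j⌋₊ ∧ ((⌊(1 + κ) ^ j⌋₊ : ℕ) : ℝ) ≤ (Z : ℝ) ^ δ1 then
      (BoxT A Z e).filter (fun t => (∀ i, 0 ≤ b i + lf c t i) ∧ FailsP ε' (famP P c b t) G N ⌊(1 + κ) ^ j⌋₊) else ∅ with hS
  have hScard : ∀ j, ((S j).card : ℝ) ≤ (Z : ℝ) ^ ((∑ j, (e j : ℝ)) - η) := by
    intro j
    rw [hS]
    simp only
    split_ifs with h1
    · exact hmain _ h1.1 h1.2
    · rw [card_empty, Nat.cast_zero]
      positivity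
  have hsub : ((BoxT A Z e).filter fun t => (∀ i, 0 ≤ b i + lf c t i) ∧
        ∃ z : ℕ, (Z : ℝ) ^ δ ≤ z ∧ (z : ℝ) ≤ (Z : ℝ) ^ δ1 ∧ FailsP ε (famP P c b t) G N z) ⊆ (range J).biUnion S := by
    intro t ht
    rw [mem_filter] at ht
    obtain ⟨t1, t2, z, z1, z2, hadm, t3⟩ := ht
    obtain ⟨j, hj, j1, j2, j3, j4⟩ := hJ' z z1 z2
    rw [mem_biUnion]
    refine ⟨j, mem_range.2 hj, ?_⟩
    rw [hS]
    simp only
    rw [if_pos ⟨j2, j3⟩, mem_filter]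
    refine ⟨t1, t2, hadm, ?_⟩
    by_contra hcon
    rw [not_lt] at hcon
    obtain ⟨z', hz'⟩ : ∃ z' : ℕ, z' = ⌊(1 + κ) ^ j⌋₊ := ⟨_, rfl⟩
    rw [← hz'] at j1 j2 j3 j4 hcon
    have hz'0 : E + 4 * E / ε' ≤ z' := hbig.trans j2
    have h4 : 0 < 4 * E / ε' := by positivity
    have hdeg : ∑ i, (famP P c b t i).natDegree + 1 ≤ DD := by
      rw [hDD]
      refine Nat.add_le_add_right (sum_le_sum fun i _ => ?_) _
      unfold famP
      rw [natDegree_add_C]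
    have hnear := w3_near hG hadm DD hdeg ε' hε0 (by linarith) z' z j1
      (by
        rw [← hE]
        have h5 : (z : ℝ) - z' ≤ κ * z' + 2 := by linarith
        have h6 : E * ((z : ℝ) - z') ≤ E * (κ * z' + 2) := mul_le_mul_of_nonneg_left h5 (by linarith)
        have h7 : E * (κ * z' + 2) = ε' / 2 * z' + 2 * E := by
          rw [← hEκ]
          ring
        have h8 : 2 * E ≤ ε' / 2 * z' := by
          have h9 : 4 * E / ε' ≤ z' := by linarith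
          rw [div_le_iff₀ hε0] at h9
          linarith
        linarith)
      (by
        rw [← hE]
        linarith)
    obtain ⟨K0, hK0⟩ : ∃ K0 : ℝ, K0 = (argCount G N : ℝ) / Real.log (argCount G N) ^ (g + 1) *
      ((G.natDegree : ℝ) * ∏ i, ((famP P c b t i).natDegree : ℝ))⁻¹ := ⟨_, rfl⟩
    have hK0' : 0 ≤ K0 := by
      rw [hK0, ← hZ]
      have h5 : 0 ≤ Real.log Z := Real.log_nonneg hZr
      positivity
    have m1 : ∀ y, mainTermP (famP P c b t) G N y = K0 * seriesTrunc (famP P c b t) G N y := by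
      intro y
      rw [hK0]
      rfl
    rw [m1] at hcon t3
    have hS' := w3_pos hadm z'
    have hSz := w3_pos hadm z
    obtain ⟨s', hs'⟩ : ∃ s' : ℝ, s' = seriesTrunc (famP P c b t) G N z' := ⟨_, rfl⟩
    obtain ⟨s, hs⟩ : ∃ s : ℝ, s = seriesTrunc (famP P c b t) G N z := ⟨_, rfl⟩
    rw [← hs'] at hnear hcon hS'
    rw [← hs] at hnear t3 hSz
    obtain ⟨n1, n2⟩ := abs_le.1 hnear
    obtain ⟨c1, c2⟩ := abs_le.1 hcon
    have k0 : 0 ≤ K0 * s' := mul_nonneg hK0' hS'.le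
    have k1 : K0 * (s - s') ≤ K0 * (ε' * s') := mul_le_mul_of_nonneg_left n2 hK0'
    have k2 : K0 * (-(ε' * s')) ≤ K0 * (s - s') := mul_le_mul_of_nonneg_left n1 hK0'
    have k1' : K0 * s - K0 * s' ≤ ε' * (K0 * s') := by
      rw [mul_sub] at k1
      have : K0 * (ε' * s') = ε' * (K0 * s') := by ring
      linarith
    have k2' : -(ε' * (K0 * s')) ≤ K0 * s - K0 * s' := by
      rw [mul_sub] at k2
      have : K0 * (-(ε' * s')) = -(ε' * (K0 * s')) := by ring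
      linarith
    clear_value S
    exact w3_fin _ (K0 * s') (K0 * s) ε ε' k0 hε hε1 hε2 c1 c2 k1' k2' t3
  calc ((((BoxT A Z e).filter fun t => (∀ i, 0 ≤ b i + lf c t i) ∧
        ∃ z : ℕ, (Z : ℝ) ^ δ ≤ z ∧ (z : ℝ) ≤ (Z : ℝ) ^ δ1 ∧ FailsP ε (famP P c b t) G N z).card : ℕ) : ℝ)
      ≤ (((range J).biUnion S).card : ℝ) := by exact_mod_cast card_le_card hsub
    _ ≤ ∑ j ∈ range J, ((S j).card : ℝ) := by exact_mod_cast card_biUnion_le
    _ ≤ ∑ j ∈ range J, (Z : ℝ) ^ ((∑ j, (e j : ℝ)) - η) := sum_le_sum fun j _ => hScard j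
    _ = J * (Z : ℝ) ^ ((∑ j, (e j : ℝ)) - η) := by rw [sum_const, card_range, nsmul_eq_mul]
    _ ≤ (Z : ℝ) ^ (η / 2) * (Z : ℝ) ^ ((∑ j, (e j : ℝ)) - η) := mul_le_mul_of_nonneg_right hJ (by positivity)
    _ = (Z : ℝ) ^ ((∑ j, (e j : ℝ)) - η / 2) := by
        rw [← Real.rpow_add (by linarith)]
        congr 1
        ring

end Pool.Agent.H9P
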